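import Pool.Agent.H26.SP.PW
import Pool.Agent.H26.LA3
import Pool.Agent.H26.ZetaGrowth
import Pool.Agent.H26.GammaBound

/-! Frequencies above one of the zeta function. -/

namespace Pool.Agent.H26

open Complex Finset MeasureTheory Filter Asymptotics Topology
open scoped ContDiff SchwartzMap

variable {k : ℕ}

namespace ZHI

open PW

lemma norm_Gamma_up (n : ℕ) : ∀ x : ℝ, 1 / 2 ≤ x → x ≤ 3 / 2 + n → ∀ y : ℝ, 2 ≤ |y| →
    ‖Gamma (x + y * I)‖ ≤ 32 * (3 / 2 + n + |y|) ^ (n + 1) * Real.exp (-(Real.pi * |y| / 2)) := by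
  induction n with
  | zero =>
    intro x h0 h1 y hy
    have h := norm_Gamma_mid h0 (by simpa using h1) hy
    refine h.trans ?_
    have h2 : |y| ^ (x - 1 / 2) ≤ |y| := by
      calc |y| ^ (x - 1 / 2) ≤ |y| ^ (1 : ℝ) :=
            Real.rpow_le_rpow_of_exponent_le (by linarith) (by
              have : x ≤ 3 / 2 := by simpa using h1
              linarith)
        _ = |y| := Real.rpow_one _
    apply mul_le_mul_of_nonneg_right _ (Real.exp_pos _).le
    apply mul_le_mul_of_nonneg_left _ (by norm_num)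
    simp only [Nat.cast_zero, zero_add, pow_one]
    linarith
  | succ n ih =>
    intro x h0 h1 y hy
    push_cast at h1 ⊢
    have hn : (0 : ℝ) ≤ n := Nat.cast_nonneg n
    rcases le_total x (3 / 2 + n) with h2 | h2
    · refine (ih x h0 h2 y hy).trans ?_
      apply mul_le_mul_of_nonneg_right _ (Real.exp_pos _).le
      apply mul_le_mul_of_nonneg_left _ (by norm_num)
      calc (3 / 2 + (n : ℝ) + |y|) ^ (n + 1) ≤ (3 / 2 + ((n : ℝ) + 1) + |y|) ^ (n + 1) :=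
            pow_le_pow_left₀ (by positivity) (by linarith) _
        _ ≤ (3 / 2 + ((n : ℝ) + 1) + |y|) ^ (n + 1 + 1) :=
            pow_le_pow_right₀ (by linarith) (by omega)
    · have hne : (((x - 1 : ℝ) : ℂ) + y * I) ≠ 0 := by
        intro h
        have h3 := congrArg Complex.im h
        simp at h3
        rw [h3] at hy
        norm_num at hy
      have h3 := ih (x - 1) (by linarith) (by linarith) y hy
      have e : (x + y * I : ℂ) = (((x - 1 : ℝ) : ℂ) + y * I) + 1 := by push_cast; ring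
      rw [e, Complex.Gamma_add_one _ hne, norm_mul]
      have h4 : ‖(((x - 1 : ℝ) : ℂ) + y * I)‖ ≤ 3 / 2 + ((n : ℝ) + 1) + |y| := by
        refine (norm_add_le _ _).trans ?_
        rw [Complex.norm_real, norm_mul, Complex.norm_I, mul_one, Complex.norm_real,
          Real.norm_eq_abs, Real.norm_eq_abs, abs_of_nonneg (by linarith)]
        linarith
      calc ‖(((x - 1 : ℝ) : ℂ) + y * I)‖ * ‖Gamma (((x - 1 : ℝ) : ℂ) + y * I)‖
          ≤ (3 / 2 + ((n : ℝ) + 1) + |y|) *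
            (32 * (3 / 2 + n + |y|) ^ (n + 1) * Real.exp (-(Real.pi * |y| / 2))) :=
            mul_le_mul h4 h3 (norm_nonneg _) (by positivity)
        _ ≤ (3 / 2 + ((n : ℝ) + 1) + |y|) *
            (32 * (3 / 2 + ((n : ℝ) + 1) + |y|) ^ (n + 1) * Real.exp (-(Real.pi * |y| / 2))) := by
            gcongr
            linarith
        _ = _ := by ring

lemma norm_cos_le (z : ℂ) : ‖Complex.cos z‖ ≤ Real.exp |z.im| := by
  have h1 : ‖cexp (z * I)‖ ≤ Real.exp |z.im| := by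
    rw [Complex.norm_exp]
    apply Real.exp_le_exp.mpr
    have : (z * I).re = -z.im := by simp
    rw [this]
    exact neg_le_abs _
  have h2 : ‖cexp (-z * I)‖ ≤ Real.exp |z.im| := by
    rw [Complex.norm_exp]
    apply Real.exp_le_exp.mpr
    have : (-z * I).re = z.im := by simp
    rw [this]
    exact le_abs_self _
  rw [Complex.cos, norm_div]
  have h3 := norm_add_le (cexp (z * I)) (cexp (-z * I))
  have h4 : ‖(2 : ℂ)‖ = 2 := by norm_num
  rw [h4, div_le_iff₀ (by norm_num)]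
  linarith

/-- growth of zeta to the left of the critical line, away from the real axis -/
lemma norm_zeta_left_far (m : ℕ) {s : ℂ} (h0 : 1 / 2 - m ≤ s.re) (h1 : s.re ≤ 1 / 2)
    (h2 : 2 ≤ |s.im|) :
    ‖riemannZeta s‖ ≤ 64 * (3 / 2 + m) ^ (m + 1) * (5 / 2 + 2 * m) * (1 + |s.im|) ^ (m + 2) := by
  have hm : (0 : ℝ) ≤ m := Nat.cast_nonneg m
  set z : ℂ := 1 - s with hz
  have hzre : z.re = 1 - s.re := by simp [hz]
  have hzim : z.im = -s.im := by simp [hz]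
  have hzim' : |z.im| = |s.im| := by rw [hzim, abs_neg]
  have him0 : z.im ≠ 0 := by
    intro h
    rw [hzim, neg_eq_zero] at h
    rw [h] at h2
    norm_num at h2
  have hzn : ∀ n : ℕ, z ≠ -n := by
    intro n h
    apply him0
    rw [h]
    simp
  have hz1 : z ≠ 1 := by
    intro h
    apply him0
    rw [h]
    simp
  have hs : s = 1 - z := by rw [hz]; ring
  rw [hs, riemannZeta_one_sub hzn hz1, norm_mul, norm_mul, norm_mul, norm_mul]
  have e0 : (1 - z).im = s.im := by rw [← hs]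
  rw [e0]
  have a1 : ‖(2 : ℂ)‖ = 2 := by norm_num
  have a2 : ‖(2 * (Real.pi : ℂ)) ^ (-z)‖ ≤ 1 := by
    have e1 : (2 * (Real.pi : ℂ)) = ((2 * Real.pi : ℝ) : ℂ) := by push_cast; ring
    rw [e1, Complex.norm_cpow_eq_rpow_re_of_pos (by positivity)]
    apply Real.rpow_le_one_of_one_le_of_nonpos
    · linarith [Real.pi_gt_three]
    · rw [Complex.neg_re, hzre]; linarith
  have a3 : ‖Gamma z‖ ≤ 32 * (3 / 2 + m + |s.im|) ^ (m + 1) * Real.exp (-(Real.pi * |s.im| / 2)) := by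
    have h := norm_Gamma_up m z.re (by rw [hzre]; linarith) (by rw [hzre]; linarith) z.im
      (by rw [hzim']; exact h2)
    rw [Complex.re_add_im, hzim'] at h
    exact h
  have a4 : ‖Complex.cos (Real.pi * z / 2)‖ ≤ Real.exp (Real.pi * |s.im| / 2) := by
    refine (norm_cos_le _).trans ?_
    apply Real.exp_le_exp.mpr
    have e1 : (Real.pi * z / 2 : ℂ).im = Real.pi * z.im / 2 := by
      have : (Real.pi * z / 2 : ℂ) = ((Real.pi / 2 : ℝ) : ℂ) * z := by push_cast; ring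
      rw [this, Complex.im_ofReal_mul]
      ring
    rw [e1, abs_div, abs_mul, abs_of_pos Real.pi_pos, hzim']
    simp
  have hzlow : 2 ≤ ‖z - 1‖ := by
    have h := Complex.abs_im_le_norm (z - 1)
    have e1 : (z - 1).im = z.im := by simp
    rw [e1, hzim'] at h
    linarith
  have a5 : ‖riemannZeta z‖ ≤ (5 / 2 + 2 * m) * (1 + |s.im|) := by
    have h := norm_riemannZeta_le (s := z) (by rw [hzre]; linarith) hz1
    have b1 : ‖z - 1‖⁻¹ ≤ 1 / 2 := by
      rw [inv_le_comm₀ (by linarith) (by norm_num)]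
      norm_num
      exact hzlow
    have b2 : ‖z‖ ≤ z.re + |s.im| := by
      have := Complex.norm_le_abs_re_add_abs_im z
      rwa [hzim', abs_of_nonneg (by rw [hzre]; linarith)] at this
    have b3 : ‖z‖ / z.re ≤ 1 + 2 * |s.im| := by
      have hp : 0 < z.re := by rw [hzre]; linarith
      rw [div_le_iff₀ hp]
      have : |s.im| ≤ 2 * |s.im| * z.re := by
        rw [hzre]
        nlinarith [abs_nonneg s.im]
      nlinarith
    nlinarith [abs_nonneg s.im, mul_nonneg hm (abs_nonneg s.im)]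
  have hexp : Real.exp (-(Real.pi * |s.im| / 2)) * Real.exp (Real.pi * |s.im| / 2) = 1 := by
    rw [← Real.exp_add]
    simp
  have ht : 0 ≤ |s.im| := abs_nonneg _
  have a6 : (3 / 2 + m + |s.im|) ^ (m + 1) ≤ (3 / 2 + m) ^ (m + 1) * (1 + |s.im|) ^ (m + 1) := by
    rw [← mul_pow]
    apply pow_le_pow_left₀ (by positivity)
    nlinarith [mul_nonneg hm ht]
  calc ‖(2 : ℂ)‖ * ‖(2 * (Real.pi : ℂ)) ^ (-z)‖ * ‖Gamma z‖ * ‖Complex.cos (Real.pi * z / 2)‖ *
        ‖riemannZeta z‖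
      ≤ 2 * 1 * (32 * (3 / 2 + m + |s.im|) ^ (m + 1) * Real.exp (-(Real.pi * |s.im| / 2))) *
        Real.exp (Real.pi * |s.im| / 2) * ((5 / 2 + 2 * m) * (1 + |s.im|)) := by
        rw [a1]
        gcongr
    _ = 64 * (3 / 2 + m + |s.im|) ^ (m + 1) * ((5 / 2 + 2 * m) * (1 + |s.im|)) *
        (Real.exp (-(Real.pi * |s.im| / 2)) * Real.exp (Real.pi * |s.im| / 2)) := by ring
    _ = 64 * (3 / 2 + m + |s.im|) ^ (m + 1) * ((5 / 2 + 2 * m) * (1 + |s.im|)) := by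
        rw [hexp, mul_one]
    _ ≤ 64 * ((3 / 2 + m) ^ (m + 1) * (1 + |s.im|) ^ (m + 1)) *
        ((5 / 2 + 2 * m) * (1 + |s.im|)) := by gcongr
    _ = _ := by ring

/-- growth of zeta to the left of the critical line -/
lemma exists_norm_zeta_left (m : ℕ) : ∃ C : ℝ, 0 ≤ C ∧ ∀ s : ℂ, 1 / 2 - m ≤ s.re → s.re ≤ 1 / 2 →
    ‖riemannZeta s‖ ≤ C * (1 + |s.im|) ^ (m + 2) := by
  have hcomp : IsCompact (Set.Icc (1 / 2 - m : ℝ) (1 / 2) ×ℂ Set.Icc (-2 : ℝ) 2) :=
    isCompact_Icc.reProdIm isCompact_Icc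
  have hcont : ContinuousOn riemannZeta (Set.Icc (1 / 2 - m : ℝ) (1 / 2) ×ℂ Set.Icc (-2 : ℝ) 2) := by
    intro s hs
    refine (differentiableAt_riemannZeta ?_).continuousAt.continuousWithinAt
    rintro rfl
    have h := hs.1.2
    norm_num at h
  obtain ⟨C₁, hC₁⟩ := hcomp.exists_bound_of_continuousOn hcont
  refine ⟨|C₁| + 64 * (3 / 2 + m) ^ (m + 1) * (5 / 2 + 2 * m), by positivity, fun s h0 h1 => ?_⟩
  have hp : 1 ≤ (1 + |s.im|) ^ (m + 2) := one_le_pow₀ (by linarith [abs_nonneg s.im])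
  have hq : (0 : ℝ) ≤ 64 * (3 / 2 + m) ^ (m + 1) * (5 / 2 + 2 * m) := by positivity
  rw [add_mul]
  rcases le_total 2 |s.im| with h2 | h2
  · have h := norm_zeta_left_far m h0 h1 h2
    have : 0 ≤ |C₁| * (1 + |s.im|) ^ (m + 2) := by positivity
    linarith
  · have h := hC₁ s ⟨⟨h0, h1⟩, abs_le.1 h2⟩
    have h3 := le_abs_self C₁
    have h4 : |C₁| ≤ |C₁| * (1 + |s.im|) ^ (m + 2) := le_mul_of_one_le_right (abs_nonneg _) hp
    have h5 : 0 ≤ 64 * (3 / 2 + (m : ℝ)) ^ (m + 1) * (5 / 2 + 2 * m) * (1 + |s.im|) ^ (m + 2) := by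
      positivity
    linarith

lemma arg_re (τ Λ : ℝ) (z : ℂ) : (1 / 2 + I * (τ + z / Λ) : ℂ).re = 1 / 2 - z.im / Λ := by
  have h : (z / (Λ : ℂ)).im = z.im / Λ := Complex.div_ofReal_im z Λ
  simp [Complex.mul_re, h]
  ring

lemma arg_im (τ Λ : ℝ) (z : ℂ) : (1 / 2 + I * (τ + z / Λ) : ℂ).im = τ + z.re / Λ := by
  have h : (z / (Λ : ℂ)).re = z.re / Λ := Complex.div_ofReal_re z Λ
  simp [Complex.mul_im, h]

/-- pointwise bound of the integrand in the upper half plane -/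
lemma integrand_le {b : ℝ → ℂ} {p C D : ℝ} {m : ℕ} (hD0 : 0 ≤ D)
    (hC : ∀ z : ℂ, 0 ≤ z.im → (1 + ‖z‖) ^ (m + 4) * ‖pwf b z‖ ≤ C * Real.exp (-(p * z.im)))
    (hD : ∀ s : ℂ, 1 / 2 - m ≤ s.re → s.re ≤ 1 / 2 →
      ‖riemannZeta s‖ ≤ D * (1 + |s.im|) ^ (m + 2))
    {τ Λ : ℝ} (hΛ : 1 ≤ Λ) {z : ℂ} (hz : 0 ≤ z.im) (hz2 : z.im ≤ m * Λ) :
    ‖pwf b z * riemannZeta (1 / 2 + I * (τ + z / Λ))‖ ≤
      (C * D * (1 + |τ|) ^ (m + 2) * Real.exp (-(p * z.im))) * (1 + z.re ^ 2)⁻¹ := by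
  have hΛ0 : 0 < Λ := by linarith
  have h0 : 0 ≤ z.im / Λ := by positivity
  have h0' : z.im / Λ ≤ m := by rwa [div_le_iff₀ hΛ0]
  have h1 := hD (1 / 2 + I * (τ + z / Λ)) (by rw [arg_re]; linarith) (by rw [arg_re]; linarith)
  rw [arg_im] at h1
  have hz0 := norm_nonneg z
  have ht0 := abs_nonneg τ
  have h2 : |τ + z.re / Λ| ≤ |τ| + ‖z‖ := by
    refine (abs_add_le _ _).trans ?_
    have h3 : |z.re / Λ| ≤ ‖z‖ := by
      rw [abs_div, abs_of_pos hΛ0]
      exact (div_le_self (abs_nonneg _) hΛ).trans (Complex.abs_re_le_norm z)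
    linarith
  have h3 : (1 + |τ + z.re / Λ|) ^ (m + 2) ≤ (1 + |τ|) ^ (m + 2) * (1 + ‖z‖) ^ (m + 2) := by
    rw [← mul_pow]
    apply pow_le_pow_left₀ (by positivity)
    nlinarith [mul_nonneg ht0 hz0]
  have h4 := hC z hz
  have h5 : 1 + z.re ^ 2 ≤ (1 + ‖z‖) ^ 2 := by
    have h6 := Complex.abs_re_le_norm z
    have h7 : z.re ^ 2 ≤ ‖z‖ ^ 2 := by
      rw [← sq_abs z.re]
      exact pow_le_pow_left₀ (abs_nonneg _) h6 2
    nlinarith
  have hp2 : 0 < 1 + z.re ^ 2 := by positivity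
  rw [norm_mul, ← div_eq_mul_inv, le_div_iff₀ hp2]
  calc ‖pwf b z‖ * ‖riemannZeta (1 / 2 + I * (τ + z / Λ))‖ * (1 + z.re ^ 2)
      ≤ ‖pwf b z‖ * (D * ((1 + |τ|) ^ (m + 2) * (1 + ‖z‖) ^ (m + 2))) * (1 + ‖z‖) ^ 2 := by
        apply mul_le_mul _ h5 hp2.le (by positivity)
        apply mul_le_mul_of_nonneg_left _ (norm_nonneg _)
        exact h1.trans (mul_le_mul_of_nonneg_left h3 hD0)
    _ = D * (1 + |τ|) ^ (m + 2) * ((1 + ‖z‖) ^ (m + 4) * ‖pwf b z‖) := by ring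
    _ ≤ D * (1 + |τ|) ^ (m + 2) * (C * Real.exp (-(p * z.im))) := by gcongr
    _ = _ := by ring

end ZHI

open ZHI PW

theorem zeta_high {b : ℝ → ℂ} (hb : Bp b) {δ : ℝ} (hδ : 0 < δ)
    (hbs : ∀ ξ, b ξ ≠ 0 → 1 + δ ≤ ξ) (N : ℕ) : ∃ C : ℝ, 0 ≤ C ∧ ∃ A : ℕ, ∀ τ T : ℝ, 3 ≤ T →
      ‖∫ y : ℝ, pwf b y * riemannZeta (1 / 2 + I * (τ + y / Real.log T))‖ ≤
        C * ((1 + |τ| / T) ^ A * (T ^ N)⁻¹ + ((1 + |τ|) ^ N)⁻¹) := by
  obtain ⟨m, hm⟩ := exists_nat_ge ((N + 2) / δ)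
  have hmδ : (N : ℝ) + 2 ≤ δ * m := by
    rw [div_le_iff₀ hδ] at hm
    linarith
  obtain ⟨C, hC0, hC⟩ := pwf_bound_pos hb hbs (m + 4)
  obtain ⟨D, hD0, hD⟩ := exists_norm_zeta_left m
  refine ⟨C * D * ∫ x : ℝ, (1 + x ^ 2)⁻¹, by positivity, m + 2, fun τ T hT => ?_⟩
  have hT0 : 0 < T := by linarith
  have hΛ : 1 ≤ Real.log T := by
    rw [Real.le_log_iff_exp_le hT0]
    have := Real.exp_one_lt_d9
    linarith
  set Λ := Real.log T with hΛd
  have hmΛ : 0 ≤ (m : ℝ) * Λ := by positivity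
  have hsh := line_shift (F := fun z : ℂ => pwf b z * riemannZeta (1 / 2 + I * (τ + z / Λ)))
    (y1 := m * Λ) (y2 := 0) (K := C * D * (1 + |τ|) ^ (m + 2)) hmΛ ?_ ?_
  · have e1 : ∫ y : ℝ, pwf b y * riemannZeta (1 / 2 + I * (τ + y / Λ)) =
        ∫ x : ℝ, pwf b ((x : ℂ) + ((0 : ℝ) : ℂ) * I) *
          riemannZeta (1 / 2 + I * (τ + ((x : ℂ) + ((0 : ℝ) : ℂ) * I) / Λ)) := by
      congr 1
      funext x
      simp
    rw [e1, ← hsh]
    have hb2 : ∀ x : ℝ, ‖pwf b ((x : ℂ) + ((m * Λ : ℝ) : ℂ) * I) *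
        riemannZeta (1 / 2 + I * (τ + ((x : ℂ) + ((m * Λ : ℝ) : ℂ) * I) / Λ))‖ ≤
        (C * D * (1 + |τ|) ^ (m + 2) * Real.exp (-((1 + δ) * (m * Λ)))) * (1 + x ^ 2)⁻¹ := by
      intro x
      have him : ((x : ℂ) + ((m * Λ : ℝ) : ℂ) * I).im = m * Λ := by simp
      have hre : ((x : ℂ) + ((m * Λ : ℝ) : ℂ) * I).re = x := by simp
      have h := integrand_le (τ := τ) hD0 hC hD hΛ (z := (x : ℂ) + ((m * Λ : ℝ) : ℂ) * I)
        (by rw [him]; exact hmΛ) (by rw [him])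
      rw [him, hre] at h
      exact h
    have hexp : (1 + |τ|) ^ (m + 2) * Real.exp (-((1 + δ) * (m * Λ))) ≤
        (1 + |τ| / T) ^ (m + 2) * (T ^ N)⁻¹ := by
      have h1 : (1 + |τ|) ^ (m + 2) ≤ (T * (1 + |τ| / T)) ^ (m + 2) := by
        apply pow_le_pow_left₀ (by positivity)
        rw [mul_add, mul_div_cancel₀ _ hT0.ne']
        linarith
      have h2 : Real.exp (-((1 + δ) * (m * Λ))) ≤ (T ^ (N + (m + 2)))⁻¹ := by
        rw [← Real.exp_log (pow_pos hT0 (N + (m + 2))), ← Real.exp_neg, Real.log_pow]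
        apply Real.exp_le_exp.mpr
        push_cast
        have : ((N : ℝ) + 2) * Λ ≤ δ * m * Λ := mul_le_mul_of_nonneg_right hmδ (by linarith)
        nlinarith
      calc (1 + |τ|) ^ (m + 2) * Real.exp (-((1 + δ) * (m * Λ)))
          ≤ (T * (1 + |τ| / T)) ^ (m + 2) * (T ^ (N + (m + 2)))⁻¹ :=
            mul_le_mul h1 h2 (Real.exp_pos _).le (by positivity)
        _ = _ := by
            rw [pow_add T N, mul_pow]
            field_simp
    have hKp0 : 0 ≤ ∫ x : ℝ, (1 + x ^ 2)⁻¹ := integral_nonneg fun x => by positivity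
    calc _ ≤ ∫ x : ℝ, (C * D * (1 + |τ|) ^ (m + 2) * Real.exp (-((1 + δ) * (m * Λ)))) *
            (1 + x ^ 2)⁻¹ :=
          norm_integral_le_of_norm_le (integrable_inv_one_add_sq.const_mul _)
            (Filter.Eventually.of_forall hb2)
      _ = (C * D * (1 + |τ|) ^ (m + 2) * Real.exp (-((1 + δ) * (m * Λ)))) *
            ∫ x : ℝ, (1 + x ^ 2)⁻¹ := integral_const_mul _ _
      _ = (C * D * ∫ x : ℝ, (1 + x ^ 2)⁻¹) *
            ((1 + |τ|) ^ (m + 2) * Real.exp (-((1 + δ) * (m * Λ)))) := by ring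
      _ ≤ (C * D * ∫ x : ℝ, (1 + x ^ 2)⁻¹) * ((1 + |τ| / T) ^ (m + 2) * (T ^ N)⁻¹) :=
          mul_le_mul_of_nonneg_left hexp (by positivity)
      _ ≤ _ := by
          apply mul_le_mul_of_nonneg_left _ (by positivity)
          have : 0 ≤ ((1 + |τ|) ^ N)⁻¹ := by positivity
          linarith
  · intro z hz1 _
    have h2 : DifferentiableAt ℂ (fun z : ℂ => (1 / 2 + I * (τ + z / Λ) : ℂ)) z := by fun_prop
    have h3 : (1 / 2 + I * (τ + z / Λ) : ℂ) ≠ 1 := by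
      intro h
      have h4 := congrArg Complex.re h
      rw [arg_re] at h4
      have h5 : 0 ≤ z.im / Λ := by positivity
      simp at h4
      linarith
    have h4 : DifferentiableAt ℂ (fun z : ℂ => riemannZeta (1 / 2 + I * (τ + z / Λ))) z :=
      DifferentiableAt.comp (g := riemannZeta)
        (f := fun z : ℂ => (1 / 2 + I * (τ + z / Λ) : ℂ)) z (differentiableAt_riemannZeta h3) h2
    exact (pwf_differentiable hb z).mul h4
  · intro x y hy1 hy2
    have him : ((x : ℂ) + (y : ℂ) * I).im = y := by simp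
    have hre : ((x : ℂ) + (y : ℂ) * I).re = x := by simp
    have h := integrand_le (τ := τ) hD0 hC hD hΛ (z := (x : ℂ) + (y : ℂ) * I)
      (by rw [him]; exact hy1) (by rw [him]; exact hy2)
    rw [him, hre] at h
    refine h.trans ?_
    apply mul_le_mul_of_nonneg_right _ (by positivity)
    have : Real.exp (-((1 + δ) * y)) ≤ 1 := by
      rw [Real.exp_le_one_iff]
      nlinarith
    calc C * D * (1 + |τ|) ^ (m + 2) * Real.exp (-((1 + δ) * y)) ≤
        C * D * (1 + |τ|) ^ (m + 2) * 1 := mul_le_mul_of_nonneg_left this (by positivity)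
      _ = _ := mul_one _

end Pool.Agent.H26
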