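import Pool.Agent.H26.SP.Defs
import Pool.Agent.H26.RG.Chart

/-!
The smoothed error: integration by parts, polynomial bound, continuity.
-/

namespace Pool.Agent.H26

open Complex Finset MeasureTheory Filter Asymptotics Topology
open scoped ContDiff

variable {k : ℕ}

namespace BASE

/-- The integrand of the error is continuous in `t`, for all shifts. -/
theorem continuous_D (γ : Ix k → ℝ) : Continuous fun t : ℝ =>
    Z (fun j => γ (Sum.inl j)) (fun j => γ (Sum.inr j)) t -
      Q (fun j => γ (Sum.inl j)) (fun j => γ (Sum.inr j)) t := by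
  obtain ⟨r, hr⟩ := exists_adm γ
  have hmem : (fun i => (γ i : ℂ)) ∈ polyD (fun i => (γ i : ℂ)) r := fun i =>
    Metric.mem_ball_self (hr.pos i)
  have h1 : Continuous fun t : ℝ => (((t : ℂ), fun i => (γ i : ℂ)) : ℂ × (Ix k → ℂ)) := by
    fun_prop
  have h2 := (continuousOn_integrand hr).comp_continuous h1
    (fun t => Set.mk_mem_prod (mem_strip t) hmem)
  refine h2.congr fun t => ?_
  rw [Z_eq_Zc γ t, Q_eq_Qext hr hmem t]
  rfl

theorem Er_hasDerivAt (γ : Ix k → ℝ) (t : ℝ) : HasDerivAt (fun t => Er γ t)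
    (Z (fun j => γ (Sum.inl j)) (fun j => γ (Sum.inr j)) t -
      Q (fun j => γ (Sum.inl j)) (fun j => γ (Sum.inr j)) t) t :=
  ((continuous_D γ).integral_hasStrictDerivAt 0 t).hasDerivAt

theorem continuous_Er_t (γ : Ix k → ℝ) : Continuous fun t => Er γ t :=
  continuous_iff_continuousAt.2 fun t => (Er_hasDerivAt γ t).continuousAt

/-- Polynomial bound for the error, for all `t ≥ 0`. -/
theorem exists_Er_poly_zero (k : ℕ) : ∃ C : ℝ, 0 ≤ C ∧ ∀ (γ : Ix k → ℝ) (B T : ℝ), 0 ≤ B → 0 ≤ T →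
    (∀ i, |γ i| ≤ B) → ‖Er γ T‖ ≤ C * (1 + B) ^ NK k * (1 + T) ^ (2 * k + 1) := by
  obtain ⟨CQ, hCQ0, hCQ⟩ := exists_norm_Qsum_le k (ρ := 1 / 8) (by norm_num)
  set C : ℝ := 6 ^ (2 * k) + CQ with hC
  have hC0 : 0 ≤ C := by positivity
  have hinj : ∀ (γ : Ix k → ℝ), Function.Injective γ → ∀ B T : ℝ, 0 ≤ B → 0 ≤ T →
      (∀ i, |γ i| ≤ B) → ‖Er γ T‖ ≤ C * (1 + B) ^ NK k * (1 + T) ^ (2 * k + 1) := by
    intro γ hinj B T hB hT0 hγ
    rw [Er_eq_integral hinj]
    have h := intervalIntegral.norm_integral_le_of_norm_le_const (a := (0:ℝ)) (b := T)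
      (C := C * (1 + B) ^ NK k * (1 + T) ^ (2 * k))
      (f := fun t : ℝ => Zc (fun i => (γ i : ℂ)) t - Qsum (fun i => (γ i : ℂ)) t) ?_
    · refine h.trans ?_
      rw [sub_zero, abs_of_nonneg hT0, pow_succ, ← mul_assoc]
      gcongr
      linarith
    · intro t ht
      rw [Set.uIoc_of_le hT0] at ht
      have htT : 1 + |t| ≤ 1 + T := by
        rw [abs_of_pos ht.1]
        linarith [ht.2]
      have h1 := norm_Zc_le (γ := fun i => (γ i : ℂ)) (ofReal_mem_tube γ) (t := t) hB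
        (fun i => by simpa using hγ i)
      have h2 := hCQ (fun i => (γ i : ℂ)) (injective_ofReal_comp hinj) (fun i => by simp) B hB
        (fun i => by simpa using hγ i) t
      refine (norm_sub_le _ _).trans ((add_le_add h1 h2).trans ?_)
      have h3 : ((6 + 3 * B) * (1 + |t|)) ^ (2 * k) ≤
          6 ^ (2 * k) * (1 + B) ^ NK k * (1 + T) ^ (2 * k) := by
        calc ((6 + 3 * B) * (1 + |t|)) ^ (2 * k)
            ≤ ((6 * (1 + B)) * (1 + T)) ^ (2 * k) := by
              gcongr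
              linarith
          _ = 6 ^ (2 * k) * (1 + B) ^ (2 * k) * (1 + T) ^ (2 * k) := by
              rw [← mul_pow, ← mul_pow]
          _ ≤ _ := by
              have h4 : (1 + B) ^ (2 * k) ≤ (1 + B) ^ NK k :=
                pow_le_pow_right₀ (by linarith) (by unfold NK; omega)
              gcongr
      have h4 : CQ * (1 + B) ^ NK k * (1 + |t|) ^ (2 * k) ≤
          CQ * (1 + B) ^ NK k * (1 + T) ^ (2 * k) := by gcongr
      calc _ ≤ _ := add_le_add h3 h4
        _ = _ := by rw [hC]; ring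
  refine ⟨C * 2 ^ NK k, by positivity, fun γ B T hB hT0 hγ => ?_⟩
  obtain ⟨u, hu1, hu2⟩ := exists_seq_injective γ
  have h1 : Tendsto (fun n => ‖Er (u n) T‖) atTop (𝓝 ‖Er γ T‖) :=
    (((continuous_Er T).tendsto γ).comp hu2).norm
  refine le_of_tendsto h1 ?_
  filter_upwards [eventually_abs_le hu2 hγ] with n hn
  refine (hinj (u n) (hu1 n) (B + 1) T (by linarith) hT0 hn).trans ?_
  have h2 : (1 + (B + 1)) ^ NK k ≤ 2 ^ NK k * (1 + B) ^ NK k := by
    rw [← mul_pow]
    gcongr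
    linarith
  calc C * (1 + (B + 1)) ^ NK k * (1 + T) ^ (2 * k + 1)
      ≤ C * (2 ^ NK k * (1 + B) ^ NK k) * (1 + T) ^ (2 * k + 1) := by gcongr
    _ = _ := by ring

theorem exists_supp {φ : ℝ → ℂ} (hφ : TF φ) : ∃ R : ℝ, 0 < R ∧ (∀ u, R < u → φ u = 0) ∧
    (∀ u, R < u → deriv φ u = 0) ∧ (∀ u, u ≤ 0 → φ u = 0) ∧ (∀ u, u ≤ 0 → deriv φ u = 0) := by
  obtain ⟨R, hR⟩ := hφ.cpt.isBounded.exists_norm_le
  have h1 : ∀ u, max R 1 < u → u ∉ tsupport φ := by
    intro u hu hm
    have h2 := hR u hm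
    rw [Real.norm_eq_abs] at h2
    have h3 := le_abs_self u
    have h4 := le_max_left R 1
    linarith
  have h2 : ∀ u : ℝ, u ≤ 0 → u ∉ tsupport φ := fun u hu hm => absurd (hφ.pos hm) (not_lt.2 hu)
  refine ⟨max R 1, by positivity, ?_, ?_, ?_, ?_⟩
  · exact fun u hu => image_eq_zero_of_notMem_tsupport (h1 u hu)
  · exact fun u hu => by
      by_contra h
      exact h1 u hu (support_deriv_subset h)
  · exact fun u hu => image_eq_zero_of_notMem_tsupport (h2 u hu)
  · exact fun u hu => by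
      by_contra h
      exact h2 u hu (support_deriv_subset h)

theorem deriv_cont {φ : ℝ → ℂ} (hφ : TF φ) : Continuous (deriv φ) :=
  hφ.smooth.continuous_deriv (by simp)

theorem diffAt {φ : ℝ → ℂ} (hφ : TF φ) (u : ℝ) : HasDerivAt φ (deriv φ u) u :=
  ((hφ.smooth.differentiable (by simp)) u).hasDerivAt

end BASE

open BASE

theorem Fp_eq {φ : ℝ → ℂ} (hφ : TF φ) (γ : Ix k → ℝ) {T : ℝ} (hT : 0 < T) :
    Fp φ γ T = -∫ t in Set.Ioi (0 : ℝ), (T⁻¹ * deriv φ (t / T)) * Er γ t := by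
  obtain ⟨R, hR0, hR1, hR2, hR3, hR4⟩ := exists_supp hφ
  have hdiv : ∀ t : ℝ, t ≤ 0 → t / T ≤ 0 := fun t ht => div_nonpos_of_nonpos_of_nonneg ht hT.le
  unfold Fp
  rw [setIntegral_eq_integral_of_forall_compl_eq_zero, setIntegral_eq_integral_of_forall_compl_eq_zero]
  · have hcs : HasCompactSupport fun t : ℝ => φ (t / T) := by
      apply HasCompactSupport.of_support_subset_isCompact (isCompact_Icc (a := -(R * T)) (b := R * T))
      intro t ht
      rw [Function.mem_support] at ht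
      rw [Set.mem_Icc]
      constructor
      · by_contra h
        push Not at h
        exact ht (hR3 _ (hdiv t (by nlinarith)))
      · by_contra h
        push Not at h
        exact ht (hR1 _ ((lt_div_iff₀ hT).2 h))
    have hcs' : HasCompactSupport fun t : ℝ => ((T⁻¹ : ℝ) : ℂ) * deriv φ (t / T) := by
      apply HasCompactSupport.of_support_subset_isCompact (isCompact_Icc (a := -(R * T)) (b := R * T))
      intro t ht
      rw [Function.mem_support] at ht
      rw [Set.mem_Icc]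
      constructor
      · by_contra h
        push Not at h
        exact ht (by rw [hR4 _ (hdiv t (by nlinarith)), mul_zero])
      · by_contra h
        push Not at h
        exact ht (by rw [hR2 _ ((lt_div_iff₀ hT).2 h), mul_zero])
    have hφc : Continuous fun t : ℝ => φ (t / T) :=
      hφ.smooth.continuous.comp (continuous_id.div_const T)
    have hφc' : Continuous fun t : ℝ => ((T⁻¹ : ℝ) : ℂ) * deriv φ (t / T) :=
      continuous_const.mul ((deriv_cont hφ).comp (continuous_id.div_const T))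
    have key := integral_mul_deriv_eq_deriv_mul_of_integrable
      (u := fun t : ℝ => φ (t / T)) (v := fun t : ℝ => Er γ t)
      (u' := fun t : ℝ => ((T⁻¹ : ℝ) : ℂ) * deriv φ (t / T))
      (v' := fun t : ℝ => Z (fun j => γ (Sum.inl j)) (fun j => γ (Sum.inr j)) t -
        Q (fun j => γ (Sum.inl j)) (fun j => γ (Sum.inr j)) t)
      (fun t _ => by
        have h1 := (diffAt hφ (t / T)).scomp t ((hasDerivAt_id t).div_const T)
        simp only [Function.comp_def, id] at h1
        refine h1.congr_deriv ?_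
        rw [Complex.real_smul]
        push_cast
        rw [one_div])
      (fun t _ => Er_hasDerivAt γ t)
      ((hφc.mul (continuous_D γ)).integrable_of_hasCompactSupport hcs.mul_right)
      ((hφc'.mul (continuous_Er_t γ)).integrable_of_hasCompactSupport hcs'.mul_right)
      ((hφc.mul (continuous_Er_t γ)).integrable_of_hasCompactSupport hcs.mul_right)
    rw [key]
  · intro t ht
    rw [hR4 _ (hdiv t (not_lt.1 ht))]
    simp
  · intro t ht
    rw [hR3 _ (hdiv t (not_lt.1 ht))]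
    simp

namespace BASE

theorem Fp_eq_Ioc {φ : ℝ → ℂ} (hφ : TF φ) {R : ℝ} (hR : ∀ u, R < u → deriv φ u = 0)
    (γ : Ix k → ℝ) {T : ℝ} (hT : 0 < T) :
    Fp φ γ T = -∫ t in Set.Ioc (0 : ℝ) (R * T), (T⁻¹ * deriv φ (t / T)) * Er γ t := by
  rw [Fp_eq hφ γ hT]
  congr 1
  refine setIntegral_eq_of_subset_of_forall_sdiff_eq_zero measurableSet_Ioi
    (fun t ht => ht.1) ?_
  intro t ht
  have h1 : R < t / T := by
    rw [lt_div_iff₀ hT]
    by_contra h
    exact ht.2 ⟨ht.1, not_lt.1 h⟩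
  rw [hR _ h1]
  simp

end BASE

theorem Fp_poly (k : ℕ) {φ : ℝ → ℂ} (hφ : TF φ) : ∃ C : ℝ, 0 ≤ C ∧ ∃ N A : ℕ,
    ∀ (γ : Ix k → ℝ) (T : ℝ), 1 ≤ T → ‖Fp φ γ T‖ ≤ C * (1 + ‖γ‖) ^ N * T ^ A := by
  obtain ⟨R, hR0, hR1, hR2, hR3, hR4⟩ := exists_supp hφ
  obtain ⟨C, hC0, hC⟩ := exists_Er_poly_zero k
  obtain ⟨M, hM⟩ := hφ.cpt.deriv.exists_bound_of_continuous (deriv_cont hφ)
  have hM0 : 0 ≤ M := (norm_nonneg _).trans (hM 0)
  refine ⟨M * C * (1 + R) ^ (2 * k + 1) * R, by positivity, NK k, 2 * k + 1, fun γ T hT => ?_⟩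
  have hT0 : 0 < T := by linarith
  rw [Fp_eq_Ioc hφ hR2 γ hT0, norm_neg]
  have h1 := norm_setIntegral_le_of_norm_le_const (μ := volume) (s := Set.Ioc (0 : ℝ) (R * T))
    (f := fun t : ℝ => (((T⁻¹ : ℝ) : ℂ) * deriv φ (t / T)) * Er γ t)
    (C := T⁻¹ * M * (C * (1 + ‖γ‖) ^ NK k * ((1 + R) * T) ^ (2 * k + 1)))
    (by rw [Real.volume_Ioc]; exact ENNReal.ofReal_lt_top) (by
      intro t ht
      have h2 := hC γ ‖γ‖ t (norm_nonneg _) ht.1.le (fun i => by
        rw [← Real.norm_eq_abs]; exact norm_le_pi_norm γ i)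
      have h3 : 1 + t ≤ (1 + R) * T := by nlinarith [ht.2]
      have h4 : 0 ≤ 1 + t := by linarith [ht.1]
      rw [norm_mul, norm_mul, Complex.norm_real, Real.norm_of_nonneg (inv_nonneg.2 hT0.le)]
      have h5 := hM (t / T)
      gcongr
      refine h2.trans ?_
      gcongr)
  refine h1.trans (le_of_eq ?_)
  rw [measureReal_def, Real.volume_Ioc, sub_zero, ENNReal.toReal_ofReal (by positivity), mul_pow]
  field_simp

theorem continuous_Fp {φ : ℝ → ℂ} (hφ : TF φ) {T : ℝ} (hT : 0 < T) :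
    Continuous fun γ : Ix k → ℝ => Fp φ γ T := by
  obtain ⟨R, hR0, hR1, hR2, hR3, hR4⟩ := exists_supp hφ
  obtain ⟨C, hC0, hC⟩ := exists_Er_poly_zero k
  obtain ⟨M, hM⟩ := hφ.cpt.deriv.exists_bound_of_continuous (deriv_cont hφ)
  have hM0 : 0 ≤ M := (norm_nonneg _).trans (hM 0)
  simp only [Fp_eq_Ioc hφ hR2 _ hT]
  refine Continuous.neg ?_
  rw [continuous_iff_continuousAt]
  intro γ₀
  refine continuousAt_of_dominated
    (bound := fun _ => T⁻¹ * M * (C * (1 + (‖γ₀‖ + 1)) ^ NK k * (1 + R * T) ^ (2 * k + 1)))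
    ?_ ?_ ?_ ?_
  · refine Filter.Eventually.of_forall fun γ => ?_
    refine Continuous.aestronglyMeasurable ?_
    exact (continuous_const.mul ((deriv_cont hφ).comp (continuous_id.div_const T))).mul
      (continuous_Er_t γ)
  · have hev : ∀ᶠ γ in 𝓝 γ₀, ‖γ‖ < ‖γ₀‖ + 1 :=
      (continuous_norm.tendsto γ₀).eventually (gt_mem_nhds (by linarith))
    filter_upwards [hev] with γ hγ
    refine (ae_restrict_mem measurableSet_Ioc).mono fun t ht => ?_
    have h2 := hC γ (‖γ₀‖ + 1) t (by positivity) ht.1.le (fun i => by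
      rw [← Real.norm_eq_abs]; exact (norm_le_pi_norm γ i).trans hγ.le)
    have h4 : 0 ≤ 1 + t := by linarith [ht.1]
    rw [norm_mul, norm_mul, Complex.norm_real, Real.norm_of_nonneg (inv_nonneg.2 hT.le)]
    have h5 := hM (t / T)
    gcongr
    refine h2.trans ?_
    have := ht.2
    gcongr
  · exact integrableOn_const (by rw [Real.volume_Ioc]; exact ENNReal.ofReal_ne_top)
  · refine Filter.Eventually.of_forall fun t => ?_
    exact (continuous_const.mul (continuous_Er t)).continuousAt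

end Pool.Agent.H26
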