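import Pool.Agent.H26.SP.Defs
import Pool.Agent.H26.LA6

/-!
Averages over the antidiagonal, with polynomial dependence on the shifts.
-/

set_option autoImplicit false

namespace Pool.Agent.H26

open Complex Finset MeasureTheory Filter Asymptotics Topology
open scoped ContDiff

variable {k : ℕ}

/-- Admissible weights in a lower strip. -/
structure Wl (n : ℕ) (M Y : ℝ) (w : ℂ → ℂ) : Prop where
  diff : DifferentiableOn ℂ w {z : ℂ | -1 < z.im ∧ z.im < 1 / 8}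
  bound : ∀ z : ℂ, -Y ≤ z.im → z.im ≤ 0 → (1 + |z.re|) ^ n * ‖w z‖ ≤ M

theorem exists_avg_poly (k : ℕ) {ρ : ℝ} (hρ : 0 < ρ) (hρ1 : ρ ≤ 1 / 64) {η : ℝ} (hη : 0 < η)
    (hη1 : η ≤ 2 / 5) : ∃ C : ℝ, 0 ≤ C ∧ ∃ N : ℕ, ∀ (γ : Ix k → ℝ) (w : ℂ → ℂ) (M M₁ : ℝ),
      Wl (AK k) M (1 / 8) w → Wl (AK k) M₁ (1 / 2 + η) w → ∀ T : ℝ, 1 ≤ T →
      Integrable (fun x : ℝ => w x * Er (γ + x • sg) T) ∧
      ‖∫ x : ℝ, w x * Er (γ + x • sg) T‖ ≤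
        C * (1 + ‖γ‖) ^ N * (M₁ + M * T ^ (3 / 4 + 4 * ρ)) := by
  obtain ⟨C, hC0, hC⟩ := exists_avg k hρ hρ1 hη hη1
  refine ⟨C, hC0, NB k, fun γ w M M₁ hw hw1 T hT => ?_⟩
  have hle : ∀ i, |γ i| ≤ ‖γ‖ := fun i => norm_le_pi_norm γ i
  have h := hC ‖γ‖ (norm_nonneg _) (fun j => γ (Sum.inl j)) (fun j => γ (Sum.inr j))
    (fun j => hle _) (fun j => hle _) w M M₁ ⟨hw.diff, hw.bound⟩ ⟨hw1.diff, hw1.bound⟩ T hT
  have e : ∀ x : ℝ, gr (fun j => γ (Sum.inl j)) (fun j => γ (Sum.inr j)) x = γ + x • sg := by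
    intro x
    funext i
    rcases i with i | i
    · simp [gr, sg]
    · simp [gr, sg]
      ring
  simp only [e] at h
  exact h

end Pool.Agent.H26
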