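import Pool.Agent.H26.SP.Defs
import Pool.Agent.H26.RG.Stir

/-!
The factors `G` in the direction `dir S`.
-/

namespace Pool.Agent.H26

open Complex Finset MeasureTheory Filter Asymptotics Topology
open scoped ContDiff SchwartzMap

variable {k : ℕ}

/-- `G` at the complex shift `γ + z dir S`. -/
noncomputable def Gd (S : Finset (Ix k)) (γ : Ix k → ℝ) (z : ℂ) (t : ℝ) : ℂ :=
  G S (fun i => (γ i : ℂ) + z * dir S i) (t : ℂ)

namespace CHI

open Pool.Agent.H6 (psi)
open Stir (digamma_eq_psi norm_psi_sub_log_le differentiableAt_Gamma_re)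

/-! ### digamma in the strip -/

lemma digamma_add_two {x : ℂ} (hx : x.im ≠ 0) :
    digamma x = digamma (x + 2) - x⁻¹ - (x + 1)⁻¹ := by
  have hne : ∀ y : ℂ, y.im ≠ 0 → ∀ m : ℕ, y ≠ -m := by
    intro y hy m h
    apply hy
    rw [h]
    simp
  have h1 := digamma_apply_add_one x (hne x hx)
  have h2 := digamma_apply_add_one (x + 1) (hne (x + 1) (by simpa using hx))
  have e : x + 1 + 1 = x + 2 := by ring
  rw [e, h1] at h2
  rw [h2]
  ring

lemma norm_inv_le {x : ℂ} {c : ℝ} (hc : 0 < c) (hx : c ≤ |x.im|) : ‖x⁻¹‖ ≤ 1 / c := by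
  rw [norm_inv, ← one_div]
  exact one_div_le_one_div_of_le hc (hx.trans (Complex.abs_im_le_norm x))

lemma norm_digamma_sub_log {x : ℂ} {c : ℝ} (hc : 0 < c) (hx : c ≤ |x.im|) (hre : -1 ≤ x.re) :
    ‖digamma x - log (x + 2)‖ ≤ 3 / c := by
  have him : x.im ≠ 0 := by
    intro h
    rw [h, abs_zero] at hx
    linarith
  have him2 : (x + 2).im = x.im := by simp
  have hre2 : 1 ≤ (x + 2).re := by simp; linarith
  rw [digamma_add_two him, digamma_eq_psi hre2]
  have h1 := norm_psi_sub_log_le hre2 (by rw [him2]; exact him)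
  rw [him2] at h1
  have h2 : 1 / |x.im| ≤ 1 / c := one_div_le_one_div_of_le hc hx
  have h3 := norm_inv_le hc hx
  have h4 := norm_inv_le (x := x + 1) hc (by simpa using hx)
  have e : psi (x + 2) - x⁻¹ - (x + 1)⁻¹ - log (x + 2) =
      (psi (x + 2) - log (x + 2)) - x⁻¹ - (x + 1)⁻¹ := by ring
  rw [e]
  have h5 := norm_sub_le ((psi (x + 2) - log (x + 2)) - x⁻¹) (x + 1)⁻¹
  have h6 := norm_sub_le (psi (x + 2) - log (x + 2)) x⁻¹
  have e3 : 3 / c = 1 / c + 1 / c + 1 / c := by ring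
  rw [e3]
  linarith

lemma norm_log_sub_log_up {x y : ℂ} {c : ℝ} (hc : 0 < c) (hx : c ≤ x.im) (hy : c ≤ y.im) :
    ‖log x - log y‖ ≤ ‖x - y‖ / c := by
  have hconv : Convex ℝ {w : ℂ | c ≤ w.im} := convex_halfSpace_im_ge c
  have h := hconv.norm_image_sub_le_of_norm_hasDerivWithin_le (f := log) (f' := fun w => w⁻¹)
    (C := 1 / c) (x := y) (y := x) (fun w hw => by
      have hw' : c ≤ w.im := hw
      exact (Complex.hasDerivAt_log (Or.inr (by linarith : (0:ℝ) < w.im).ne')).hasDerivWithinAt)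
    (fun w hw => norm_inv_le hc (hw.trans (le_abs_self _))) hy hx
  rw [div_eq_mul_one_div, mul_comm]
  exact h

lemma norm_log_sub_log_down {x y : ℂ} {c : ℝ} (hc : 0 < c) (hx : x.im ≤ -c) (hy : y.im ≤ -c) :
    ‖log x - log y‖ ≤ ‖x - y‖ / c := by
  have hconv : Convex ℝ {w : ℂ | w.im ≤ -c} := convex_halfSpace_im_le (-c)
  have h := hconv.norm_image_sub_le_of_norm_hasDerivWithin_le (f := log) (f' := fun w => w⁻¹)
    (C := 1 / c) (x := y) (y := x) (fun w hw => by
      have hw' : w.im ≤ -c := hw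
      exact (Complex.hasDerivAt_log (Or.inr (by linarith : w.im < (0:ℝ)).ne)).hasDerivWithinAt)
    (fun w hw => norm_inv_le hc (by
      have hw' : w.im ≤ -c := hw
      rw [abs_of_neg (by linarith)]
      linarith)) hy hx
  rw [div_eq_mul_one_div, mul_comm]
  exact h

lemma norm_digamma_sub {x y : ℂ} {c : ℝ} (hc : 0 < c) (hxre : -1 ≤ x.re) (hyre : -1 ≤ y.re)
    (h : (c ≤ x.im ∧ c ≤ y.im) ∨ (x.im ≤ -c ∧ y.im ≤ -c)) :
    ‖digamma x - digamma y‖ ≤ (6 + ‖x - y‖) / c := by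
  have hx : c ≤ |x.im| := by
    rcases h with h | h
    · exact h.1.trans (le_abs_self _)
    · rw [abs_of_neg (by linarith)]; linarith
  have hy : c ≤ |y.im| := by
    rcases h with h | h
    · exact h.2.trans (le_abs_self _)
    · rw [abs_of_neg (by linarith)]; linarith
  have h1 := norm_digamma_sub_log hc hx hxre
  have h2 := norm_digamma_sub_log hc hy hyre
  have e0 : (x + 2) - (y + 2) = x - y := by ring
  have h3 : ‖log (x + 2) - log (y + 2)‖ ≤ ‖x - y‖ / c := by
    rw [← e0]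
    rcases h with h | h
    · exact norm_log_sub_log_up hc (by simpa using h.1) (by simpa using h.2)
    · exact norm_log_sub_log_down hc (by simpa using h.1) (by simpa using h.2)
  have e : digamma x - digamma y = (digamma x - log (x + 2)) - (digamma y - log (y + 2)) +
      (log (x + 2) - log (y + 2)) := by ring
  rw [e]
  have h4 := norm_add_le ((digamma x - log (x + 2)) - (digamma y - log (y + 2)))
    (log (x + 2) - log (y + 2))
  have h5 := norm_sub_le (digamma x - log (x + 2)) (digamma y - log (y + 2))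
  have e3 : (6 + ‖x - y‖) / c = 3 / c + 3 / c + ‖x - y‖ / c := by ring
  rw [e3]
  linarith

/-! ### the logarithmic derivative of `chi` -/

/-- the logarithmic derivative of `chi` -/
noncomputable def lch (s : ℂ) : ℂ :=
  (Real.log Real.pi : ℂ) - (digamma ((1 - s) / 2) + digamma (s / 2)) / 2

lemma lam_symm (s : ℂ) : lch (1 - s) = lch s := by
  unfold lch
  have e : (1 - (1 - s)) / 2 = s / 2 := by ring
  rw [e, add_comm]

lemma deriv_chi {s : ℂ} (hs : s.im ≠ 0) : deriv chi s = chi s * lch s := by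
  have hpi : (Real.pi : ℂ) ≠ 0 := by exact_mod_cast Real.pi_ne_zero
  have hne : ∀ y : ℂ, y.im ≠ 0 → ∀ m : ℕ, y ≠ -m := by
    intro y hy m h
    apply hy
    rw [h]
    simp
  have i1 : ((1 - s) / 2).im ≠ 0 := by
    have : ((1 - s) / 2).im = -s.im / 2 := by simp
    rw [this]
    exact div_ne_zero (neg_ne_zero.2 hs) two_ne_zero
  have i2 : (s / 2).im ≠ 0 := by
    have : (s / 2).im = s.im / 2 := by simp
    rw [this]
    exact div_ne_zero hs two_ne_zero
  have hG1 := Gamma_ne_zero (hne _ i1)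
  have hG2 := Gamma_ne_zero (hne _ i2)
  have h1 : HasDerivAt (fun s : ℂ => (Real.pi : ℂ) ^ (s - 1 / 2))
      ((Real.pi : ℂ) ^ (s - 1 / 2) * Complex.log Real.pi) s := by
    have hc := ((hasDerivAt_id s).sub_const (1 / 2)).const_cpow (c := (Real.pi : ℂ)) (Or.inl hpi)
    simpa using hc
  have h4 : HasDerivAt (fun s : ℂ => Gamma ((1 - s) / 2)) (deriv Gamma ((1 - s) / 2) * (-1 / 2)) s := by
    have hd := (differentiableAt_Gamma _ (hne _ i1)).hasDerivAt
    have h0 : HasDerivAt (fun s : ℂ => (1 - s) / 2) (-1 / 2) s :=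
      ((hasDerivAt_id s).const_sub 1).div_const 2
    exact hd.comp s h0
  have h5 : HasDerivAt (fun s : ℂ => Gamma (s / 2)) (deriv Gamma (s / 2) * (1 / 2)) s := by
    have hd := (differentiableAt_Gamma _ (hne _ i2)).hasDerivAt
    have h0 : HasDerivAt (fun s : ℂ => s / 2) (1 / 2) s := (hasDerivAt_id s).div_const 2
    exact hd.comp s h0
  have h6 := (h1.mul h4).div h5 hG2
  have e : chi = fun s => (Real.pi : ℂ) ^ (s - 1 / 2) * Gamma ((1 - s) / 2) / Gamma (s / 2) := by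
    funext s; rfl
  have h7 : HasDerivAt chi (chi s * lch s) s := by
    rw [e]
    refine h6.congr_deriv ?_
    simp only [lch, digamma_def, logDeriv_apply, Pi.mul_apply]
    rw [← Complex.ofReal_log Real.pi_pos.le]
    generalize deriv Gamma ((1 - s) / 2) = d1
    generalize deriv Gamma (s / 2) = d2
    generalize Gamma ((1 - s) / 2) = g1 at hG1 ⊢
    generalize Gamma (s / 2) = g2 at hG2 ⊢
    field_simp
    ring
  exact h7.deriv

/-! ### the size of `chi` -/

lemma norm_chi_le_low {s : ℂ} (h0 : -(1 / 2) ≤ s.re) (h1 : s.re ≤ 1 / 2) (hb : 4 ≤ |s.im|) :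
    ‖chi s‖ ≤ 40 * |s.im| ^ (1 / 2 - s.re) := by
  have hsim : 0 < |s.im| := by linarith
  have hs0 : s / 2 ≠ 0 := by
    intro h
    have h2 : s = 0 := by simpa using h
    rw [h2] at hsim
    simp at hsim
  have e1 : ‖Gamma ((1 - s) / 2)‖ = ‖Gamma (((1 - s.re) / 2 : ℝ) + ((s.im / 2 : ℝ) : ℂ) * I)‖ := by
    rw [← norm_Gamma_symm]
    congr 2
    apply Complex.ext
    · simp
    · simp
      ring
  have hne : ∀ m : ℕ, s / 2 ≠ -m := by
    intro m h
    have := congrArg Complex.im h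
    simp at this
    rw [this] at hsim
    simp at hsim
  have hG2 : Gamma (s / 2) ≠ 0 := Gamma_ne_zero hne
  have hG2' : 0 < ‖Gamma (s / 2)‖ := norm_pos_iff.2 hG2
  have him : |s.im / 2| = |s.im| / 2 := by rw [abs_div, abs_of_pos (by norm_num : (0:ℝ) < 2)]
  unfold chi
  rw [norm_div, norm_mul, norm_pi_cpow, div_le_iff₀ hG2']
  have hre : (s - 1 / 2).re = s.re - 1 / 2 := by simp
  rw [hre]
  have h := norm_Gamma_le_rpow_mul
      (z := (((1 - s.re) / 2 : ℝ) : ℂ) + ((s.im / 2 : ℝ) : ℂ) * I) (c := s.re + 1 / 2)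
      (by simp; linarith) (by linarith) (by linarith) (by simp [him]; linarith)
  have e3 : (((1 - s.re) / 2 : ℝ) : ℂ) + ((s.im / 2 : ℝ) : ℂ) * I + ((s.re + 1 / 2 : ℝ) : ℂ) =
        s / 2 + 1 := by
    have e2 : s / 2 = ((s.re / 2 : ℝ) : ℂ) + ((s.im / 2 : ℝ) : ℂ) * I := by
      apply Complex.ext <;> simp
    rw [e2]; push_cast; ring
  rw [e3, ← e1] at h
  have e4 : ((((1 - s.re) / 2 : ℝ) : ℂ) + ((s.im / 2 : ℝ) : ℂ) * I).im = s.im / 2 := by simp
  rw [e4, him, Gamma_add_one _ hs0, norm_mul] at h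
  have h5 : Real.pi ^ (s.re - 1 / 2) ≤ 1 :=
      Real.rpow_le_one_of_one_le_of_nonpos (by linarith [Real.pi_gt_three]) (by linarith)
  have h6 : (|s.im| / 2) ^ (-(s.re + 1 / 2)) * |s.im| ≤ 2 * |s.im| ^ (1 / 2 - s.re) := by
    have h7 : (|s.im| / 2) ^ (-(s.re + 1 / 2)) = 2 ^ (s.re + 1 / 2) * |s.im| ^ (-(s.re + 1 / 2)) := by
      rw [Real.div_rpow hsim.le (by norm_num), Real.rpow_neg (by norm_num : (0:ℝ) ≤ 2), div_inv_eq_mul]
      ring
    have h8 : |s.im| ^ (-(s.re + 1 / 2)) * |s.im| = |s.im| ^ (1 / 2 - s.re) := by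
      nth_rewrite 2 [← Real.rpow_one |s.im|]
      rw [← Real.rpow_add hsim]
      congr 1
      ring
    have h9 : (2:ℝ) ^ (s.re + 1 / 2) ≤ 2 := by
      calc (2:ℝ) ^ (s.re + 1 / 2) ≤ 2 ^ (1:ℝ) :=
            Real.rpow_le_rpow_of_exponent_le (by norm_num) (by linarith)
        _ = 2 := Real.rpow_one _
    rw [h7, mul_assoc, h8]
    gcongr
  have h7 : ‖s / 2‖ ≤ |s.im| := by
    have := Complex.norm_le_abs_re_add_abs_im (s / 2)
    have e5 : (s / 2).re = s.re / 2 := by simp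
    have e6 : (s / 2).im = s.im / 2 := by simp
    rw [e5, e6, him] at this
    have h8 : |s.re / 2| ≤ 1 / 4 := by
      rw [abs_le]; constructor <;> linarith
    linarith
  calc _ ≤ 1 * (8 * (|s.im| / 2) ^ (-(s.re + 1 / 2)) * (|s.im| * ‖Gamma (s / 2)‖)) := by
        gcongr
        refine h.trans ?_
        gcongr
    _ = 8 * ((|s.im| / 2) ^ (-(s.re + 1 / 2)) * |s.im|) * ‖Gamma (s / 2)‖ := by ring
    _ ≤ 8 * (2 * |s.im| ^ (1 / 2 - s.re)) * ‖Gamma (s / 2)‖ := by gcongr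
    _ = 16 * (|s.im| ^ (1 / 2 - s.re) * ‖Gamma (s / 2)‖) := by ring
    _ ≤ 40 * (|s.im| ^ (1 / 2 - s.re) * ‖Gamma (s / 2)‖) := by gcongr; norm_num
    _ = _ := by ring

/-- the size of `chi` in a strip -/
lemma exists_norm_chi_strip : ∃ C : ℝ, 1 ≤ C ∧ ∀ s : ℂ, -(1 / 2) ≤ s.re → s.re ≤ 3 / 4 →
    ‖chi s‖ ≤ C * (1 + |s.im|) ^ (1 / 2 - s.re) := by
  set K : Set ℂ := Set.Icc (-(1 / 2) : ℝ) (3 / 4) ×ℂ Set.Icc (-4 : ℝ) 4 with hK
  have hKc : IsCompact K := isCompact_Icc.reProdIm isCompact_Icc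
  have hcont : ContinuousOn chi K := by
    intro s hs
    have : s.re ≤ 3 / 4 := (Complex.mem_reProdIm.1 hs).1.2
    exact (differentiableAt_chi (by linarith)).continuousAt.continuousWithinAt
  obtain ⟨C, hC⟩ := hKc.exists_bound_of_continuousOn hcont
  refine ⟨max (5 * C) 80, le_trans (by norm_num) (le_max_right _ _), fun s h0 h1 => ?_⟩
  have hA : 0 ≤ |s.im| := abs_nonneg _
  rcases le_total |s.im| 4 with h | h
  · have hs : s ∈ K := Complex.mem_reProdIm.2 ⟨⟨h0, h1⟩, abs_le.1 h⟩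
    have hC0 : 0 ≤ C := (norm_nonneg _).trans (hC s hs)
    have h5 : (5:ℝ)⁻¹ ≤ (1 + |s.im|) ^ (1 / 2 - s.re) := by
      rcases le_total 0 (1 / 2 - s.re) with h6 | h6
      · refine le_trans (by norm_num) (Real.one_le_rpow (by linarith) h6)
      · calc (5:ℝ)⁻¹ = 5 ^ (-1 : ℝ) := by rw [Real.rpow_neg_one]
          _ ≤ (1 + |s.im|) ^ (-1 : ℝ) :=
              Real.rpow_le_rpow_of_nonpos (by linarith) (by linarith) (by norm_num)
          _ ≤ (1 + |s.im|) ^ (1 / 2 - s.re) :=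
              Real.rpow_le_rpow_of_exponent_le (by linarith) (by linarith)
    calc ‖chi s‖ ≤ C := hC s hs
      _ = (5 * C) * 5⁻¹ := by ring
      _ ≤ max (5 * C) 80 * (1 + |s.im|) ^ (1 / 2 - s.re) := by
          gcongr
          exact le_max_left _ _
  · have h2 : ‖chi s‖ ≤ 40 * |s.im| ^ (1 / 2 - s.re) := by
      rcases le_total s.re (1 / 2) with h3 | h3
      · exact norm_chi_le_low h0 h3 h
      · exact norm_chi_le_of_im (by linarith) (by linarith) h
    have h3 : |s.im| ^ (1 / 2 - s.re) ≤ 2 * (1 + |s.im|) ^ (1 / 2 - s.re) := by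
      rcases le_total 0 (1 / 2 - s.re) with h6 | h6
      · have h7 : |s.im| ^ (1 / 2 - s.re) ≤ (1 + |s.im|) ^ (1 / 2 - s.re) :=
          Real.rpow_le_rpow hA (by linarith) h6
        have h8 : 0 ≤ (1 + |s.im|) ^ (1 / 2 - s.re) := by positivity
        linarith
      · have h7 : (2 * |s.im|) ^ (1 / 2 - s.re) ≤ (1 + |s.im|) ^ (1 / 2 - s.re) :=
          Real.rpow_le_rpow_of_nonpos (by linarith) (by linarith) h6
        rw [Real.mul_rpow (by norm_num) hA] at h7
        have h8 : (2:ℝ)⁻¹ ≤ 2 ^ (1 / 2 - s.re) := by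
          rw [← Real.rpow_neg_one]
          exact Real.rpow_le_rpow_of_exponent_le (by norm_num) (by linarith)
        have h9 : 0 ≤ |s.im| ^ (1 / 2 - s.re) := by positivity
        nlinarith
    have h10 : 0 ≤ (1 + |s.im|) ^ (1 / 2 - s.re) := by positivity
    calc _ ≤ 40 * |s.im| ^ (1 / 2 - s.re) := h2
      _ ≤ 40 * (2 * (1 + |s.im|) ^ (1 / 2 - s.re)) := by gcongr
      _ = 80 * (1 + |s.im|) ^ (1 / 2 - s.re) := by ring
      _ ≤ _ := by
          gcongr
          exact le_max_right _ _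

/-- a crude bound for the derivative of `chi` -/
lemma exists_norm_deriv_chi : ∃ C : ℝ, 1 ≤ C ∧ ∀ s : ℂ, -(9 / 20) ≤ s.re → s.re ≤ 1 / 2 →
    ‖deriv chi s‖ ≤ C * (1 + |s.im|) := by
  obtain ⟨C, hC1, hC⟩ := exists_norm_chi_strip
  refine ⟨40 * C, by linarith, fun s h0 h1 => ?_⟩
  have hA : 0 ≤ |s.im| := abs_nonneg _
  have hd : DiffContOnCl ℂ chi (Metric.ball s (1 / 20)) := by
    apply DifferentiableOn.diffContOnCl
    intro w hw
    have hw' : dist w s ≤ 1 / 20 := by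
      have := Metric.closure_ball_subset_closedBall hw
      exact Metric.mem_closedBall.1 this
    rw [dist_eq_norm] at hw'
    have h2 := (Complex.abs_re_le_norm (w - s)).trans hw'
    rw [Complex.sub_re, abs_le] at h2
    exact (differentiableAt_chi (by linarith)).differentiableWithinAt
  have h := Complex.norm_deriv_le_of_forall_mem_sphere_norm_le (c := s) (R := 1 / 20)
    (C := 2 * C * (1 + |s.im|)) (by norm_num) hd (by
      intro w hw
      have hw' : ‖w - s‖ = 1 / 20 := by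
        rw [← dist_eq_norm]; exact hw
      have h2 := (Complex.abs_re_le_norm (w - s)).trans hw'.le
      rw [Complex.sub_re, abs_le] at h2
      have h3 := (Complex.abs_im_le_norm (w - s)).trans hw'.le
      rw [Complex.sub_im, abs_le] at h3
      have h4 : |w.im| ≤ |s.im| + 1 / 20 := by
        rw [abs_le]
        constructor
        · linarith [neg_abs_le s.im]
        · linarith [le_abs_self s.im]
      have hw0 := abs_nonneg w.im
      refine (hC w (by linarith) (by linarith)).trans ?_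
      have h5 : (1 + |w.im|) ^ (1 / 2 - w.re) ≤ 2 * (1 + |s.im|) := by
        calc (1 + |w.im|) ^ (1 / 2 - w.re) ≤ (1 + |w.im|) ^ (1:ℝ) :=
              Real.rpow_le_rpow_of_exponent_le (by linarith) (by linarith)
          _ = 1 + |w.im| := Real.rpow_one _
          _ ≤ _ := by linarith
      calc _ ≤ C * (2 * (1 + |s.im|)) := by gcongr
        _ = _ := by ring)
  refine h.trans (le_of_eq ?_)
  ring

/-! ### the product over the swapped coordinates -/

/-- the argument of the factor of the coordinate `i` -/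
noncomputable def ar (γ : Ix k → ℝ) (i : Ix k) (z : ℂ) (t : ℝ) : ℂ :=
  1 / 2 - I * z + I * (sg i * (t + γ i) : ℝ)

lemma ar_re (γ : Ix k → ℝ) (i : Ix k) (z : ℂ) (t : ℝ) : (ar γ i z t).re = 1 / 2 + z.im := by
  rw [ar, Complex.add_re, Complex.sub_re]
  simp

lemma ar_im (γ : Ix k → ℝ) (i : Ix k) (z : ℂ) (t : ℝ) :
    (ar γ i z t).im = sg i * (t + γ i) - z.re := by
  rw [ar, Complex.add_im, Complex.sub_im]
  simp
  ring

open Classical in
/-- the swapped coordinates -/
noncomputable def As (S : Finset (Ix k)) : Finset (Ix k) := univ.filter fun i => corner S i = 1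

lemma corner_zero_or_one (S : Finset (Ix k)) (i : Ix k) : corner S i = 0 ∨ corner S i = 1 := by
  rcases i with l | j
  · show (if Sum.inl l ∈ S then (0:ℝ) else 1) = 0 ∨ (if Sum.inl l ∈ S then (0:ℝ) else 1) = 1
    split_ifs <;> simp
  · show (if Sum.inr j ∈ S then (1:ℝ) else 0) = 0 ∨ (if Sum.inr j ∈ S then (1:ℝ) else 0) = 1
    split_ifs <;> simp

lemma sum_corner_mul (S : Finset (Ix k)) (f : Ix k → ℝ) :
    ∑ i, corner S i * f i = ∑ i ∈ As S, f i := by
  classical
  rw [As, Finset.sum_filter]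
  refine Finset.sum_congr rfl fun i _ => ?_
  rcases corner_zero_or_one S i with h | h
  · rw [h, if_neg (by norm_num), zero_mul]
  · rw [h, if_pos rfl, one_mul]

lemma sum_corner (S : Finset (Ix k)) : ∑ i, corner S i = (As S).card := by
  have h := sum_corner_mul S fun _ => 1
  simpa using h

lemma sum_sg (S : Finset (Ix k)) (hS : S.card = k) : ∑ i ∈ As S, (sg i : ℝ) = 0 := by
  rw [← sum_corner_mul, Fintype.sum_sum_type]
  have h := Stir.pairing_corner S (fun _ => 1)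
  rw [pairing] at h
  have e1 : ∀ l : Fin k, corner S (Sum.inl l) * (sg (Sum.inl l : Ix k) : ℝ) =
      corner S (Sum.inl l) * 1 := fun l => rfl
  have e2 : ∀ l : Fin k, corner S (Sum.inr l) * (sg (Sum.inr l : Ix k) : ℝ) =
      -(corner S (Sum.inr l) * 1) := fun l => by
    show corner S (Sum.inr l) * (-1) = _
    ring
  rw [Finset.sum_congr rfl fun l _ => e1 l, Finset.sum_congr rfl fun l _ => e2 l,
    Finset.sum_neg_distrib, ← sub_eq_add_neg, h]
  simp [Stir.card_compl_eq hS]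

lemma Gd_eq (S : Finset (Ix k)) (γ : Ix k → ℝ) (z : ℂ) (t : ℝ) :
    Gd S γ z t = ∏ i ∈ As S, chi (ar γ i z t) := by
  classical
  rw [As, Finset.prod_filter, Fintype.prod_sum_type, Gd, G, mul_comm]
  congr 1
  · refine Finset.prod_congr rfl fun l _ => ?_
    have e : corner S (Sum.inl l) = if Sum.inl l ∈ S then 0 else 1 := rfl
    by_cases h : Sum.inl l ∈ S
    · rw [if_pos h, e, if_pos h, if_neg (by norm_num)]
    · rw [if_neg h, e, if_neg h, if_pos rfl]
      congr 1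
      have e2 : dir S (Sum.inl l) = -1 := by
        rw [dir, e, if_neg h]
        show (1:ℝ) * (1 - 2 * 1) = -1
        norm_num
      rw [e2, ar]
      show _ = 1 / 2 - I * z + I * (((1:ℝ) * (t + γ (Sum.inl l)) : ℝ) : ℂ)
      push_cast
      ring
  · refine Finset.prod_congr rfl fun l _ => ?_
    have e : corner S (Sum.inr l) = if Sum.inr l ∈ S then 1 else 0 := rfl
    by_cases h : Sum.inr l ∈ S
    · rw [if_pos h, e, if_pos h, if_pos rfl]
      congr 1
      have e2 : dir S (Sum.inr l) = 1 := by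
        rw [dir, e, if_pos h]
        show (-1:ℝ) * (1 - 2 * 1) = 1
        norm_num
      rw [e2, ar]
      show _ = 1 / 2 - I * z + I * (((-1:ℝ) * (t + γ (Sum.inr l)) : ℝ) : ℂ)
      push_cast
      ring
    · rw [if_neg h, e, if_neg h, if_neg (by norm_num)]

/-- the derivative with respect to `t` -/
noncomputable def gd (S : Finset (Ix k)) (γ : Ix k → ℝ) (z : ℂ) (t : ℝ) : ℂ := by
  classical
  exact ∑ i ∈ As S, (∏ j ∈ (As S).erase i, chi (ar γ j z t)) *
    (deriv chi (ar γ i z t) * (I * (sg i : ℝ)))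

lemma hasDerivAt_chi_ar (γ : Ix k → ℝ) (i : Ix k) {z : ℂ} (hz : z.im < 1 / 4) (t : ℝ) :
    HasDerivAt (fun t : ℝ => chi (ar γ i z t)) (deriv chi (ar γ i z t) * (I * (sg i : ℝ))) t := by
  have h0 : HasDerivAt (fun t : ℝ => ar γ i z t) (I * (sg i : ℝ)) t := by
    unfold ar
    have h1 : HasDerivAt (fun t : ℝ => sg i * (t + γ i)) (sg i : ℝ) t := by
      simpa using ((hasDerivAt_id t).add_const (γ i)).const_mul (sg i : ℝ)
    exact (h1.ofReal_comp.const_mul I).const_add _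
  have h2 : HasDerivAt chi (deriv chi (ar γ i z t)) (ar γ i z t) :=
    (differentiableAt_chi (by rw [ar_re]; linarith)).hasDerivAt
  exact h2.comp t h0

lemma hasDerivAt_Gd (S : Finset (Ix k)) (γ : Ix k → ℝ) {z : ℂ} (hz : z.im < 1 / 4) (t : ℝ) :
    HasDerivAt (fun t : ℝ => Gd S γ z t) (gd S γ z t) t := by
  classical
  have e : (fun t : ℝ => Gd S γ z t) = fun t : ℝ => ∏ i ∈ As S, chi (ar γ i z t) := by
    funext t; exact Gd_eq S γ z t
  rw [e]
  have h := HasDerivAt.fun_finsetProd (u := As S) (f := fun i (t : ℝ) => chi (ar γ i z t))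
    (f' := fun i => deriv chi (ar γ i z t) * (I * (sg i : ℝ))) (x := t)
    fun i _ => hasDerivAt_chi_ar γ i hz t
  refine h.congr_deriv ?_
  rw [gd]
  refine Finset.sum_congr rfl fun i _ => ?_
  rw [smul_eq_mul]

lemma isOpen_strip : IsOpen {s : ℂ | s.re < 1} := isOpen_lt Complex.continuous_re continuous_const

lemma differentiableOn_chi : DifferentiableOn ℂ chi {s : ℂ | s.re < 1} :=
  fun _ hs => (differentiableAt_chi hs).differentiableWithinAt

lemma differentiableOn_deriv_chi : DifferentiableOn ℂ (deriv chi) {s : ℂ | s.re < 1} :=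
  differentiableOn_chi.deriv isOpen_strip

lemma maps_ar (γ : Ix k → ℝ) (i : Ix k) (t : ℝ) :
    Set.MapsTo (fun z => ar γ i z t) {z : ℂ | z.im < 1 / 4} {s : ℂ | s.re < 1} := by
  intro z hz
  have hz' : z.im < 1 / 4 := hz
  show (ar γ i z t).re < 1
  rw [ar_re]
  linarith

lemma differentiable_ar (γ : Ix k → ℝ) (i : Ix k) (t : ℝ) : Differentiable ℂ fun z => ar γ i z t := by
  unfold ar
  fun_prop

lemma differentiableOn_Gd (S : Finset (Ix k)) (γ : Ix k → ℝ) (t : ℝ) :
    DifferentiableOn ℂ (fun z => Gd S γ z t) {z | z.im < 1 / 4} := by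
  have e : (fun z => Gd S γ z t) = fun z => ∏ i ∈ As S, chi (ar γ i z t) := by
    funext z; exact Gd_eq S γ z t
  rw [e]
  refine DifferentiableOn.fun_finsetProd fun i _ => ?_
  exact differentiableOn_chi.comp (differentiable_ar γ i t).differentiableOn (maps_ar γ i t)

lemma differentiableOn_gd (S : Finset (Ix k)) (γ : Ix k → ℝ) (t : ℝ) :
    DifferentiableOn ℂ (fun z => gd S γ z t) {z | z.im < 1 / 4} := by
  classical
  unfold gd
  refine DifferentiableOn.fun_sum fun i _ => ?_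
  refine DifferentiableOn.mul (DifferentiableOn.fun_finsetProd fun j _ => ?_) ?_
  · exact differentiableOn_chi.comp (differentiable_ar γ j t).differentiableOn (maps_ar γ j t)
  · exact (differentiableOn_deriv_chi.comp (differentiable_ar γ i t).differentiableOn
      (maps_ar γ i t)).mul_const _

lemma continuousOn_gd (S : Finset (Ix k)) (γ : Ix k → ℝ) :
    ContinuousOn (fun p : ℂ × ℝ => gd S γ p.1 p.2) ({z | z.im < 1 / 4} ×ˢ Set.univ) := by
  classical
  have hc : ∀ i : Ix k, Continuous fun p : ℂ × ℝ => ar γ i p.1 p.2 := by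
    intro i
    unfold ar
    fun_prop
  have hm : ∀ i : Ix k, Set.MapsTo (fun p : ℂ × ℝ => ar γ i p.1 p.2)
      ({z | z.im < 1 / 4} ×ˢ Set.univ) {s : ℂ | s.re < 1} := by
    intro i p hp
    exact maps_ar γ i p.2 hp.1
  unfold gd
  refine continuousOn_finsetSum _ fun i _ => ?_
  refine ContinuousOn.mul (continuousOn_finsetProd _ fun j _ => ?_) ?_
  · exact differentiableOn_chi.continuousOn.comp (hc j).continuousOn (hm j)
  · exact (differentiableOn_deriv_chi.continuousOn.comp (hc i).continuousOn (hm i)).mul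
      continuousOn_const

/-! ### bounds -/

lemma sg_cases (i : Ix k) : (sg i : ℝ) = 1 ∨ (sg i : ℝ) = -1 := by
  rcases i with l | j
  · exact Or.inl rfl
  · exact Or.inr rfl

lemma abs_sg (i : Ix k) : |(sg i : ℝ)| = 1 := by
  rcases sg_cases i with h | h <;> rw [h] <;> norm_num

lemma abs_ar_im_le (γ : Ix k → ℝ) (i : Ix k) (z : ℂ) {t : ℝ} (ht : 1 ≤ t) :
    1 + |(ar γ i z t).im| ≤ 2 * t * ((1 + ‖γ‖) * (1 + |z.re|)) := by
  rw [ar_im]
  have h1 : |γ i| ≤ ‖γ‖ := by rw [← Real.norm_eq_abs]; exact norm_le_pi_norm γ i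
  have h2 : |sg i * (t + γ i) - z.re| ≤ t + ‖γ‖ + |z.re| := by
    refine (abs_sub _ _).trans ?_
    rw [abs_mul, abs_sg, one_mul]
    have := abs_add_le t (γ i)
    rw [abs_of_pos (by linarith : 0 < t)] at this
    linarith
  have h3 := norm_nonneg γ
  have h4 := abs_nonneg z.re
  nlinarith [mul_nonneg h3 h4, mul_nonneg (mul_nonneg h3 h4) (by linarith : 0 ≤ t - 1),
    mul_nonneg h3 (by linarith : 0 ≤ t - 1), mul_nonneg h4 (by linarith : 0 ≤ t - 1)]

lemma norm_chi_ar {C : ℝ} (hC1 : 1 ≤ C) (hC : ∀ s : ℂ, -(1 / 2) ≤ s.re → s.re ≤ 3 / 4 →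
    ‖chi s‖ ≤ C * (1 + |s.im|) ^ (1 / 2 - s.re)) (γ : Ix k → ℝ) (i : Ix k) {z : ℂ} {t : ℝ}
    (h0 : -(9 / 10) ≤ z.im) (h1 : z.im ≤ 0) (ht : 1 ≤ t) :
    ‖chi (ar γ i z t)‖ ≤ 2 * C * ((1 + ‖γ‖) * (1 + |z.re|)) * t ^ |z.im| := by
  have hB : 1 ≤ (1 + ‖γ‖) * (1 + |z.re|) := by
    have h3 := norm_nonneg γ
    have h4 := abs_nonneg z.re
    nlinarith [mul_nonneg h3 h4]
  have hre := ar_re γ i z t
  have hy : |z.im| = -z.im := abs_of_nonpos h1
  refine (hC _ (by rw [hre]; linarith) (by rw [hre]; linarith)).trans ?_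
  have e : 1 / 2 - (ar γ i z t).re = |z.im| := by rw [hre, hy]; ring
  rw [e]
  have hy0 : 0 ≤ |z.im| := abs_nonneg _
  have h2 : (1 + |(ar γ i z t).im|) ^ |z.im| ≤ 2 * ((1 + ‖γ‖) * (1 + |z.re|)) * t ^ |z.im| := by
    calc _ ≤ (2 * t * ((1 + ‖γ‖) * (1 + |z.re|))) ^ |z.im| := by
          gcongr
          exact abs_ar_im_le γ i z ht
      _ = (2 * ((1 + ‖γ‖) * (1 + |z.re|)) * t) ^ |z.im| := by congr 1; ring
      _ = (2 * ((1 + ‖γ‖) * (1 + |z.re|))) ^ |z.im| * t ^ |z.im| :=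
          Real.mul_rpow (by positivity) (by linarith)
      _ ≤ (2 * ((1 + ‖γ‖) * (1 + |z.re|))) ^ (1:ℝ) * t ^ |z.im| := by
          gcongr
          · linarith
          · rw [hy]; linarith
      _ = _ := by rw [Real.rpow_one]
  calc _ ≤ C * (2 * ((1 + ‖γ‖) * (1 + |z.re|)) * t ^ |z.im|) := by gcongr
    _ = _ := by ring

lemma norm_lam_sub {s s₀ : ℂ} {c : ℝ} (hc : 0 < c) (h1 : -1 ≤ s.re) (h2 : s.re ≤ 2)
    (h3 : -1 ≤ s₀.re) (h4 : s₀.re ≤ 2)
    (h : (2 * c ≤ s.im ∧ 2 * c ≤ s₀.im) ∨ (s.im ≤ -(2 * c) ∧ s₀.im ≤ -(2 * c))) :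
    ‖lch s - lch s₀‖ ≤ (6 + ‖s - s₀‖ / 2) / c := by
  have a1 : ((1 - s) / 2).re = (1 - s.re) / 2 := by simp
  have a2 : ((1 - s₀) / 2).re = (1 - s₀.re) / 2 := by simp
  have a3 : (s / 2).re = s.re / 2 := by simp
  have a4 : (s₀ / 2).re = s₀.re / 2 := by simp
  have b1 : ((1 - s) / 2).im = -s.im / 2 := by simp
  have b2 : ((1 - s₀) / 2).im = -s₀.im / 2 := by simp
  have b3 : (s / 2).im = s.im / 2 := by simp
  have b4 : (s₀ / 2).im = s₀.im / 2 := by simp
  have d1 := norm_digamma_sub (x := (1 - s) / 2) (y := (1 - s₀) / 2) hc (by rw [a1]; linarith)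
    (by rw [a2]; linarith) (by
      rcases h with h | h
      · right; rw [b1, b2]; constructor <;> linarith
      · left; rw [b1, b2]; constructor <;> linarith)
  have d2 := norm_digamma_sub (x := s / 2) (y := s₀ / 2) hc (by rw [a3]; linarith)
    (by rw [a4]; linarith) (by
      rcases h with h | h
      · left; rw [b3, b4]; constructor <;> linarith
      · right; rw [b3, b4]; constructor <;> linarith)
  have e1 : ‖(1 - s) / 2 - (1 - s₀) / 2‖ = ‖s - s₀‖ / 2 := by
    have : (1 - s) / 2 - (1 - s₀) / 2 = -((s - s₀) / 2) := by ring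
    rw [this, norm_neg, norm_div]
    simp
  have e2 : ‖s / 2 - s₀ / 2‖ = ‖s - s₀‖ / 2 := by
    rw [← sub_div, norm_div]
    simp
  rw [e1] at d1
  rw [e2] at d2
  have e3 : lch s - lch s₀ = -((digamma ((1 - s) / 2) - digamma ((1 - s₀) / 2)) +
      (digamma (s / 2) - digamma (s₀ / 2))) / 2 := by
    unfold lch; ring
  rw [e3, norm_div, norm_neg]
  have e4 : ‖(2 : ℂ)‖ = 2 := by simp
  rw [e4]
  have := norm_add_le (digamma ((1 - s) / 2) - digamma ((1 - s₀) / 2))
      (digamma (s / 2) - digamma (s₀ / 2))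
  linarith

lemma norm_lam_ar (γ : Ix k → ℝ) (i : Ix k) {z : ℂ} {t : ℝ} (h0 : -(9 / 10) ≤ z.im)
    (h1 : z.im ≤ 0) (ht : 4 * (‖γ‖ + |z.re|) + 16 ≤ t) :
    (ar γ i z t).im ≠ 0 ∧ ‖lch (ar γ i z t) - lch (1 / 2 + I * t)‖ ≤
      20 * ((1 + ‖γ‖) * (1 + |z.re|)) / t := by
  have h3 := norm_nonneg γ
  have h4 := abs_nonneg z.re
  have ht0 : 0 < t := by linarith
  have h5 : |γ i| ≤ ‖γ‖ := by rw [← Real.norm_eq_abs]; exact norm_le_pi_norm γ i
  have h5' := abs_le.1 h5
  have h6 := neg_abs_le z.re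
  have h7 := le_abs_self z.re
  have hre := ar_re γ i z t
  have him := ar_im γ i z t
  have hBB : 1 + ‖γ‖ + |z.re| ≤ (1 + ‖γ‖) * (1 + |z.re|) := by nlinarith [mul_nonneg h3 h4]
  have hz : ‖z‖ ≤ |z.re| + 1 := by
    have := Complex.norm_le_abs_re_add_abs_im z
    have h8 : |z.im| ≤ 1 := by rw [abs_of_nonpos h1]; linarith
    linarith
  -- the final estimate
  have fin : ∀ d : ℝ, d ≤ ‖γ‖ + |z.re| + 1 → (6 + d / 2) / (3 * t / 8) ≤
      20 * ((1 + ‖γ‖) * (1 + |z.re|)) / t := by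
    intro d hd
    rw [div_le_div_iff₀ (by positivity) ht0]
    nlinarith
  rcases sg_cases i with hs | hs
  · rw [hs, one_mul] at him
    have h8 : 2 * (3 * t / 8) ≤ (ar γ i z t).im := by rw [him]; linarith
    refine ⟨by linarith [h8], ?_⟩
    have hs0re : (1 / 2 + I * (t : ℂ)).re = 1 / 2 := by simp
    have hs0im : (1 / 2 + I * (t : ℂ)).im = t := by simp
    refine (norm_lam_sub (c := 3 * t / 8) (by positivity) (by rw [hre]; linarith)
      (by rw [hre]; linarith) (by rw [hs0re]; norm_num) (by rw [hs0re]; norm_num)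
      (Or.inl ⟨h8, by rw [hs0im]; linarith⟩)).trans (fin _ ?_)
    have e : ar γ i z t - (1 / 2 + I * (t : ℂ)) = -(I * z) + I * (γ i : ℝ) := by
      rw [ar, hs]; push_cast; ring
    rw [e]
    refine (norm_add_le _ _).trans ?_
    rw [norm_neg, norm_mul, norm_mul, Complex.norm_I, Complex.norm_real, Real.norm_eq_abs]
    linarith
  · rw [hs] at him
    have h8 : (ar γ i z t).im ≤ -(2 * (3 * t / 8)) := by rw [him]; linarith
    refine ⟨by linarith [h8], ?_⟩
    have e0 : lch (1 / 2 + I * (t : ℂ)) = lch (1 / 2 - I * (t : ℂ)) := by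
      rw [← lam_symm]
      congr 1
      ring
    rw [e0]
    have hs0re : (1 / 2 - I * (t : ℂ)).re = 1 / 2 := by simp
    have hs0im : (1 / 2 - I * (t : ℂ)).im = -t := by simp
    refine (norm_lam_sub (c := 3 * t / 8) (by positivity) (by rw [hre]; linarith)
      (by rw [hre]; linarith) (by rw [hs0re]; norm_num) (by rw [hs0re]; norm_num)
      (Or.inr ⟨h8, by rw [hs0im]; linarith⟩)).trans (fin _ ?_)
    have e : ar γ i z t - (1 / 2 - I * (t : ℂ)) = -(I * z) - I * (γ i : ℝ) := by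
      rw [ar, hs]; push_cast; ring
    rw [e]
    refine (norm_sub_le _ _).trans ?_
    rw [norm_neg, norm_mul, norm_mul, Complex.norm_I, Complex.norm_real, Real.norm_eq_abs]
    linarith

lemma rpow_card (n : ℕ) {t : ℝ} (ht : 0 ≤ t) (y : ℝ) : t ^ ((n : ℝ) * y) = (t ^ y) ^ n := by
  rw [mul_comm, Real.rpow_mul ht, Real.rpow_natCast]

lemma gd_eq (S : Finset (Ix k)) (γ : Ix k → ℝ) (z : ℂ) (t : ℝ)
    (h : ∀ i, (ar γ i z t).im ≠ 0) :
    gd S γ z t = Gd S γ z t * ∑ i ∈ As S, lch (ar γ i z t) * (I * (sg i : ℝ)) := by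
  classical
  rw [gd, Gd_eq, Finset.mul_sum]
  refine Finset.sum_congr rfl fun i hi => ?_
  rw [deriv_chi (h i), ← Finset.prod_erase_mul (As S) _ hi]
  ring

end CHI

open CHI in
theorem exists_Gd (S : Finset (Ix k)) (hS : S.card = k) : ∃ C : ℝ, 0 ≤ C ∧ ∃ N : ℕ,
    ∃ g : (Ix k → ℝ) → ℂ → ℝ → ℂ,
      (∀ γ z t, z.im < 1 / 4 → HasDerivAt (fun t : ℝ => Gd S γ z t) (g γ z t) t) ∧
      (∀ γ t, DifferentiableOn ℂ (fun z => Gd S γ z t) {z | z.im < 1 / 4}) ∧
      (∀ γ t, DifferentiableOn ℂ (fun z => g γ z t) {z | z.im < 1 / 4}) ∧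
      (∀ γ, ContinuousOn (fun p : ℂ × ℝ => g γ p.1 p.2) ({z | z.im < 1 / 4} ×ˢ Set.univ)) ∧
      ∀ γ z t, -(9 / 10) ≤ z.im → z.im ≤ 0 → 1 ≤ t →
        ‖Gd S γ z t‖ ≤ C * (1 + ‖γ‖) ^ N * (1 + |z.re|) ^ N *
          t ^ ((∑ i, corner S i) * |z.im|) ∧
        ‖g γ z t‖ ≤ C * (1 + ‖γ‖) ^ N * (1 + |z.re|) ^ N *
          t ^ ((∑ i, corner S i) * |z.im| - 1) := by
  classical
  obtain ⟨C₁, hC₁1, hC₁⟩ := exists_norm_chi_strip
  obtain ⟨C₂, hC₂1, hC₂⟩ := exists_norm_deriv_chi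
  set D : ℝ := max C₁ C₂ with hD
  have hD1 : 1 ≤ D := hC₁1.trans (le_max_left _ _)
  have hC₁' : ∀ s : ℂ, -(1 / 2) ≤ s.re → s.re ≤ 3 / 4 →
      ‖chi s‖ ≤ D * (1 + |s.im|) ^ (1 / 2 - s.re) := fun s h0 h1 =>
    (hC₁ s h0 h1).trans (by gcongr; exact le_max_left _ _)
  have hC₂' : ∀ s : ℂ, -(9 / 20) ≤ s.re → s.re ≤ 1 / 2 → ‖deriv chi s‖ ≤ D * (1 + |s.im|) :=
    fun s h0 h1 => (hC₂ s h0 h1).trans (by gcongr; exact le_max_right _ _)
  set n := (As S).card with hn
  set K : ℝ := ((n : ℝ) + 1) * 20 * (2 * D) ^ n * 16 ^ (n + 1) with hK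
  have hK0 : 0 ≤ K := by positivity
  refine ⟨K, hK0, 2 * n + 1, gd S, fun γ z t hz => hasDerivAt_Gd S γ hz t,
    fun γ t => differentiableOn_Gd S γ t, fun γ t => differentiableOn_gd S γ t,
    fun γ => continuousOn_gd S γ, fun γ z t h0 h1 ht => ?_⟩
  rw [sum_corner, ← hn]
  have ht0 : 0 < t := by linarith
  set B : ℝ := (1 + ‖γ‖) * (1 + |z.re|) with hB
  have hB1 : 1 ≤ B := by
    have h3 := norm_nonneg γ
    have h4 := abs_nonneg z.re
    rw [hB]
    nlinarith [mul_nonneg h3 h4]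
  have hBN : K * (1 + ‖γ‖) ^ (2 * n + 1) * (1 + |z.re|) ^ (2 * n + 1) = K * B ^ (2 * n + 1) := by
    rw [hB, mul_pow]; ring
  rw [hBN]
  set y : ℝ := |z.im| with hy
  have hy0 : 0 ≤ y := abs_nonneg _
  have hy1 : y ≤ 1 := by rw [hy, abs_of_nonpos h1]; linarith
  have hchi : ∀ i, ‖chi (ar γ i z t)‖ ≤ 2 * D * B * t ^ y := fun i =>
    norm_chi_ar hD1 hC₁' γ i h0 h1 ht
  have hGd : ‖Gd S γ z t‖ ≤ (2 * D * B) ^ n * t ^ ((n : ℝ) * y) := by
    rw [Gd_eq, norm_prod, rpow_card n ht0.le, ← mul_pow, hn, ← Finset.prod_const]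
    exact Finset.prod_le_prod (fun _ _ => norm_nonneg _) fun i _ => hchi i
  have hn1 : (1:ℝ) ≤ (n : ℝ) + 1 := by
    have : (0:ℝ) ≤ n := Nat.cast_nonneg n
    linarith
  have h16 : (1:ℝ) ≤ 16 ^ (n + 1) := one_le_pow₀ (by norm_num)
  constructor
  · refine hGd.trans ?_
    have h2 : (2 * D * B) ^ n ≤ K * B ^ (2 * n + 1) := by
      rw [mul_pow, hK]
      have h3 : B ^ n ≤ B ^ (2 * n + 1) := pow_le_pow_right₀ hB1 (by omega)
      have h4 : (2 * D) ^ n ≤ ((n : ℝ) + 1) * 20 * (2 * D) ^ n * 16 ^ (n + 1) := by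
        have h5 : 0 ≤ (2 * D) ^ n := by positivity
        calc (2 * D) ^ n = 1 * 1 * (2 * D) ^ n * 1 := by ring
          _ ≤ _ := by gcongr; norm_num
      gcongr
    gcongr
  · rcases le_or_gt (4 * (‖γ‖ + |z.re|) + 16) t with hcase | hcase
    · -- near
      have hl := fun i => norm_lam_ar γ i h0 h1 hcase
      rw [gd_eq S γ z t fun i => (hl i).1, norm_mul]
      have e1 : ∑ i ∈ As S, lch (ar γ i z t) * (I * (sg i : ℝ)) =
          ∑ i ∈ As S, (lch (ar γ i z t) - lch (1 / 2 + I * t)) * (I * (sg i : ℝ)) := by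
        have h2 : ∑ i ∈ As S, lch (1 / 2 + I * (t : ℂ)) * (I * ((sg i : ℝ) : ℂ)) = 0 := by
          rw [← Finset.mul_sum, ← Finset.mul_sum, ← Complex.ofReal_sum, sum_sg S hS]
          simp
        simp only [sub_mul]
        rw [Finset.sum_sub_distrib, h2, sub_zero]
      have h3 : ‖∑ i ∈ As S, lch (ar γ i z t) * (I * (sg i : ℝ))‖ ≤ n * (20 * B / t) := by
        rw [e1]
        refine (norm_sum_le _ _).trans ?_
        rw [hn, ← nsmul_eq_mul, ← Finset.sum_const]
        refine Finset.sum_le_sum fun i _ => ?_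
        rw [norm_mul, norm_mul, Complex.norm_I, Complex.norm_real, Real.norm_eq_abs, abs_sg,
          one_mul, mul_one]
        exact (hl i).2
      calc _ ≤ ((2 * D * B) ^ n * t ^ ((n : ℝ) * y)) * (n * (20 * B / t)) := by gcongr
        _ = (n * 20 * (2 * D) ^ n * 1) * B ^ (n + 1) * (t ^ ((n : ℝ) * y) / t) := by
            rw [mul_pow]; ring
        _ ≤ K * B ^ (2 * n + 1) * (t ^ ((n : ℝ) * y) / t) := by
            rw [hK]
            have hBn : B ^ (n + 1) ≤ B ^ (2 * n + 1) := pow_le_pow_right₀ hB1 (by omega)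
            have hnn : (n : ℝ) ≤ n + 1 := by linarith
            gcongr
        _ = _ := by rw [Real.rpow_sub_one ht0.ne']
    · -- far
      have ht16 : t ≤ 16 * B := by
        have h3 := norm_nonneg γ
        have h4 := abs_nonneg z.re
        rw [hB]
        nlinarith [mul_nonneg h3 h4]
      have hterm : ∀ i ∈ As S, ‖(∏ j ∈ (As S).erase i, chi (ar γ j z t)) *
          (deriv chi (ar γ i z t) * (I * (sg i : ℝ)))‖ ≤ (2 * D * B * t) ^ n := by
        intro i hi
        rw [norm_mul, norm_mul, norm_mul, Complex.norm_I, Complex.norm_real, Real.norm_eq_abs,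
          abs_sg, one_mul, mul_one, norm_prod]
        have hre := ar_re γ i z t
        have h2 : ‖deriv chi (ar γ i z t)‖ ≤ 2 * D * B * t := by
          refine (hC₂' _ (by rw [hre]; linarith) (by rw [hre]; linarith)).trans ?_
          have := abs_ar_im_le γ i z ht
          calc _ ≤ D * (2 * t * B) := by gcongr
            _ = _ := by ring
        have h3 : ∏ j ∈ (As S).erase i, ‖chi (ar γ j z t)‖ ≤ (2 * D * B * t) ^ (n - 1) := by
          rw [hn, ← Finset.card_erase_of_mem hi, ← Finset.prod_const]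
          refine Finset.prod_le_prod (fun _ _ => norm_nonneg _) fun j _ => (hchi j).trans ?_
          have : t ^ y ≤ t := by
            calc t ^ y ≤ t ^ (1:ℝ) := Real.rpow_le_rpow_of_exponent_le ht hy1
              _ = t := Real.rpow_one t
          gcongr
        have h4 : n - 1 + 1 = n := by
          have : 0 < (As S).card := Finset.card_pos.2 ⟨i, hi⟩
          omega
        calc _ ≤ (2 * D * B * t) ^ (n - 1) * (2 * D * B * t) := by gcongr
          _ = (2 * D * B * t) ^ (n - 1 + 1) := by rw [pow_succ]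
          _ = _ := by rw [h4]
      have h5 : ‖gd S γ z t‖ ≤ n * (2 * D * B * t) ^ n := by
        rw [gd]
        refine (norm_sum_le _ _).trans ?_
        refine (Finset.sum_le_sum hterm).trans ?_
        rw [Finset.sum_const, nsmul_eq_mul]
      have h6 : t ^ n ≤ (16 * B) ^ (n + 1) * t ^ ((n : ℝ) * y - 1) := by
        have h7 : t ^ (-1 : ℝ) ≤ t ^ ((n : ℝ) * y - 1) := by
          apply Real.rpow_le_rpow_of_exponent_le ht
          have : 0 ≤ (n : ℝ) * y := by positivity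
          linarith
        calc t ^ n = t ^ (n + 1) * t ^ (-1 : ℝ) := by
              rw [Real.rpow_neg_one, pow_succ, mul_assoc, mul_inv_cancel₀ ht0.ne', mul_one]
          _ ≤ _ := by gcongr
      refine h5.trans ?_
      calc (n : ℝ) * (2 * D * B * t) ^ n = n * (2 * D) ^ n * B ^ n * t ^ n := by
            rw [mul_pow, mul_pow]; ring
        _ ≤ n * (2 * D) ^ n * B ^ n * ((16 * B) ^ (n + 1) * t ^ ((n : ℝ) * y - 1)) := by gcongr
        _ = (n * 1 * (2 * D) ^ n * 16 ^ (n + 1)) * B ^ (2 * n + 1) * t ^ ((n : ℝ) * y - 1) := by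
            rw [mul_pow 16 B]; ring
        _ ≤ _ := by
            rw [hK]
            gcongr
            · linarith
            · norm_num

end Pool.Agent.H26
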