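import Pool.Agent.H26.SP.Defs

/-! Band limited entire functions. -/

namespace Pool.Agent.H26

open Complex Finset MeasureTheory Filter Asymptotics Topology
open scoped ContDiff SchwartzMap FourierTransform

variable {k : ℕ}

namespace PW

theorem Bp.cont {b : ℝ → ℂ} (hb : Bp b) : Continuous b := hb.smooth.continuous

theorem Bp.int {b : ℝ → ℂ} (hb : Bp b) : Integrable b :=
  (Bp.cont hb).integrable_of_hasCompactSupport hb.cpt

theorem Bp.int_mul {b g : ℝ → ℂ} (hb : Bp b) (hg : Continuous g) :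
    Integrable fun ξ => b ξ * g ξ :=
  ((Bp.cont hb).mul hg).integrable_of_hasCompactSupport hb.cpt.mul_right

theorem Bp.int_mul_real {b : ℝ → ℂ} {g : ℝ → ℝ} (hb : Bp b) (hg : Continuous g) :
    Integrable fun ξ => ‖b ξ‖ * g ξ :=
  ((Bp.cont hb).norm.mul hg).integrable_of_hasCompactSupport hb.cpt.norm.mul_right

theorem Bp.dv {b : ℝ → ℂ} (hb : Bp b) : Bp (deriv b) :=
  ⟨(contDiff_infty_iff_deriv.mp hb.smooth).2, hb.cpt.deriv⟩

theorem norm_cexp_eq (ξ : ℝ) (z : ℂ) : ‖cexp (I * ξ * z)‖ = Real.exp (-(ξ * z.im)) := by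
  rw [Complex.norm_exp]
  congr 1
  simp [Complex.mul_re, Complex.mul_im]

theorem norm_pwf_le {b : ℝ → ℂ} (hb : Bp b) {z : ℂ} {M : ℝ}
    (h : ∀ ξ, b ξ ≠ 0 → -(ξ * z.im) ≤ M) :
    ‖pwf b z‖ ≤ (∫ ξ : ℝ, ‖b ξ‖) * Real.exp M := by
  unfold pwf
  have hpi : (1 : ℝ) ≤ 2 * Real.pi := by nlinarith [Real.pi_gt_three]
  rw [norm_mul]
  have h1 : ‖((1 / (2 * Real.pi) : ℝ) : ℂ)‖ ≤ 1 := by
    rw [Complex.norm_real, Real.norm_of_nonneg (by positivity)]
    rw [div_le_one (by positivity)]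
    exact hpi
  have h2 : ‖∫ ξ : ℝ, b ξ * cexp (I * ξ * z)‖ ≤ ∫ ξ : ℝ, ‖b ξ‖ * Real.exp M := by
    refine norm_integral_le_of_norm_le ((Bp.int hb).norm.mul_const _)
      (Filter.Eventually.of_forall fun ξ => ?_)
    rw [norm_mul, norm_cexp_eq]
    by_cases hξ : b ξ = 0
    · rw [hξ, norm_zero, zero_mul, zero_mul]
    · exact mul_le_mul_of_nonneg_left (Real.exp_le_exp.mpr (h ξ hξ)) (norm_nonneg _)
  rw [integral_mul_const] at h2
  calc _ ≤ 1 * ((∫ ξ : ℝ, ‖b ξ‖) * Real.exp M) :=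
        mul_le_mul h1 h2 (norm_nonneg _) zero_le_one
    _ = _ := one_mul _

theorem supp_le {b : ℝ → ℂ} {q : ℝ} (hq : ∀ ξ, b ξ ≠ 0 → ξ ≤ q) :
    ∀ ξ, deriv b ξ ≠ 0 → ξ ≤ q := by
  intro ξ hξ
  have h1 : ξ ∈ tsupport b := support_deriv_subset hξ
  have h2 : tsupport b ⊆ Set.Iic q := closure_minimal (fun x hx => hq x hx) isClosed_Iic
  exact h2 h1

theorem supp_ge {b : ℝ → ℂ} {p : ℝ} (hp : ∀ ξ, b ξ ≠ 0 → p ≤ ξ) :
    ∀ ξ, deriv b ξ ≠ 0 → p ≤ ξ := by
  intro ξ hξ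
  have h1 : ξ ∈ tsupport b := support_deriv_subset hξ
  have h2 : tsupport b ⊆ Set.Ici p := closure_minimal (fun x hx => hp x hx) isClosed_Ici
  exact h2 h1

end PW

open PW

theorem pwf_differentiable {b : ℝ → ℂ} (hb : Bp b) : Differentiable ℂ (pwf b) := by
  intro z₀
  unfold pwf
  refine DifferentiableAt.const_mul ?_ _
  have hbc := Bp.cont hb
  have h := hasDerivAt_integral_of_dominated_loc_of_deriv_le (𝕜 := ℂ) (μ := (volume : Measure ℝ))
    (F := fun (z : ℂ) (ξ : ℝ) => b ξ * cexp (I * ξ * z))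
    (F' := fun (z : ℂ) (ξ : ℝ) => b ξ * (cexp (I * ξ * z) * (I * ξ)))
    (x₀ := z₀) (s := Metric.ball z₀ 1)
    (bound := fun ξ => ‖b ξ‖ * (Real.exp (|ξ| * (‖z₀‖ + 1)) * |ξ|))
    (Metric.ball_mem_nhds z₀ one_pos) ?_ ?_ ?_ ?_ ?_ ?_
  · exact h.2.differentiableAt
  · refine Filter.Eventually.of_forall fun z => ?_
    exact (by fun_prop : Continuous fun ξ : ℝ => b ξ * cexp (I * ξ * z)).aestronglyMeasurable
  · exact Bp.int_mul hb (by fun_prop : Continuous fun ξ : ℝ => cexp (I * ξ * z₀))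
  · exact (by fun_prop : Continuous fun ξ : ℝ =>
      b ξ * (cexp (I * ξ * z₀) * (I * ξ))).aestronglyMeasurable
  · refine Filter.Eventually.of_forall fun ξ z hz => ?_
    rw [norm_mul, norm_mul, norm_cexp_eq]
    have h1 : ‖(I * ξ : ℂ)‖ = |ξ| := by
      rw [norm_mul, Complex.norm_I, one_mul, Complex.norm_real, Real.norm_eq_abs]
    rw [h1]
    refine mul_le_mul_of_nonneg_left (mul_le_mul_of_nonneg_right (Real.exp_le_exp.mpr ?_)
      (abs_nonneg _)) (norm_nonneg _)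
    have h2 : ‖z‖ ≤ ‖z₀‖ + 1 := by
      have h3 := norm_sub_norm_le z z₀
      have h4 : ‖z - z₀‖ < 1 := by simpa [dist_eq_norm] using hz
      linarith
    calc -(ξ * z.im) ≤ |ξ * z.im| := neg_le_abs _
      _ = |ξ| * |z.im| := abs_mul _ _
      _ ≤ |ξ| * (‖z₀‖ + 1) :=
        mul_le_mul_of_nonneg_left ((Complex.abs_im_le_norm z).trans h2) (abs_nonneg _)
  · exact Bp.int_mul_real hb (by fun_prop)
  · refine Filter.Eventually.of_forall fun ξ z _ => ?_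
    have h1 : HasDerivAt (fun z : ℂ => I * ξ * z) (I * ξ) z := by
      simpa using (hasDerivAt_id z).const_mul (I * (ξ : ℂ))
    exact (h1.cexp).const_mul (b ξ)

theorem pwf_deriv {b : ℝ → ℂ} (hb : Bp b) (z : ℂ) : pwf (deriv b) z = -(I * z) * pwf b z := by
  unfold pwf
  have hbc := Bp.cont hb
  have hu : ∀ x ∈ tsupport (fun ξ : ℝ => cexp (I * ξ * z)), HasDerivAt b (deriv b x) x := fun x _ =>
    (hb.smooth.differentiable (by simp) x).hasDerivAt
  have hv : ∀ x ∈ tsupport b, HasDerivAt (fun ξ : ℝ => cexp (I * ξ * z))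
      (cexp (I * x * z) * (I * z)) x := by
    intro x _
    have h1 : HasDerivAt (fun ξ : ℝ => I * (ξ : ℂ) * z) (I * z) x := by
      have h2 := ((Complex.ofRealCLM.hasDerivAt (x := x)).const_mul I).mul_const z
      simpa using h2
    exact h1.cexp
  have h := integral_mul_deriv_eq_deriv_mul_of_integrable (u := b)
    (v := fun ξ : ℝ => cexp (I * ξ * z)) (u' := deriv b)
    (v' := fun ξ : ℝ => cexp (I * ξ * z) * (I * z)) hu hv
    (Bp.int_mul hb (by fun_prop)) (Bp.int_mul (Bp.dv hb) (by fun_prop))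
    (Bp.int_mul hb (by fun_prop))
  have h3 : ∫ ξ : ℝ, b ξ * (cexp (I * ξ * z) * (I * z))
      = (∫ ξ : ℝ, b ξ * cexp (I * ξ * z)) * (I * z) := by
    rw [← integral_mul_const]
    refine integral_congr_ae (Filter.Eventually.of_forall fun ξ => ?_)
    change b ξ * (cexp (I * ξ * z) * (I * z)) = b ξ * cexp (I * ξ * z) * (I * z)
    ring
  rw [h3] at h
  have h4 : ∫ ξ : ℝ, deriv b ξ * cexp (I * ξ * z)
      = -((∫ ξ : ℝ, b ξ * cexp (I * ξ * z)) * (I * z)) := by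
    rw [h, neg_neg]
  rw [h4]
  ring

theorem pwf_bound_neg {b : ℝ → ℂ} (hb : Bp b) {q : ℝ} (hq : ∀ ξ, b ξ ≠ 0 → ξ ≤ q) (N : ℕ) :
    ∃ C : ℝ, 0 ≤ C ∧ ∀ z : ℂ, z.im ≤ 0 →
      (1 + ‖z‖) ^ N * ‖pwf b z‖ ≤ C * Real.exp (q * (-z.im)) := by
  induction N generalizing b with
  | zero =>
    refine ⟨∫ ξ : ℝ, ‖b ξ‖, integral_nonneg fun ξ => norm_nonneg _, fun z hz => ?_⟩
    rw [pow_zero, one_mul]
    refine norm_pwf_le hb fun ξ hξ => ?_
    have := hq ξ hξ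
    nlinarith
  | succ N ih =>
    obtain ⟨C, hC0, hC⟩ := ih hb hq
    obtain ⟨C', hC'0, hC'⟩ := ih (Bp.dv hb) (supp_le hq)
    refine ⟨C + C', by positivity, fun z hz => ?_⟩
    have h1 := hC z hz
    have h2 := hC' z hz
    rw [pwf_deriv hb, norm_mul, norm_neg, norm_mul, Complex.norm_I, one_mul] at h2
    calc (1 + ‖z‖) ^ (N + 1) * ‖pwf b z‖
        = (1 + ‖z‖) ^ N * ‖pwf b z‖ + (1 + ‖z‖) ^ N * (‖z‖ * ‖pwf b z‖) := by ring
      _ ≤ C * Real.exp (q * (-z.im)) + C' * Real.exp (q * (-z.im)) := add_le_add h1 h2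
      _ = _ := by ring

theorem pwf_bound_pos {b : ℝ → ℂ} (hb : Bp b) {p : ℝ} (hp : ∀ ξ, b ξ ≠ 0 → p ≤ ξ) (N : ℕ) :
    ∃ C : ℝ, 0 ≤ C ∧ ∀ z : ℂ, 0 ≤ z.im →
      (1 + ‖z‖) ^ N * ‖pwf b z‖ ≤ C * Real.exp (-(p * z.im)) := by
  induction N generalizing b with
  | zero =>
    refine ⟨∫ ξ : ℝ, ‖b ξ‖, integral_nonneg fun ξ => norm_nonneg _, fun z hz => ?_⟩
    rw [pow_zero, one_mul]
    refine norm_pwf_le hb fun ξ hξ => ?_
    have := hp ξ hξ
    nlinarith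
  | succ N ih =>
    obtain ⟨C, hC0, hC⟩ := ih hb hp
    obtain ⟨C', hC'0, hC'⟩ := ih (Bp.dv hb) (supp_ge hp)
    refine ⟨C + C', by positivity, fun z hz => ?_⟩
    have h1 := hC z hz
    have h2 := hC' z hz
    rw [pwf_deriv hb, norm_mul, norm_neg, norm_mul, Complex.norm_I, one_mul] at h2
    calc (1 + ‖z‖) ^ (N + 1) * ‖pwf b z‖
        = (1 + ‖z‖) ^ N * ‖pwf b z‖ + (1 + ‖z‖) ^ N * (‖z‖ * ‖pwf b z‖) := by ring
      _ ≤ C * Real.exp (-(p * z.im)) + C' * Real.exp (-(p * z.im)) := add_le_add h1 h2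
      _ = _ := by ring

theorem pwf_fourier {b : ℝ → ℂ} (hb : Bp b) (ξ : ℝ) :
    ∫ y : ℝ, pwf b y * cexp (-(I * ξ * y)) = b ξ := by
  have hpi : (0 : ℝ) < 2 * Real.pi := by positivity
  have hpic : (Real.pi : ℂ) ≠ 0 := by exact_mod_cast Real.pi_ne_zero
  have hF : Integrable (𝓕 b) := by
    have h := (𝓕 (hb.cpt.toSchwartzMap hb.smooth)).integrable (μ := (volume : Measure ℝ))
    rw [SchwartzMap.fourier_coe] at h
    exact h
  have h1 : 𝓕 (𝓕⁻ b) = b := (Bp.cont hb).fourier_fourierInv_eq (Bp.int hb) hF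
  have h2 : ∀ u : ℝ, 𝓕⁻ b u = ∫ v : ℝ, b v * cexp (I * v * ((2 * Real.pi * u : ℝ) : ℂ)) := by
    intro u
    rw [Real.fourierInv_eq_fourier_neg, Real.fourier_real_eq_integral_exp_smul]
    refine integral_congr_ae (Filter.Eventually.of_forall fun v => ?_)
    change cexp (((-2 * Real.pi * v * -u : ℝ) : ℂ) * I) • b v
      = b v * cexp (I * v * ((2 * Real.pi * u : ℝ) : ℂ))
    rw [smul_eq_mul, mul_comm]
    congr 2
    push_cast
    ring
  set g : ℝ → ℂ := fun u => ((1 / (2 * Real.pi) : ℝ) : ℂ) * (cexp (((-2 * Real.pi * u * ξ : ℝ) : ℂ) * I)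
    • 𝓕⁻ b u) with hg
  have h3 : ∀ y : ℝ, pwf b y * cexp (-(I * ξ * y)) = g (y / (2 * Real.pi)) := by
    intro y
    rw [hg]
    simp only
    rw [h2, pwf, smul_eq_mul]
    have e1 : (2 * Real.pi * (y / (2 * Real.pi)) : ℝ) = y := by
      field_simp
    have e2 : (((-2 * Real.pi * (y / (2 * Real.pi)) * ξ : ℝ) : ℂ) * I) = -(I * ξ * y) := by
      have : (-2 * Real.pi * (y / (2 * Real.pi)) * ξ : ℝ) = -(ξ * y) := by
        field_simp
      rw [this]
      push_cast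
      ring
    rw [e1, e2]
    ring
  calc ∫ y : ℝ, pwf b y * cexp (-(I * ξ * y)) = ∫ y : ℝ, g (y / (2 * Real.pi)) := by
        simp_rw [h3]
    _ = |2 * Real.pi| • ∫ u : ℝ, g u := Measure.integral_comp_div g (2 * Real.pi)
    _ = 𝓕 (𝓕⁻ b) ξ := by
        rw [Real.fourier_real_eq_integral_exp_smul, hg, integral_const_mul, abs_of_pos hpi,
          Complex.real_smul, ← mul_assoc]
        have : ((2 * Real.pi : ℝ) : ℂ) * ((1 / (2 * Real.pi) : ℝ) : ℂ) = 1 := by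
          rw [← Complex.ofReal_mul]
          rw [mul_one_div_cancel hpi.ne']
          simp
        rw [this, one_mul]
    _ = b ξ := by rw [h1]

theorem rd_pwf {b : ℝ → ℂ} (hb : Bp b) : RD fun y : ℝ => pwf b y := by
  obtain ⟨q, hq⟩ := hb.cpt.isBounded.subset_closedBall 0
  have hq' : ∀ ξ, b ξ ≠ 0 → ξ ≤ q := by
    intro ξ hξ
    have h1 := hq (subset_tsupport b hξ)
    rw [Metric.mem_closedBall, dist_zero_right, Real.norm_eq_abs] at h1
    exact (le_abs_self _).trans h1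
  refine ⟨(pwf_differentiable hb).continuous.comp Complex.continuous_ofReal, fun N => ?_⟩
  obtain ⟨C, _, hC⟩ := pwf_bound_neg hb hq' N
  refine ⟨C, fun y => ?_⟩
  have h := hC (y : ℂ) (by simp)
  simpa using h

theorem exists_bump {p₀ p q q₀ : ℝ} (h1 : p₀ < p) (h2 : p ≤ q) (h3 : q < q₀) : ∃ b : ℝ → ℂ, Bp b ∧
    (∀ ξ, p ≤ ξ → ξ ≤ q → b ξ = 1) ∧ ∀ ξ, b ξ ≠ 0 → p₀ < ξ ∧ ξ < q₀ := by
  set f : ℝ → ℝ := fun ξ => Real.smoothTransition ((ξ - p₀) / (p - p₀)) *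
    Real.smoothTransition ((q₀ - ξ) / (q₀ - q)) with hf
  have hsub : ∀ ξ, f ξ ≠ 0 → p₀ < ξ ∧ ξ < q₀ := by
    intro ξ hξ
    constructor
    · by_contra hc
      apply hξ
      have : (ξ - p₀) / (p - p₀) ≤ 0 :=
        div_nonpos_of_nonpos_of_nonneg (by linarith) (by linarith)
      simp only [hf]
      rw [Real.smoothTransition.zero_of_nonpos this, zero_mul]
    · by_contra hc
      apply hξ
      have : (q₀ - ξ) / (q₀ - q) ≤ 0 :=
        div_nonpos_of_nonpos_of_nonneg (by linarith) (by linarith)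
      simp only [hf]
      rw [Real.smoothTransition.zero_of_nonpos this, mul_zero]
  have hfs : ContDiff ℝ ∞ f := by
    have e1 : ContDiff ℝ ∞ fun ξ : ℝ => (ξ - p₀) / (p - p₀) :=
      (contDiff_id.sub contDiff_const).div_const _
    have e2 : ContDiff ℝ ∞ fun ξ : ℝ => (q₀ - ξ) / (q₀ - q) :=
      (contDiff_const.sub contDiff_id).div_const _
    exact ((Real.smoothTransition.contDiff (n := ⊤)).comp e1).mul
      ((Real.smoothTransition.contDiff (n := ⊤)).comp e2)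
  refine ⟨fun ξ => ((f ξ : ℝ) : ℂ), ⟨Complex.ofRealCLM.contDiff.comp hfs, ?_⟩, ?_, ?_⟩
  · refine HasCompactSupport.of_support_subset_isCompact (isCompact_Icc (a := p₀) (b := q₀)) ?_
    intro ξ hξ
    have : f ξ ≠ 0 := by
      intro h0
      apply hξ
      simp [h0]
    have h4 := hsub ξ this
    exact ⟨h4.1.le, h4.2.le⟩
  · intro ξ hp hq
    have e1 : 1 ≤ (ξ - p₀) / (p - p₀) := by
      rw [le_div_iff₀ (by linarith)]
      linarith
    have e2 : 1 ≤ (q₀ - ξ) / (q₀ - q) := by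
      rw [le_div_iff₀ (by linarith)]
      linarith
    simp only [hf]
    rw [Real.smoothTransition.one_of_one_le e1, Real.smoothTransition.one_of_one_le e2]
    simp
  · intro ξ hξ
    exact hsub ξ fun h0 => hξ (by simp [h0])

end Pool.Agent.H26
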