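import Pool.Agent.H26.SP.Defs
import Pool.Agent.H26.SP.AVP
import Pool.Agent.H26.SP.CHI
import Pool.Agent.H26.RG.Force
import Pool.Agent.H26.SP.PW
import Pool.Agent.H26.SP.BASE

/-!
The chart of `S`.
-/

namespace Pool.Agent.H26

open Complex Finset MeasureTheory Filter Asymptotics Topology
open scoped ContDiff SchwartzMap

variable {k : ℕ}

namespace CS

open CHI

/-- the integrand of the error -/
noncomputable def De (γ : Ix k → ℝ) (t : ℝ) : ℂ :=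
  Z (fun j => γ (Sum.inl j)) (fun j => γ (Sum.inr j)) t -
    Q (fun j => γ (Sum.inl j)) (fun j => γ (Sum.inr j)) t

lemma continuous_De : Continuous fun p : (Ix k → ℝ) × ℝ => De p.1 p.2 := by
  rw [continuous_iff_continuousAt]
  rintro ⟨γ₀, t₀⟩
  obtain ⟨r, hr⟩ := exists_adm γ₀
  have hopen : IsOpen {γ : Ix k → ℝ | (fun i => (γ i : ℂ)) ∈ polyD (fun i => (γ₀ i : ℂ)) r} := by
    have hemb : Continuous fun γ : Ix k → ℝ => (fun i => (γ i : ℂ)) := by fun_prop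
    exact isOpen_polyD.preimage hemb
  have hmem : γ₀ ∈ {γ : Ix k → ℝ | (fun i => (γ i : ℂ)) ∈ polyD (fun i => (γ₀ i : ℂ)) r} :=
    fun i => Metric.mem_ball_self (hr.pos i)
  have h1 : Continuous fun p : (Ix k → ℝ) × ℝ => (((p.2 : ℂ), fun i => (p.1 i : ℂ)) :
      ℂ × (Ix k → ℂ)) := by fun_prop
  have h2 : ContinuousOn (fun p : (Ix k → ℝ) × ℝ => Zc (fun i => (p.1 i : ℂ)) (p.2 : ℂ) -
      Qext (fun i => (γ₀ i : ℂ)) r (p.2 : ℂ) (fun i => (p.1 i : ℂ)))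
      ({γ : Ix k → ℝ | (fun i => (γ i : ℂ)) ∈ polyD (fun i => (γ₀ i : ℂ)) r} ×ˢ Set.univ) := by
    have h0 := ContinuousOn.comp (continuousOn_integrand hr)
      (f := fun p : (Ix k → ℝ) × ℝ => (((p.2 : ℂ), fun i => (p.1 i : ℂ)) : ℂ × (Ix k → ℂ)))
      (s := {γ : Ix k → ℝ | (fun i => (γ i : ℂ)) ∈ polyD (fun i => (γ₀ i : ℂ)) r} ×ˢ Set.univ)
      h1.continuousOn fun p hp => Set.mk_mem_prod (mem_strip p.2) hp.1
    exact h0
  have hn : ({γ : Ix k → ℝ | (fun i => (γ i : ℂ)) ∈ polyD (fun i => (γ₀ i : ℂ)) r} ×ˢ Set.univ) ∈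
      𝓝 (γ₀, t₀) := (hopen.prod isOpen_univ).mem_nhds ⟨hmem, Set.mem_univ _⟩
  have h3 := h2.continuousAt hn
  refine h3.congr ?_
  filter_upwards [hn] with p hp
  rw [De, Z_eq_Zc p.1 p.2, Q_eq_Qext hr hp.1 p.2]

lemma continuous_De_right (γ : Ix k → ℝ) : Continuous fun t : ℝ => De γ t := by
  have h1 : Continuous fun t : ℝ => ((γ, t) : (Ix k → ℝ) × ℝ) := by fun_prop
  have h2 := Continuous.comp (g := fun p : (Ix k → ℝ) × ℝ => De p.1 p.2) continuous_De h1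
  exact h2

lemma continuous_De_left (t : ℝ) : Continuous fun γ : Ix k → ℝ => De γ t := by
  have h1 : Continuous fun γ : Ix k → ℝ => ((γ, t) : (Ix k → ℝ) × ℝ) := by fun_prop
  have h2 := Continuous.comp (g := fun p : (Ix k → ℝ) × ℝ => De p.1 p.2) continuous_De h1
  exact h2

lemma Er_eq (γ : Ix k → ℝ) (T : ℝ) : Er γ T = ∫ t in (0:ℝ)..T, De γ t := rfl

lemma hasDerivAt_Er (γ : Ix k → ℝ) (t : ℝ) : HasDerivAt (fun t : ℝ => Er γ t) (De γ t) t := by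
  have hc := continuous_De_right γ
  have h1 := intervalIntegral.integral_hasDerivAt_right (hc.intervalIntegrable 0 t)
    hc.aestronglyMeasurable.stronglyMeasurableAtFilter hc.continuousAt
  exact h1

lemma continuous_Er_both : Continuous fun p : (Ix k → ℝ) × ℝ => Er p.1 p.2 := by
  have h0 : Continuous fun q : ((Ix k → ℝ) × ℝ) × ℝ => ((q.1.1, q.2) : (Ix k → ℝ) × ℝ) := by
    fun_prop
  have h1 := Continuous.comp (g := fun p : (Ix k → ℝ) × ℝ => De p.1 p.2) continuous_De h0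
  have h2 := intervalIntegral.continuous_parametric_intervalIntegral_of_continuous (a₀ := 0)
    (μ := volume) (f := fun (p : (Ix k → ℝ) × ℝ) (t : ℝ) => De p.1 t) h1 continuous_snd
  exact h2

lemma Gd_zero (S : Finset (Ix k)) (γ : Ix k → ℝ) (t : ℝ) :
    Gd S γ 0 t = G S (fun i => (γ i : ℂ)) (t : ℂ) := by
  unfold Gd
  simp

lemma Gd_real (S : Finset (Ix k)) (γ : Ix k → ℝ) (x t : ℝ) :
    Gd S γ x t = G S (fun i => ((γ + x • dir S) i : ℂ)) (t : ℂ) := by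
  unfold Gd
  congr 1
  funext i
  simp

lemma continuous_G (S : Finset (Ix k)) (t : ℝ) :
    Continuous fun γ : Ix k → ℝ => G S (fun i => (γ i : ℂ)) (t : ℂ) := by
  have e : (fun γ : Ix k → ℝ => G S (fun i => (γ i : ℂ)) (t : ℂ)) =
      fun γ : Ix k → ℝ => ∏ i ∈ As S, chi (ar γ i 0 t) := by
    funext γ
    rw [← Gd_zero, Gd_eq]
  rw [e]
  refine continuous_finsetProd _ fun i _ => ?_
  refine differentiableOn_chi.continuousOn.comp_continuous ?_ fun γ => ?_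
  · unfold ar
    fun_prop
  · show (ar γ i 0 t).re < 1
    rw [ar_re]
    norm_num

/-- The cocycle for all shifts. -/
lemma cocycle_all (S : Finset (Ix k)) (hS : S.card = k) : ∃ σ : Equiv.Perm (Ix k),
    S = (S0 k).map σ.toEmbedding ∧ ∀ γ : Ix k → ℝ, ∀ t : ℝ,
      De γ t = G S (fun i => (γ i : ℂ)) (t : ℂ) * De (fun i => γ (σ i)) t := by
  obtain ⟨σ, hσ, h⟩ := cocycle S hS
  refine ⟨σ, hσ, fun γ t => ?_⟩
  have h1 := continuous_De_left (k := k) t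
  have h0 : Continuous fun γ : Ix k → ℝ => (fun i => γ (σ i)) := by fun_prop
  have h2 : Continuous fun γ : Ix k → ℝ => G S (fun i => (γ i : ℂ)) (t : ℂ) *
      De (fun i => γ (σ i)) t := by
    have h3 := (continuous_G S t).mul (h1.comp h0)
    exact h3
  have h3 := h1.ext_on dense_injective h2 fun γ hγ => h γ hγ t
  exact congrFun h3 γ

lemma dir_perm {S : Finset (Ix k)} {σ : Equiv.Perm (Ix k)} (hσ : S = (S0 k).map σ.toEmbedding)
    (i : Ix k) : dir S (σ i) = sg i := by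
  have h2 := sg_mul_self (σ i)
  have h5 := sg_mul_self i
  rcases corner_cases hσ (σ i) with ⟨h3, h4⟩ | ⟨h3, h4⟩
  · rw [dir, h3]
    rw [Equiv.symm_apply_apply] at h4
    linear_combination (sg i : ℝ) * h4 - (sg (σ i) : ℝ) * h5
  · rw [dir, h3]
    rw [Equiv.symm_apply_apply] at h4
    linear_combination (-(sg i : ℝ)) * h4 + (sg (σ i) : ℝ) * h5

/-! ### integration by parts -/

lemma exists_window {φ : ℝ → ℂ} (hφ : TF φ) : ∃ c₁ c₂ : ℝ, 0 < c₁ ∧ c₁ < c₂ ∧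
    ∀ x, x ∉ Set.Ioo c₁ c₂ → φ x = 0 ∧ deriv φ x = 0 := by
  have key : ∃ c₁ c₂ : ℝ, 0 < c₁ ∧ c₁ < c₂ ∧ tsupport φ ⊆ Set.Ioo c₁ c₂ := by
    rcases (tsupport φ).eq_empty_or_nonempty with h | h
    · exact ⟨1, 2, one_pos, one_lt_two, by rw [h]; exact Set.empty_subset _⟩
    · have hc : IsCompact (tsupport φ) := hφ.cpt
      obtain ⟨m, hm, hm'⟩ := hc.exists_isLeast h
      obtain ⟨M, hM, hM'⟩ := hc.exists_isGreatest h
      have hm0 : 0 < m := hφ.pos hm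
      have hmM : m ≤ M := hm' hM
      refine ⟨m / 2, M + 1, by positivity, by linarith, fun x hx => ?_⟩
      have h1 : m ≤ x := hm' hx
      have h2 : x ≤ M := hM' hx
      exact ⟨by linarith, by linarith⟩
  obtain ⟨c₁, c₂, h1, h2, h3⟩ := key
  refine ⟨c₁, c₂, h1, h2, fun x hx => ⟨?_, ?_⟩⟩
  · exact image_eq_zero_of_notMem_tsupport fun h => hx (h3 h)
  · by_contra h
    exact hx (h3 (support_deriv_subset h))

/-- the weight after the integration by parts -/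
noncomputable def Wc (S : Finset (Ix k)) (φ : ℝ → ℂ) (γ : Ix k → ℝ) (T : ℝ) (z : ℂ) (t : ℝ) : ℂ :=
  T⁻¹ * deriv φ (t / T) * Gd S γ z t + φ (t / T) * gd S γ z t

lemma hasDerivAt_phi {φ : ℝ → ℂ} (hφ : TF φ) (T t : ℝ) :
    HasDerivAt (fun t : ℝ => φ (t / T)) (T⁻¹ * deriv φ (t / T)) t := by
  have h1 : HasDerivAt φ (deriv φ (t / T)) (t / T) :=
    ((hφ.smooth.differentiable (by simp)) (t / T)).hasDerivAt
  have h2 : HasDerivAt (fun t : ℝ => t / T) (T⁻¹) t := by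
    have := (hasDerivAt_id t).div_const T
    rwa [one_div] at this
  have h3 := h1.scomp t h2
  refine h3.congr_deriv ?_
  rw [Complex.real_smul]

lemma continuous_deriv_phi {φ : ℝ → ℂ} (hφ : TF φ) : Continuous (deriv φ) :=
  hφ.smooth.continuous_deriv (by simp)

lemma continuous_Gd_real (S : Finset (Ix k)) (γ : Ix k → ℝ) :
    Continuous fun p : ℝ × ℝ => Gd S γ p.1 p.2 := by
  have e : (fun p : ℝ × ℝ => Gd S γ p.1 p.2) = fun p : ℝ × ℝ => ∏ i ∈ As S, chi (ar γ i p.1 p.2) := by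
    funext p
    rw [Gd_eq]
  rw [e]
  refine continuous_finsetProd _ fun i _ => ?_
  refine differentiableOn_chi.continuousOn.comp_continuous ?_ fun p => ?_
  · unfold ar
    fun_prop
  · show (ar γ i p.1 p.2).re < 1
    rw [ar_re]
    norm_num

lemma continuous_gd_real (S : Finset (Ix k)) (γ : Ix k → ℝ) :
    Continuous fun p : ℝ × ℝ => gd S γ p.1 p.2 := by
  have h0 : Continuous fun p : ℝ × ℝ => (((p.1 : ℂ), p.2) : ℂ × ℝ) := by fun_prop
  have h1 := (continuousOn_gd S γ).comp_continuous h0 fun p => by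
    refine Set.mk_mem_prod ?_ (Set.mem_univ _)
    show (p.1 : ℂ).im < 1 / 4
    rw [Complex.ofReal_im]
    norm_num
  exact h1

lemma continuous_Wc_real (S : Finset (Ix k)) {φ : ℝ → ℂ} (hφ : TF φ) (γ : Ix k → ℝ) (T : ℝ) :
    Continuous fun p : ℝ × ℝ => Wc S φ γ T p.1 p.2 := by
  have h1 := continuous_deriv_phi hφ
  have h2 := hφ.smooth.continuous
  have h3 : Continuous fun p : ℝ × ℝ => p.2 / T := by fun_prop
  have h4 := ((continuous_const (y := ((T⁻¹ : ℝ) : ℂ))).mul (h1.comp h3)).mul (continuous_Gd_real S γ)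
  have h5 := (h2.comp h3).mul (continuous_gd_real S γ)
  have h6 := h4.add h5
  refine h6.congr fun p => ?_
  simp only [Wc, Function.comp, Pi.mul_apply, Pi.add_apply]

lemma Fp_ibp (S : Finset (Ix k)) {φ : ℝ → ℂ} (hφ : TF φ) {c₁ c₂ : ℝ} (hc₁ : 0 < c₁) (hc₂ : c₁ < c₂)
    (hw : ∀ x, x ∉ Set.Ioo c₁ c₂ → φ x = 0 ∧ deriv φ x = 0) {σ : Equiv.Perm (Ix k)}
    (hσ : S = (S0 k).map σ.toEmbedding) (hco : ∀ γ : Ix k → ℝ, ∀ t : ℝ,
      De γ t = G S (fun i => (γ i : ℂ)) (t : ℂ) * De (fun i => γ (σ i)) t)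
    (γ : Ix k → ℝ) (x : ℝ) {T : ℝ} (hT : 0 < T) :
    Fp φ (γ + x • dir S) T = -∫ t in (c₁ * T)..(c₂ * T),
      Wc S φ γ T x t * Er ((fun i => γ (σ i)) + x • sg) t := by
  have hab : c₁ * T ≤ c₂ * T := by gcongr
  have ha0 : 0 < c₁ * T := by positivity
  set γ' : Ix k → ℝ := (fun i => γ (σ i)) + x • sg with hγ'
  have e1 : Fp φ (γ + x • dir S) T = ∫ t in (c₁ * T)..(c₂ * T),
      (φ (t / T) * Gd S γ x t) * De γ' t := by
    have h1 : Fp φ (γ + x • dir S) T = ∫ t in Set.Ioi (0:ℝ), φ (t / T) * De (γ + x • dir S) t := rfl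
    rw [h1, intervalIntegral.integral_of_le hab]
    have h2 : ∀ t : ℝ, φ (t / T) * De (γ + x • dir S) t = (φ (t / T) * Gd S γ x t) * De γ' t := by
      intro t
      rw [hco, ← Gd_real, mul_assoc]
      congr 3
      funext i
      show γ (σ i) + x * dir S (σ i) = γ (σ i) + x * sg i
      rw [dir_perm hσ]
    simp_rw [h2]
    symm
    have h3 := setIntegral_eq_of_subset_of_forall_sdiff_eq_zero (μ := volume)
      (s := Set.Ioc (c₁ * T) (c₂ * T)) (t := Set.Ioi (0:ℝ))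
      (f := fun t : ℝ => (φ (t / T) * Gd S γ x t) * De γ' t) measurableSet_Ioi
      (fun t ht => ha0.trans ht.1) (fun t ht => by
        have h4 : t / T ∉ Set.Ioo c₁ c₂ := by
          rintro ⟨h5, h6⟩
          rw [lt_div_iff₀ hT] at h5
          rw [div_lt_iff₀ hT] at h6
          exact ht.2 ⟨h5, h6.le⟩
        rw [(hw _ h4).1, zero_mul, zero_mul])
    exact h3.symm
  rw [e1]
  have hu : ∀ t ∈ Set.uIcc (c₁ * T) (c₂ * T), HasDerivAt (fun t : ℝ => φ (t / T) * Gd S γ x t)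
      (Wc S φ γ T x t) t := by
    intro t _
    have h1 := (hasDerivAt_phi hφ T t).mul (hasDerivAt_Gd S γ (z := x) (by simp) t)
    exact h1
  have hv : ∀ t ∈ Set.uIcc (c₁ * T) (c₂ * T), HasDerivAt (fun t : ℝ => Er γ' t) (De γ' t) t :=
    fun t _ => hasDerivAt_Er γ' t
  have hWc : Continuous fun t : ℝ => Wc S φ γ T x t := by
    have h0 : Continuous fun t : ℝ => ((x, t) : ℝ × ℝ) := by fun_prop
    have h1 := (continuous_Wc_real S hφ γ T).comp h0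
    exact h1
  have h := intervalIntegral.integral_mul_deriv_eq_deriv_mul hu hv
    (hWc.intervalIntegrable _ _) ((continuous_De_right γ').intervalIntegrable _ _)
  rw [h]
  have hb1 : φ (c₂ * T / T) = 0 := by
    rw [mul_div_cancel_right₀ _ hT.ne']
    exact (hw _ fun h => lt_irrefl _ h.2).1
  have hb2 : φ (c₁ * T / T) = 0 := by
    rw [mul_div_cancel_right₀ _ hT.ne']
    exact (hw _ fun h => lt_irrefl _ h.1).1
  rw [hb1, hb2]
  ring

/-! ### the weights are admissible -/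

lemma exists_gd_bound (S : Finset (Ix k)) (hS : S.card = k) : ∃ C : ℝ, 0 ≤ C ∧ ∃ N : ℕ,
    ∀ (γ : Ix k → ℝ) (z : ℂ) (t : ℝ), -(9 / 10) ≤ z.im → z.im ≤ 0 → 1 ≤ t →
        ‖Gd S γ z t‖ ≤ C * (1 + ‖γ‖) ^ N * (1 + |z.re|) ^ N *
          t ^ ((∑ i, corner S i) * |z.im|) ∧
        ‖gd S γ z t‖ ≤ C * (1 + ‖γ‖) ^ N * (1 + |z.re|) ^ N *
          t ^ ((∑ i, corner S i) * |z.im| - 1) := by
  obtain ⟨C, hC, N, g, h1, -, -, -, h2⟩ := exists_Gd S hS
  refine ⟨C, hC, N, fun γ z t h3 h4 h5 => ?_⟩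
  have h6 := h2 γ z t h3 h4 h5
  have h7 : g γ z t = gd S γ z t :=
    (h1 γ z t (by linarith)).unique (hasDerivAt_Gd S γ (by linarith) t)
  rwa [h7] at h6

lemma exists_phi_bound {φ : ℝ → ℂ} (hφ : TF φ) : ∃ B : ℝ, 0 ≤ B ∧ ∀ x, ‖φ x‖ ≤ B ∧ ‖deriv φ x‖ ≤ B := by
  obtain ⟨B₀, h0⟩ := hφ.smooth.continuous.bounded_above_of_compact_support hφ.cpt
  obtain ⟨B₁, h1⟩ := (continuous_deriv_phi hφ).bounded_above_of_compact_support hφ.cpt.deriv
  exact ⟨max B₀ B₁, ((norm_nonneg _).trans (h0 0)).trans (le_max_left _ _), fun x =>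
    ⟨(h0 x).trans (le_max_left _ _), (h1 x).trans (le_max_right _ _)⟩⟩

lemma Wc_bound (S : Finset (Ix k)) (hS : S.card = k) {φ : ℝ → ℂ} (hφ : TF φ) : ∃ C : ℝ, 0 ≤ C ∧
    ∃ N : ℕ, ∀ (γ : Ix k → ℝ) (T t : ℝ) (z : ℂ), 0 < T → 1 ≤ t → -(9 / 10) ≤ z.im → z.im ≤ 0 →
      ‖Wc S φ γ T z t‖ ≤ C * (1 + ‖γ‖) ^ N * (1 + |z.re|) ^ N *
        T ^ ((∑ i, corner S i) * |z.im| - 1) := by
  obtain ⟨c₁, c₂, hc₁, hc₂, hw⟩ := exists_window hφ
  obtain ⟨C, hC, N, hb⟩ := exists_gd_bound S hS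
  obtain ⟨P, hP, hPb⟩ := exists_phi_bound hφ
  set s : ℝ := ∑ i, corner S i with hs
  have hs0 : 0 ≤ s := Finset.sum_nonneg fun i _ => corner_nonneg S i
  set D : ℝ := max c₂ 1 ^ s with hD
  have hD0 : 0 ≤ D := by positivity
  refine ⟨(P + P / c₁) * C * D, by positivity, N, fun γ T t z hT ht h0 h1 => ?_⟩
  set B : ℝ := (1 + ‖γ‖) ^ N * (1 + |z.re|) ^ N with hB
  have hB0 : 0 ≤ B := by positivity
  have hT' : 0 ≤ T ^ (s * |z.im| - 1) := by positivity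
  by_cases hmem : t / T ∈ Set.Ioo c₁ c₂
  · obtain ⟨h3, h4⟩ := hmem
    rw [lt_div_iff₀ hT] at h3
    rw [div_lt_iff₀ hT] at h4
    have ht0 : 0 < t := by linarith
    obtain ⟨h5, h6⟩ := hb γ z t h0 h1 ht
    have hy1 : |z.im| ≤ 1 := by rw [abs_of_nonpos h1]; linarith
    have h7 : t ^ (s * |z.im|) ≤ D * T ^ (s * |z.im|) := by
      have hsy : 0 ≤ s * |z.im| := by positivity
      calc t ^ (s * |z.im|) ≤ (max c₂ 1 * T) ^ (s * |z.im|) := by
            gcongr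
            exact h4.le.trans (by gcongr; exact le_max_left _ _)
        _ = max c₂ 1 ^ (s * |z.im|) * T ^ (s * |z.im|) :=
            Real.mul_rpow (by positivity) hT.le
        _ ≤ max c₂ 1 ^ s * T ^ (s * |z.im|) := by
            gcongr
            · exact le_max_right _ _
            · exact mul_le_of_le_one_right hs0 hy1
    have h8 : T⁻¹ * T ^ (s * |z.im|) = T ^ (s * |z.im| - 1) := by
      rw [Real.rpow_sub_one hT.ne']; field_simp
    have h9 : T⁻¹ * ‖Gd S γ z t‖ ≤ C * B * D * T ^ (s * |z.im| - 1) := by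
      calc T⁻¹ * ‖Gd S γ z t‖ ≤ T⁻¹ * (C * (1 + ‖γ‖) ^ N * (1 + |z.re|) ^ N * t ^ (s * |z.im|)) := by
            gcongr
        _ ≤ T⁻¹ * (C * (1 + ‖γ‖) ^ N * (1 + |z.re|) ^ N * (D * T ^ (s * |z.im|))) := by gcongr
        _ = C * B * D * (T⁻¹ * T ^ (s * |z.im|)) := by rw [hB]; ring
        _ = _ := by rw [h8]
    have h10 : ‖gd S γ z t‖ ≤ C * B * D * T ^ (s * |z.im| - 1) / c₁ := by
      have h11 : t ^ (s * |z.im| - 1) ≤ (c₁ * T)⁻¹ * (D * T ^ (s * |z.im|)) := by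
        rw [Real.rpow_sub_one ht0.ne', div_eq_inv_mul]
        gcongr
      calc ‖gd S γ z t‖ ≤ C * (1 + ‖γ‖) ^ N * (1 + |z.re|) ^ N * t ^ (s * |z.im| - 1) := h6
        _ ≤ C * (1 + ‖γ‖) ^ N * (1 + |z.re|) ^ N * ((c₁ * T)⁻¹ * (D * T ^ (s * |z.im|))) := by gcongr
        _ = C * B * D * (T⁻¹ * T ^ (s * |z.im|)) / c₁ := by
            rw [hB, mul_inv]; ring
        _ = _ := by rw [h8]
    unfold Wc
    refine (norm_add_le _ _).trans ?_
    rw [norm_mul, norm_mul, norm_mul, Complex.norm_real, Real.norm_eq_abs,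
      abs_of_pos (inv_pos.2 hT)]
    have h12 := (hPb (t / T)).1
    have h13 := (hPb (t / T)).2
    calc T⁻¹ * ‖deriv φ (t / T)‖ * ‖Gd S γ z t‖ + ‖φ (t / T)‖ * ‖gd S γ z t‖
        = ‖deriv φ (t / T)‖ * (T⁻¹ * ‖Gd S γ z t‖) + ‖φ (t / T)‖ * ‖gd S γ z t‖ := by ring
      _ ≤ P * (C * B * D * T ^ (s * |z.im| - 1)) + P * (C * B * D * T ^ (s * |z.im| - 1) / c₁) := by
          gcongr
      _ = _ := by rw [hB]; ring
  · have h3 := hw _ hmem
    unfold Wc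
    rw [h3.1, h3.2]
    simp only [mul_zero, zero_mul, add_zero, norm_zero]
    positivity

lemma log_T_ge {T : ℝ} (hT : 3 ≤ T) : 1 ≤ Real.log T := by
  rw [Real.le_log_iff_exp_le (by linarith)]
  have := Real.exp_one_lt_d9
  linarith

/-- the weight in the variable `x` -/
noncomputable def wx (S : Finset (Ix k)) (φ b : ℝ → ℂ) (γ : Ix k → ℝ) (T t : ℝ) (z : ℂ) : ℂ :=
  (Real.log T : ℂ) * pwf b (Real.log T * z) * Wc S φ γ T z t

lemma differentiableOn_wx (S : Finset (Ix k)) (φ : ℝ → ℂ) {b : ℝ → ℂ} (hb : Bp b)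
    (γ : Ix k → ℝ) (T t : ℝ) :
    DifferentiableOn ℂ (wx S φ b γ T t) {z : ℂ | -1 < z.im ∧ z.im < 1 / 8} := by
  have hsub : {z : ℂ | -1 < z.im ∧ z.im < 1 / 8} ⊆ {z : ℂ | z.im < 1 / 4} := by
    intro z hz
    have := hz.2
    show z.im < 1 / 4
    linarith
  have h1 := (differentiableOn_Gd S γ t).mono hsub
  have h2 := (differentiableOn_gd S γ t).mono hsub
  have h3 : Differentiable ℂ fun z : ℂ => pwf b (Real.log T * z) :=
    (pwf_differentiable hb).comp (by fun_prop : Differentiable ℂ fun z : ℂ => (Real.log T : ℂ) * z)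
  have h4 := (h3.differentiableOn (s := {z : ℂ | -1 < z.im ∧ z.im < 1 / 8})).const_mul (Real.log T : ℂ)
  have h5 := h4.mul ((h1.const_mul (T⁻¹ * deriv φ (t / T))).add (h2.const_mul (φ (t / T))))
  exact h5

lemma exists_Wl (S : Finset (Ix k)) (hS : S.card = k) {φ : ℝ → ℂ} (hφ : TF φ) {δ : ℝ}
    (hδ1 : δ ≤ 1) {b : ℝ → ℂ} (hb : Bp b)
    (hbs : ∀ ξ, b ξ ≠ 0 → ξ + ∑ i, corner S i ≤ 2 - δ) (n : ℕ) : ∃ C : ℝ, 0 ≤ C ∧ ∃ N : ℕ,
    ∀ (γ : Ix k → ℝ) (T t Y : ℝ), 3 ≤ T → 1 ≤ t → Y ≤ 9 / 10 →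
      Wl n (C * (1 + ‖γ‖) ^ N * (Real.log T * T ^ ((2 - δ) * Y - 1))) Y (wx S φ b γ T t) := by
  obtain ⟨C, hC, N, hW⟩ := Wc_bound S hS hφ
  set s : ℝ := ∑ i, corner S i with hs
  obtain ⟨C', hC', hp⟩ := pwf_bound_neg hb (q := 2 - δ - s) (fun ξ h => by
    have := hbs ξ h
    linarith) (n + N)
  refine ⟨C' * C, by positivity, N, fun γ T t Y hT ht hY => ⟨differentiableOn_wx S φ hb γ T t,
    fun z h0 h1 => ?_⟩⟩
  have hT0 : 0 < T := by linarith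
  have hL := log_T_ge hT
  have hL0 : 0 < Real.log T := by linarith
  set L := Real.log T with hLdef
  have h2 := hW γ T t z hT0 ht (by linarith) h1
  have e1 : ((L : ℂ) * z).im = L * z.im := Complex.im_ofReal_mul _ _
  have h3 := hp (L * z) (by rw [e1]; exact mul_nonpos_of_nonneg_of_nonpos hL0.le h1)
  have h4 : |z.re| ≤ ‖(L : ℂ) * z‖ := by
    rw [norm_mul, Complex.norm_real, Real.norm_eq_abs, abs_of_pos hL0]
    have := Complex.abs_re_le_norm z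
    nlinarith [norm_nonneg z]
  have h5 : (1 + |z.re|) ^ (n + N) * ‖pwf b (L * z)‖ ≤ C' * T ^ ((2 - δ - s) * |z.im|) := by
    have e2 : Real.exp ((2 - δ - s) * -((L : ℂ) * z).im) = T ^ ((2 - δ - s) * |z.im|) := by
      rw [Real.rpow_def_of_pos hT0, e1, abs_of_nonpos h1, hLdef]
      congr 1
      ring
    rw [← e2]
    refine le_trans ?_ h3
    gcongr
  have h6 : T ^ ((2 - δ - s) * |z.im|) * T ^ (s * |z.im| - 1) ≤ T ^ ((2 - δ) * Y - 1) := by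
    rw [← Real.rpow_add hT0]
    apply Real.rpow_le_rpow_of_exponent_le (by linarith)
    have h7 : |z.im| ≤ Y := by rw [abs_of_nonpos h1]; linarith
    have h8 : (2 - δ) * |z.im| ≤ (2 - δ) * Y := by
      apply mul_le_mul_of_nonneg_left h7
      linarith
    linarith
  unfold wx
  rw [← hLdef, norm_mul, norm_mul, Complex.norm_real, Real.norm_eq_abs, abs_of_pos hL0]
  calc (1 + |z.re|) ^ n * (L * ‖pwf b (L * z)‖ * ‖Wc S φ γ T z t‖)
      ≤ (1 + |z.re|) ^ n * (L * ‖pwf b (L * z)‖ *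
        (C * (1 + ‖γ‖) ^ N * (1 + |z.re|) ^ N * T ^ (s * |z.im| - 1))) := by gcongr
    _ = ((1 + |z.re|) ^ (n + N) * ‖pwf b (L * z)‖) *
        (C * (1 + ‖γ‖) ^ N * L * T ^ (s * |z.im| - 1)) := by rw [pow_add]; ring
    _ ≤ (C' * T ^ ((2 - δ - s) * |z.im|)) * (C * (1 + ‖γ‖) ^ N * L * T ^ (s * |z.im| - 1)) := by
        gcongr
    _ = C' * C * (1 + ‖γ‖) ^ N * (L * (T ^ ((2 - δ - s) * |z.im|) * T ^ (s * |z.im| - 1))) := by ring
    _ ≤ C' * C * (1 + ‖γ‖) ^ N * (L * T ^ ((2 - δ) * Y - 1)) := by gcongr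

/-! ### Fubini -/

lemma pwf_real_decay {b : ℝ → ℂ} (hb : Bp b) {q : ℝ} (hq : ∀ ξ, b ξ ≠ 0 → ξ ≤ q) (N : ℕ) :
    ∃ C : ℝ, 0 ≤ C ∧ ∀ y : ℝ, (1 + |y|) ^ N * ‖pwf b y‖ ≤ C := by
  obtain ⟨C, hC, h⟩ := pwf_bound_neg hb hq N
  refine ⟨C, hC, fun y => ?_⟩
  have h1 := h y (by simp)
  simpa using h1

lemma continuous_pwf_real {b : ℝ → ℂ} (hb : Bp b) : Continuous fun y : ℝ => pwf b y :=
  (pwf_differentiable hb).continuous.comp Complex.continuous_ofReal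

/-- an integrable majorant -/
lemma integrable_majorant {f : ℝ → ℝ} {C : ℝ} (hf : ∀ y, (1 + |y|) ^ 2 * f y ≤ C)
    (hf0 : ∀ y, 0 ≤ f y) (y : ℝ) : f y ≤ C * (1 + y ^ 2)⁻¹ := by
  rw [← div_eq_mul_inv, le_div_iff₀ (by positivity), mul_comm]
  refine le_trans ?_ (hf y)
  have h1 : 1 + y ^ 2 ≤ (1 + |y|) ^ 2 := by
    have := sq_abs y
    nlinarith [abs_nonneg y]
  have := hf0 y
  gcongr

lemma norm_perm_le (γ : Ix k → ℝ) (σ : Equiv.Perm (Ix k)) : ‖fun i => γ (σ i)‖ ≤ ‖γ‖ :=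
  (pi_norm_le_iff_of_nonneg (norm_nonneg _)).2 fun i => norm_le_pi_norm γ (σ i)

lemma integrable_F (S : Finset (Ix k)) (hS : S.card = k) {φ : ℝ → ℂ} (hφ : TF φ)
    {b : ℝ → ℂ} (hb : Bp b) {q : ℝ} (hq : ∀ ξ, b ξ ≠ 0 → ξ ≤ q) (γ γ' : Ix k → ℝ) {T L A B : ℝ}
    (hT : 0 < T) (hL : 1 ≤ L) (hA : 1 ≤ A) :
    Integrable (fun p : ℝ × ℝ => pwf b p.1 * (Wc S φ γ T (p.1 / L : ℝ) p.2 *
      Er (γ' + (p.1 / L) • sg) p.2)) (volume.prod (volume.restrict (Set.Ioc A B))) := by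
  obtain ⟨C, hC, N, hW⟩ := Wc_bound S hS hφ
  obtain ⟨CE, hCE, hE⟩ := exists_Er_poly k
  obtain ⟨C', hC', hp⟩ := pwf_real_decay hb hq (N + NK k + 2)
  set s : ℝ := ∑ i, corner S i with hs
  set K : ℝ := C * (1 + ‖γ‖) ^ N * T ^ (s * |(0:ℝ)| - 1) * (CE * (1 + ‖γ'‖) ^ NK k * |B| ^ (2 * k + 1))
    with hK
  have hK0 : 0 ≤ K := by positivity
  have hmaj : Integrable (fun p : ℝ × ℝ => C' * K * (1 + p.1 ^ 2)⁻¹)
      (volume.prod (volume.restrict (Set.Ioc A B))) := by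
    have h1 : Integrable (fun y : ℝ => C' * K * (1 + y ^ 2)⁻¹) := integrable_inv_one_add_sq.const_mul _
    exact h1.comp_fst _
  have hcont : Continuous fun p : ℝ × ℝ => pwf b p.1 * (Wc S φ γ T (p.1 / L : ℝ) p.2 *
      Er (γ' + (p.1 / L) • sg) p.2) := by
    have h1 : Continuous fun p : ℝ × ℝ => pwf b p.1 := (continuous_pwf_real hb).comp continuous_fst
    have h2 : Continuous fun p : ℝ × ℝ => ((p.1 / L, p.2) : ℝ × ℝ) := by fun_prop
    have h3 := (continuous_Wc_real S hφ γ T).comp h2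
    have h4 : Continuous fun p : ℝ × ℝ => ((γ' + (p.1 / L) • sg, p.2) : (Ix k → ℝ) × ℝ) := by
      fun_prop
    have h5 := (continuous_Er_both (k := k)).comp h4
    have h6 := h1.mul (h3.mul h5)
    exact h6
  refine hmaj.mono' hcont.aestronglyMeasurable ?_
  have hae : ∀ᵐ p : ℝ × ℝ ∂(volume.prod (volume.restrict (Set.Ioc A B))), p.2 ∈ Set.Ioc A B := by
    have h1 : ∀ᵐ t : ℝ ∂(volume.restrict (Set.Ioc A B)), t ∈ Set.Ioc A B :=
      ae_restrict_mem measurableSet_Ioc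
    exact Measure.quasiMeasurePreserving_snd.ae h1
  filter_upwards [hae] with p hp2
  obtain ⟨y, t⟩ := p
  obtain ⟨ht1, ht2⟩ : A < t ∧ t ≤ B := hp2
  have ht : 1 ≤ t := by linarith
  have hyL : |y / L| ≤ |y| := by
    rw [abs_div, abs_of_pos (by linarith : 0 < L)]
    exact div_le_self (abs_nonneg _) hL
  have h1 : ‖Wc S φ γ T (y / L : ℝ) t‖ ≤ C * (1 + ‖γ‖) ^ N * (1 + |y|) ^ N *
      T ^ (s * |(0:ℝ)| - 1) := by
    have := hW γ T t (y / L : ℝ) hT ht (by rw [Complex.ofReal_im]; norm_num) (by rw [Complex.ofReal_im])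
    rw [Complex.ofReal_re, Complex.ofReal_im] at this
    refine this.trans ?_
    gcongr
  have h2 : ‖Er (γ' + (y / L) • sg) t‖ ≤ CE * ((1 + ‖γ'‖) * (1 + |y|)) ^ NK k * |B| ^ (2 * k + 1) := by
    have h3 := hE (γ' + (y / L) • sg) (‖γ'‖ + |y|) t (by positivity) ht (fun i => by
      show |γ' i + y / L * sg i| ≤ _
      refine (abs_add_le _ _).trans ?_
      rw [abs_mul, abs_sg, mul_one]
      have : |γ' i| ≤ ‖γ'‖ := by rw [← Real.norm_eq_abs]; exact norm_le_pi_norm γ' i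
      linarith)
    refine h3.trans ?_
    have h4 := norm_nonneg γ'
    have h5 := abs_nonneg y
    gcongr
    · nlinarith [mul_nonneg h4 h5]
    · exact ht2.trans (le_abs_self B)
  show ‖pwf b y * (Wc S φ γ T (y / L : ℝ) t * Er (γ' + (y / L) • sg) t)‖ ≤ C' * K * (1 + y ^ 2)⁻¹
  rw [norm_mul, norm_mul]
  have h6 : ∀ y : ℝ, (1 + |y|) ^ 2 * (‖pwf b y‖ * (1 + |y|) ^ (N + NK k)) ≤ C' := by
    intro y
    have := hp y
    calc _ = (1 + |y|) ^ (N + NK k + 2) * ‖pwf b y‖ := by rw [pow_add _ (N + NK k) 2]; ring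
      _ ≤ C' := this
  have h7 := integrable_majorant h6 (fun y => by positivity) y
  calc ‖pwf b y‖ * (‖Wc S φ γ T (y / L : ℝ) t‖ * ‖Er (γ' + (y / L) • sg) t‖)
      ≤ ‖pwf b y‖ * ((C * (1 + ‖γ‖) ^ N * (1 + |y|) ^ N * T ^ (s * |(0:ℝ)| - 1)) *
        (CE * ((1 + ‖γ'‖) * (1 + |y|)) ^ NK k * |B| ^ (2 * k + 1))) := by gcongr
    _ = (‖pwf b y‖ * (1 + |y|) ^ (N + NK k)) * K := by
        rw [hK, mul_pow, pow_add]; ring
    _ ≤ (C' * (1 + y ^ 2)⁻¹) * K := by gcongr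
    _ = _ := by ring

/-- exchange of the integrals -/
lemma swap (S : Finset (Ix k)) (hS : S.card = k) {φ : ℝ → ℂ} (hφ : TF φ)
    {c₁ c₂ : ℝ} (hc₁ : 0 < c₁) (hc₂ : c₁ < c₂)
    (hw : ∀ x, x ∉ Set.Ioo c₁ c₂ → φ x = 0 ∧ deriv φ x = 0) {σ : Equiv.Perm (Ix k)}
    (hσ : S = (S0 k).map σ.toEmbedding) (hco : ∀ γ : Ix k → ℝ, ∀ t : ℝ,
      De γ t = G S (fun i => (γ i : ℂ)) (t : ℂ) * De (fun i => γ (σ i)) t)
    {b : ℝ → ℂ} (hb : Bp b) {q : ℝ} (hq : ∀ ξ, b ξ ≠ 0 → ξ ≤ q) (γ : Ix k → ℝ) {T L : ℝ}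
    (hT : 0 < T) (hL : 1 ≤ L) (hA : 1 ≤ c₁ * T) :
    ∫ y : ℝ, pwf b y * Fp φ (γ + (y / L) • dir S) T =
      -∫ t in Set.Ioc (c₁ * T) (c₂ * T), ∫ y : ℝ, pwf b y * (Wc S φ γ T (y / L : ℝ) t *
        Er ((fun i => γ (σ i)) + (y / L) • sg) t) := by
  have hab : c₁ * T ≤ c₂ * T := by gcongr
  have h1 := integrable_F S hS hφ hb hq γ (fun i => γ (σ i)) (B := c₂ * T) hT hL hA
  have h2 := MeasureTheory.integral_integral_swap
    (f := fun (y t : ℝ) => pwf b y * (Wc S φ γ T (y / L : ℝ) t *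
        Er ((fun i => γ (σ i)) + (y / L) • sg) t)) h1
  rw [← h2, ← integral_neg]
  congr 1
  funext y
  rw [Fp_ibp S hφ hc₁ hc₂ hw hσ hco γ (y / L) hT, intervalIntegral.integral_of_le hab,
    integral_const_mul]
  ring

lemma inner_bound (S : Finset (Ix k)) {φ : ℝ → ℂ} {b : ℝ → ℂ} (γ γ' : Ix k → ℝ) {T t : ℝ}
    (hL : 1 ≤ Real.log T) :
    ∫ y : ℝ, pwf b y * (Wc S φ γ T (y / Real.log T : ℝ) t * Er (γ' + (y / Real.log T) • sg) t) =
      ∫ x : ℝ, wx S φ b γ T t x * Er (γ' + x • sg) t := by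
  have hL0 : 0 < Real.log T := by linarith
  have h := Measure.integral_comp_mul_left (fun y : ℝ => pwf b y *
    (Wc S φ γ T (y / Real.log T : ℝ) t * Er (γ' + (y / Real.log T) • sg) t)) (Real.log T)
  rw [abs_of_pos (inv_pos.2 hL0)] at h
  have h2 : ∫ y : ℝ, pwf b y * (Wc S φ γ T (y / Real.log T : ℝ) t *
      Er (γ' + (y / Real.log T) • sg) t) = (Real.log T : ℂ) *
      ∫ x : ℝ, pwf b ((Real.log T * x : ℝ) : ℂ) * (Wc S φ γ T ((Real.log T * x) / Real.log T : ℝ) t *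
      Er (γ' + ((Real.log T * x) / Real.log T) • sg) t) := by
    rw [h, Complex.real_smul, ← mul_assoc]
    push_cast
    rw [mul_inv_cancel₀ (by exact_mod_cast hL0.ne'), one_mul]
  rw [h2, ← integral_const_mul]
  congr 1
  funext x
  rw [mul_div_cancel_left₀ _ hL0.ne', wx]
  push_cast
  ring

lemma abs_dir (S : Finset (Ix k)) (i : Ix k) : |dir S i| = 1 := by
  rw [dir, abs_mul, abs_sg, one_mul]
  rcases corner_zero_or_one S i with h | h <;> rw [h] <;> norm_num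

lemma norm_dir_le (S : Finset (Ix k)) : ‖dir S‖ ≤ 1 :=
  (pi_norm_le_iff_of_nonneg zero_le_one).2 fun i => by rw [Real.norm_eq_abs, abs_dir]

/-- small `T` -/
lemma small_T (S : Finset (Ix k)) {φ : ℝ → ℂ} (hφ : TF φ) {b : ℝ → ℂ} (hb : Bp b) {q : ℝ}
    (hq : ∀ ξ, b ξ ≠ 0 → ξ ≤ q) (T₁ : ℝ) : ∃ C : ℝ, 0 ≤ C ∧ ∃ N : ℕ,
    ∀ (γ : Ix k → ℝ) (T : ℝ), 3 ≤ T → T ≤ T₁ →
      ‖∫ y : ℝ, pwf b y * Fp φ (γ + (y / Real.log T) • dir S) T‖ ≤ C * (1 + ‖γ‖) ^ N := by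
  obtain ⟨CF, hCF, N, A, hF⟩ := Fp_poly k hφ
  obtain ⟨C', hC', hp⟩ := pwf_real_decay hb hq (N + 2)
  refine ⟨C' * (CF * |T₁| ^ A) * Real.pi, by positivity, N, fun γ T hT hT1 => ?_⟩
  have hL := log_T_ge hT
  have hL0 : 0 < Real.log T := by linarith
  set K : ℝ := CF * (1 + ‖γ‖) ^ N * |T₁| ^ A with hK
  have hK0 : 0 ≤ K := by positivity
  have h6 : ∀ y : ℝ, (1 + |y|) ^ 2 * (‖pwf b y‖ * (1 + |y|) ^ N) ≤ C' := by
    intro y
    have := hp y
    calc _ = (1 + |y|) ^ (N + 2) * ‖pwf b y‖ := by rw [pow_add]; ring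
      _ ≤ C' := this
  have h1 : ∀ y : ℝ, ‖pwf b y * Fp φ (γ + (y / Real.log T) • dir S) T‖ ≤
      C' * K * (1 + y ^ 2)⁻¹ := by
    intro y
    rw [norm_mul]
    have h7 := integrable_majorant h6 (fun y => by positivity) y
    have h8 : ‖γ + (y / Real.log T) • dir S‖ ≤ ‖γ‖ + |y| := by
      refine (norm_add_le _ _).trans ?_
      rw [norm_smul, Real.norm_eq_abs]
      have h9 : |y / Real.log T| ≤ |y| := by
        rw [abs_div, abs_of_pos hL0]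
        exact div_le_self (abs_nonneg _) hL
      have h10 := norm_dir_le S
      have := mul_le_mul h9 h10 (norm_nonneg _) (abs_nonneg _)
      linarith
    have h9 : ‖Fp φ (γ + (y / Real.log T) • dir S) T‖ ≤ K * (1 + |y|) ^ N := by
      refine (hF _ T (by linarith)).trans ?_
      have h4 := norm_nonneg γ
      have h5 := abs_nonneg y
      calc CF * (1 + ‖γ + (y / Real.log T) • dir S‖) ^ N * T ^ A
          ≤ CF * ((1 + ‖γ‖) * (1 + |y|)) ^ N * |T₁| ^ A := by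
            gcongr
            · nlinarith [mul_nonneg h4 h5]
            · exact hT1.trans (le_abs_self _)
        _ = _ := by rw [hK, mul_pow]; ring
    calc ‖pwf b y‖ * ‖Fp φ (γ + (y / Real.log T) • dir S) T‖ ≤ ‖pwf b y‖ * (K * (1 + |y|) ^ N) := by
          gcongr
      _ = (‖pwf b y‖ * (1 + |y|) ^ N) * K := by ring
      _ ≤ (C' * (1 + y ^ 2)⁻¹) * K := by gcongr
      _ = _ := by ring
  have h2 := norm_integral_le_of_norm_le (integrable_inv_one_add_sq.const_mul (C' * K))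
    (Eventually.of_forall h1)
  refine h2.trans (le_of_eq ?_)
  rw [integral_const_mul, integral_univ_inv_one_add_sq, hK]
  ring

end CS

open CS in
theorem chart_S (S : Finset (Ix k)) (hS : S.card = k) {φ : ℝ → ℂ} (hφ : TF φ) {δ : ℝ}
    (hδ : 0 < δ) {b : ℝ → ℂ} (hb : Bp b)
    (hbs : ∀ ξ, b ξ ≠ 0 → ξ + ∑ i, corner S i ≤ 2 - δ) : ∃ c : ℝ, 0 < c ∧ ∃ C : ℝ, 0 ≤ C ∧ ∃ N : ℕ,
    ∀ (γ : Ix k → ℝ) (T : ℝ), 3 ≤ T →
      ‖∫ y : ℝ, pwf b y * Fp φ (γ + (y / Real.log T) • dir S) T‖ ≤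
        C * (1 + ‖γ‖) ^ N * T ^ (1 - c) := by
  obtain ⟨σ, hσ, hco⟩ := cocycle_all S hS
  obtain ⟨c₁, c₂, hc₁, hc₂, hw⟩ := exists_window hφ
  have hc₂0 : 0 < c₂ := hc₁.trans hc₂
  set d : ℝ := min δ 1 with hd
  have hd0 : 0 < d := lt_min hδ one_pos
  have hd1 : d ≤ 1 := min_le_right _ _
  have hdδ : d ≤ δ := min_le_left _ _
  have hbs' : ∀ ξ, b ξ ≠ 0 → ξ + ∑ i, corner S i ≤ 2 - d := fun ξ h => by
    have := hbs ξ h
    linarith
  have hq : ∀ ξ, b ξ ≠ 0 → ξ ≤ 2 - d - ∑ i, corner S i := fun ξ h => by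
    have := hbs' ξ h
    linarith
  obtain ⟨CA, hCA, NA, hA⟩ := exists_avg_poly k (ρ := d / 128) (by positivity) (by linarith)
    (η := d / 8) (by positivity) (by linarith)
  obtain ⟨CW, hCW, NW, hWl⟩ := exists_Wl S hS hφ hd1 hb hbs' (AK k)
  obtain ⟨CF, hCF, NF, hF⟩ := small_T S hφ hb hq (1 / c₁)
  set e : ℝ := 3 / 4 + 4 * (d / 128) with he
  set K : ℝ := CA * CW * (1 + c₂ ^ e) * (1 / (d / 32)) * c₂ with hK
  have hK0 : 0 ≤ K := by positivity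
  refine ⟨d / 16, by positivity, K + CF, by positivity, NA + NW + NF, fun γ T hT => ?_⟩
  have hT0 : 0 < T := by linarith
  have hγ := norm_nonneg γ
  have hγ1 : 1 ≤ 1 + ‖γ‖ := by linarith
  have hTc : 1 ≤ T ^ (1 - d / 16) := Real.one_le_rpow (by linarith) (by linarith)
  rcases le_or_gt 1 (c₁ * T) with hcase | hcase
  · have hL := log_T_ge hT
    rw [swap S hS hφ hc₁ hc₂ hw hσ hco hb hq γ hT0 hL hcase, norm_neg]
    have hbound : ∀ t ∈ Set.Ioc (c₁ * T) (c₂ * T), ‖∫ y : ℝ, pwf b y * (Wc S φ γ T (y / Real.log T : ℝ) t *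
        Er ((fun i => γ (σ i)) + (y / Real.log T) • sg) t)‖ ≤
        CA * CW * (1 + ‖γ‖) ^ (NA + NW) * (1 + c₂ ^ e) * (1 / (d / 32)) * T ^ (-(d / 16)) := by
      intro t ht
      have ht1 : 1 ≤ t := hcase.trans ht.1.le
      have ht0 : 0 < t := by linarith
      rw [inner_bound S γ _ hL]
      have h1 := hWl γ T t (1 / 8) hT ht1 (by norm_num)
      have h2 := hWl γ T t (1 / 2 + d / 8) hT ht1 (by linarith)
      have h3 := (hA (fun i => γ (σ i)) (wx S φ b γ T t) _ _ h1 h2 t ht1).2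
      refine h3.trans ?_
      have h4 : t ^ e ≤ c₂ ^ e * T ^ e := by
        rw [← Real.mul_rpow hc₂0.le hT0.le]
        have := ht.2
        gcongr
      have h5 : T ^ ((2 - d) * (1 / 8) - 1) * T ^ e = T ^ (-(3 * d / 32)) := by
        rw [← Real.rpow_add hT0]
        congr 1
        rw [he]
        ring
      have h6 : T ^ ((2 - d) * (1 / 2 + d / 8) - 1) ≤ T ^ (-(3 * d / 32)) := by
        apply Real.rpow_le_rpow_of_exponent_le (by linarith)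
        nlinarith
      have h7 : Real.log T ≤ T ^ (d / 32) / (d / 32) := Real.log_le_rpow_div hT0.le (by positivity)
      have h8 : T ^ (d / 32) * T ^ (-(3 * d / 32)) = T ^ (-(d / 16)) := by
        rw [← Real.rpow_add hT0]
        congr 1
        ring
      have h9 : (1 + ‖fun i => γ (σ i)‖) ^ NA ≤ (1 + ‖γ‖) ^ NA := by
        gcongr
        exact norm_perm_le γ σ
      calc CA * (1 + ‖fun i => γ (σ i)‖) ^ NA * (CW * (1 + ‖γ‖) ^ NW *
            (Real.log T * T ^ ((2 - d) * (1 / 2 + d / 8) - 1)) + CW * (1 + ‖γ‖) ^ NW *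
            (Real.log T * T ^ ((2 - d) * (1 / 8) - 1)) * t ^ e)
          ≤ CA * (1 + ‖γ‖) ^ NA * (CW * (1 + ‖γ‖) ^ NW *
            (Real.log T * T ^ (-(3 * d / 32))) + CW * (1 + ‖γ‖) ^ NW *
            (Real.log T * T ^ ((2 - d) * (1 / 8) - 1)) * (c₂ ^ e * T ^ e)) := by gcongr
        _ = CA * CW * (1 + ‖γ‖) ^ (NA + NW) * Real.log T * (T ^ (-(3 * d / 32)) +
            c₂ ^ e * (T ^ ((2 - d) * (1 / 8) - 1) * T ^ e)) := by rw [pow_add]; ring
        _ = CA * CW * (1 + ‖γ‖) ^ (NA + NW) * (1 + c₂ ^ e) * (Real.log T * T ^ (-(3 * d / 32))) := by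
            rw [h5]; ring
        _ ≤ CA * CW * (1 + ‖γ‖) ^ (NA + NW) * (1 + c₂ ^ e) *
            (T ^ (d / 32) / (d / 32) * T ^ (-(3 * d / 32))) := by gcongr
        _ = CA * CW * (1 + ‖γ‖) ^ (NA + NW) * (1 + c₂ ^ e) * (1 / (d / 32)) *
            (T ^ (d / 32) * T ^ (-(3 * d / 32))) := by ring
        _ = _ := by rw [h8]
    have h1 := norm_setIntegral_le_of_norm_le_const (μ := volume) (s := Set.Ioc (c₁ * T) (c₂ * T))
      (by rw [Real.volume_Ioc]; exact ENNReal.ofReal_lt_top) hbound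
    refine h1.trans ?_
    have h2 : (volume : Measure ℝ).real (Set.Ioc (c₁ * T) (c₂ * T)) ≤ c₂ * T := by
      rw [Real.volume_real_Ioc_of_le (by gcongr)]
      have : 0 < c₁ * T := by positivity
      linarith
    have h3 : T ^ (-(d / 16)) * T = T ^ (1 - d / 16) := by
      rw [sub_eq_add_neg, Real.rpow_add hT0, Real.rpow_one]
      ring
    have h4 : (1 + ‖γ‖) ^ (NA + NW) ≤ (1 + ‖γ‖) ^ (NA + NW + NF) :=
      pow_le_pow_right₀ hγ1 (by omega)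
    calc _ ≤ (CA * CW * (1 + ‖γ‖) ^ (NA + NW) * (1 + c₂ ^ e) * (1 / (d / 32)) * T ^ (-(d / 16))) *
          (c₂ * T) := by gcongr
      _ = K * (1 + ‖γ‖) ^ (NA + NW) * (T ^ (-(d / 16)) * T) := by rw [hK]; ring
      _ = K * (1 + ‖γ‖) ^ (NA + NW) * T ^ (1 - d / 16) := by rw [h3]
      _ ≤ (K + CF) * (1 + ‖γ‖) ^ (NA + NW + NF) * T ^ (1 - d / 16) := by
          gcongr
          linarith
  · have h1 : T ≤ 1 / c₁ := by
      rw [le_div_iff₀ hc₁]
      linarith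
    refine (hF γ T hT h1).trans ?_
    have h4 : (1 + ‖γ‖) ^ NF ≤ (1 + ‖γ‖) ^ (NA + NW + NF) := pow_le_pow_right₀ hγ1 (by omega)
    calc CF * (1 + ‖γ‖) ^ NF = CF * (1 + ‖γ‖) ^ NF * 1 := by ring
      _ ≤ (K + CF) * (1 + ‖γ‖) ^ (NA + NW + NF) * T ^ (1 - d / 16) := by
          gcongr
          linarith

end Pool.Agent.H26
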