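import Pool.Agent.H26.SP.PW
import Pool.Agent.H26.LA3

/-!
Functions which are analytic in a strip and of polynomial growth are band limited.
-/

namespace Pool.Agent.H26

open Complex Finset MeasureTheory Filter Asymptotics Topology
open scoped ContDiff

namespace BL

/-- the two halves of the derivative -/
noncomputable def hp (b : ℝ → ℂ) (ξ : ℝ) : ℂ := if 0 < ξ then deriv b ξ else 0

noncomputable def hn (b : ℝ → ℂ) (ξ : ℝ) : ℂ := if 0 < ξ then 0 else deriv b ξ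

variable {b : ℝ → ℂ} {R : ℝ}

lemma deriv_eq_zero (hb1 : ∀ ξ, |ξ| ≤ R → b ξ = 1) {ξ : ℝ} (h : |ξ| < R) : deriv b ξ = 0 := by
  have h1 : b =ᶠ[𝓝 ξ] fun _ => 1 := by
    have h2 : {x : ℝ | |x| < R} ∈ 𝓝 ξ := (isOpen_lt continuous_abs continuous_const).mem_nhds h
    filter_upwards [h2] with x hx using hb1 x hx.le
  rw [h1.deriv_eq, deriv_const]

lemma bp_deriv (hb : Bp b) : Bp (deriv b) := by
  refine ⟨?_, hb.cpt.deriv⟩
  have h := hb.smooth
  exact (contDiff_infty_iff_deriv.1 h).2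

lemma bp_hp (hb : Bp b) (hR : 0 < R) (hb1 : ∀ ξ, |ξ| ≤ R → b ξ = 1) : Bp (hp b) := by
  have hd := bp_deriv hb
  constructor
  · rw [contDiff_iff_contDiffAt]
    intro ξ
    rcases lt_or_ge 0 ξ with h | h
    · have h1 : hp b =ᶠ[𝓝 ξ] deriv b := by
        filter_upwards [(isOpen_lt continuous_const continuous_id).mem_nhds h] with x hx
        exact if_pos hx
      exact hd.smooth.contDiffAt.congr_of_eventuallyEq h1
    · have h1 : hp b =ᶠ[𝓝 ξ] fun _ => 0 := by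
        filter_upwards [(isOpen_lt continuous_id continuous_const).mem_nhds
          (show ξ < R by linarith)] with x hx
        rcases lt_or_ge 0 x with h2 | h2
        · rw [hp, if_pos h2]
          exact deriv_eq_zero hb1 (by rw [abs_of_pos h2]; exact hx)
        · exact if_neg (not_lt.2 h2)
      exact contDiffAt_const.congr_of_eventuallyEq h1
  · refine hd.cpt.mono' ?_
    intro x hx
    refine subset_tsupport _ ?_
    rw [Function.mem_support] at hx ⊢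
    intro h0
    apply hx
    unfold hp
    rw [h0]
    simp

lemma hp_add_hn (ξ : ℝ) : hp b ξ + hn b ξ = deriv b ξ := by
  unfold hp hn
  split_ifs <;> simp

lemma bp_hn (hb : Bp b) (hR : 0 < R) (hb1 : ∀ ξ, |ξ| ≤ R → b ξ = 1) : Bp (hn b) := by
  have hd := bp_deriv hb
  have hp' := bp_hp hb hR hb1
  have e : hn b = fun ξ => deriv b ξ - hp b ξ := by
    funext ξ
    rw [← hp_add_hn (b := b) ξ]
    ring
  constructor
  · rw [e]
    exact hd.smooth.sub hp'.smooth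
  · rw [e]
    exact hd.cpt.sub hp'.cpt

lemma hp_supp (hb1 : ∀ ξ, |ξ| ≤ R → b ξ = 1) {ξ : ℝ} (h : hp b ξ ≠ 0) : R ≤ ξ := by
  by_contra hc
  push Not at hc
  apply h
  unfold hp
  split_ifs with h0
  · exact deriv_eq_zero hb1 (by rw [abs_of_pos h0]; exact hc)
  · rfl

lemma hn_supp (hb1 : ∀ ξ, |ξ| ≤ R → b ξ = 1) {ξ : ℝ} (h : hn b ξ ≠ 0) : ξ ≤ -R := by
  by_contra hc
  push Not at hc
  apply h
  unfold hn
  split_ifs with h0
  · rfl
  · exact deriv_eq_zero hb1 (by rw [abs_of_nonpos (not_lt.1 h0)]; linarith)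

lemma pwf_add {b₁ b₂ : ℝ → ℂ} (h1 : Bp b₁) (h2 : Bp b₂) (z : ℂ) :
    pwf (fun ξ => b₁ ξ + b₂ ξ) z = pwf b₁ z + pwf b₂ z := by
  have hi : ∀ {c : ℝ → ℂ}, Bp c → Integrable fun ξ : ℝ => c ξ * cexp (I * ξ * z) := by
    intro c hc
    have hcont : Continuous fun ξ : ℝ => c ξ * cexp (I * ξ * z) :=
      hc.smooth.continuous.mul (by fun_prop)
    exact hcont.integrable_of_hasCompactSupport hc.cpt.mul_right
  unfold pwf
  rw [← mul_add, ← integral_add (hi h1) (hi h2)]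
  congr 2
  funext ξ
  ring

end BL

open BL in
theorem band_limit {b : ℝ → ℂ} (hb : Bp b) {R : ℝ} (hR : 0 < R) (hb1 : ∀ ξ, |ξ| ≤ R → b ξ = 1)
    (N : ℕ) {v : ℝ} (hv : 0 < v) : ∃ C : ℝ, 0 ≤ C ∧ ∀ (h : ℂ → ℂ) (M Λ : ℝ), 0 ≤ M → 1 ≤ Λ →
      DifferentiableOn ℂ h {z | |z.im| < 2 * v} →
      (∀ z : ℂ, |z.im| ≤ v → ‖h z‖ ≤ M * (1 + |z.re|) ^ N) →
      ‖h 0 - ∫ y : ℝ, pwf b y * h ((y / Λ : ℝ) : ℂ)‖ ≤ C * M * Real.exp (-(R * (v * Λ))) := by
  have hb₁ := bp_hp hb hR hb1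
  have hb₂ := bp_hn hb hR hb1
  obtain ⟨C₁, hC₁0, hC₁⟩ := pwf_bound_pos hb₁ (p := R) (fun ξ h => hp_supp hb1 h) (N + 2)
  obtain ⟨C₂, hC₂0, hC₂⟩ := pwf_bound_neg hb₂ (q := -R) (fun ξ h => hn_supp hb1 h) (N + 2)
  refine ⟨(C₁ + C₂) * (2 / v) * Real.pi, by positivity, ?_⟩
  intro h M Λ hM hΛ hd hbd
  have hΛ0 : 0 < Λ := by linarith
  set Y : ℝ := v * Λ with hY
  have hY0 : 0 < Y := by positivity
  have hYv : v ≤ Y := by rw [hY]; nlinarith
  set g : ℂ → ℂ := fun z => h (z / Λ) with hg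
  have him : ∀ z : ℂ, |(z / (Λ : ℂ)).im| = |z.im| / Λ := by
    intro z
    rw [Complex.div_ofReal_im, abs_div, abs_of_pos hΛ0]
  have hre : ∀ z : ℂ, |(z / (Λ : ℂ)).re| ≤ |z.re| := by
    intro z
    rw [Complex.div_ofReal_re, abs_div, abs_of_pos hΛ0]
    exact div_le_self (abs_nonneg _) hΛ
  have hopen : IsOpen {z : ℂ | |z.im| < 2 * Y} :=
    isOpen_lt (continuous_abs.comp Complex.continuous_im) continuous_const
  have hgd : DifferentiableOn ℂ g {z | |z.im| < 2 * Y} := by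
    intro z hz
    have h1 : |(z / (Λ : ℂ)).im| < 2 * v := by
      rw [him, div_lt_iff₀ hΛ0]
      rw [Set.mem_ofPred_eq, hY] at hz
      linarith
    have h2 : DifferentiableAt ℂ h (z / Λ) := (hd _ h1).differentiableAt
      ((isOpen_lt (continuous_abs.comp Complex.continuous_im) continuous_const).mem_nhds h1)
    exact (DifferentiableAt.comp (f := fun z : ℂ => z / Λ) z h2 (by fun_prop)).differentiableWithinAt
  have hgb : ∀ z : ℂ, |z.im| ≤ Y → ‖g z‖ ≤ M * (1 + |z.re|) ^ N := by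
    intro z hz
    refine (hbd _ ?_).trans ?_
    · rw [him, div_le_iff₀ hΛ0]
      exact hz
    · have := hre z
      have h0 := abs_nonneg (z / (Λ : ℂ)).re
      gcongr
  have h0mem : {z : ℂ | |z.im| < 2 * Y} ∈ 𝓝 (0 : ℂ) := hopen.mem_nhds (by simp [hY0])
  set D : ℂ → ℂ := dslope g 0 with hD
  have hDd : DifferentiableOn ℂ D {z | |z.im| < 2 * Y} :=
    (Complex.differentiableOn_dslope h0mem).2 hgd
  have hDeq : ∀ z, z * D z = g z - g 0 := by
    intro z
    have := sub_smul_dslope g 0 z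
    rwa [sub_zero, smul_eq_mul] at this
  have hg0 : ‖g 0‖ ≤ M := by
    have := hgb 0 (by simp [hY0.le])
    simpa using this
  have hDb : ∀ z : ℂ, |z.im| ≤ Y → ‖z‖ * ‖D z‖ ≤ 2 * M * (1 + |z.re|) ^ N := by
    intro z hz
    rw [← norm_mul, hDeq]
    have h1 : 1 ≤ (1 + |z.re|) ^ N := one_le_pow₀ (by linarith [abs_nonneg z.re])
    calc ‖g z - g 0‖ ≤ ‖g z‖ + ‖g 0‖ := norm_sub_le _ _
      _ ≤ M * (1 + |z.re|) ^ N + M * 1 := by linarith [hgb z hz]
      _ ≤ M * (1 + |z.re|) ^ N + M * (1 + |z.re|) ^ N := by gcongr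
      _ = _ := by ring
  -- a bound for `D` on the compact part
  obtain ⟨K₁, hK₁0, hK₁⟩ : ∃ K₁ : ℝ, 0 ≤ K₁ ∧ ∀ z : ℂ, |z.im| ≤ Y →
      ‖D z‖ ≤ K₁ * (1 + |z.re|) ^ N := by
    have hcomp : IsCompact (Metric.closedBall (0 : ℂ) 1 ∩ {z : ℂ | |z.im| ≤ Y}) :=
      (isCompact_closedBall _ _).inter_right
        (isClosed_le (continuous_abs.comp Complex.continuous_im) continuous_const)
    have hsub : Metric.closedBall (0 : ℂ) 1 ∩ {z : ℂ | |z.im| ≤ Y} ⊆ {z | |z.im| < 2 * Y} := by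
      rintro z ⟨-, hz⟩
      rw [Set.mem_ofPred_eq] at hz ⊢
      linarith
    obtain ⟨K₀, hK₀⟩ := hcomp.exists_bound_of_continuousOn (hDd.continuousOn.mono hsub)
    refine ⟨max K₀ (2 * M), le_max_of_le_right (by positivity), fun z hz => ?_⟩
    have h1 : 1 ≤ (1 + |z.re|) ^ N := one_le_pow₀ (by linarith [abs_nonneg z.re])
    rcases le_total ‖z‖ 1 with h2 | h2
    · calc ‖D z‖ ≤ K₀ := hK₀ z ⟨by simpa using h2, hz⟩
        _ ≤ max K₀ (2 * M) * 1 := by rw [mul_one]; exact le_max_left _ _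
        _ ≤ _ := by gcongr
    · calc ‖D z‖ = 1 * ‖D z‖ := (one_mul _).symm
        _ ≤ ‖z‖ * ‖D z‖ := by gcongr
        _ ≤ 2 * M * (1 + |z.re|) ^ N := hDb z hz
        _ ≤ _ := by gcongr; exact le_max_right _ _
  have hDat : ∀ z : ℂ, |z.im| ≤ Y → DifferentiableAt ℂ D z := by
    intro z hz
    have h1 : z ∈ {z : ℂ | |z.im| < 2 * Y} := by
      rw [Set.mem_ofPred_eq]
      linarith
    exact (hDd z h1).differentiableAt (hopen.mem_nhds h1)
  -- decay of the products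
  have key : ∀ (β : ℝ → ℂ) (Cβ A : ℝ) (z : ℂ) (K : ℝ), 0 ≤ Cβ →
      (1 + ‖z‖) ^ (N + 2) * ‖pwf β z‖ ≤ Cβ * A → ‖D z‖ ≤ K * (1 + |z.re|) ^ N → 0 ≤ K →
      ‖pwf β z * D z‖ ≤ Cβ * A * K * (1 + z.re ^ 2)⁻¹ := by
    intro β Cβ A z K hCβ h1 h2 hK
    have hre0 := abs_nonneg z.re
    have h3 : (1 + |z.re|) ^ (N + 2) ≤ (1 + ‖z‖) ^ (N + 2) := by
      gcongr
      exact Complex.abs_re_le_norm z
    have h4 : 0 < (1 + |z.re|) ^ (N + 2) := by positivity
    have h5 : ‖pwf β z‖ ≤ Cβ * A / (1 + |z.re|) ^ (N + 2) := by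
      rw [le_div_iff₀ h4, mul_comm]
      exact (mul_le_mul_of_nonneg_right h3 (norm_nonneg _)).trans h1
    have h6 : 0 ≤ Cβ * A := le_trans (by positivity) h1
    rw [norm_mul]
    calc ‖pwf β z‖ * ‖D z‖ ≤ (Cβ * A / (1 + |z.re|) ^ (N + 2)) * (K * (1 + |z.re|) ^ N) :=
          mul_le_mul h5 h2 (norm_nonneg _) (by positivity)
      _ = Cβ * A * K * ((1 + |z.re|) ^ 2)⁻¹ := by
          rw [pow_add]
          field_simp
      _ ≤ _ := mul_le_mul_of_nonneg_left (inv_sq_le _) (by positivity)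
  have hline : ∀ x y : ℝ, ((x : ℂ) + (y : ℂ) * I).re = x ∧ ((x : ℂ) + (y : ℂ) * I).im = y :=
    fun x y => ⟨by simp, by simp⟩
  -- the two shifts
  have s1 : ∫ x : ℝ, pwf (hp b) ((x : ℂ) + (Y : ℂ) * I) * D ((x : ℂ) + (Y : ℂ) * I) =
      ∫ x : ℝ, pwf (hp b) ((x : ℂ) + ((0 : ℝ) : ℂ) * I) * D ((x : ℂ) + ((0 : ℝ) : ℂ) * I) := by
    refine line_shift (F := fun z => pwf (hp b) z * D z) hY0.le (K := C₁ * 1 * K₁) ?_ ?_
    · intro z hz1 hz2
      exact (pwf_differentiable hb₁ z).mul (hDat z (by rw [abs_of_nonneg hz1]; exact hz2))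
    · intro x y hy1 hy2
      have h1 := key (hp b) C₁ 1 ((x : ℂ) + (y : ℂ) * I) K₁ hC₁0 (by
        refine (hC₁ _ (by rw [(hline x y).2]; exact hy1)).trans ?_
        gcongr
        rw [(hline x y).2, Real.exp_le_one_iff]
        have := mul_nonneg hR.le hy1
        linarith) (hK₁ _ (by rw [(hline x y).2, abs_of_nonneg hy1]; exact hy2)) hK₁0
      rw [(hline x y).1] at h1
      exact h1
  have s2 : ∫ x : ℝ, pwf (hn b) ((x : ℂ) + ((0 : ℝ) : ℂ) * I) * D ((x : ℂ) + ((0 : ℝ) : ℂ) * I) =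
      ∫ x : ℝ, pwf (hn b) ((x : ℂ) + ((-Y : ℝ) : ℂ) * I) * D ((x : ℂ) + ((-Y : ℝ) : ℂ) * I) := by
    refine line_shift (F := fun z => pwf (hn b) z * D z) (by linarith) (K := C₂ * 1 * K₁) ?_ ?_
    · intro z hz1 hz2
      exact (pwf_differentiable hb₂ z).mul (hDat z (by rw [abs_of_nonpos hz2]; linarith))
    · intro x y hy1 hy2
      have h1 := key (hn b) C₂ 1 ((x : ℂ) + (y : ℂ) * I) K₁ hC₂0 (by
        refine (hC₂ _ (by rw [(hline x y).2]; exact hy2)).trans ?_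
        gcongr
        rw [(hline x y).2, Real.exp_le_one_iff]
        have := mul_nonneg hR.le (neg_nonneg.2 hy2)
        linarith) (hK₁ _ (by rw [(hline x y).2, abs_of_nonpos hy2]; linarith)) hK₁0
      rw [(hline x y).1] at h1
      exact h1
  -- the bounds on the shifted lines
  have hDline : ∀ x y : ℝ, |y| = Y → ‖D ((x : ℂ) + (y : ℂ) * I)‖ ≤ (2 * M / v) * (1 + |x|) ^ N := by
    intro x y hy
    have h1 := hDb ((x : ℂ) + (y : ℂ) * I) (by rw [(hline x y).2]; exact hy.le)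
    rw [(hline x y).1] at h1
    have h2 : v ≤ ‖(x : ℂ) + (y : ℂ) * I‖ := by
      have h3 := Complex.abs_im_le_norm ((x : ℂ) + (y : ℂ) * I)
      rw [(hline x y).2, hy] at h3
      linarith
    have h4 : v * ‖D ((x : ℂ) + (y : ℂ) * I)‖ ≤ 2 * M * (1 + |x|) ^ N :=
      (mul_le_mul_of_nonneg_right h2 (norm_nonneg _)).trans h1
    rw [div_mul_eq_mul_div, le_div_iff₀ hv]
    linarith
  have b1 : ‖∫ x : ℝ, pwf (hp b) ((x : ℂ) + (Y : ℂ) * I) * D ((x : ℂ) + (Y : ℂ) * I)‖ ≤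
      C₁ * Real.exp (-(R * Y)) * (2 * M / v) * Real.pi := by
    rw [← integral_univ_inv_one_add_sq, ← integral_const_mul]
    refine norm_integral_le_of_norm_le (integrable_inv_one_add_sq.const_mul _)
      (Filter.Eventually.of_forall fun x => ?_)
    have h1 := key (hp b) C₁ (Real.exp (-(R * Y))) ((x : ℂ) + (Y : ℂ) * I) (2 * M / v) hC₁0 (by
      have := hC₁ ((x : ℂ) + (Y : ℂ) * I) (by rw [(hline x Y).2]; exact hY0.le)
      rwa [(hline x Y).2] at this) (by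
      rw [(hline x Y).1]
      exact hDline x Y (abs_of_pos hY0)) (by positivity)
    rw [(hline x Y).1] at h1
    exact h1
  have b2 : ‖∫ x : ℝ, pwf (hn b) ((x : ℂ) + ((-Y : ℝ) : ℂ) * I) *
      D ((x : ℂ) + ((-Y : ℝ) : ℂ) * I)‖ ≤ C₂ * Real.exp (-(R * Y)) * (2 * M / v) * Real.pi := by
    rw [← integral_univ_inv_one_add_sq, ← integral_const_mul]
    refine norm_integral_le_of_norm_le (integrable_inv_one_add_sq.const_mul _)
      (Filter.Eventually.of_forall fun x => ?_)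
    have h1 := key (hn b) C₂ (Real.exp (-(R * Y))) ((x : ℂ) + ((-Y : ℝ) : ℂ) * I) (2 * M / v)
      hC₂0 (by
      have := hC₂ ((x : ℂ) + ((-Y : ℝ) : ℂ) * I) (by rw [(hline x (-Y)).2]; linarith)
      rw [(hline x (-Y)).2, neg_neg, neg_mul] at this
      exact this) (by
      rw [(hline x (-Y)).1]
      exact hDline x (-Y) (by rw [abs_neg, abs_of_pos hY0])) (by positivity)
    rw [(hline x (-Y)).1] at h1
    exact h1
  -- the decomposition
  have hz0 : ∀ x : ℝ, (x : ℂ) + ((0 : ℝ) : ℂ) * I = x := fun x => by simp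
  have hint : ∀ β : ℝ → ℂ, Bp β → Integrable fun x : ℝ => pwf β x * D x := by
    intro β hβ
    obtain ⟨Cβ, hCβ0, hCβ⟩ : ∃ C : ℝ, 0 ≤ C ∧ ∀ x : ℝ,
        (1 + ‖(x : ℂ)‖) ^ (N + 2) * ‖pwf β x‖ ≤ C := by
      obtain ⟨C, hC⟩ := (rd_pwf hβ).decay (N + 2)
      refine ⟨max C 0, le_max_right _ _, fun x => ?_⟩
      have := hC x
      rw [Complex.norm_real]
      exact this.trans (le_max_left _ _)
    have hc : Continuous fun x : ℝ => pwf β x * D x := by
      rw [continuous_iff_continuousAt]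
      intro x
      have h1 : ContinuousAt (fun z : ℂ => pwf β z * D z) (x : ℂ) :=
        ((pwf_differentiable hβ x).mul (hDat x (by simp [hY0.le]))).continuousAt
      exact ContinuousAt.comp (f := fun x : ℝ => (x : ℂ)) h1 Complex.continuous_ofReal.continuousAt
    refine Integrable.mono' (integrable_inv_one_add_sq.const_mul (Cβ * 1 * K₁))
      hc.aestronglyMeasurable (Filter.Eventually.of_forall fun x => ?_)
    have h1 := key β Cβ 1 (x : ℂ) K₁ hCβ0 (by rw [mul_one]; exact hCβ x)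
      (hK₁ _ (by simp [hY0.le])) hK₁0
    rwa [Complex.ofReal_re] at h1
  have hzk : ∀ x : ℝ, pwf b x * (g x - g 0) =
      I * (pwf (hp b) x * D x) + I * (pwf (hn b) x * D x) := by
    intro x
    have e1 : pwf (deriv b) x = pwf (hp b) x + pwf (hn b) x := by
      rw [← pwf_add hb₁ hb₂]
      congr 1
      funext ξ
      exact (hp_add_hn ξ).symm
    have e2 := pwf_deriv hb (x : ℂ)
    rw [e1] at e2
    rw [← hDeq]
    have e3 : I * (pwf (hp b) x * D x) + I * (pwf (hn b) x * D x) =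
        I * (pwf (hp b) x + pwf (hn b) x) * D x := by ring
    rw [e3, e2]
    linear_combination ((x : ℂ) * pwf b x * D x) * I_mul_I
  have hgi : Integrable fun x : ℝ => pwf b x * (g x - g 0) := by
    refine (((hint _ hb₁).const_mul I).add ((hint _ hb₂).const_mul I)).congr ?_
    exact Filter.Eventually.of_forall fun x => (hzk x).symm
  have hκi : Integrable fun x : ℝ => pwf b x := by
    obtain ⟨C, hC⟩ := (rd_pwf hb).decay 2
    refine Integrable.mono' (integrable_inv_one_add_sq.const_mul C)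
      (rd_pwf hb).cont.aestronglyMeasurable (Filter.Eventually.of_forall fun x => ?_)
    have h1 := hC x
    have h2 : 0 < (1 + ‖x‖) ^ 2 := by positivity
    have h3 : ‖pwf b x‖ ≤ C * ((1 + |x|) ^ 2)⁻¹ := by
      rw [← div_eq_mul_inv, le_div_iff₀ (by positivity), mul_comm]
      exact h1
    have hC0 : 0 ≤ C := le_trans (by positivity) h1
    exact h3.trans (mul_le_mul_of_nonneg_left (inv_sq_le x) hC0)
  have hb0 : ∫ y : ℝ, pwf b y = 1 := by
    have h1 := pwf_fourier hb 0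
    rw [hb1 0 (by simp [hR.le])] at h1
    simpa using h1
  have e1 : ∫ y : ℝ, pwf b y * h ((y / Λ : ℝ) : ℂ) =
      g 0 + ∫ x : ℝ, pwf b x * (g x - g 0) := by
    have e2 : (fun y : ℝ => pwf b y * h ((y / Λ : ℝ) : ℂ)) =
        fun x : ℝ => g 0 * pwf b x + pwf b x * (g x - g 0) := by
      funext x
      have : g x = h ((x / Λ : ℝ) : ℂ) := by
        simp only [hg]
        push_cast
        rfl
      rw [← this]
      ring
    rw [e2, integral_add (hκi.const_mul _) hgi, integral_const_mul, hb0, mul_one]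
  have e2 : h 0 = g 0 := by simp [hg]
  rw [e1, e2, sub_add_cancel_left, norm_neg]
  have e3 : ∫ x : ℝ, pwf b x * (g x - g 0) =
      I * (∫ x : ℝ, pwf (hp b) x * D x) + I * ∫ x : ℝ, pwf (hn b) x * D x := by
    rw [← integral_const_mul, ← integral_const_mul, ← integral_add ((hint _ hb₁).const_mul I)
      ((hint _ hb₂).const_mul I)]
    exact integral_congr_ae (Filter.Eventually.of_forall hzk)
  simp only [hz0] at s1 s2
  rw [e3, ← s1, s2]
  calc _ ≤ ‖I * ∫ x : ℝ, pwf (hp b) ((x : ℂ) + (Y : ℂ) * I) * D ((x : ℂ) + (Y : ℂ) * I)‖ +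
        ‖I * ∫ x : ℝ, pwf (hn b) ((x : ℂ) + ((-Y : ℝ) : ℂ) * I) *
          D ((x : ℂ) + ((-Y : ℝ) : ℂ) * I)‖ := norm_add_le _ _
    _ ≤ C₁ * Real.exp (-(R * Y)) * (2 * M / v) * Real.pi +
        C₂ * Real.exp (-(R * Y)) * (2 * M / v) * Real.pi := by
        rw [norm_mul, norm_mul, Complex.norm_I, one_mul, one_mul]
        exact add_le_add b1 b2
    _ = _ := by ring

end Pool.Agent.H26
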