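import Pool.Agent.H26.SP.BL
import Pool.Agent.H26.SP.BASE
import Pool.Agent.H26.LA6

/-!
The error is band limited in each coordinate on the critical scale.
-/

set_option autoImplicit false

namespace Pool.Agent.H26

open Complex Finset MeasureTheory Filter Asymptotics Topology
open scoped ContDiff

variable {k : ℕ}

namespace BLC

/-- The shift with one complex coordinate. -/
noncomputable def upd (γ : Ix k → ℝ) (i : Ix k) (z : ℂ) : Ix k → ℂ :=
  Function.update (fun j => (γ j : ℂ)) i ((γ i : ℂ) + z)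

/-- The shift with one real coordinate moved. -/
noncomputable def mv (γ : Ix k → ℝ) (i : Ix k) (x : ℝ) : Ix k → ℝ := γ + x • Pi.single i 1

lemma mv_apply_self (γ : Ix k → ℝ) (i : Ix k) (x : ℝ) : mv γ i x i = γ i + x := by
  simp [mv]

lemma mv_apply_ne (γ : Ix k → ℝ) {i j : Ix k} (h : j ≠ i) (x : ℝ) : mv γ i x j = γ j := by
  simp [mv, h]

lemma upd_ofReal (γ : Ix k → ℝ) (i : Ix k) (x : ℝ) :
    upd γ i (x : ℂ) = fun j => ((mv γ i x j : ℝ) : ℂ) := by
  funext j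
  by_cases h : j = i
  · subst h
    rw [upd, Function.update_self, mv_apply_self]
    push_cast
    rfl
  · rw [upd, Function.update_of_ne h, mv_apply_ne γ h]

/-- the exceptional positions -/
def exc (γ : Ix k → ℝ) (i : Ix k) : Set ℝ := Set.range fun j : {j // j ≠ i} => γ j - γ i

lemma finite_exc (γ : Ix k → ℝ) (i : Ix k) : (exc γ i).Finite := Set.finite_range _

lemma upd_injective {γ : Ix k → ℝ} (hγ : Function.Injective γ) {i : Ix k} {z : ℂ}
    (hz : ∀ j, j ≠ i → (γ i : ℂ) + z ≠ γ j) : Function.Injective (upd γ i z) := by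
  intro a b hab
  by_contra hne
  by_cases ha : a = i
  · subst ha
    have hb : b ≠ a := fun h => hne h.symm
    rw [upd, Function.update_self, Function.update_of_ne hb] at hab
    exact hz b hb hab
  · by_cases hb : b = i
    · subst hb
      rw [upd, Function.update_self, Function.update_of_ne ha] at hab
      exact hz a ha hab.symm
    · rw [upd, Function.update_of_ne ha, Function.update_of_ne hb] at hab
      exact hne (hγ (Complex.ofReal_injective hab))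

lemma ne_of_notMem_exc {γ : Ix k → ℝ} {i : Ix k} {x : ℝ} (hx : x ∉ exc γ i) :
    ∀ j, j ≠ i → (γ i : ℂ) + (x : ℂ) ≠ γ j := by
  intro j hj h
  apply hx
  refine ⟨⟨j, hj⟩, ?_⟩
  have h1 : γ i + x = γ j := by exact_mod_cast h
  show γ j - γ i = x
  linarith

lemma mv_injective {γ : Ix k → ℝ} (hγ : Function.Injective γ) {i : Ix k} {x : ℝ}
    (hx : x ∉ exc γ i) : Function.Injective (mv γ i x) := by
  have h := upd_injective hγ (ne_of_notMem_exc hx)
  rw [upd_ofReal] at h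
  intro a b hab
  exact h (by simp only [hab])

lemma upd_im (γ : Ix k → ℝ) (i : Ix k) (z : ℂ) (j : Ix k) : |(upd γ i z j).im| ≤ |z.im| := by
  by_cases h : j = i
  · subst h
    rw [upd, Function.update_self]
    simp
  · rw [upd, Function.update_of_ne h]
    simp

lemma upd_re (γ : Ix k → ℝ) (i : Ix k) (z : ℂ) (j : Ix k) :
    |(upd γ i z j).re| ≤ ‖γ‖ + |z.re| := by
  have h1 : ∀ j, |γ j| ≤ ‖γ‖ := fun j => by
    have := norm_le_pi_norm γ j
    rwa [Real.norm_eq_abs] at this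
  by_cases h : j = i
  · subst h
    rw [upd, Function.update_self, Complex.add_re, Complex.ofReal_re]
    exact (abs_add_le _ _).trans (by linarith [h1 j])
  · rw [upd, Function.update_of_ne h, Complex.ofReal_re]
    linarith [h1 j, abs_nonneg z.re]

/-- the value of the error density at the moved shift -/
noncomputable def D (γ : Ix k → ℝ) (i : Ix k) (z : ℂ) (t : ℝ) : ℂ :=
  Zc (upd γ i z) t - Qsum (upd γ i z) t

lemma continuousAt_D {γ : Ix k → ℝ} (hγ : Function.Injective γ) {i : Ix k} {x t : ℝ}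
    (hx : x ∉ exc γ i) :
    ContinuousAt (fun p : ℝ × ℝ => D γ i (p.1 : ℂ) p.2) (x, t) := by
  have hup : Continuous fun p : ℝ × ℝ => (((p.2 : ℝ) : ℂ), upd γ i (p.1 : ℂ)) := by
    refine (Complex.continuous_ofReal.comp continuous_snd).prodMk ?_
    refine continuous_pi fun j => ?_
    by_cases h : j = i
    · subst h
      simp only [upd, Function.update_self]
      fun_prop
    · simp only [upd, Function.update_of_ne h]
      fun_prop
  have htube : upd γ i (x : ℂ) ∈ tube (Ix k) := by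
    rw [upd_ofReal]
    exact ofReal_mem_tube _
  have h1 := continuousAt_Zc (q := ((t : ℂ), upd γ i (x : ℂ))) ⟨im_ofReal_lt t, htube⟩
  have h2 := continuousAt_Qsum (q := ((t : ℂ), upd γ i (x : ℂ))) ⟨im_ofReal_lt t, htube⟩
    (upd_injective hγ (ne_of_notMem_exc hx))
  have h3 : ContinuousAt (fun p : ℝ × ℝ => Zc (upd γ i (p.1 : ℂ)) ((p.2 : ℝ) : ℂ)) (x, t) :=
    ContinuousAt.comp (f := fun p : ℝ × ℝ => (((p.2 : ℝ) : ℂ), upd γ i (p.1 : ℂ)))
      (x := (x, t)) h1 hup.continuousAt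
  have h4 : ContinuousAt (fun p : ℝ × ℝ => Qsum (upd γ i (p.1 : ℂ)) ((p.2 : ℝ) : ℂ)) (x, t) :=
    ContinuousAt.comp (f := fun p : ℝ × ℝ => (((p.2 : ℝ) : ℂ), upd γ i (p.1 : ℂ)))
      (x := (x, t)) h2 hup.continuousAt
  exact h3.sub h4

/-- polynomial bound for the density at generic points of the strip -/
lemma exists_D_le (k : ℕ) : ∃ C : ℝ, 0 ≤ C ∧ ∀ γ : Ix k → ℝ, Function.Injective γ →
    ∀ (i : Ix k) (z : ℂ), |z.im| ≤ 1 / 16 → (∀ j, j ≠ i → (γ i : ℂ) + z ≠ γ j) → ∀ t : ℝ,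
    ‖D γ i z t‖ ≤ C * (1 + ‖γ‖) ^ NK k * (1 + |t|) ^ (2 * k) * (1 + |z.re|) ^ NK k := by
  obtain ⟨CQ, hCQ0, hCQ⟩ := exists_norm_Qsum_le k (ρ := 1 / 16) (by norm_num)
  refine ⟨6 ^ (2 * k) + CQ, by positivity, fun γ hγ i z hz hzj t => ?_⟩
  have hg0 : 0 ≤ ‖γ‖ := norm_nonneg _
  have hz0 : 0 ≤ |z.re| := abs_nonneg _
  have ht0 : 0 ≤ |t| := abs_nonneg _
  have hB : 0 ≤ ‖γ‖ + |z.re| := by positivity
  have htube : upd γ i z ∈ tube (Ix k) := fun j => by
    have := upd_im γ i z j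
    linarith
  have h1 := norm_Zc_le htube (t := t) hB (upd_re γ i z)
  have h2 := hCQ (upd γ i z) (upd_injective hγ hzj)
    (fun j => by have := upd_im γ i z j; linarith) _ hB (upd_re γ i z) t
  have hBB : 1 + (‖γ‖ + |z.re|) ≤ (1 + ‖γ‖) * (1 + |z.re|) := by nlinarith [mul_nonneg hg0 hz0]
  have h3 : ((6 + 3 * (‖γ‖ + |z.re|)) * (1 + |t|)) ^ (2 * k) ≤
      6 ^ (2 * k) * (1 + ‖γ‖) ^ NK k * (1 + |t|) ^ (2 * k) * (1 + |z.re|) ^ NK k := by
    calc ((6 + 3 * (‖γ‖ + |z.re|)) * (1 + |t|)) ^ (2 * k)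
        ≤ ((6 * ((1 + ‖γ‖) * (1 + |z.re|))) * (1 + |t|)) ^ (2 * k) := by
          gcongr
          linarith
      _ = 6 ^ (2 * k) * (1 + ‖γ‖) ^ (2 * k) * (1 + |t|) ^ (2 * k) * (1 + |z.re|) ^ (2 * k) := by
          rw [← mul_pow, ← mul_pow, ← mul_pow]; ring
      _ ≤ _ := by
          have h4 : (1 + |z.re|) ^ (2 * k) ≤ (1 + |z.re|) ^ NK k :=
            pow_le_pow_right₀ (by linarith) (by unfold NK; omega)
          have h5 : (1 + ‖γ‖) ^ (2 * k) ≤ (1 + ‖γ‖) ^ NK k :=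
            pow_le_pow_right₀ (by linarith) (by unfold NK; omega)
          gcongr
  have h4 : CQ * (1 + (‖γ‖ + |z.re|)) ^ NK k * (1 + |t|) ^ (2 * k) ≤
      CQ * (1 + ‖γ‖) ^ NK k * (1 + |t|) ^ (2 * k) * (1 + |z.re|) ^ NK k := by
    calc CQ * (1 + (‖γ‖ + |z.re|)) ^ NK k * (1 + |t|) ^ (2 * k)
        ≤ CQ * ((1 + ‖γ‖) * (1 + |z.re|)) ^ NK k * (1 + |t|) ^ (2 * k) := by gcongr
      _ = _ := by rw [mul_pow]; ring
  unfold D
  refine (norm_sub_le _ _).trans ((add_le_add (h1.trans h3) (h2.trans h4)).trans (le_of_eq ?_))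
  ring

/-- the analytic continuation of the density in the moved coordinate -/
lemma exists_ext {C : ℝ} (hC : ∀ γ : Ix k → ℝ, Function.Injective γ →
    ∀ (i : Ix k) (z : ℂ), |z.im| ≤ 1 / 16 → (∀ j, j ≠ i → (γ i : ℂ) + z ≠ γ j) → ∀ t : ℝ,
    ‖D γ i z t‖ ≤ C * (1 + ‖γ‖) ^ NK k * (1 + |t|) ^ (2 * k) * (1 + |z.re|) ^ NK k)
    {γ : Ix k → ℝ} (hγ : Function.Injective γ) (i : Ix k) (t : ℝ) :
    ∃ h : ℂ → ℂ, DifferentiableOn ℂ h {z | |z.im| < 1 / 8} ∧
      (∀ z : ℂ, |z.im| < 1 / 8 → (∀ j, j ≠ i → (γ i : ℂ) + z ≠ γ j) → h z = D γ i z t) ∧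
      ∀ z : ℂ, |z.im| ≤ 1 / 16 →
        ‖h z‖ ≤ C * (1 + ‖γ‖) ^ NK k * (1 + |t|) ^ (2 * k) * (1 + |z.re|) ^ NK k := by
  obtain ⟨g, hg, hgeq⟩ := exists_Qsum_extension i (γ := fun j => (γ j : ℂ)) (t := (t : ℂ))
    ⟨im_ofReal_lt t, ofReal_mem_tube γ⟩
    (fun a b _ _ hab h => hab (hγ (Complex.ofReal_injective h)))
  have hopen : IsOpen {z : ℂ | |z.im| < 1 / 8} := isOpen_lt (by fun_prop) continuous_const
  have hd : DifferentiableOn ℂ (fun z => Zc (upd γ i z) t - g ((γ i : ℂ) + z))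
      {z | |z.im| < 1 / 8} := by
    refine DifferentiableOn.sub ?_ ?_
    · refine differentiableOn_Zc_comp (im_ofReal_lt t) ?_ ?_
      · intro j
        by_cases h : j = i
        · subst h
          simp only [upd, Function.update_self]
          fun_prop
        · simp only [upd, Function.update_of_ne h]
          fun_prop
      · intro z hz j
        exact (upd_im γ i z j).trans_lt hz
    · refine hg.comp (by fun_prop) ?_
      intro z hz
      have : ((γ i : ℂ) + z).im = z.im := by simp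
      rw [Set.mem_ofPred_eq] at hz ⊢
      rwa [this]
  have he : ∀ z : ℂ, |z.im| < 1 / 8 → (∀ j, j ≠ i → (γ i : ℂ) + z ≠ γ j) →
      Zc (upd γ i z) t - g ((γ i : ℂ) + z) = D γ i z t := by
    intro z hz hzj
    have h1 := hgeq ((γ i : ℂ) + z) (by
      have : ((γ i : ℂ) + z).im = z.im := by simp
      rwa [this]) hzj
    rw [h1]
    rfl
  refine ⟨fun z => Zc (upd γ i z) t - g ((γ i : ℂ) + z), hd, he, fun z hz => ?_⟩
  show ‖Zc (upd γ i z) t - g ((γ i : ℂ) + z)‖ ≤ _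
  by_cases hzj : ∀ j, j ≠ i → (γ i : ℂ) + z ≠ γ j
  · rw [he z (by linarith) hzj]
    exact hC γ hγ i z hz hzj t
  · have hzim : z.im = 0 := by
      push Not at hzj
      obtain ⟨j, _, hj⟩ := hzj
      have := congrArg Complex.im hj
      simpa using this
    have hz8 : |z.im| < 1 / 8 := by rw [hzim]; norm_num
    have hcont := (hd.differentiableAt (hopen.mem_nhds hz8)).continuousAt
    have hA : ({w : ℂ | ∃ j, j ≠ i ∧ (γ i : ℂ) + w = γ j} \ {z}).Finite := by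
      refine Set.Finite.subset (Set.finite_range fun j : Ix k => (γ j : ℂ) - γ i) ?_
      rintro w ⟨⟨j, _, hj⟩, _⟩
      exact ⟨j, by show (γ j : ℂ) - γ i = w; rw [← hj]; ring⟩
    have hev1 : ∀ᶠ w in 𝓝 z, w ∉ ({w : ℂ | ∃ j, j ≠ i ∧ (γ i : ℂ) + w = γ j} \ {z}) :=
      hA.isClosed.isOpen_compl.mem_nhds (fun h => h.2 rfl)
    have hev2 : ∀ᶠ w : ℂ in 𝓝 z, |w.im| < 1 / 16 := by
      have hc : Continuous fun w : ℂ => |w.im| := by fun_prop
      exact (hc.tendsto z).eventually (gt_mem_nhds (by rw [hzim]; norm_num))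
    have hlim1 : Tendsto (fun w => ‖Zc (upd γ i w) t - g ((γ i : ℂ) + w)‖) (𝓝[≠] z)
        (𝓝 ‖Zc (upd γ i z) t - g ((γ i : ℂ) + z)‖) :=
      (hcont.norm.tendsto).mono_left nhdsWithin_le_nhds
    have hlim2 : Tendsto (fun w : ℂ => C * (1 + ‖γ‖) ^ NK k * (1 + |t|) ^ (2 * k) *
        (1 + |w.re|) ^ NK k) (𝓝[≠] z) (𝓝 (C * (1 + ‖γ‖) ^ NK k * (1 + |t|) ^ (2 * k) *
        (1 + |z.re|) ^ NK k)) := by
      have hc : Continuous fun w : ℂ => C * (1 + ‖γ‖) ^ NK k * (1 + |t|) ^ (2 * k) *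
        (1 + |w.re|) ^ NK k := by fun_prop
      exact (hc.tendsto z).mono_left nhdsWithin_le_nhds
    refine le_of_tendsto_of_tendsto hlim1 hlim2 ?_
    filter_upwards [nhdsWithin_le_nhds hev1, nhdsWithin_le_nhds hev2, self_mem_nhdsWithin]
      with w h1 h2 h3
    have hwj : ∀ j, j ≠ i → (γ i : ℂ) + w ≠ γ j := by
      intro j hj hj2
      exact h1 ⟨⟨j, hj, hj2⟩, h3⟩
    rw [he w (by linarith) hwj]
    exact hC γ hγ i w h2.le hwj t

/-- the smoothed error as an integral over a bounded interval -/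
lemma Fp_eq_integral {φ : ℝ → ℂ} {c : ℝ} (hc : ∀ x, c < x → φ x = 0) {γ : Ix k → ℝ}
    (hγ : Function.Injective γ) {i : Ix k} {x T : ℝ} (hT : 0 < T) (hc0 : 0 ≤ c)
    (hx : x ∉ exc γ i) :
    Fp φ (mv γ i x) T = ∫ t in (0:ℝ)..(c * T), φ (t / T) * D γ i (x : ℂ) t := by
  rw [intervalIntegral.integral_of_le (mul_nonneg hc0 hT.le)]
  unfold Fp
  have h1 : ∀ t : ℝ, φ (t / T) * (Z (fun j => mv γ i x (Sum.inl j))
      (fun j => mv γ i x (Sum.inr j)) t - Q (fun j => mv γ i x (Sum.inl j))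
      (fun j => mv γ i x (Sum.inr j)) t) = φ (t / T) * D γ i (x : ℂ) t := by
    intro t
    rw [Z_eq_Zc, Q_eq_Qsum (mv_injective hγ hx), ← upd_ofReal]
    rfl
  simp only [h1]
  refine setIntegral_eq_of_subset_of_forall_sdiff_eq_zero measurableSet_Ioi
    (fun t ht => ht.1) ?_
  rintro t ⟨ht1, ht2⟩
  have h2 : c * T < t := by
    by_contra h
    exact ht2 ⟨ht1, not_lt.1 h⟩
  rw [hc _ (by rwa [lt_div_iff₀ hT]), zero_mul]

lemma exc_zero {γ : Ix k → ℝ} (hγ : Function.Injective γ) (i : Ix k) : (0:ℝ) ∉ exc γ i := by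
  rintro ⟨⟨j, hj⟩, h⟩
  have h1 : γ j - γ i = 0 := h
  exact hj (hγ (by linarith))

/-- the case of distinct shifts -/
lemma band_inj (k : ℕ) {φ : ℝ → ℂ} (hφ : TF φ) {R : ℝ} (hR0 : 0 < R)
    (hR : 16 * (2 * k + 1) ≤ R) {b : ℝ → ℂ} (hb : Bp b) (hb1 : ∀ ξ, |ξ| ≤ R → b ξ = 1) :
    ∃ C : ℝ, 0 ≤ C ∧ ∀ (i : Ix k) (γ : Ix k → ℝ), Function.Injective γ → ∀ T : ℝ, 3 ≤ T →
      ‖Fp φ γ T - ∫ y : ℝ, pwf b y * Fp φ (mv γ i (y / Real.log T)) T‖ ≤
        C * (1 + ‖γ‖) ^ NK k := by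
  obtain ⟨CD, hCD0, hCD⟩ := exists_D_le k
  obtain ⟨CB, hCB0, hCB⟩ := band_limit hb hR0 hb1 (NK k) (v := 1 / 16) (by norm_num)
  obtain ⟨Cφ, hCφ⟩ := hφ.cpt.exists_bound_of_continuous hφ.smooth.continuous
  have hCφ0 : 0 ≤ Cφ := (norm_nonneg _).trans (hCφ 0)
  obtain ⟨c, hc0, hc⟩ : ∃ c : ℝ, 0 ≤ c ∧ ∀ x, c < x → φ x = 0 := by
    obtain ⟨r, hr⟩ := hφ.cpt.isBounded.subset_closedBall 0
    refine ⟨max r 0, le_max_right _ _, fun x hx => ?_⟩
    by_contra h
    have h1 := hr (subset_tsupport φ h)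
    rw [Metric.mem_closedBall, dist_zero_right, Real.norm_eq_abs] at h1
    have h2 := le_abs_self x
    have h3 := le_max_left r 0
    linarith
  obtain ⟨CP, hCP⟩ := (rd_pwf hb).decay (NK k + 2)
  refine ⟨c * Cφ * CB * CD * (1 + c) ^ (2 * k), by positivity, fun i γ hγ T hT => ?_⟩
  have hT0 : 0 < T := by linarith
  have hT1 : 1 ≤ T := by linarith
  have hL : 1 ≤ Real.log T := by
    rw [Real.le_log_iff_exp_le hT0]
    have := Real.exp_one_lt_d9
    linarith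
  have hL0 : 0 < Real.log T := by linarith
  have hγ0 : 0 ≤ ‖γ‖ := norm_nonneg _
  set Λ := Real.log T with hΛ
  -- the exceptional set of the variable `y`
  set N : Set ℝ := (fun x => x * Λ) '' exc γ i with hN
  have hNf : N.Finite := (finite_exc γ i).image _
  have hNy : ∀ y ∉ N, y / Λ ∉ exc γ i := by
    intro y hy h
    exact hy ⟨y / Λ, h, by show y / Λ * Λ = y; field_simp⟩
  have haeN : ∀ᵐ y : ℝ, y ∉ N := measure_mono_null (fun x hx => not_not.1 hx) (hNf.measure_zero _)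
  -- the integrand
  set f : ℝ → ℝ → ℂ := fun y t => pwf b y * (φ (t / T) * D γ i ((y / Λ : ℝ) : ℂ) t) with hf
  have hfc : ∀ y ∉ N, ∀ t, ContinuousAt (Function.uncurry f) (y, t) := by
    intro y hy t
    have h1 : ContinuousAt (fun p : ℝ × ℝ => D γ i ((p.1 / Λ : ℝ) : ℂ) p.2) (y, t) := by
      have h2 := continuousAt_D hγ (i := i) (t := t) (hNy y hy)
      exact ContinuousAt.comp (f := fun p : ℝ × ℝ => (p.1 / Λ, p.2)) (x := (y, t)) h2
        (by fun_prop)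
    have h3 : Continuous fun p : ℝ × ℝ => pwf b p.1 := (rd_pwf hb).cont.comp continuous_fst
    have h4 : Continuous fun p : ℝ × ℝ => φ (p.2 / T) :=
      hφ.smooth.continuous.comp (continuous_snd.div_const T)
    exact (h3.continuousAt.mul (h4.continuousAt.mul h1))
  have hfb : ∀ y ∉ N, ∀ t, 0 ≤ t → t ≤ c * T → ‖f y t‖ ≤
      (CP * (Cφ * (CD * (1 + ‖γ‖) ^ NK k * (1 + c * T) ^ (2 * k)))) * (1 + y ^ 2)⁻¹ := by
    intro y hy t ht0 htc
    have h1 := hCD γ hγ i ((y / Λ : ℝ) : ℂ) (by simp) (ne_of_notMem_exc (hNy y hy)) t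
    rw [Complex.ofReal_re] at h1
    have hy1 : |y / Λ| ≤ |y| := by
      rw [abs_div, abs_of_pos hL0]
      exact div_le_self (abs_nonneg _) hL
    have h2 := hCP y
    rw [Real.norm_eq_abs] at h2
    have hy0 : 0 < 1 + |y| := by positivity
    have h3 : ‖pwf b y‖ * (1 + |y|) ^ NK k ≤ CP * (1 + y ^ 2)⁻¹ := by
      have h4 : ‖pwf b y‖ * (1 + |y|) ^ NK k = ((1 + |y|) ^ (NK k + 2) * ‖pwf b y‖) *
          ((1 + |y|) ^ 2)⁻¹ := by
        field_simp
        ring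
      rw [h4]
      have hCP0 : 0 ≤ CP := le_trans (by positivity) h2
      exact mul_le_mul h2 (inv_sq_le y) (by positivity) hCP0
    rw [abs_of_nonneg ht0] at h1
    simp only [hf]
    rw [norm_mul, norm_mul]
    calc ‖pwf b y‖ * (‖φ (t / T)‖ * ‖D γ i ((y / Λ : ℝ) : ℂ) t‖)
        ≤ ‖pwf b y‖ * (Cφ * (CD * (1 + ‖γ‖) ^ NK k * (1 + c * T) ^ (2 * k) *
          (1 + |y|) ^ NK k)) := by
          refine mul_le_mul_of_nonneg_left ?_ (norm_nonneg _)
          refine mul_le_mul (hCφ _) (h1.trans ?_) (norm_nonneg _) hCφ0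
          gcongr
      _ = (‖pwf b y‖ * (1 + |y|) ^ NK k) *
          (Cφ * (CD * (1 + ‖γ‖) ^ NK k * (1 + c * T) ^ (2 * k))) := by ring
      _ ≤ (CP * (1 + y ^ 2)⁻¹) * (Cφ * (CD * (1 + ‖γ‖) ^ NK k * (1 + c * T) ^ (2 * k))) := by
          refine mul_le_mul_of_nonneg_right h3 (by positivity)
      _ = _ := by ring
  obtain ⟨hswap, hint⟩ := integral_swap_of_bound (mul_nonneg hc0 hT0.le) hNf hfc hfb
  -- rewrite both terms
  have hF : ∫ y : ℝ, pwf b y * Fp φ (mv γ i (y / Λ)) T =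
      ∫ y : ℝ, ∫ t in (0:ℝ)..(c * T), f y t := by
    refine integral_congr_ae ?_
    filter_upwards [haeN] with y hy
    rw [Fp_eq_integral hc hγ hT0 hc0 (hNy y hy), ← intervalIntegral.integral_const_mul]
  have hmv0 : mv γ i 0 = γ := by simp [mv]
  have hG : Fp φ γ T = ∫ t in (0:ℝ)..(c * T), φ (t / T) * D γ i (0 : ℂ) t := by
    have h1 := Fp_eq_integral (φ := φ) hc hγ hT0 hc0 (exc_zero hγ i)
    rw [hmv0, Complex.ofReal_zero] at h1
    exact h1
  have hint0 : IntervalIntegrable (fun t => φ (t / T) * D γ i (0 : ℂ) t) volume 0 (c * T) := by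
    refine Continuous.intervalIntegrable ?_ _ _
    rw [continuous_iff_continuousAt]
    intro t
    have h2 := continuousAt_D hγ (i := i) (t := t) (exc_zero hγ i)
    have h3 : ContinuousAt (fun t : ℝ => D γ i (((0:ℝ)) : ℂ) t) t :=
      ContinuousAt.comp (f := fun t : ℝ => ((0:ℝ), t)) (x := t) h2 (by fun_prop)
    rw [Complex.ofReal_zero] at h3
    exact (hφ.smooth.continuous.comp (continuous_id.div_const T)).continuousAt.mul h3
  rw [hF, hswap, hG, ← intervalIntegral.integral_sub hint0 hint]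
  have hpt : ∀ t ∈ Set.uIoc (0:ℝ) (c * T), ‖φ (t / T) * D γ i (0 : ℂ) t - ∫ y : ℝ, f y t‖ ≤
      Cφ * (CB * (CD * (1 + ‖γ‖) ^ NK k * (1 + c * T) ^ (2 * k)) *
        Real.exp (-(R * (1 / 16 * Λ)))) := by
    intro t ht
    rw [Set.uIoc_of_le (mul_nonneg hc0 hT0.le)] at ht
    obtain ⟨h, hh1, hh2, hh3⟩ := exists_ext hCD hγ i t
    have h0 : h 0 = D γ i 0 t := hh2 0 (by norm_num) (by
      have := ne_of_notMem_exc (exc_zero hγ i)
      simpa using this)
    have h1 : ∫ y : ℝ, f y t = φ (t / T) * ∫ y : ℝ, pwf b y * h ((y / Λ : ℝ) : ℂ) := by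
      rw [← integral_const_mul]
      refine integral_congr_ae ?_
      filter_upwards [haeN] with y hy
      rw [hh2 ((y / Λ : ℝ) : ℂ) (by simp) (ne_of_notMem_exc (hNy y hy))]
      simp only [hf]
      ring
    rw [h1, ← h0, ← mul_sub, norm_mul]
    refine mul_le_mul (hCφ _) ?_ (norm_nonneg _) hCφ0
    refine hCB h (CD * (1 + ‖γ‖) ^ NK k * (1 + c * T) ^ (2 * k)) Λ (by positivity) hL ?_ ?_
    · have he : (2 * (1 / 16) : ℝ) = 1 / 8 := by norm_num
      rw [he]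
      exact hh1
    · intro z hz
      refine (hh3 z hz).trans ?_
      have ht1 : |t| ≤ c * T := by rw [abs_of_pos ht.1]; exact ht.2
      gcongr
  have h5 := intervalIntegral.norm_integral_le_of_norm_le_const hpt
  refine h5.trans ?_
  rw [sub_zero, abs_of_nonneg (mul_nonneg hc0 hT0.le)]
  have hexp : Real.exp (-(R * (1 / 16 * Λ))) ≤ (T ^ (2 * k + 1))⁻¹ := by
    rw [← Real.exp_log (pow_pos hT0 (2 * k + 1)), ← Real.exp_neg, Real.log_pow]
    refine Real.exp_le_exp.2 ?_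
    rw [← hΛ]
    push_cast
    nlinarith
  have hTk : (1 + c * T) ^ (2 * k) ≤ (1 + c) ^ (2 * k) * T ^ (2 * k) := by
    rw [← mul_pow]
    gcongr
    nlinarith
  calc Cφ * (CB * (CD * (1 + ‖γ‖) ^ NK k * (1 + c * T) ^ (2 * k)) *
        Real.exp (-(R * (1 / 16 * Λ)))) * (c * T)
      ≤ Cφ * (CB * (CD * (1 + ‖γ‖) ^ NK k * ((1 + c) ^ (2 * k) * T ^ (2 * k))) *
        (T ^ (2 * k + 1))⁻¹) * (c * T) := by gcongr
    _ = c * Cφ * CB * CD * (1 + c) ^ (2 * k) * (1 + ‖γ‖) ^ NK k := by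
        have : T ^ (2 * k) * (T ^ (2 * k + 1))⁻¹ * T = 1 := by
          rw [pow_succ]
          field_simp
        linear_combination (c * Cφ * CB * CD * (1 + c) ^ (2 * k) * (1 + ‖γ‖) ^ NK k) * this

end BLC

theorem band_limit_coord (k : ℕ) {φ : ℝ → ℂ} (hφ : TF φ) : ∃ R₀ : ℝ, ∀ R : ℝ, R₀ ≤ R →
    ∀ b : ℝ → ℂ, Bp b → (∀ ξ, |ξ| ≤ R → b ξ = 1) → ∃ C : ℝ, 0 ≤ C ∧ ∃ N : ℕ,
    ∀ (i : Ix k) (γ : Ix k → ℝ) (T : ℝ), 3 ≤ T →
      ‖Fp φ γ T - ∫ y : ℝ, pwf b y * Fp φ (γ + (y / Real.log T) • Pi.single i 1) T‖ ≤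
        C * (1 + ‖γ‖) ^ N := by
  refine ⟨16 * (2 * k + 1), fun R hR b hb hb1 => ?_⟩
  have hR0 : 0 < R := lt_of_lt_of_le (by positivity) hR
  obtain ⟨C, hC0, hC⟩ := BLC.band_inj k hφ hR0 hR hb hb1
  refine ⟨C, hC0, NK k, fun i γ T hT => ?_⟩
  obtain ⟨u, hu1, hu2⟩ := exists_seq_injective γ
  have hT0 : 0 < T := by linarith
  have hL : 1 ≤ Real.log T := by
    rw [Real.le_log_iff_exp_le hT0]
    have := Real.exp_one_lt_d9
    linarith
  have hL0 : 0 < Real.log T := by linarith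
  obtain ⟨CF, hCF0, NF, A, hCF⟩ := Fp_poly k hφ
  obtain ⟨CP, hCP⟩ := (rd_pwf hb).decay (NF + 2)
  have hFc := continuous_Fp (k := k) hφ hT0
  have hlim1 : Tendsto (fun n => Fp φ (u n) T) atTop (𝓝 (Fp φ γ T)) := (hFc.tendsto γ).comp hu2
  have hbd : ∀ᶠ n in atTop, ‖u n‖ ≤ ‖γ‖ + 1 :=
    (hu2.norm.eventually (gt_mem_nhds (show ‖γ‖ < ‖γ‖ + 1 by linarith))).mono fun n hn => hn.le
  have hlim2 : Tendsto (fun n => ∫ y : ℝ, pwf b y *
      Fp φ (u n + (y / Real.log T) • Pi.single i 1) T) atTop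
      (𝓝 (∫ y : ℝ, pwf b y * Fp φ (γ + (y / Real.log T) • Pi.single i 1) T)) := by
    refine tendsto_integral_filter_of_dominated_convergence
      (fun y => (CP * (CF * (‖γ‖ + 2) ^ NF * T ^ A)) * (1 + y ^ 2)⁻¹) ?_ ?_ ?_ ?_
    · refine Eventually.of_forall fun n => Continuous.aestronglyMeasurable ?_
      exact (rd_pwf hb).cont.mul (hFc.comp (by fun_prop))
    · filter_upwards [hbd] with n hn
      refine Eventually.of_forall fun y => ?_
      rw [norm_mul]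
      have h1 := hCF (u n + (y / Real.log T) • Pi.single i 1) T (by linarith)
      have h2 : ‖u n + (y / Real.log T) • (Pi.single i 1 : Ix k → ℝ)‖ ≤ ‖γ‖ + 1 + |y| := by
        refine (norm_add_le _ _).trans (add_le_add hn ?_)
        rw [norm_smul, Real.norm_eq_abs, abs_div, abs_of_pos hL0]
        have h3 : ‖(Pi.single i 1 : Ix k → ℝ)‖ ≤ 1 := by
          rw [pi_norm_le_iff_of_nonneg zero_le_one]
          intro j
          by_cases hj : j = i
          · subst hj; simp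
          · simp [hj]
        calc |y| / Real.log T * ‖(Pi.single i 1 : Ix k → ℝ)‖ ≤ |y| * 1 := by
              refine mul_le_mul (div_le_self (abs_nonneg _) hL) h3 (norm_nonneg _) (abs_nonneg _)
          _ = |y| := mul_one _
      have h4 : 1 + ‖u n + (y / Real.log T) • (Pi.single i 1 : Ix k → ℝ)‖ ≤
          (‖γ‖ + 2) * (1 + |y|) := by
        nlinarith [mul_nonneg (norm_nonneg γ) (abs_nonneg y), abs_nonneg y]
      have h5 := hCP y
      rw [Real.norm_eq_abs] at h5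
      have hy0 : 0 < 1 + |y| := by positivity
      have hCP0 : 0 ≤ CP := le_trans (by positivity) h5
      have h6 : ‖pwf b y‖ * (1 + |y|) ^ NF ≤ CP * (1 + y ^ 2)⁻¹ := by
        have h7 : ‖pwf b y‖ * (1 + |y|) ^ NF = ((1 + |y|) ^ (NF + 2) * ‖pwf b y‖) *
            ((1 + |y|) ^ 2)⁻¹ := by
          field_simp
          ring
        rw [h7]
        exact mul_le_mul h5 (inv_sq_le y) (by positivity) hCP0
      calc ‖pwf b y‖ * ‖Fp φ (u n + (y / Real.log T) • Pi.single i 1) T‖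
          ≤ ‖pwf b y‖ * (CF * ((‖γ‖ + 2) * (1 + |y|)) ^ NF * T ^ A) := by
            refine mul_le_mul_of_nonneg_left (h1.trans ?_) (norm_nonneg _)
            gcongr
        _ = (‖pwf b y‖ * (1 + |y|) ^ NF) * (CF * (‖γ‖ + 2) ^ NF * T ^ A) := by
            rw [mul_pow]; ring
        _ ≤ (CP * (1 + y ^ 2)⁻¹) * (CF * (‖γ‖ + 2) ^ NF * T ^ A) := by
            refine mul_le_mul_of_nonneg_right h6 (by positivity)
        _ = _ := by ring
    · exact integrable_inv_one_add_sq.const_mul _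
    · refine Eventually.of_forall fun y => ?_
      have h1 : Continuous fun γ : Ix k → ℝ => pwf b y *
          Fp φ (γ + (y / Real.log T) • Pi.single i 1) T :=
        continuous_const.mul (hFc.comp (by fun_prop))
      exact (h1.tendsto γ).comp hu2
  have hlim3 : Tendsto (fun n => C * (1 + ‖u n‖) ^ NK k) atTop (𝓝 (C * (1 + ‖γ‖) ^ NK k)) :=
    ((hu2.norm.const_add 1).pow _).const_mul C
  exact le_of_tendsto_of_tendsto ((hlim1.sub hlim2).norm) hlim3
    (Eventually.of_forall fun n => hC i (u n) (hu1 n) T hT)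

end Pool.Agent.H26
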