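import Pool.Agent.H26.SP.RDK

/-!
Integrals of functions of polynomial growth against kernels of rapid decay.
-/

set_option autoImplicit false

namespace Pool.Agent.H26

open Complex Finset MeasureTheory Filter Asymptotics Topology
open scoped ContDiff SchwartzMap

variable {k : ℕ}

namespace FIN

section inner

variable {V W : Type*} [NormedAddCommGroup V] [NormedSpace ℝ V] [FiniteDimensional ℝ V]
  [MeasureSpace V] [BorelSpace V] [(volume : Measure V).IsAddHaarMeasure]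
  [NormedAddCommGroup W] [NormedSpace ℝ W] [FiniteDimensional ℝ W]

lemma integrable_rd_pow {g : V → ℂ} (hg : RD g) (N : ℕ) :
    Integrable fun y => ‖g y‖ * (1 + ‖y‖) ^ N := by
  obtain ⟨C, _, hC⟩ := hg.exists_bound N
  have h := (hC (fun y => (((1 + ‖y‖) ^ N : ℝ) : ℂ)) 1 zero_le_one (by fun_prop) (fun z => by
    rw [Complex.norm_real, Real.norm_eq_abs, abs_of_nonneg (by positivity), one_mul])).1
  refine h.norm.congr (Filter.Eventually.of_forall fun y => ?_)
  simp only [norm_mul, Complex.norm_real, Real.norm_eq_abs]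
  rw [abs_of_nonneg (by positivity)]

lemma exists_norm_lin_le (A : V →ₗ[ℝ] W) : ∃ a : ℝ, 0 ≤ a ∧ ∀ y, ‖A y‖ ≤ a * ‖y‖ :=
  ⟨‖LinearMap.toContinuousLinearMap A‖, norm_nonneg _, fun y =>
    (LinearMap.toContinuousLinearMap A).le_opNorm y⟩

lemma norm_add_lin_le {A : V →ₗ[ℝ] W} {a : ℝ} (ha0 : 0 ≤ a) (ha : ∀ y, ‖A y‖ ≤ a * ‖y‖)
    (z : W) (y : V) : 1 + ‖z + A y‖ ≤ (1 + a) * (1 + ‖z‖) * (1 + ‖y‖) := by
  have h1 := norm_add_le z (A y)
  have h2 := ha y
  have h3 := norm_nonneg z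
  have h4 := norm_nonneg y
  have h5 : 0 ≤ ‖z‖ * ‖y‖ := mul_nonneg h3 h4
  have h6 : 0 ≤ a * ‖z‖ := mul_nonneg ha0 h3
  have h7 : 0 ≤ a * (‖z‖ * ‖y‖) := mul_nonneg ha0 h5
  nlinarith

/-- The inner integral is continuous and has polynomial growth. -/
lemma exists_inner {g : V → ℂ} (hg : RD g) (A : V →ₗ[ℝ] W) (N : ℕ) : ∃ C : ℝ, 0 ≤ C ∧
    ∀ (G : W → ℂ) (D : ℝ), 0 ≤ D → Continuous G → (∀ z, ‖G z‖ ≤ D * (1 + ‖z‖) ^ N) →
      Continuous (fun z => ∫ y, g y * G (z + A y)) ∧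
      ∀ z, ‖∫ y, g y * G (z + A y)‖ ≤ C * D * (1 + ‖z‖) ^ N := by
  obtain ⟨a, ha0, ha⟩ := exists_norm_lin_le A
  have hAc : Continuous A := LinearMap.continuous_of_finiteDimensional A
  have hi := integrable_rd_pow hg N
  have hI0 : 0 ≤ ∫ y, ‖g y‖ * (1 + ‖y‖) ^ N := integral_nonneg fun y => by positivity
  refine ⟨(1 + a) ^ N * ∫ y, ‖g y‖ * (1 + ‖y‖) ^ N, by positivity, fun G D hD hG hGN => ?_⟩
  have hb : ∀ z y, ‖g y * G (z + A y)‖ ≤
      D * ((1 + a) * (1 + ‖z‖)) ^ N * (‖g y‖ * (1 + ‖y‖) ^ N) := by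
    intro z y
    rw [norm_mul]
    have h1 : (1 + ‖z + A y‖) ^ N ≤ ((1 + a) * (1 + ‖z‖)) ^ N * (1 + ‖y‖) ^ N := by
      rw [← mul_pow]
      exact pow_le_pow_left₀ (by positivity) (norm_add_lin_le ha0 ha z y) N
    calc ‖g y‖ * ‖G (z + A y)‖ ≤ ‖g y‖ * (D * (((1 + a) * (1 + ‖z‖)) ^ N * (1 + ‖y‖) ^ N)) := by
          refine mul_le_mul_of_nonneg_left ((hGN _).trans ?_) (norm_nonneg _)
          exact mul_le_mul_of_nonneg_left h1 hD
      _ = _ := by ring
  constructor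
  · rw [continuous_iff_continuousAt]
    intro z₀
    refine continuousAt_of_dominated (bound := fun y =>
      D * ((1 + a) * (2 + ‖z₀‖)) ^ N * (‖g y‖ * (1 + ‖y‖) ^ N)) ?_ ?_ (hi.const_mul _) ?_
    · exact Filter.Eventually.of_forall fun z =>
        (hg.cont.mul (hG.comp (by fun_prop))).aestronglyMeasurable
    · have hball : Metric.ball z₀ 1 ∈ 𝓝 z₀ := Metric.ball_mem_nhds z₀ one_pos
      filter_upwards [hball] with z hz
      refine Filter.Eventually.of_forall fun y => (hb z y).trans ?_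
      have h1 : ‖z‖ ≤ 1 + ‖z₀‖ := by
        have h2 : ‖z - z₀‖ < 1 := by rwa [mem_ball_iff_norm] at hz
        have h3 := norm_add_le (z - z₀) z₀
        rw [sub_add_cancel] at h3
        linarith
      have h4 : 0 ≤ ‖g y‖ * (1 + ‖y‖) ^ N := by positivity
      have h5 : 1 + ‖z‖ ≤ 2 + ‖z₀‖ := by linarith
      gcongr
    · refine Filter.Eventually.of_forall fun y => ?_
      have : Continuous fun z : W => g y * G (z + A y) := continuous_const.mul (hG.comp (by fun_prop))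
      exact this.continuousAt
  · intro z
    refine (norm_integral_le_of_norm_le (hi.const_mul _)
      (Filter.Eventually.of_forall (hb z))).trans (le_of_eq ?_)
    rw [integral_const_mul, mul_pow]
    ring

end inner

end FIN

end Pool.Agent.H26
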