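import Pool.Agent.H26.SP.PW
import Pool.Agent.H26.LA3
import Pool.Agent.H26.ZetaGrowth

/-! Frequencies below zero of the zeta function. -/

namespace Pool.Agent.H26

open Complex Finset MeasureTheory Filter Asymptotics Topology
open scoped ContDiff SchwartzMap

variable {k : ℕ}

namespace ZLO

open PW

/-- The entire function `(s - 1) * zeta s`. -/
noncomputable def Ze (s : ℂ) : ℂ := 1 + (s - 1) * riemannZeta₀ s

lemma Ze_differentiable : Differentiable ℂ Ze := by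
  unfold Ze
  exact ((differentiable_id.sub_const 1).mul differentiable_riemannZeta₀).const_add 1

lemma zeta_eq {s : ℂ} (hs : s ≠ 1) : riemannZeta s = Ze s / (s - 1) := by
  have h : s - 1 ≠ 0 := sub_ne_zero.2 hs
  rw [riemannZeta_eq_inv_sub_add hs, Ze]
  field_simp

lemma norm_Ze_le {s : ℂ} (hs : 1 / 2 ≤ s.re) : ‖Ze s‖ ≤ 3 * (1 + ‖s‖) ^ 2 := by
  have h0 : 0 < s.re := by linarith
  have h1 := norm_riemannZeta₀_le h0
  have h2 : ‖s‖ / s.re ≤ 2 * ‖s‖ := by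
    rw [div_le_iff₀ h0]
    nlinarith [norm_nonneg s]
  have h3 : ‖s - 1‖ ≤ ‖s‖ + 1 := by
    have := norm_sub_le s 1
    rwa [norm_one] at this
  unfold Ze
  calc ‖1 + (s - 1) * riemannZeta₀ s‖ ≤ ‖(1 : ℂ)‖ + ‖(s - 1) * riemannZeta₀ s‖ := norm_add_le _ _
    _ = 1 + ‖s - 1‖ * ‖riemannZeta₀ s‖ := by rw [norm_one, norm_mul]
    _ ≤ 1 + (‖s‖ + 1) * (1 + 2 * ‖s‖) := by
        have : ‖riemannZeta₀ s‖ ≤ 1 + 2 * ‖s‖ := h1.trans (by linarith)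
        have := mul_le_mul h3 this (norm_nonneg _) (by positivity)
        linarith
    _ ≤ 3 * (1 + ‖s‖) ^ 2 := by nlinarith [norm_nonneg s]

lemma arg_re (τ Λ : ℝ) (z : ℂ) : (1 / 2 + I * (τ + z / Λ) : ℂ).re = 1 / 2 - z.im / Λ := by
  have h : (z / (Λ : ℂ)).im = z.im / Λ := Complex.div_ofReal_im z Λ
  simp [Complex.mul_re, h]
  ring

lemma arg_norm {τ Λ : ℝ} (hΛ : 1 ≤ Λ) (z : ℂ) :
    ‖(1 / 2 + I * (τ + z / Λ) : ℂ)‖ ≤ 1 / 2 + |τ| + ‖z‖ := by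
  have h1 : ‖(1 / 2 : ℂ)‖ = 1 / 2 := by norm_num
  have h2 : ‖z / (Λ : ℂ)‖ ≤ ‖z‖ := by
    rw [norm_div, Complex.norm_real, Real.norm_of_nonneg (by linarith)]
    exact div_le_self (norm_nonneg z) hΛ
  calc ‖(1 / 2 + I * (τ + z / Λ) : ℂ)‖ ≤ ‖(1 / 2 : ℂ)‖ + ‖I * (τ + z / Λ)‖ := norm_add_le _ _
    _ = 1 / 2 + ‖(τ : ℂ) + z / Λ‖ := by rw [h1, norm_mul, Complex.norm_I, one_mul]
    _ ≤ 1 / 2 + (‖(τ : ℂ)‖ + ‖z / (Λ : ℂ)‖) := by
        have := norm_add_le (τ : ℂ) (z / Λ)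
        linarith
    _ ≤ _ := by
        rw [Complex.norm_real, Real.norm_eq_abs]
        linarith

/-- pointwise bound of the integrand in the lower half plane -/
lemma integrand_le {b : ℝ → ℂ} {q C : ℝ}
    (hC : ∀ z : ℂ, z.im ≤ 0 → (1 + ‖z‖) ^ 4 * ‖pwf b z‖ ≤ C * Real.exp (q * (-z.im)))
    {τ Λ : ℝ} (hΛ : 1 ≤ Λ) {z : ℂ} (hz : z.im ≤ 0) :
    ‖pwf b z * Ze (1 / 2 + I * (τ + z / Λ))‖ ≤
      (3 * C * (2 + |τ|) ^ 2 * Real.exp (q * (-z.im))) * (1 + z.re ^ 2)⁻¹ := by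
  have hre : 1 / 2 ≤ (1 / 2 + I * (τ + z / Λ) : ℂ).re := by
    rw [arg_re]
    have : z.im / Λ ≤ 0 := div_nonpos_of_nonpos_of_nonneg hz (by linarith)
    linarith
  have h1 := norm_Ze_le hre
  have h2 := arg_norm (τ := τ) hΛ z
  have hz0 := norm_nonneg z
  have ht0 := abs_nonneg τ
  have h3 : (1 + ‖(1 / 2 + I * (τ + z / Λ) : ℂ)‖) ^ 2 ≤ ((2 + |τ|) * (1 + ‖z‖)) ^ 2 := by
    apply pow_le_pow_left₀ (by positivity)
    nlinarith [mul_nonneg ht0 hz0]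
  have h4 := hC z hz
  have h5 : 1 + z.re ^ 2 ≤ (1 + ‖z‖) ^ 2 := by
    have h6 := Complex.abs_re_le_norm z
    have h7 : z.re ^ 2 ≤ ‖z‖ ^ 2 := by
      rw [← sq_abs z.re]
      exact pow_le_pow_left₀ (abs_nonneg _) h6 2
    nlinarith
  have hp : 0 < 1 + ‖z‖ := by positivity
  have hp2 : 0 < 1 + z.re ^ 2 := by positivity
  rw [norm_mul, ← div_eq_mul_inv, le_div_iff₀ hp2]
  calc ‖pwf b z‖ * ‖Ze (1 / 2 + I * (τ + z / Λ))‖ * (1 + z.re ^ 2)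
      ≤ ‖pwf b z‖ * (3 * ((2 + |τ|) * (1 + ‖z‖)) ^ 2) * (1 + ‖z‖) ^ 2 := by
        apply mul_le_mul _ h5 hp2.le (by positivity)
        apply mul_le_mul_of_nonneg_left _ (norm_nonneg _)
        exact h1.trans (mul_le_mul_of_nonneg_left h3 (by norm_num))
    _ = 3 * (2 + |τ|) ^ 2 * ((1 + ‖z‖) ^ 4 * ‖pwf b z‖) := by ring
    _ ≤ 3 * (2 + |τ|) ^ 2 * (C * Real.exp (q * (-z.im))) := by gcongr
    _ = _ := by ring

lemma main_le {b : ℝ → ℂ} (hb : Bp b) {δ : ℝ} (hδ : 0 < δ) (hbs : ∀ ξ, b ξ ≠ 0 → ξ ≤ -δ)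
    (M : ℕ) : ∃ C : ℝ, 0 ≤ C ∧ ∀ τ T : ℝ, 3 ≤ T →
      ‖∫ y : ℝ, pwf b y * Ze (1 / 2 + I * (τ + y / Real.log T))‖ ≤
        C * (2 + |τ|) ^ 2 * (T ^ M)⁻¹ := by
  obtain ⟨C, hC0, hC⟩ := pwf_bound_neg hb hbs 4
  obtain ⟨Y, hY⟩ := exists_nat_ge (M / δ)
  have hYδ : (M : ℝ) ≤ δ * Y := by
    rw [div_le_iff₀ hδ] at hY
    linarith
  refine ⟨3 * C * ∫ x : ℝ, (1 + x ^ 2)⁻¹, by positivity, fun τ T hT => ?_⟩
  have hT0 : 0 < T := by linarith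
  have hΛ : 1 ≤ Real.log T := by
    rw [Real.le_log_iff_exp_le hT0]
    have := Real.exp_one_lt_d9
    linarith
  set Λ := Real.log T with hΛd
  have hYΛ : 0 ≤ (Y : ℝ) * Λ := by positivity
  have hsh := line_shift (F := fun z : ℂ => pwf b z * Ze (1 / 2 + I * (τ + z / Λ)))
    (y1 := 0) (y2 := -(Y * Λ)) (K := 3 * C * (2 + |τ|) ^ 2) (by linarith) ?_ ?_
  · have e1 : ∫ y : ℝ, pwf b y * Ze (1 / 2 + I * (τ + y / Λ)) =
        ∫ x : ℝ, pwf b ((x : ℂ) + ((0 : ℝ) : ℂ) * I) *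
          Ze (1 / 2 + I * (τ + ((x : ℂ) + ((0 : ℝ) : ℂ) * I) / Λ)) := by
      congr 1
      funext x
      simp
    rw [e1, hsh]
    have hb2 : ∀ x : ℝ, ‖pwf b ((x : ℂ) + ((-(Y * Λ) : ℝ) : ℂ) * I) *
        Ze (1 / 2 + I * (τ + ((x : ℂ) + ((-(Y * Λ) : ℝ) : ℂ) * I) / Λ))‖ ≤
        (3 * C * (2 + |τ|) ^ 2 * Real.exp (-δ * (Y * Λ))) * (1 + x ^ 2)⁻¹ := by
      intro x
      have him : ((x : ℂ) + ((-(Y * Λ) : ℝ) : ℂ) * I).im = -(Y * Λ) := by simp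
      have hre : ((x : ℂ) + ((-(Y * Λ) : ℝ) : ℂ) * I).re = x := by simp
      have h := integrand_le (τ := τ) hC hΛ (z := (x : ℂ) + ((-(Y * Λ) : ℝ) : ℂ) * I)
        (by rw [him]; linarith)
      rw [him, hre, neg_neg] at h
      exact h
    have hexp : Real.exp (-δ * (Y * Λ)) ≤ (T ^ M)⁻¹ := by
      rw [← Real.exp_log (pow_pos hT0 M), ← Real.exp_neg, Real.log_pow]
      apply Real.exp_le_exp.mpr
      have : (M : ℝ) * Λ ≤ δ * Y * Λ := mul_le_mul_of_nonneg_right hYδ (by linarith)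
      linarith
    calc _ ≤ ∫ x : ℝ, (3 * C * (2 + |τ|) ^ 2 * Real.exp (-δ * (Y * Λ))) * (1 + x ^ 2)⁻¹ :=
          norm_integral_le_of_norm_le (integrable_inv_one_add_sq.const_mul _)
            (Filter.Eventually.of_forall hb2)
      _ = (3 * C * (2 + |τ|) ^ 2 * Real.exp (-δ * (Y * Λ))) * ∫ x : ℝ, (1 + x ^ 2)⁻¹ :=
          integral_const_mul _ _
      _ ≤ (3 * C * (2 + |τ|) ^ 2 * (T ^ M)⁻¹) * ∫ x : ℝ, (1 + x ^ 2)⁻¹ := by
          apply mul_le_mul_of_nonneg_right _ (by positivity)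
          exact mul_le_mul_of_nonneg_left hexp (by positivity)
      _ = _ := by ring
  · intro z _ _
    have h2 : DifferentiableAt ℂ (fun z : ℂ => (1 / 2 + I * (τ + z / Λ) : ℂ)) z := by fun_prop
    have h3 : DifferentiableAt ℂ (fun z : ℂ => Ze (1 / 2 + I * (τ + z / Λ))) z :=
      DifferentiableAt.comp (g := Ze) (f := fun z : ℂ => (1 / 2 + I * (τ + z / Λ) : ℂ)) z
        (Ze_differentiable _) h2
    exact (pwf_differentiable hb z).mul h3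
  · intro x y hy1 hy2
    have him : ((x : ℂ) + (y : ℂ) * I).im = y := by simp
    have hre : ((x : ℂ) + (y : ℂ) * I).re = x := by simp
    have h := integrand_le (τ := τ) hC hΛ (z := (x : ℂ) + (y : ℂ) * I) (by rw [him]; exact hy2)
    rw [him, hre] at h
    refine h.trans ?_
    apply mul_le_mul_of_nonneg_right _ (by positivity)
    have : Real.exp (-δ * (-y)) ≤ 1 := by
      rw [Real.exp_le_one_iff]
      nlinarith
    calc 3 * C * (2 + |τ|) ^ 2 * Real.exp (-δ * (-y)) ≤ 3 * C * (2 + |τ|) ^ 2 * 1 :=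
          mul_le_mul_of_nonneg_left this (by positivity)
      _ = _ := mul_one _

lemma iter_Bp {b : ℝ → ℂ} (hb : Bp b) (j : ℕ) : Bp (deriv^[j] b) := by
  induction j with
  | zero => exact hb
  | succ j ih =>
    rw [Function.iterate_succ_apply']
    exact Bp.dv ih

lemma iter_supp {b : ℝ → ℂ} {q : ℝ} (hq : ∀ ξ, b ξ ≠ 0 → ξ ≤ q) (j : ℕ) :
    ∀ ξ, (deriv^[j] b) ξ ≠ 0 → ξ ≤ q := by
  induction j with
  | zero => exact hq
  | succ j ih =>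
    rw [Function.iterate_succ_apply']
    exact supp_le ih

lemma iter_pwf {b : ℝ → ℂ} (hb : Bp b) (j : ℕ) (z : ℂ) :
    pwf (deriv^[j] b) z = (-(I * z)) ^ j * pwf b z := by
  induction j with
  | zero => simp
  | succ j ih =>
    rw [Function.iterate_succ_apply', pwf_deriv (iter_Bp hb j), ih]
    ring

/-- geometric expansion of the inverse -/
lemma inv_expand {a w : ℂ} (ha : a ≠ 0) (h : a + w ≠ 0) (J : ℕ) :
    (a + w)⁻¹ = ∑ j ∈ Finset.range J, (-w) ^ j / a ^ (j + 1) + (-w) ^ J / (a ^ J * (a + w)) := by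
  induction J with
  | zero => simp
  | succ J ih =>
    rw [Finset.sum_range_succ, ih]
    field_simp
    ring

lemma arg_sub_one (τ Λ : ℝ) (y : ℂ) :
    (1 / 2 + I * (τ + y / Λ) : ℂ) - 1 = (I * τ - 1 / 2) + I * (y / Λ) := by
  ring

lemma arg_ne_one (τ Λ y : ℝ) : (1 / 2 + I * (τ + (y : ℂ) / Λ) : ℂ) ≠ 1 := by
  intro h
  have h1 := congrArg Complex.re h
  rw [arg_re] at h1
  simp at h1

lemma norm_arg_sub_one (τ Λ y : ℝ) : 1 / 2 ≤ ‖(1 / 2 + I * (τ + (y : ℂ) / Λ) : ℂ) - 1‖ := by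
  have h1 := Complex.abs_re_le_norm ((1 / 2 + I * (τ + (y : ℂ) / Λ) : ℂ) - 1)
  rw [Complex.sub_re, arg_re] at h1
  simp at h1
  norm_num at h1 ⊢
  exact h1

lemma norm_base_ge (τ : ℝ) : (1 + |τ|) / 3 ≤ ‖(I * τ - 1 / 2 : ℂ)‖ := by
  have h1 : ‖(I * τ - 1 / 2 : ℂ)‖ ^ 2 = τ ^ 2 + 1 / 4 := by
    rw [← Complex.normSq_eq_norm_sq, Complex.normSq_apply]
    simp
    ring
  apply le_of_sq_le_sq _ (norm_nonneg _)
  rw [h1]
  have := sq_abs τ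
  nlinarith [sq_nonneg (1 - |τ|), abs_nonneg τ]

/-- integrability of the pieces -/
lemma integrable_piece {b : ℝ → ℂ} (hb : Bp b) {q C : ℝ}
    (hC : ∀ z : ℂ, z.im ≤ 0 → (1 + ‖z‖) ^ 4 * ‖pwf b z‖ ≤ C * Real.exp (q * (-z.im)))
    (τ : ℝ) {Λ : ℝ} (hΛ : 1 ≤ Λ) :
    Integrable fun y : ℝ => pwf b y * Ze (1 / 2 + I * (τ + y / Λ)) := by
  have hcont : Continuous fun y : ℝ => pwf b y * Ze (1 / 2 + I * (τ + y / Λ)) :=
    ((pwf_differentiable hb).continuous.comp Complex.continuous_ofReal).mul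
      (Ze_differentiable.continuous.comp (by fun_prop))
  refine Integrable.mono' (integrable_inv_one_add_sq.const_mul (3 * C * (2 + |τ|) ^ 2))
    hcont.aestronglyMeasurable (Filter.Eventually.of_forall fun y => ?_)
  have h := integrand_le (τ := τ) hC hΛ (z := (y : ℂ)) (by simp)
  simpa using h

lemma norm_rest {b : ℝ → ℂ} {q C : ℝ} (hC0 : 0 ≤ C)
    (hC : ∀ z : ℂ, z.im ≤ 0 → (1 + ‖z‖) ^ 4 * ‖pwf b z‖ ≤ C * Real.exp (q * (-z.im)))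
    (τ : ℝ) {Λ : ℝ} (hΛ : 1 ≤ Λ) (y : ℝ) :
    ‖pwf b y * riemannZeta (1 / 2 + I * (τ + y / Λ))‖ ≤
      2 * (3 * C * (2 + |τ|) ^ 2) * (1 + y ^ 2)⁻¹ := by
  have h := integrand_le (τ := τ) hC hΛ (z := (y : ℂ)) (by simp)
  simp only [Complex.ofReal_im, neg_zero, mul_zero, Real.exp_zero, mul_one,
    Complex.ofReal_re] at h
  have h1 := norm_arg_sub_one τ Λ y
  rw [zeta_eq (arg_ne_one τ Λ y), ← mul_div_assoc, norm_div, div_le_iff₀ (by linarith)]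
  have h0 : 0 ≤ 3 * C * (2 + |τ|) ^ 2 * (1 + y ^ 2)⁻¹ := by positivity
  nlinarith

end ZLO

open ZLO PW

theorem zeta_low {b : ℝ → ℂ} (hb : Bp b) {δ : ℝ} (hδ : 0 < δ) (hbs : ∀ ξ, b ξ ≠ 0 → ξ ≤ -δ)
    (N : ℕ) : ∃ C : ℝ, 0 ≤ C ∧ ∃ A : ℕ, ∀ τ T : ℝ, 3 ≤ T →
      ‖∫ y : ℝ, pwf b y * riemannZeta (1 / 2 + I * (τ + y / Real.log T))‖ ≤
        C * ((1 + |τ| / T) ^ A * (T ^ N)⁻¹ + ((1 + |τ|) ^ N)⁻¹) := by
  choose C hC0 hC using fun j : ℕ => main_le (iter_Bp hb j) hδ (iter_supp hbs j) (N + 2)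
  choose D hD0 hD using fun j : ℕ => pwf_bound_neg (iter_Bp hb j) (iter_supp hbs j) 4
  set J : ℕ := N + 2 with hJ
  set Kp : ℝ := ∫ x : ℝ, (1 + x ^ 2)⁻¹ with hKp
  have hKp0 : 0 ≤ Kp := integral_nonneg fun x => by positivity
  have hS0 : 0 ≤ ∑ j ∈ Finset.range J, 3 ^ (j + 1) * C j :=
    Finset.sum_nonneg fun j _ => mul_nonneg (by positivity) (hC0 j)
  have hR0 : 0 ≤ 3 ^ J * 4 * (6 * D J * Kp) := by
    have h2 := hD0 J
    positivity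
  refine ⟨(∑ j ∈ Finset.range J, 3 ^ (j + 1) * C j) + 3 ^ J * 4 * (6 * D J * Kp),
    add_nonneg hS0 hR0, 2, fun τ T hT => ?_⟩
  have hT0 : 0 < T := by linarith
  have hΛ : 1 ≤ Real.log T := by
    rw [Real.le_log_iff_exp_le hT0]
    have := Real.exp_one_lt_d9
    linarith
  have hmain := fun j => hC j τ T hT
  set Λ := Real.log T with hΛd
  have ht0 := abs_nonneg τ
  set a : ℂ := I * τ - 1 / 2 with ha
  have hage : (1 + |τ|) / 3 ≤ ‖a‖ := norm_base_ge τ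
  have ha0 : a ≠ 0 := by
    intro h
    rw [h, norm_zero] at hage
    linarith
  have hainv : ‖a‖⁻¹ ≤ 3 * (1 + |τ|)⁻¹ := by
    rw [inv_le_comm₀ (by linarith) (by positivity)]
    have : (3 * (1 + |τ|)⁻¹)⁻¹ = (1 + |τ|) / 3 := by
      field_simp
    rw [this]
    exact hage
  have hΛc : (Λ : ℂ) ≠ 0 := by
    have : Λ ≠ 0 := by linarith
    exact_mod_cast this
  -- pointwise expansion
  have hpt : ∀ y : ℝ, pwf b y * riemannZeta (1 / 2 + I * (τ + y / Λ)) =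
      (∑ j ∈ Finset.range J, ((a ^ (j + 1))⁻¹ * ((Λ : ℂ) ^ j)⁻¹) *
        (pwf (deriv^[j] b) y * Ze (1 / 2 + I * (τ + y / Λ)))) +
      ((a ^ J)⁻¹ * ((Λ : ℂ) ^ J)⁻¹) *
        (pwf (deriv^[J] b) y * riemannZeta (1 / 2 + I * (τ + y / Λ))) := by
    intro y
    have h1 := arg_ne_one τ Λ y
    have h2 : (1 / 2 + I * (τ + (y : ℂ) / Λ) : ℂ) - 1 = a + I * (y / Λ) :=
      arg_sub_one τ Λ (y : ℂ)
    have h3 : a + I * (y / Λ) ≠ 0 := by
      rw [← h2]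
      exact sub_ne_zero.2 h1
    have h4 := inv_expand ha0 h3 J
    have hj : ∀ j : ℕ, pwf (deriv^[j] b) y = (-(I * y)) ^ j * pwf b y := fun j => iter_pwf hb j y
    have hw : ∀ j : ℕ, (-(I * ((y : ℂ) / Λ))) ^ j = (-(I * y)) ^ j * ((Λ : ℂ) ^ j)⁻¹ := by
      intro j
      rw [← inv_pow, ← mul_pow]
      congr 1
      rw [div_eq_mul_inv]
      ring
    rw [zeta_eq h1, h2]
    have h5 : pwf b y * (Ze (1 / 2 + I * (τ + y / Λ)) / (a + I * (y / Λ))) =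
        pwf b y * Ze (1 / 2 + I * (τ + y / Λ)) * (a + I * (y / Λ))⁻¹ := by
      rw [div_eq_mul_inv]; ring
    rw [h5, h4, mul_add, Finset.mul_sum]
    congr 1
    · refine Finset.sum_congr rfl fun j _ => ?_
      rw [hw, hj]
      generalize Ze (1 / 2 + I * (τ + y / Λ)) = Z0
      field_simp
    · rw [hw, hj]
      generalize Ze (1 / 2 + I * (τ + y / Λ)) = Z0
      generalize a + I * (y / Λ) = v at h3 ⊢
      field_simp
  have hint : ∀ j : ℕ, Integrable fun y : ℝ =>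
      pwf (deriv^[j] b) y * Ze (1 / 2 + I * (τ + y / Λ)) := fun j =>
    integrable_piece (iter_Bp hb j) (hD j) τ hΛ
  have hrest := norm_rest (hD0 J) (hD J) τ hΛ
  have hintR : Integrable fun y : ℝ =>
      pwf (deriv^[J] b) y * riemannZeta (1 / 2 + I * (τ + y / Λ)) := by
    have hcont : Continuous fun y : ℝ =>
        pwf (deriv^[J] b) y * (Ze (1 / 2 + I * (τ + y / Λ)) / (1 / 2 + I * (τ + y / Λ) - 1)) := by
      refine ((pwf_differentiable (iter_Bp hb J)).continuous.comp Complex.continuous_ofReal).mul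
        (Continuous.div (Ze_differentiable.continuous.comp (by fun_prop)) (by fun_prop) ?_)
      exact fun y => sub_ne_zero.2 (arg_ne_one τ Λ y)
    have hcont' : Continuous fun y : ℝ =>
        pwf (deriv^[J] b) y * riemannZeta (1 / 2 + I * (τ + y / Λ)) := by
      refine hcont.congr fun y => ?_
      rw [zeta_eq (arg_ne_one τ Λ y)]
    exact Integrable.mono' (integrable_inv_one_add_sq.const_mul (2 * (3 * D J * (2 + |τ|) ^ 2)))
      hcont'.aestronglyMeasurable (Filter.Eventually.of_forall hrest)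
  have hI : ∫ y : ℝ, pwf b y * riemannZeta (1 / 2 + I * (τ + y / Λ)) =
      (∑ j ∈ Finset.range J, ((a ^ (j + 1))⁻¹ * ((Λ : ℂ) ^ j)⁻¹) *
        ∫ y : ℝ, pwf (deriv^[j] b) y * Ze (1 / 2 + I * (τ + y / Λ))) +
      ((a ^ J)⁻¹ * ((Λ : ℂ) ^ J)⁻¹) *
        ∫ y : ℝ, pwf (deriv^[J] b) y * riemannZeta (1 / 2 + I * (τ + y / Λ)) := by
    rw [integral_congr_ae (Filter.Eventually.of_forall hpt),
      integral_add (integrable_finsetSum _ fun j _ => (hint j).const_mul _) (hintR.const_mul _),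
      integral_finsetSum _ fun j _ => (hint j).const_mul _, integral_const_mul]
    congr 1
    exact Finset.sum_congr rfl fun j _ => integral_const_mul _ _
  rw [hI]
  have hΛn : ∀ j : ℕ, ‖((Λ : ℂ) ^ j)⁻¹‖ ≤ 1 := by
    intro j
    rw [norm_inv, norm_pow, Complex.norm_real, Real.norm_of_nonneg (by linarith)]
    exact inv_le_one_of_one_le₀ (one_le_pow₀ hΛ)
  have han : ∀ j : ℕ, ‖(a ^ j)⁻¹‖ ≤ 3 ^ j * ((1 + |τ|) ^ j)⁻¹ := by
    intro j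
    rw [norm_inv, norm_pow, ← inv_pow, ← inv_pow, ← mul_pow]
    exact pow_le_pow_left₀ (by positivity) hainv j
  have hone : ∀ j : ℕ, ((1 + |τ|) ^ j)⁻¹ ≤ 1 := fun j =>
    inv_le_one_of_one_le₀ (one_le_pow₀ (by linarith))
  have hscale : (2 + |τ|) ^ 2 * (T ^ (N + 2))⁻¹ ≤ (1 + |τ| / T) ^ 2 * (T ^ N)⁻¹ := by
    have h1 : (2 + |τ|) ^ 2 ≤ (T * (1 + |τ| / T)) ^ 2 := by
      apply pow_le_pow_left₀ (by positivity)
      rw [mul_add, mul_div_cancel₀ _ hT0.ne']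
      linarith
    calc (2 + |τ|) ^ 2 * (T ^ (N + 2))⁻¹ ≤ (T * (1 + |τ| / T)) ^ 2 * (T ^ (N + 2))⁻¹ :=
          mul_le_mul_of_nonneg_right h1 (by positivity)
      _ = _ := by
          rw [pow_add, mul_pow]
          field_simp
  have hfirst : ‖∑ j ∈ Finset.range J, ((a ^ (j + 1))⁻¹ * ((Λ : ℂ) ^ j)⁻¹) *
        ∫ y : ℝ, pwf (deriv^[j] b) y * Ze (1 / 2 + I * (τ + y / Λ))‖ ≤
      (∑ j ∈ Finset.range J, 3 ^ (j + 1) * C j) * ((1 + |τ| / T) ^ 2 * (T ^ N)⁻¹) := by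
    refine (norm_sum_le _ _).trans ?_
    rw [Finset.sum_mul]
    refine Finset.sum_le_sum fun j _ => ?_
    rw [norm_mul, norm_mul]
    have h1 : ‖(a ^ (j + 1))⁻¹‖ * ‖((Λ : ℂ) ^ j)⁻¹‖ ≤ 3 ^ (j + 1) := by
      calc ‖(a ^ (j + 1))⁻¹‖ * ‖((Λ : ℂ) ^ j)⁻¹‖ ≤ (3 ^ (j + 1) * 1) * 1 := by
            apply mul_le_mul _ (hΛn j) (norm_nonneg _) (by positivity)
            exact (han (j + 1)).trans (mul_le_mul_of_nonneg_left (hone _) (by positivity))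
        _ = _ := by ring
    calc ‖(a ^ (j + 1))⁻¹‖ * ‖((Λ : ℂ) ^ j)⁻¹‖ *
        ‖∫ y : ℝ, pwf (deriv^[j] b) y * Ze (1 / 2 + I * (τ + y / Λ))‖
        ≤ 3 ^ (j + 1) * (C j * (2 + |τ|) ^ 2 * (T ^ (N + 2))⁻¹) :=
          mul_le_mul h1 (hmain j) (norm_nonneg _) (by positivity)
      _ = 3 ^ (j + 1) * C j * ((2 + |τ|) ^ 2 * (T ^ (N + 2))⁻¹) := by ring
      _ ≤ _ := mul_le_mul_of_nonneg_left hscale (mul_nonneg (by positivity) (hC0 j))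
  have hIR : ‖∫ y : ℝ, pwf (deriv^[J] b) y * riemannZeta (1 / 2 + I * (τ + y / Λ))‖ ≤
      2 * (3 * D J * (2 + |τ|) ^ 2) * Kp := by
    rw [hKp, ← integral_const_mul]
    exact norm_integral_le_of_norm_le
      (integrable_inv_one_add_sq.const_mul (2 * (3 * D J * (2 + |τ|) ^ 2)))
      (Filter.Eventually.of_forall hrest)
  have hsecond : ‖((a ^ J)⁻¹ * ((Λ : ℂ) ^ J)⁻¹) *
        ∫ y : ℝ, pwf (deriv^[J] b) y * riemannZeta (1 / 2 + I * (τ + y / Λ))‖ ≤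
      3 ^ J * 4 * (6 * D J * Kp) * ((1 + |τ|) ^ N)⁻¹ := by
    rw [norm_mul, norm_mul]
    have hDJ := hD0 J
    have h2 : (2 + |τ|) ^ 2 ≤ 4 * (1 + |τ|) ^ 2 := by nlinarith
    calc ‖(a ^ J)⁻¹‖ * ‖((Λ : ℂ) ^ J)⁻¹‖ *
        ‖∫ y : ℝ, pwf (deriv^[J] b) y * riemannZeta (1 / 2 + I * (τ + y / Λ))‖
        ≤ (3 ^ J * ((1 + |τ|) ^ J)⁻¹) * 1 * (2 * (3 * D J * (4 * (1 + |τ|) ^ 2)) * Kp) := by
          apply mul_le_mul _ (hIR.trans _) (norm_nonneg _) (by positivity)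
          · exact mul_le_mul (han J) (hΛn J) (norm_nonneg _) (by positivity)
          · gcongr
      _ = _ := by
          rw [hJ, pow_add (1 + |τ|)]
          field_simp
          ring
  refine (norm_add_le _ _).trans ((add_le_add hfirst hsecond).trans ?_)
  have e1 : 0 ≤ (1 + |τ| / T) ^ 2 * (T ^ N)⁻¹ := by positivity
  have e2 : 0 ≤ ((1 + |τ|) ^ N)⁻¹ := by positivity
  nlinarith [mul_nonneg hS0 e2, mul_nonneg hR0 e1]

end Pool.Agent.H26
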