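import Pool.Agent.H26.SP.QBX
import Pool.Agent.H26.SP.INN
import Pool.Agent.H26.SP.BASE
import Pool.Agent.H26.SP.ZLO
import Pool.Agent.H26.SP.ZHI

/-!
The error has no frequencies outside the cube.
-/

set_option autoImplicit false

namespace Pool.Agent.H26

open Complex Finset MeasureTheory Filter Asymptotics Topology
open scoped ContDiff SchwartzMap

variable {k : ℕ}

namespace BOX

open QBX

lemma exists_supp_low {φ : ℝ → ℂ} (hφ : TF φ) : ∃ a : ℝ, 0 < a ∧ ∀ x, x < a → φ x = 0 := by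
  by_cases hne : (tsupport φ).Nonempty
  · obtain ⟨a, ha, hmin⟩ := hφ.cpt.isCompact.exists_isMinOn hne continuous_id.continuousOn
    refine ⟨a, hφ.pos ha, fun x hx => ?_⟩
    by_contra h
    have := hmin (subset_tsupport φ h)
    simp only [id, Set.mem_ofPred_eq] at this
    linarith
  · refine ⟨1, one_pos, fun x _ => ?_⟩
    by_contra h
    exact hne ⟨x, subset_tsupport φ h⟩

lemma Zc_gz (γ : Ix k → ℝ) (i : Ix k) (x t : ℝ) : Zc (gz γ i (x : ℂ)) t =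
    riemannZeta (1 / 2 + I * (x + (sg i * (t + γ i) : ℝ))) *
      ∏ j ∈ univ.erase i, zf j (γ j) t := by
  rw [gz_ofReal, ← Z_eq_Zc, Z_eq_prod, ← Finset.mul_prod_erase univ _ (Finset.mem_univ i)]
  congr 1
  · rw [← zf_shift]
    congr 1
    simp [mul_comm]
  · refine Finset.prod_congr rfl fun j hj => ?_
    rw [Finset.mem_erase] at hj
    congr 1
    simp [Pi.single_eq_of_ne hj.1]

lemma norm_prod_zf_le (γ : Ix k → ℝ) (i : Ix k) (t : ℝ) :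
    ‖∏ j ∈ univ.erase i, zf j (γ j) t‖ ≤ (4 * (1 + ‖γ‖) * (1 + |t|)) ^ (2 * k) := by
  have hg := norm_nonneg γ
  have ht := abs_nonneg t
  have h1 : 1 ≤ 4 * (1 + ‖γ‖) * (1 + |t|) := by nlinarith [mul_nonneg hg ht]
  rw [norm_prod]
  calc ∏ j ∈ univ.erase i, ‖zf j (γ j) t‖ ≤ ∏ _j ∈ univ.erase i, (4 * (1 + ‖γ‖) * (1 + |t|)) := by
        refine Finset.prod_le_prod (fun _ _ => norm_nonneg _) fun j _ => ?_
        refine (norm_zf_le j (γ j) t).trans ?_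
        have h2 : |t + γ j| ≤ |t| + ‖γ‖ := (abs_add_le _ _).trans (by
          have := norm_le_pi_norm γ j
          rw [Real.norm_eq_abs] at this
          linarith)
        nlinarith [mul_nonneg hg ht]
    _ = (4 * (1 + ‖γ‖) * (1 + |t|)) ^ (univ.erase i).card := by rw [Finset.prod_const]
    _ ≤ _ := by
        refine pow_le_pow_right₀ h1 ?_
        rw [Finset.card_erase_of_mem (Finset.mem_univ i), Finset.card_univ, Fintype.card_sum,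
          Fintype.card_fin]
        omega

/-- The zeta part. -/
lemma exists_Z_box (i : Ix k) {b : ℝ → ℂ} (hb : Bp b) {δ : ℝ} (hδ : 0 < δ)
    (hbs : (∀ ξ, b ξ ≠ 0 → ξ ≤ -δ) ∨ ∀ ξ, b ξ ≠ 0 → 1 + δ ≤ ξ) {a κ : ℝ} (ha : 0 < a)
    (hκ : 0 ≤ κ) :
    ∃ C : ℝ, 0 ≤ C ∧ ∃ N : ℕ, ∀ γ : Ix k → ℝ,
      ∀ T t : ℝ, 3 ≤ T → a * T ≤ t → t ≤ κ * T →
      ‖∫ y : ℝ, pwf b y * Zc (gz γ i ((y / Real.log T : ℝ) : ℂ)) t‖ ≤
        C * (1 + ‖γ‖) ^ N * T⁻¹ := by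
  have hz : ∃ C : ℝ, 0 ≤ C ∧ ∃ A : ℕ, ∀ τ T : ℝ, 3 ≤ T →
      ‖∫ y : ℝ, pwf b y * riemannZeta (1 / 2 + I * (τ + y / Real.log T))‖ ≤
        C * ((1 + |τ| / T) ^ A * (T ^ (2 * k + 1))⁻¹ + ((1 + |τ|) ^ (2 * k + 1))⁻¹) := by
    rcases hbs with h | h
    · exact zeta_low hb hδ h (2 * k + 1)
    · exact zeta_high hb hδ h (2 * k + 1)
  obtain ⟨C, hC0, A, hC⟩ := hz
  refine ⟨C * ((1 + κ) ^ A + (a⁻¹) ^ (2 * k + 1)) * (4 * (1 + κ)) ^ (2 * k), by positivity,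
    A + (2 * k + 1) + 2 * k, fun γ T t hT ha1 ht => ?_⟩
  have hT0 : 0 < T := by linarith
  have hg := norm_nonneg γ
  have ht0 : 0 ≤ t := le_trans (by positivity) ha1
  set τ : ℝ := sg i * (t + γ i) with hτ
  have hτa : |τ| = |t + γ i| := by rw [hτ, abs_mul, abs_sg, one_mul]
  have hγi : |γ i| ≤ ‖γ‖ := norm_le_pi_norm γ i
  have hτ1 : |τ| ≤ κ * T + ‖γ‖ := by
    rw [hτa]
    refine (abs_add_le _ _).trans ?_
    rw [abs_of_nonneg ht0]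
    linarith
  have hτ2 : a * T ≤ (1 + |τ|) * (1 + ‖γ‖) := by
    have h1 : t ≤ |t + γ i| + ‖γ‖ := by
      have := le_abs_self (t + γ i)
      have := (abs_le.1 hγi).1
      linarith
    rw [hτa]
    nlinarith [abs_nonneg (t + γ i), mul_nonneg (abs_nonneg (t + γ i)) hg]
  have e1 : ∫ y : ℝ, pwf b y * Zc (gz γ i ((y / Real.log T : ℝ) : ℂ)) t =
      (∫ y : ℝ, pwf b y * riemannZeta (1 / 2 + I * (τ + y / Real.log T))) *
        ∏ j ∈ univ.erase i, zf j (γ j) t := by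
    rw [← integral_mul_const]
    congr 1
    funext y
    rw [Zc_gz, mul_assoc, hτ]
    congr 3
    push_cast
    ring
  rw [e1, norm_mul]
  have h1 := hC τ T hT
  have h2 := norm_prod_zf_le γ i t
  have h3 : (1 + |τ| / T) ^ A ≤ (1 + κ) ^ A * (1 + ‖γ‖) ^ A := by
    rw [← mul_pow]
    refine pow_le_pow_left₀ (by positivity) ?_ A
    have h4 : |τ| / T ≤ κ + ‖γ‖ := by
      rw [div_le_iff₀ hT0]
      nlinarith
    nlinarith [mul_nonneg hκ hg]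
  have h4 : ((1 + |τ|) ^ (2 * k + 1))⁻¹ ≤
      (a⁻¹) ^ (2 * k + 1) * (1 + ‖γ‖) ^ (2 * k + 1) * (T ^ (2 * k + 1))⁻¹ := by
    have h5 : (a * T) ^ (2 * k + 1) ≤ ((1 + |τ|) * (1 + ‖γ‖)) ^ (2 * k + 1) :=
      pow_le_pow_left₀ (by positivity) hτ2 _
    rw [mul_pow, mul_pow] at h5
    have e : (a⁻¹) ^ (2 * k + 1) * (1 + ‖γ‖) ^ (2 * k + 1) * (T ^ (2 * k + 1))⁻¹ =
        (1 + ‖γ‖) ^ (2 * k + 1) / (a ^ (2 * k + 1) * T ^ (2 * k + 1)) := by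
      rw [inv_pow]
      field_simp
    rw [e, inv_eq_one_div, div_le_div_iff₀ (by positivity) (by positivity)]
    linarith
  have hA : (1 + ‖γ‖) ^ A ≤ (1 + ‖γ‖) ^ (A + (2 * k + 1)) :=
    pow_le_pow_right₀ (by linarith) (by omega)
  have hK : (1 + ‖γ‖) ^ (2 * k + 1) ≤ (1 + ‖γ‖) ^ (A + (2 * k + 1)) :=
    pow_le_pow_right₀ (by linarith) (by omega)
  have h6 : (1 + |τ| / T) ^ A * (T ^ (2 * k + 1))⁻¹ + ((1 + |τ|) ^ (2 * k + 1))⁻¹ ≤
      ((1 + κ) ^ A + (a⁻¹) ^ (2 * k + 1)) * (1 + ‖γ‖) ^ (A + (2 * k + 1)) *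
        (T ^ (2 * k + 1))⁻¹ := by
    calc _ ≤ ((1 + κ) ^ A * (1 + ‖γ‖) ^ A) * (T ^ (2 * k + 1))⁻¹ +
          (a⁻¹) ^ (2 * k + 1) * (1 + ‖γ‖) ^ (2 * k + 1) * (T ^ (2 * k + 1))⁻¹ := by gcongr
      _ ≤ ((1 + κ) ^ A * (1 + ‖γ‖) ^ (A + (2 * k + 1))) * (T ^ (2 * k + 1))⁻¹ +
          (a⁻¹) ^ (2 * k + 1) * (1 + ‖γ‖) ^ (A + (2 * k + 1)) * (T ^ (2 * k + 1))⁻¹ := by gcongr
      _ = _ := by ring
  have h7 : (4 * (1 + ‖γ‖) * (1 + |t|)) ^ (2 * k) ≤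
      (4 * (1 + κ)) ^ (2 * k) * (1 + ‖γ‖) ^ (2 * k) * T ^ (2 * k) := by
    rw [← mul_pow, ← mul_pow]
    refine pow_le_pow_left₀ (by positivity) ?_ _
    rw [abs_of_nonneg ht0]
    have h8 : 1 + t ≤ (1 + κ) * T := by nlinarith
    calc 4 * (1 + ‖γ‖) * (1 + t) ≤ 4 * (1 + ‖γ‖) * ((1 + κ) * T) := by gcongr
      _ = _ := by ring
  have hTT : (T ^ (2 * k + 1))⁻¹ * T ^ (2 * k) = T⁻¹ := by
    rw [pow_succ]
    field_simp
  calc _ ≤ (C * (((1 + κ) ^ A + (a⁻¹) ^ (2 * k + 1)) * (1 + ‖γ‖) ^ (A + (2 * k + 1)) *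
        (T ^ (2 * k + 1))⁻¹)) *
        ((4 * (1 + κ)) ^ (2 * k) * (1 + ‖γ‖) ^ (2 * k) * T ^ (2 * k)) :=
        mul_le_mul (h1.trans (mul_le_mul_of_nonneg_left h6 hC0)) (h2.trans h7) (norm_nonneg _)
          (by positivity)
    _ = C * ((1 + κ) ^ A + (a⁻¹) ^ (2 * k + 1)) * (4 * (1 + κ)) ^ (2 * k) *
        ((1 + ‖γ‖) ^ (A + (2 * k + 1)) * (1 + ‖γ‖) ^ (2 * k)) *
        ((T ^ (2 * k + 1))⁻¹ * T ^ (2 * k)) := by ring
    _ = _ := by rw [hTT, ← pow_add]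

/-- the density on the line -/
noncomputable def Dn (γ : Ix k → ℝ) (i : Ix k) (x t : ℝ) : ℂ :=
  Zc (gz γ i (x : ℂ)) t - Qsum (gz γ i (x : ℂ)) t

lemma ofReal_im_lt (x : ℝ) : |((x : ℝ) : ℂ).im| < 1 / 8 := by simp

lemma continuousAt_Zc_gz (γ : Ix k → ℝ) (i : Ix k) (x t : ℝ) :
    ContinuousAt (fun p : ℝ × ℝ => Zc (gz γ i (p.1 : ℂ)) ((p.2 : ℝ) : ℂ)) (x, t) := by
  have hup : Continuous fun p : ℝ × ℝ => ((((p.2 : ℝ) : ℂ), gz γ i (p.1 : ℂ)) :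
      ℂ × (Ix k → ℂ)) := by
    refine (Complex.continuous_ofReal.comp continuous_snd).prodMk (continuous_pi fun j => ?_)
    simp only [gz]
    fun_prop
  have h1 := continuousAt_Zc (q := ((t : ℂ), gz γ i (x : ℂ)))
    ⟨im_ofReal_lt t, gz_tube γ i (ofReal_im_lt x)⟩
  exact ContinuousAt.comp (f := fun p : ℝ × ℝ => ((((p.2 : ℝ) : ℂ), gz γ i (p.1 : ℂ)) :
      ℂ × (Ix k → ℂ))) (x := (x, t)) h1 hup.continuousAt

lemma continuousAt_Q_gz {γ : Ix k → ℝ} (hγ : Function.Injective γ) {i : Ix k} {x t : ℝ}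
    (hx : x ∉ collq γ i) :
    ContinuousAt (fun p : ℝ × ℝ => Qsum (gz γ i (p.1 : ℂ)) ((p.2 : ℝ) : ℂ)) (x, t) := by
  have h1 := continuousAt_Qsum_gz (γ := γ) (i := i) (t := t) (ofReal_im_lt x)
    (injective_gz_of_notMem hγ hx)
  exact ContinuousAt.comp (f := fun p : ℝ × ℝ => ((((p.1 : ℝ) : ℂ), p.2) : ℂ × ℝ))
    (x := (x, t)) h1 (by fun_prop)

/-- polynomial bounds on the real line -/
lemma exists_gz_le (k : ℕ) : ∃ C : ℝ, 0 ≤ C ∧ ∀ γ : Ix k → ℝ, Function.Injective γ →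
    ∀ (i : Ix k) (x : ℝ), x ∉ collq γ i → ∀ t : ℝ,
    ‖Zc (gz γ i (x : ℂ)) t‖ ≤ C * (1 + ‖γ‖) ^ NK k * (1 + |t|) ^ (2 * k) * (1 + |x|) ^ NK k ∧
    ‖Qsum (gz γ i (x : ℂ)) t‖ ≤
      C * (1 + ‖γ‖) ^ NK k * (1 + |t|) ^ (2 * k) * (1 + |x|) ^ NK k := by
  obtain ⟨CQ, hCQ0, hCQ⟩ := exists_norm_Qsum_le k (ρ := 1 / 8) (by norm_num)
  refine ⟨6 ^ (2 * k) + CQ, by positivity, fun γ hγ i x hx t => ?_⟩
  have hg0 : 0 ≤ ‖γ‖ := norm_nonneg _
  have hz0 : 0 ≤ |x| := abs_nonneg _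
  have ht0 : 0 ≤ |t| := abs_nonneg _
  have hB : 0 ≤ ‖γ‖ + |x| := by positivity
  have him : ∀ j, (gz γ i (x : ℂ) j).im = 0 := by
    intro j
    have := abs_gz_im γ i j (x : ℂ)
    rw [Complex.ofReal_im, abs_zero] at this
    exact abs_eq_zero.1 (le_antisymm this (abs_nonneg _))
  have hre : ∀ j, |(gz γ i (x : ℂ) j).re| ≤ ‖γ‖ + |x| := fun j => by
    have := abs_gz_re γ i j (x : ℂ)
    rwa [Complex.ofReal_re] at this
  have h1 := norm_Zc_le (gz_tube γ i (ofReal_im_lt x)) (t := t) hB hre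
  have h2 := hCQ (gz γ i (x : ℂ)) (injective_gz_of_notMem hγ hx)
    (fun j => by rw [him j]; norm_num) _ hB hre t
  have hBB : 1 + (‖γ‖ + |x|) ≤ (1 + ‖γ‖) * (1 + |x|) := by nlinarith [mul_nonneg hg0 hz0]
  have h3 : ((6 + 3 * (‖γ‖ + |x|)) * (1 + |t|)) ^ (2 * k) ≤
      6 ^ (2 * k) * (1 + ‖γ‖) ^ NK k * (1 + |t|) ^ (2 * k) * (1 + |x|) ^ NK k := by
    calc ((6 + 3 * (‖γ‖ + |x|)) * (1 + |t|)) ^ (2 * k)
        ≤ ((6 * ((1 + ‖γ‖) * (1 + |x|))) * (1 + |t|)) ^ (2 * k) := by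
          gcongr
          linarith
      _ = 6 ^ (2 * k) * (1 + ‖γ‖) ^ (2 * k) * (1 + |t|) ^ (2 * k) * (1 + |x|) ^ (2 * k) := by
          rw [← mul_pow, ← mul_pow, ← mul_pow]; ring
      _ ≤ _ := by
          have h4 : (1 + |x|) ^ (2 * k) ≤ (1 + |x|) ^ NK k :=
            pow_le_pow_right₀ (by linarith) (by unfold NK; omega)
          have h5 : (1 + ‖γ‖) ^ (2 * k) ≤ (1 + ‖γ‖) ^ NK k :=
            pow_le_pow_right₀ (by linarith) (by unfold NK; omega)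
          gcongr
  have h4 : CQ * (1 + (‖γ‖ + |x|)) ^ NK k * (1 + |t|) ^ (2 * k) ≤
      CQ * (1 + ‖γ‖) ^ NK k * (1 + |t|) ^ (2 * k) * (1 + |x|) ^ NK k := by
    calc CQ * (1 + (‖γ‖ + |x|)) ^ NK k * (1 + |t|) ^ (2 * k)
        ≤ CQ * ((1 + ‖γ‖) * (1 + |x|)) ^ NK k * (1 + |t|) ^ (2 * k) := by gcongr
      _ = _ := by rw [mul_pow]; ring
  have h6 : (0:ℝ) ≤ 6 ^ (2 * k) := by positivity
  constructor
  · refine h1.trans (h3.trans ?_)
    gcongr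
    linarith
  · refine h2.trans (h4.trans ?_)
    gcongr
    linarith

lemma injective_single {γ : Ix k → ℝ} (hγ : Function.Injective γ) {i : Ix k} {x : ℝ}
    (hx : x ∉ collq γ i) :
    Function.Injective (γ + x • (Pi.single i (sg i) : Ix k → ℝ)) := by
  have h := injective_gz_of_notMem hγ hx
  rw [gz_ofReal] at h
  intro a b hab
  exact h (by simp only [hab])

lemma Fp_eq_Dn {φ : ℝ → ℂ} {c : ℝ} (hc : ∀ x, c < x → φ x = 0) {γ : Ix k → ℝ}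
    (hγ : Function.Injective γ) {i : Ix k} {x T : ℝ} (hT : 0 < T) (hc0 : 0 ≤ c)
    (hx : x ∉ collq γ i) :
    Fp φ (γ + x • (Pi.single i (sg i) : Ix k → ℝ)) T =
      ∫ t in (0:ℝ)..(c * T), φ (t / T) * Dn γ i x t := by
  rw [intervalIntegral.integral_of_le (mul_nonneg hc0 hT.le)]
  unfold Fp
  have h1 : ∀ t : ℝ, φ (t / T) * (Z (fun j => (γ + x • (Pi.single i (sg i) : Ix k → ℝ)) (Sum.inl j))
      (fun j => (γ + x • (Pi.single i (sg i) : Ix k → ℝ)) (Sum.inr j)) t -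
      Q (fun j => (γ + x • (Pi.single i (sg i) : Ix k → ℝ)) (Sum.inl j))
      (fun j => (γ + x • (Pi.single i (sg i) : Ix k → ℝ)) (Sum.inr j)) t) =
      φ (t / T) * Dn γ i x t := by
    intro t
    rw [Z_eq_Zc, Q_eq_Qsum (injective_single hγ hx), ← gz_ofReal]
    rfl
  simp only [h1]
  refine setIntegral_eq_of_subset_of_forall_sdiff_eq_zero measurableSet_Ioi
    (fun t ht => ht.1) ?_
  rintro t ⟨ht1, ht2⟩
  have h2 : c * T < t := by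
    by_contra h
    exact ht2 ⟨ht1, not_lt.1 h⟩
  rw [hc _ (by rwa [lt_div_iff₀ hT]), zero_mul]

/-- the case of distinct shifts -/
lemma box_inj (i : Ix k) {φ : ℝ → ℂ} (hφ : TF φ) {δ : ℝ} (hδ : 0 < δ) {b : ℝ → ℂ} (hb : Bp b)
    (hbs : (∀ ξ, b ξ ≠ 0 → ξ ≤ -δ) ∨ ∀ ξ, b ξ ≠ 0 → 1 + δ ≤ ξ) : ∃ c : ℝ, 0 < c ∧
    ∃ C : ℝ, 0 ≤ C ∧ ∃ N : ℕ, ∀ γ : Ix k → ℝ, Function.Injective γ → ∀ T : ℝ, 3 ≤ T →
      ‖∫ y : ℝ, pwf b y * Fp φ (γ + (y / Real.log T) • (Pi.single i (sg i) : Ix k → ℝ)) T‖ ≤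
        C * (1 + ‖γ‖) ^ N * T ^ (1 - c) := by
  obtain ⟨a, ha0, ha⟩ := exists_supp_low hφ
  obtain ⟨c, hc0, hc, _, _, _⟩ := BASE.exists_supp hφ
  obtain ⟨Cφ, hCφ⟩ := hφ.cpt.exists_bound_of_continuous hφ.smooth.continuous
  have hCφ0 : 0 ≤ Cφ := (norm_nonneg _).trans (hCφ 0)
  obtain ⟨CZ, hCZ0, NZ, hCZ⟩ := exists_Z_box i hb hδ hbs ha0 hc0.le
  obtain ⟨cQ, hcQ0, CQ, hCQ0, NQ, hCQ⟩ := Qsum_box i hb hδ hbs c
  obtain ⟨CG, hCG0, hCG⟩ := exists_gz_le k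
  obtain ⟨CP, hCP⟩ := (rd_pwf hb).decay (NK k + 2)
  have hCP0 : 0 ≤ CP := le_trans (by positivity) (hCP 0)
  refine ⟨min cQ 1, by positivity, c * Cφ * (CZ + CQ), by positivity, NZ + NQ,
    fun γ hγ T hT => ?_⟩
  have hT0 : 0 < T := by linarith
  have hT1 : 1 ≤ T := by linarith
  have hΛ := QBX.one_le_log hT
  set Λ : ℝ := Real.log T with hΛd
  have hΛ0 : 0 < Λ := by linarith
  have hg := norm_nonneg γ
  set N : Set ℝ := (fun x => x * Λ) '' collq γ i with hN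
  have hNf : N.Finite := (finite_collq γ i).image _
  have hNy : ∀ y ∉ N, y / Λ ∉ collq γ i := by
    intro y hy h
    exact hy ⟨y / Λ, h, by show y / Λ * Λ = y; field_simp⟩
  have haeN : ∀ᵐ y : ℝ, y ∉ N := measure_mono_null (fun x hx => not_not.1 hx) (hNf.measure_zero _)
  -- decay of the weight against polynomial growth
  have hw : ∀ (y : ℝ) (u : ℂ) (M : ℝ), 0 ≤ M → ‖u‖ ≤ M * (1 + |y / Λ|) ^ NK k →
      ‖pwf b y * u‖ ≤ CP * M * (1 + y ^ 2)⁻¹ := by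
    intro y u M hM hu
    have hy1 : |y / Λ| ≤ |y| := by
      rw [abs_div, abs_of_pos hΛ0]
      exact div_le_self (abs_nonneg _) hΛ
    have h2 := hCP y
    rw [Real.norm_eq_abs] at h2
    have hy0 : 0 < 1 + |y| := by positivity
    have h3 : ‖pwf b y‖ * (1 + |y|) ^ NK k ≤ CP * (1 + y ^ 2)⁻¹ := by
      have h4 : ‖pwf b y‖ * (1 + |y|) ^ NK k = ((1 + |y|) ^ (NK k + 2) * ‖pwf b y‖) *
          ((1 + |y|) ^ 2)⁻¹ := by
        field_simp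
        ring
      rw [h4]
      exact mul_le_mul h2 (inv_sq_le y) (by positivity) hCP0
    rw [norm_mul]
    calc ‖pwf b y‖ * ‖u‖ ≤ ‖pwf b y‖ * (M * (1 + |y|) ^ NK k) := by
          refine mul_le_mul_of_nonneg_left (hu.trans ?_) (norm_nonneg _)
          gcongr
      _ = (‖pwf b y‖ * (1 + |y|) ^ NK k) * M := by ring
      _ ≤ (CP * (1 + y ^ 2)⁻¹) * M := mul_le_mul_of_nonneg_right h3 hM
      _ = _ := by ring
  -- the integrand
  set f : ℝ → ℝ → ℂ := fun y t => pwf b y * (φ (t / T) * Dn γ i (y / Λ) t) with hf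
  have hfc : ∀ y ∉ N, ∀ t, ContinuousAt (Function.uncurry f) (y, t) := by
    intro y hy t
    have h1 : ContinuousAt (fun p : ℝ × ℝ => Dn γ i (p.1 / Λ) p.2) (y, t) := by
      have h2 := (continuousAt_Zc_gz γ i (y / Λ) t).sub
        (continuousAt_Q_gz hγ (t := t) (hNy y hy))
      exact ContinuousAt.comp (f := fun p : ℝ × ℝ => (p.1 / Λ, p.2)) (x := (y, t)) h2
        (by fun_prop)
    have h3 : Continuous fun p : ℝ × ℝ => pwf b p.1 := (rd_pwf hb).cont.comp continuous_fst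
    have h4 : Continuous fun p : ℝ × ℝ => φ (p.2 / T) :=
      hφ.smooth.continuous.comp (continuous_snd.div_const T)
    exact (h3.continuousAt.mul (h4.continuousAt.mul h1))
  have hfb : ∀ y ∉ N, ∀ t, 0 ≤ t → t ≤ c * T → ‖f y t‖ ≤
      CP * (Cφ * (2 * (CG * (1 + ‖γ‖) ^ NK k * (1 + c * T) ^ (2 * k)))) * (1 + y ^ 2)⁻¹ := by
    intro y hy t ht0 htc
    obtain ⟨h1, h2⟩ := hCG γ hγ i (y / Λ) (hNy y hy) t
    refine hw y _ _ (by positivity) ?_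
    rw [norm_mul]
    have h3 : ‖Dn γ i (y / Λ) t‖ ≤ 2 * (CG * (1 + ‖γ‖) ^ NK k * (1 + |t|) ^ (2 * k) *
        (1 + |y / Λ|) ^ NK k) := by
      unfold Dn
      exact (norm_sub_le _ _).trans (by linarith)
    rw [abs_of_nonneg ht0] at h3
    calc ‖φ (t / T)‖ * ‖Dn γ i (y / Λ) t‖ ≤ Cφ * (2 * (CG * (1 + ‖γ‖) ^ NK k *
          (1 + c * T) ^ (2 * k) * (1 + |y / Λ|) ^ NK k)) := by
          refine mul_le_mul (hCφ _) (h3.trans ?_) (norm_nonneg _) hCφ0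
          gcongr
      _ = _ := by ring
  obtain ⟨hswap, hint⟩ := integral_swap_of_bound (mul_nonneg hc0.le hT0.le) hNf hfc hfb
  have hF : ∫ y : ℝ, pwf b y * Fp φ (γ + (y / Λ) • (Pi.single i (sg i) : Ix k → ℝ)) T =
      ∫ y : ℝ, ∫ t in (0:ℝ)..(c * T), f y t := by
    refine integral_congr_ae ?_
    filter_upwards [haeN] with y hy
    rw [Fp_eq_Dn hc hγ hT0 hc0.le (hNy y hy), ← intervalIntegral.integral_const_mul]
  rw [hF, hswap]
  have hpt : ∀ t ∈ Set.uIoc (0:ℝ) (c * T), ‖∫ y : ℝ, f y t‖ ≤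
      Cφ * ((CZ + CQ) * (1 + ‖γ‖) ^ (NZ + NQ) * T ^ (-(min cQ 1))) := by
    intro t ht
    rw [Set.uIoc_of_le (mul_nonneg hc0.le hT0.le)] at ht
    by_cases hta : t / T < a
    · have h1 : ∫ y : ℝ, f y t = 0 := by
        simp only [hf, ha _ hta, zero_mul, mul_zero, integral_zero]
      rw [h1, norm_zero]
      positivity
    · push Not at hta
      rw [le_div_iff₀ hT0] at hta
      -- integrability of the two parts
      have hcZ : ∀ y : ℝ, ContinuousAt (fun y : ℝ => Zc (gz γ i ((y / Λ : ℝ) : ℂ)) t) y := by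
        intro y
        have h2 := continuousAt_Zc_gz γ i (y / Λ) t
        exact ContinuousAt.comp (f := fun y : ℝ => (y / Λ, t)) (x := y) h2 (by fun_prop)
      have hcQ : ∀ y ∉ N, ContinuousAt (fun y : ℝ => Qsum (gz γ i ((y / Λ : ℝ) : ℂ)) t) y := by
        intro y hy
        have h2 := continuousAt_Q_gz hγ (t := t) (hNy y hy)
        exact ContinuousAt.comp (f := fun y : ℝ => (y / Λ, t)) (x := y) h2 (by fun_prop)
      have hae' : ∀ᵐ y : ℝ, y ∈ Nᶜ := haeN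
      have hint' : ∀ g : ℝ → ℂ, (∀ y ∉ N, ContinuousAt g y) → (∀ y ∉ N,
          ‖g y‖ ≤ (CG * (1 + ‖γ‖) ^ NK k * (1 + |t|) ^ (2 * k)) * (1 + |y / Λ|) ^ NK k) →
          Integrable fun y : ℝ => pwf b y * g y := by
        intro g hg1 hg2
        refine Integrable.mono' (g := fun y => CP * (CG * (1 + ‖γ‖) ^ NK k *
          (1 + |t|) ^ (2 * k)) * (1 + y ^ 2)⁻¹) (integrable_inv_one_add_sq.const_mul _) ?_ ?_
        · rw [← Measure.restrict_eq_self_of_ae_mem hae']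
          refine ContinuousOn.aestronglyMeasurable ?_ hNf.isClosed.isOpen_compl.measurableSet
          intro y hy
          exact ((rd_pwf hb).cont.continuousAt.mul (hg1 y hy)).continuousWithinAt
        · filter_upwards [haeN] with y hy
          exact hw y _ _ (by positivity) (hg2 y hy)
      have iZ := hint' _ (fun y _ => hcZ y) (fun y hy => (hCG γ hγ i (y / Λ) (hNy y hy) t).1)
      have iQ := hint' _ hcQ (fun y hy => (hCG γ hγ i (y / Λ) (hNy y hy) t).2)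
      have h1 : ∫ y : ℝ, f y t = φ (t / T) *
          ((∫ y : ℝ, pwf b y * Zc (gz γ i ((y / Λ : ℝ) : ℂ)) t) -
            ∫ y : ℝ, pwf b y * Qsum (gz γ i ((y / Λ : ℝ) : ℂ)) t) := by
        rw [← integral_sub iZ iQ, ← integral_const_mul]
        congr 1
        funext y
        simp only [hf, Dn]
        ring
      rw [h1, norm_mul]
      refine mul_le_mul (hCφ _) ?_ (norm_nonneg _) hCφ0
      have h2 := hCZ γ T t hT hta ht.2
      have h3 := hCQ γ hγ T t hT ht.1.le ht.2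
      have h4 : (1 + ‖γ‖) ^ NZ ≤ (1 + ‖γ‖) ^ (NZ + NQ) :=
        pow_le_pow_right₀ (by linarith) (by omega)
      have h5 : (1 + ‖γ‖) ^ NQ ≤ (1 + ‖γ‖) ^ (NZ + NQ) :=
        pow_le_pow_right₀ (by linarith) (by omega)
      have h6 : T⁻¹ ≤ T ^ (-(min cQ 1)) := by
        rw [← Real.rpow_neg_one]
        apply Real.rpow_le_rpow_of_exponent_le hT1
        linarith [min_le_right cQ 1]
      have h7 : T ^ (-cQ) ≤ T ^ (-(min cQ 1)) := by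
        apply Real.rpow_le_rpow_of_exponent_le hT1
        linarith [min_le_left cQ 1]
      calc _ ≤ _ := norm_sub_le _ _
        _ ≤ CZ * (1 + ‖γ‖) ^ NZ * T⁻¹ + CQ * (1 + ‖γ‖) ^ NQ * T ^ (-cQ) := add_le_add h2 h3
        _ ≤ CZ * (1 + ‖γ‖) ^ (NZ + NQ) * T ^ (-(min cQ 1)) +
            CQ * (1 + ‖γ‖) ^ (NZ + NQ) * T ^ (-(min cQ 1)) := by gcongr
        _ = _ := by ring
  have h5 := intervalIntegral.norm_integral_le_of_norm_le_const hpt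
  refine h5.trans (le_of_eq ?_)
  rw [sub_zero, abs_of_nonneg (mul_nonneg hc0.le hT0.le), sub_eq_add_neg, Real.rpow_add hT0,
    Real.rpow_one]
  ring

end BOX

open BOX in
theorem box (i : Ix k) {φ : ℝ → ℂ} (hφ : TF φ) {δ : ℝ} (hδ : 0 < δ) {b : ℝ → ℂ} (hb : Bp b)
    (hbs : (∀ ξ, b ξ ≠ 0 → ξ ≤ -δ) ∨ ∀ ξ, b ξ ≠ 0 → 1 + δ ≤ ξ) : ∃ c : ℝ, 0 < c ∧
    ∃ C : ℝ, 0 ≤ C ∧ ∃ N : ℕ, ∀ (γ : Ix k → ℝ) (T : ℝ), 3 ≤ T →
      ‖∫ y : ℝ, pwf b y * Fp φ (γ + (y / Real.log T) • Pi.single i (sg i)) T‖ ≤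
        C * (1 + ‖γ‖) ^ N * T ^ (1 - c) := by
  obtain ⟨c, hc0, C, hC0, N, hC⟩ := box_inj i hφ hδ hb hbs
  obtain ⟨CF, hCF0, NF, A, hCF⟩ := Fp_poly k hφ
  refine ⟨c, hc0, C, hC0, N, fun γ T hT => ?_⟩
  have hT0 : 0 < T := by linarith
  obtain ⟨u, hu1, hu2⟩ := exists_seq_injective γ
  obtain ⟨Ci, hCi0, hCi⟩ := FIN.exists_inner (rd_pwf hb)
    (lin ((Real.log T)⁻¹ • (Pi.single i (sg i) : Ix k → ℝ))) NF
  have hcont := (hCi (fun z => Fp φ z T) (CF * T ^ A) (by positivity) (continuous_Fp hφ hT0)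
    (fun z => (hCF z T (by linarith)).trans (le_of_eq (by ring)))).1
  have e : ∀ z : Ix k → ℝ, (∫ y : ℝ, pwf b y * Fp φ (z +
      lin ((Real.log T)⁻¹ • (Pi.single i (sg i) : Ix k → ℝ)) y) T) =
      ∫ y : ℝ, pwf b y * Fp φ (z + (y / Real.log T) • Pi.single i (sg i)) T := by
    intro z
    congr 1
    funext y
    have : lin ((Real.log T)⁻¹ • (Pi.single i (sg i) : Ix k → ℝ)) y =
        (y / Real.log T) • Pi.single i (sg i) := by
      simp only [lin, LinearMap.toSpanSingleton_apply]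
      rw [smul_smul, div_eq_mul_inv]
    rw [this]
  simp only [e] at hcont
  have hlim1 := ((hcont.tendsto γ).comp hu2).norm
  have hlim3 : Tendsto (fun n => C * (1 + ‖u n‖) ^ N * T ^ (1 - c)) atTop
      (𝓝 (C * (1 + ‖γ‖) ^ N * T ^ (1 - c))) :=
    (((hu2.norm.const_add 1).pow _).const_mul C).mul_const _
  exact le_of_tendsto_of_tendsto hlim1 hlim3
    (Eventually.of_forall fun n => hC (u n) (hu1 n) T hT)

end Pool.Agent.H26
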