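import Pool.Agent.H26.RG.Van

/-!
Definitions for the averages of the error over windows of length `1 / log T`.
-/

namespace Pool.Agent.H26

open Complex Finset MeasureTheory Filter Asymptotics Topology
open scoped ContDiff

variable {k : ℕ}

/-- The signed distance from the vertex of `S`: the sum of `θ i` over the coordinates with
`corner S i = 0` and of `1 - θ i` over the others. -/
noncomputable def ldist (S : Finset (Ix k)) (θ : Ix k → ℝ) : ℝ :=
  ∑ i, (corner S i + (1 - 2 * corner S i) * θ i)

/-- The central polytope, defined by linear inequalities. -/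
def polytope (k : ℕ) : Set (Ix k → ℝ) :=
  {θ | ∑ j, θ (Sum.inl j) = ∑ l, θ (Sum.inr l) ∧ ∀ S : Finset (Ix k), S.card = k → 2 ≤ ldist S θ}

/-- The direction in which the frequency is `ldist S`. -/
noncomputable def dir (S : Finset (Ix k)) : Ix k → ℝ := fun i => sg i * (1 - 2 * corner S i)

/-- Smooth weights in the `t` aspect, supported in a compact subset of `(0, ∞)`. -/
structure TF (φ : ℝ → ℂ) : Prop where
  smooth : ContDiff ℝ ∞ φ
  cpt : HasCompactSupport φ
  pos : tsupport φ ⊆ Set.Ioi 0

/-- Smooth functions with compact support on the line of frequencies. -/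
structure Bp (b : ℝ → ℂ) : Prop where
  smooth : ContDiff ℝ ∞ b
  cpt : HasCompactSupport b

/-- The error of the smoothed moment. -/
noncomputable def Fp (φ : ℝ → ℂ) (γ : Ix k → ℝ) (T : ℝ) : ℂ :=
  ∫ t in Set.Ioi (0 : ℝ), φ (t / T) *
    (Z (fun j => γ (Sum.inl j)) (fun j => γ (Sum.inr j)) t -
      Q (fun j => γ (Sum.inl j)) (fun j => γ (Sum.inr j)) t)

/-- The entire function with the Fourier transform `b`. -/
noncomputable def pwf (b : ℝ → ℂ) (z : ℂ) : ℂ :=
  (1 / (2 * Real.pi) : ℝ) * ∫ ξ : ℝ, b ξ * cexp (I * ξ * z)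

/-- Continuous functions of rapid decay. -/
structure RD {V : Type*} [NormedAddCommGroup V] (K : V → ℂ) : Prop where
  cont : Continuous K
  decay : ∀ N : ℕ, ∃ C : ℝ, ∀ z, (1 + ‖z‖) ^ N * ‖K z‖ ≤ C

/-- The convolution of `K` with the image of the measure `g y dy` under `A`. -/
noncomputable def cv {V W : Type*} [NormedAddCommGroup V] [NormedSpace ℝ V] [MeasureSpace V]
    [NormedAddCommGroup W] [NormedSpace ℝ W] (g : V → ℂ) (A : V →ₗ[ℝ] W) (K : W → ℂ) (z : W) : ℂ :=
  ∫ y, g y * K (z - A y)

/-- The line in the direction `d`, as a linear map. -/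
noncomputable def lin (d : Ix k → ℝ) : ℝ →ₗ[ℝ] (Ix k → ℝ) := LinearMap.toSpanSingleton ℝ _ d

end Pool.Agent.H26
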