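import Pool.Agent.H26.SP.Defs

/-! Kernels of rapid decay. -/

namespace Pool.Agent.H26

open Complex Finset MeasureTheory Filter Asymptotics Topology
open scoped ContDiff SchwartzMap

variable {k : ℕ}

section RDK

variable {V W : Type*} [NormedAddCommGroup V] [NormedSpace ℝ V] [FiniteDimensional ℝ V]
  [MeasureSpace V] [BorelSpace V] [(volume : Measure V).IsAddHaarMeasure]
  [NormedAddCommGroup W] [NormedSpace ℝ W] [FiniteDimensional ℝ W]
  [MeasureSpace W] [BorelSpace W] [(volume : Measure W).IsAddHaarMeasure]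

omit [FiniteDimensional ℝ V] [MeasureSpace V] [BorelSpace V]
  [(volume : Measure V).IsAddHaarMeasure] in
theorem rd_schwartz (f : 𝓢(V, ℂ)) : RD f := by
  refine ⟨f.continuous, fun N =>
    ⟨2 ^ N * (Finset.Iic (N, 0)).sup (fun m => SchwartzMap.seminorm ℝ m.1 m.2) f, fun z => ?_⟩⟩
  have h := SchwartzMap.one_add_le_sup_seminorm_apply (𝕜 := ℝ) (m := (N, 0)) (k := N) (n := 0)
    le_rfl le_rfl f z
  rwa [norm_iteratedFDeriv_zero] at h

/-- the inverse power which is integrable -/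
noncomputable def jw (V : Type*) [NormedAddCommGroup V] [NormedSpace ℝ V] (z : V) : ℝ :=
  ((1 + ‖z‖) ^ (Module.finrank ℝ V + 1))⁻¹

omit [FiniteDimensional ℝ V] [MeasureSpace V] [BorelSpace V]
  [(volume : Measure V).IsAddHaarMeasure] in
theorem jw_pos (z : V) : 0 < jw V z := by
  unfold jw
  have := norm_nonneg z
  positivity

theorem integrable_jw : Integrable (jw V) := by
  have h := integrable_one_add_norm (E := V) (μ := volume) (r := ((Module.finrank ℝ V + 1 : ℕ) : ℝ))
    (by push_cast; linarith)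
  refine h.congr (Filter.Eventually.of_forall fun z => ?_)
  have h1 : 0 ≤ 1 + ‖z‖ := by positivity
  change (1 + ‖z‖) ^ (-((Module.finrank ℝ V + 1 : ℕ) : ℝ)) = _
  rw [Real.rpow_neg h1, Real.rpow_natCast, jw]

omit [FiniteDimensional ℝ V] [MeasureSpace V] [BorelSpace V]
  [(volume : Measure V).IsAddHaarMeasure] in
theorem RD.le_jw {K : V → ℂ} (hK : RD K) (N : ℕ) : ∃ C : ℝ, 0 ≤ C ∧
    ∀ z, (1 + ‖z‖) ^ N * ‖K z‖ ≤ C * jw V z := by
  obtain ⟨C, hC⟩ := hK.decay (N + (Module.finrank ℝ V + 1))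
  have hC0 : 0 ≤ C := le_trans (by positivity) (hC 0)
  refine ⟨C, hC0, fun z => ?_⟩
  have h1 : 0 < 1 + ‖z‖ := by positivity
  have h2 := hC z
  rw [pow_add] at h2
  rw [jw, ← div_eq_mul_inv, le_div_iff₀ (by positivity)]
  calc (1 + ‖z‖) ^ N * ‖K z‖ * (1 + ‖z‖) ^ (Module.finrank ℝ V + 1)
      = (1 + ‖z‖) ^ N * (1 + ‖z‖) ^ (Module.finrank ℝ V + 1) * ‖K z‖ := by ring
    _ ≤ C := h2

theorem RD.integrable_pow {K : V → ℂ} (hK : RD K) (N : ℕ) :
    Integrable (fun z => (1 + ‖z‖) ^ N * ‖K z‖) := by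
  obtain ⟨C, hC0, hC⟩ := hK.le_jw N
  have hc := hK.cont
  refine Integrable.mono' (integrable_jw.const_mul C) ?_ (Filter.Eventually.of_forall fun z => ?_)
  · exact (by fun_prop : Continuous fun z => (1 + ‖z‖) ^ N * ‖K z‖).aestronglyMeasurable
  · rw [Real.norm_of_nonneg (by positivity)]
    exact hC z

theorem RD.integrable {K : V → ℂ} (hK : RD K) : Integrable K := by
  have h := hK.integrable_pow 0
  simp only [pow_zero, one_mul] at h
  exact (integrable_norm_iff hK.cont.aestronglyMeasurable).mp h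

theorem RD.exists_bound {K : V → ℂ} (hK : RD K) (N : ℕ) : ∃ C : ℝ, 0 ≤ C ∧ ∀ (G : V → ℂ) (D : ℝ),
    0 ≤ D → Continuous G → (∀ z, ‖G z‖ ≤ D * (1 + ‖z‖) ^ N) →
      Integrable (fun z => K z * G z) ∧ ‖∫ z, K z * G z‖ ≤ C * D := by
  refine ⟨∫ z, (1 + ‖z‖) ^ N * ‖K z‖, integral_nonneg fun z => by positivity,
    fun G D hD hG hGN => ?_⟩
  have hc := hK.cont
  have hle : ∀ z, ‖K z * G z‖ ≤ D * ((1 + ‖z‖) ^ N * ‖K z‖) := by
    intro z
    rw [norm_mul]
    calc ‖K z‖ * ‖G z‖ ≤ ‖K z‖ * (D * (1 + ‖z‖) ^ N) := by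
          gcongr
          exact hGN z
      _ = D * ((1 + ‖z‖) ^ N * ‖K z‖) := by ring
  refine ⟨Integrable.mono' ((hK.integrable_pow N).const_mul D)
    (hc.mul hG).aestronglyMeasurable (Filter.Eventually.of_forall hle), ?_⟩
  refine (norm_integral_le_of_norm_le ((hK.integrable_pow N).const_mul D)
    (Filter.Eventually.of_forall hle)).trans ?_
  rw [integral_const_mul, mul_comm]

omit [FiniteDimensional ℝ W] [MeasureSpace W] [BorelSpace W]
  [(volume : Measure W).IsAddHaarMeasure] [MeasureSpace V] [BorelSpace V]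
  [(volume : Measure V).IsAddHaarMeasure] in
theorem exists_lip (A : V →ₗ[ℝ] W) : ∃ c : ℝ, 1 ≤ c ∧ ∀ y, 1 + ‖A y‖ ≤ c * (1 + ‖y‖) := by
  refine ⟨1 + ‖LinearMap.toContinuousLinearMap A‖, by simp, fun y => ?_⟩
  have h := (LinearMap.toContinuousLinearMap A).le_opNorm y
  have h2 : ‖A y‖ ≤ ‖LinearMap.toContinuousLinearMap A‖ * ‖y‖ := h
  have h3 := norm_nonneg (LinearMap.toContinuousLinearMap A)
  have h4 := norm_nonneg y
  nlinarith

omit [FiniteDimensional ℝ W] [MeasureSpace W] [BorelSpace W]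
  [(volume : Measure W).IsAddHaarMeasure] in
theorem RD.integrable_lip {g : V → ℂ} (hg : RD g) (A : V →ₗ[ℝ] W) (N : ℕ) :
    Integrable (fun y => (1 + ‖A y‖) ^ N * ‖g y‖) := by
  obtain ⟨c, hc1, hc⟩ := exists_lip A
  have hgc := hg.cont
  have hA : Continuous A := LinearMap.continuous_of_finiteDimensional A
  refine Integrable.mono' ((hg.integrable_pow N).const_mul (c ^ N)) ?_
    (Filter.Eventually.of_forall fun y => ?_)
  · exact (by fun_prop : Continuous fun y => (1 + ‖A y‖) ^ N * ‖g y‖).aestronglyMeasurable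
  · rw [Real.norm_of_nonneg (by positivity)]
    calc (1 + ‖A y‖) ^ N * ‖g y‖ ≤ (c * (1 + ‖y‖)) ^ N * ‖g y‖ := by
          gcongr
          exact hc y
      _ = c ^ N * ((1 + ‖y‖) ^ N * ‖g y‖) := by rw [mul_pow]; ring

omit [FiniteDimensional ℝ W] [NormedSpace ℝ W] [MeasureSpace W] [BorelSpace W]
  [(volume : Measure W).IsAddHaarMeasure] in
theorem one_add_norm_le (z w : W) : 1 + ‖z‖ ≤ (1 + ‖z - w‖) * (1 + ‖w‖) := by
  have h : ‖z‖ ≤ ‖z - w‖ + ‖w‖ := by
    calc ‖z‖ = ‖(z - w) + w‖ := by rw [sub_add_cancel]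
      _ ≤ _ := norm_add_le _ _
  nlinarith [norm_nonneg (z - w), norm_nonneg w]

omit [FiniteDimensional ℝ W] [NormedSpace ℝ W] [MeasureSpace W] [BorelSpace W]
  [(volume : Measure W).IsAddHaarMeasure] in
theorem one_add_norm_add_le (z w : W) : 1 + ‖z + w‖ ≤ (1 + ‖z‖) * (1 + ‖w‖) := by
  have h := norm_add_le z w
  nlinarith [norm_nonneg z, norm_nonneg w]

omit [FiniteDimensional ℝ W] [MeasureSpace W] [BorelSpace W]
  [(volume : Measure W).IsAddHaarMeasure] in
theorem RD.cv {g : V → ℂ} (hg : RD g) (A : V →ₗ[ℝ] W) {K : W → ℂ} (hK : RD K) : RD (cv g A K) := by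
  have hA : Continuous A := LinearMap.continuous_of_finiteDimensional A
  have hgc := hg.cont
  have hKc := hK.cont
  obtain ⟨C0, hC0⟩ := hK.decay 0
  simp only [pow_zero, one_mul] at hC0
  refine ⟨?_, fun N => ?_⟩
  · unfold Pool.Agent.H26.cv
    refine continuous_of_dominated (bound := fun y => ‖g y‖ * C0) (fun z => ?_) (fun z => ?_)
      (hg.integrable.norm.mul_const C0) (Filter.Eventually.of_forall fun y => ?_)
    · exact (by fun_prop : Continuous fun y => g y * K (z - A y)).aestronglyMeasurable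
    · refine Filter.Eventually.of_forall fun y => ?_
      rw [norm_mul]
      gcongr
      exact hC0 _
    · fun_prop
  · obtain ⟨C, hC⟩ := hK.decay N
    have hC' : 0 ≤ C := le_trans (by positivity) (hC 0)
    refine ⟨∫ y, C * ((1 + ‖A y‖) ^ N * ‖g y‖), fun z => ?_⟩
    have hpos : 0 ≤ (1 + ‖z‖) ^ N := by positivity
    unfold Pool.Agent.H26.cv
    have h1 : (1 + ‖z‖) ^ N * ‖∫ y, g y * K (z - A y)‖
        = ‖∫ y, ((1 + ‖z‖) ^ N : ℝ) • (g y * K (z - A y))‖ := by
      rw [integral_smul, norm_smul, Real.norm_of_nonneg hpos]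
    rw [h1]
    refine norm_integral_le_of_norm_le ((hg.integrable_lip A N).const_mul C)
      (Filter.Eventually.of_forall fun y => ?_)
    rw [norm_smul, Real.norm_of_nonneg hpos, norm_mul]
    calc (1 + ‖z‖) ^ N * (‖g y‖ * ‖K (z - A y)‖)
        ≤ ((1 + ‖z - A y‖) * (1 + ‖A y‖)) ^ N * (‖g y‖ * ‖K (z - A y)‖) := by
          gcongr
          exact one_add_norm_le z (A y)
      _ = ((1 + ‖z - A y‖) ^ N * ‖K (z - A y)‖) * ((1 + ‖A y‖) ^ N * ‖g y‖) := by
          rw [mul_pow]; ring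
      _ ≤ C * ((1 + ‖A y‖) ^ N * ‖g y‖) := by
          gcongr
          exact hC _

omit [NormedSpace ℝ V] [FiniteDimensional ℝ V] [(volume : Measure V).IsAddHaarMeasure]
  [(volume : Measure W).IsAddHaarMeasure] in
theorem aesm_prod {F : V → W → ℂ} (hF : Continuous (Function.uncurry F)) :
    AEStronglyMeasurable (Function.uncurry F) ((volume : Measure V).prod (volume : Measure W)) :=
  hF.aestronglyMeasurable

theorem integrable_cv_prod {g : V → ℂ} (hg : RD g) (A : V →ₗ[ℝ] W) {K : W → ℂ} (hK : RD K)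
    {G : W → ℂ} (hG : Continuous G) {D : ℝ} {N : ℕ} (hGN : ∀ z, ‖G z‖ ≤ D * (1 + ‖z‖) ^ N) :
    Integrable (Function.uncurry fun (y : V) (z : W) => g y * K (z - A y) * G z)
      ((volume : Measure V).prod (volume : Measure W)) := by
  have hA : Continuous A := LinearMap.continuous_of_finiteDimensional A
  have hgc := hg.cont
  have hKc := hK.cont
  have hD : 0 ≤ D := by
    have h := (norm_nonneg _).trans (hGN 0)
    simpa using h
  obtain ⟨C, hC0, hC⟩ := hK.le_jw N
  set r := Module.finrank ℝ W + 1 with hr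
  have hint : Integrable (fun p : V × W => ((1 + ‖A p.1‖) ^ (N + r) * ‖g p.1‖) * (D * C * jw W p.2))
      ((volume : Measure V).prod (volume : Measure W)) :=
    (hg.integrable_lip A (N + r)).mul_prod ((integrable_jw (V := W)).const_mul (D * C))
  refine Integrable.mono' hint (aesm_prod (by
    unfold Function.uncurry
    fun_prop)) (Filter.Eventually.of_forall fun p => ?_)
  obtain ⟨y, z⟩ := p
  change ‖g y * K (z - A y) * G z‖ ≤ ((1 + ‖A y‖) ^ (N + r) * ‖g y‖) * (D * C * jw W z)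
  rw [norm_mul, norm_mul]
  have hz := one_add_norm_le z (A y)
  have hpos1 : 0 < 1 + ‖z - A y‖ := by positivity
  have hpos2 : 0 < 1 + ‖A y‖ := by positivity
  have hpos3 : 0 < 1 + ‖z‖ := by positivity
  have hjw : jw W (z - A y) ≤ (1 + ‖A y‖) ^ r * jw W z := by
    unfold jw
    rw [← hr, ← div_eq_mul_inv, ← one_div, div_le_div_iff₀ (by positivity) (by positivity), one_mul,
      ← mul_pow]
    apply pow_le_pow_left₀ hpos3.le
    rw [mul_comm]
    linarith
  calc ‖g y‖ * ‖K (z - A y)‖ * ‖G z‖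
      ≤ ‖g y‖ * ‖K (z - A y)‖ * (D * ((1 + ‖z - A y‖) * (1 + ‖A y‖)) ^ N) := by
        gcongr
        refine (hGN z).trans ?_
        gcongr
    _ = ‖g y‖ * D * (1 + ‖A y‖) ^ N * ((1 + ‖z - A y‖) ^ N * ‖K (z - A y)‖) := by
        rw [mul_pow]; ring
    _ ≤ ‖g y‖ * D * (1 + ‖A y‖) ^ N * (C * jw W (z - A y)) :=
        mul_le_mul_of_nonneg_left (hC _) (by positivity)
    _ ≤ ‖g y‖ * D * (1 + ‖A y‖) ^ N * (C * ((1 + ‖A y‖) ^ r * jw W z)) := by
        gcongr
    _ = ((1 + ‖A y‖) ^ (N + r) * ‖g y‖) * (D * C * jw W z) := by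
        rw [pow_add]; ring

theorem cv_dual {g : V → ℂ} (hg : RD g) (A : V →ₗ[ℝ] W) {K : W → ℂ} (hK : RD K) {G : W → ℂ}
    (hG : Continuous G) {D : ℝ} {N : ℕ} (hGN : ∀ z, ‖G z‖ ≤ D * (1 + ‖z‖) ^ N) :
    ∫ z, cv g A K z * G z = ∫ y, g y * ∫ z, K z * G (z + A y) := by
  have h1 : ∀ z, cv g A K z * G z = ∫ y, g y * K (z - A y) * G z := by
    intro z
    rw [integral_mul_const]
    rfl
  have h2 := integral_integral_swap (integrable_cv_prod hg A hK hG hGN)
  calc ∫ z, cv g A K z * G z = ∫ z, ∫ y, g y * K (z - A y) * G z := by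
        simp_rw [h1]
    _ = ∫ y, ∫ z, g y * K (z - A y) * G z := h2.symm
    _ = ∫ y, g y * ∫ z, K z * G (z + A y) := by
        refine integral_congr_ae (Filter.Eventually.of_forall fun y => ?_)
        change ∫ z, g y * K (z - A y) * G z = g y * ∫ z, K z * G (z + A y)
        rw [← integral_const_mul]
        have h3 := integral_sub_right_eq_self (μ := (volume : Measure W))
          (fun z => g y * (K z * G (z + A y))) (A y)
        rw [← h3]
        refine integral_congr_ae (Filter.Eventually.of_forall fun z => ?_)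
        change g y * K (z - A y) * G z = g y * (K (z - A y) * G (z - A y + A y))
        rw [sub_add_cancel, mul_assoc]

theorem cv_dual' {g : V → ℂ} (hg : RD g) (A : V →ₗ[ℝ] W) {K : W → ℂ} (hK : RD K) {G : W → ℂ}
    (hG : Continuous G) {D : ℝ} {N : ℕ} (hGN : ∀ z, ‖G z‖ ≤ D * (1 + ‖z‖) ^ N) :
    ∫ z, cv g A K z * G z = ∫ z, K z * ∫ y, g y * G (z + A y) := by
  rw [cv_dual hg A hK hG hGN]
  have hA : Continuous A := LinearMap.continuous_of_finiteDimensional A
  have hgc := hg.cont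
  have hKc := hK.cont
  have hD : 0 ≤ D := by
    have h := (norm_nonneg _).trans (hGN 0)
    simpa using h
  have hI : Integrable (Function.uncurry fun (y : V) (z : W) => g y * (K z * G (z + A y)))
      ((volume : Measure V).prod (volume : Measure W)) := by
    have hint : Integrable (fun p : V × W => ((1 + ‖A p.1‖) ^ N * ‖g p.1‖) *
        (D * ((1 + ‖p.2‖) ^ N * ‖K p.2‖))) ((volume : Measure V).prod (volume : Measure W)) :=
      (hg.integrable_lip A N).mul_prod ((hK.integrable_pow N).const_mul D)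
    refine Integrable.mono' hint (aesm_prod (by
      unfold Function.uncurry
      fun_prop)) (Filter.Eventually.of_forall fun p => ?_)
    obtain ⟨y, z⟩ := p
    change ‖g y * (K z * G (z + A y))‖ ≤ ((1 + ‖A y‖) ^ N * ‖g y‖) * (D * ((1 + ‖z‖) ^ N * ‖K z‖))
    rw [norm_mul, norm_mul]
    calc ‖g y‖ * (‖K z‖ * ‖G (z + A y)‖)
        ≤ ‖g y‖ * (‖K z‖ * (D * ((1 + ‖z‖) * (1 + ‖A y‖)) ^ N)) := by
          gcongr
          refine (hGN _).trans ?_
          gcongr
          exact one_add_norm_add_le z (A y)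
      _ = ((1 + ‖A y‖) ^ N * ‖g y‖) * (D * ((1 + ‖z‖) ^ N * ‖K z‖)) := by
          rw [mul_pow]; ring
  have h2 := integral_integral_swap hI
  calc ∫ y, g y * ∫ z, K z * G (z + A y) = ∫ y, ∫ z, g y * (K z * G (z + A y)) := by
        simp_rw [integral_const_mul]
    _ = ∫ z, ∫ y, g y * (K z * G (z + A y)) := h2
    _ = ∫ z, K z * ∫ y, g y * G (z + A y) := by
        refine integral_congr_ae (Filter.Eventually.of_forall fun z => ?_)
        change ∫ y, g y * (K z * G (z + A y)) = K z * ∫ y, g y * G (z + A y)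
        rw [← integral_const_mul]
        refine integral_congr_ae (Filter.Eventually.of_forall fun y => ?_)
        change g y * (K z * G (z + A y)) = K z * (g y * G (z + A y))
        ring

end RDK

/-- the Fourier transform of a kernel on the space of shifts -/
noncomputable def ftk (K : (Ix k → ℝ) → ℂ) (θ : Ix k → ℝ) : ℂ :=
  ∫ z, K z * cexp (-(I * pairing θ z))

theorem ftk_cv {V : Type*} [NormedAddCommGroup V] [NormedSpace ℝ V] [FiniteDimensional ℝ V]
    [MeasureSpace V] [BorelSpace V] [(volume : Measure V).IsAddHaarMeasure]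
    {g : V → ℂ} (hg : RD g) (A : V →ₗ[ℝ] (Ix k → ℝ)) {K : (Ix k → ℝ) → ℂ} (hK : RD K)
    (θ : Ix k → ℝ) :
    ftk (cv g A K) θ = (∫ y, g y * cexp (-(I * pairing θ (A y)))) * ftk K θ := by
  unfold ftk
  have hpc : Continuous fun z : Ix k → ℝ => pairing θ z := by
    simp_rw [pairing_eq_sum]
    fun_prop
  have hc : Continuous fun z : Ix k → ℝ => cexp (-(I * pairing θ z)) := by
    have h2 : Continuous fun z : Ix k → ℝ => ((pairing θ z : ℝ) : ℂ) :=
      Complex.continuous_ofReal.comp hpc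
    fun_prop
  have hb : ∀ z : Ix k → ℝ, ‖cexp (-(I * pairing θ z))‖ ≤ 1 * (1 + ‖z‖) ^ 0 := by
    intro z
    rw [show -(I * (pairing θ z : ℂ)) = ((-(pairing θ z) : ℝ) : ℂ) * I by push_cast; ring,
      Complex.norm_exp_ofReal_mul_I]
    simp
  rw [cv_dual hg A hK hc hb, ← integral_mul_const]
  refine integral_congr_ae (Filter.Eventually.of_forall fun y => ?_)
  change g y * ∫ z, K z * cexp (-(I * pairing θ (z + A y)))
    = g y * cexp (-(I * pairing θ (A y))) * ∫ z, K z * cexp (-(I * pairing θ z))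
  rw [mul_assoc]
  congr 1
  rw [← integral_const_mul]
  refine integral_congr_ae (Filter.Eventually.of_forall fun z => ?_)
  change K z * cexp (-(I * pairing θ (z + A y)))
    = cexp (-(I * pairing θ (A y))) * (K z * cexp (-(I * pairing θ z)))
  rw [pairing_add, show -(I * ((pairing θ z + pairing θ (A y) : ℝ) : ℂ))
    = -(I * (pairing θ z : ℂ)) + -(I * (pairing θ (A y) : ℂ)) by push_cast; ring, Complex.exp_add]
  ring

end Pool.Agent.H26
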