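import Pool.Agent.H26.SP.FI0
import Pool.Agent.H26.SP.RDK

/-!
A kernel of rapid decay with vanishing Fourier transform is zero.
-/

namespace Pool.Agent.H26

variable {k : ℕ}

theorem eq_zero_of_ftk {K : (Ix k → ℝ) → ℂ} (hK : RD K) (h : ∀ θ, ftk K θ = 0) : K = 0 :=
  FI.eq_zero_of_integral hK h

end Pool.Agent.H26
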