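import Pool.Agent.H26.SP.Defs

/-!
A continuous kernel of rapid decay on the space of shifts with vanishing Fourier transform is
zero.
-/

namespace Pool.Agent.H26

open Complex Finset MeasureTheory Filter Asymptotics Topology
open scoped ContDiff SchwartzMap

variable {k : ℕ}

namespace FI

lemma integrable_of_rd {K : (Ix k → ℝ) → ℂ} (hK : RD K) : Integrable K := by
  obtain ⟨C, hC⟩ := hK.decay (Module.finrank ℝ (Ix k → ℝ) + 1)
  have h1 : Integrable (fun z : Ix k → ℝ =>
      C * (1 + ‖z‖) ^ (-((Module.finrank ℝ (Ix k → ℝ) : ℝ) + 1))) :=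
    (integrable_one_add_norm (by linarith)).const_mul C
  refine h1.mono' hK.cont.aestronglyMeasurable (Eventually.of_forall fun z => ?_)
  have hpos : (0 : ℝ) < 1 + ‖z‖ := by positivity
  rw [Real.rpow_neg hpos.le]
  have h2 : (1 + ‖z‖) ^ ((Module.finrank ℝ (Ix k → ℝ) : ℝ) + 1) =
      (1 + ‖z‖) ^ (Module.finrank ℝ (Ix k → ℝ) + 1) := by
    rw [← Real.rpow_natCast]
    push_cast
    rfl
  rw [h2, ← div_eq_mul_inv, le_div_iff₀ (by positivity), mul_comm]
  exact hC z

/-- The statement with the integral written out. -/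
theorem eq_zero_of_integral {K : (Ix k → ℝ) → ℂ} (hK : RD K)
    (h : ∀ θ : Ix k → ℝ, ∫ z, K z * cexp (-(I * pairing θ z)) = 0) : K = 0 := by
  have hint := integrable_of_rd hK
  have hmp := PiLp.volume_preserving_ofLp (Ix k)
  set f : EuclideanSpace ℝ (Ix k) → ℂ := fun v => K v.ofLp with hf
  have hfc : Continuous f := hK.cont.comp (by fun_prop)
  have hfi : Integrable f := hmp.integrable_comp_of_integrable hint
  have hF : FourierTransform.fourier f = 0 := by
    funext w
    rw [Real.fourier_eq', Pi.zero_apply]
    have h1 : ∀ v : EuclideanSpace ℝ (Ix k),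
        cexp ((↑(-2 * Real.pi * inner ℝ v w) * I)) • f v =
          (fun z : Ix k → ℝ =>
            K z * cexp (-(I * pairing (fun i => 2 * Real.pi * (sg i * w.ofLp i)) z))) v.ofLp := by
      intro v
      simp only [hf, smul_eq_mul]
      rw [mul_comm]
      congr 2
      have h2 : (inner ℝ v w : ℝ) = ∑ i, w.ofLp i * v.ofLp i := by
        rw [PiLp.inner_apply]
        simp only [RCLike.inner_apply, conj_trivial]
      have h3 : pairing (fun i => 2 * Real.pi * (sg i * w.ofLp i)) v.ofLp =
          2 * Real.pi * inner ℝ v w := by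
        rw [pairing_eq_sum, h2, Finset.mul_sum]
        refine Finset.sum_congr rfl fun i _ => ?_
        have := sg_mul_self i
        linear_combination (2 * Real.pi * w.ofLp i * v.ofLp i) * this
      rw [h3]
      push_cast
      ring
    calc ∫ v, cexp ((↑(-2 * Real.pi * inner ℝ v w) * I)) • f v
        = ∫ v : EuclideanSpace ℝ (Ix k), (fun z : Ix k → ℝ =>
            K z * cexp (-(I * pairing (fun i => 2 * Real.pi * (sg i * w.ofLp i)) z)))
              ((MeasurableEquiv.toLp 2 (Ix k → ℝ)).symm v) := integral_congr_ae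
                (Eventually.of_forall h1)
      _ = ∫ z : Ix k → ℝ, K z * cexp (-(I * pairing (fun i => 2 * Real.pi * (sg i * w.ofLp i)) z)) :=
          MeasurePreserving.integral_comp'
            (EuclideanSpace.volume_preserving_symm_measurableEquiv_toLp (Ix k))
            (fun z : Ix k → ℝ =>
              K z * cexp (-(I * pairing (fun i => 2 * Real.pi * (sg i * w.ofLp i)) z)))
      _ = 0 := h _
  have hinv := hfc.fourierInv_fourier_eq hfi (by rw [hF]; exact integrable_zero _ _ _)
  funext z
  have h4 : f (WithLp.toLp 2 z) = 0 := by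
    rw [← hinv, hF]
    rw [Real.fourierInv_eq']
    simp
  simpa [hf] using h4

end FI

end Pool.Agent.H26
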