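import Pool.Agent.H26.SP.GEO

/-!
The gap away from a neighbourhood of the central polytope.
-/

set_option autoImplicit false

namespace Pool.Agent.H26

open Complex Finset MeasureTheory Filter Asymptotics Topology
open scoped ContDiff SchwartzMap

variable {k : ℕ}

namespace GEO2

lemma corner_zero_or_one (S : Finset (Ix k)) (i : Ix k) : corner S i = 0 ∨ corner S i = 1 := by
  rcases i with l | j
  · show (if Sum.inl l ∈ S then (0:ℝ) else 1) = 0 ∨ (if Sum.inl l ∈ S then (0:ℝ) else 1) = 1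
    split_ifs
    · exact Or.inl rfl
    · exact Or.inr rfl
  · show (if Sum.inr j ∈ S then (1:ℝ) else 0) = 0 ∨ (if Sum.inr j ∈ S then (1:ℝ) else 0) = 1
    split_ifs
    · exact Or.inr rfl
    · exact Or.inl rfl

lemma ldist_eq {S : Finset (Ix k)} {θ : Ix k → ℝ} (h : ∀ i, 0 ≤ θ i ∧ θ i ≤ 1) :
    ldist S θ = ∑ i, |θ i - corner S i| := by
  unfold ldist
  refine Finset.sum_congr rfl fun i _ => ?_
  rcases corner_zero_or_one S i with h1 | h1
  · rw [h1, sub_zero, abs_of_nonneg (h i).1]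
    ring
  · rw [h1, abs_of_nonpos (by linarith [(h i).2])]
    ring

lemma mem_central_iff {θ : Ix k → ℝ} :
    θ ∈ central k ↔ (∀ i, 0 ≤ θ i ∧ θ i ≤ 1) ∧ θ ∈ polytope k := by
  constructor
  · rintro ⟨h1, h2, h3⟩
    exact ⟨h1, h2, fun S hS => by rw [ldist_eq h1]; exact h3 S hS⟩
  · rintro ⟨h1, h2, h3⟩
    exact ⟨h1, h2, fun S hS => by rw [← ldist_eq h1]; exact h3 S hS⟩

end GEO2

theorem exists_gap_central (k : ℕ) {P : (Ix k → ℝ) → Prop}
    (hP : ∀ᶠ θ in 𝓝ˢ (central k), P θ) (R : ℝ) :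
    ∃ δ : ℝ, 0 < δ ∧ ∀ θ : Ix k → ℝ, (∀ i, |θ i| ≤ R) → ¬ P θ →
      (δ ≤ |pairing θ fun _ => 1| ∨ (∃ i, θ i ≤ -(2 * δ)) ∨ ∃ i, 1 + 2 * δ ≤ θ i) ∨
        ∃ S : Finset (Ix k), S.card = k ∧ ldist S θ ≤ 2 - 2 * δ := by
  classical
  obtain ⟨U, hUo, hU, hUP⟩ := mem_nhdsSet_iff_exists.mp hP
  set A : Finset (Finset (Ix k)) := univ.filter (fun S => S.card = k) with hA
  let g : (Ix k → ℝ) → ℝ := fun θ => ∑ i, (max 0 (-θ i) + max 0 (θ i - 1))
  let f : (Ix k → ℝ) → ℝ := fun θ => |pairing θ fun _ => 1| + ∑ S ∈ A, max 0 (2 - ldist S θ) + g θ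
  have hg : Continuous g := by
    refine continuous_finsetSum _ fun i _ => ?_
    fun_prop
  have hf : Continuous f := by
    refine ((GEO.continuous_pairing _).abs.add (continuous_finsetSum _ fun S _ => ?_)).add hg
    exact continuous_const.max (continuous_const.sub (GEO.continuous_ldist S))
  have hs0 : ∀ θ, 0 ≤ ∑ S ∈ A, max 0 (2 - ldist S θ) := fun θ =>
    Finset.sum_nonneg fun S _ => le_max_left _ _
  have hgi : ∀ (θ : Ix k → ℝ) (i : Ix k), 0 ≤ max 0 (-θ i) + max 0 (θ i - 1) := fun θ i =>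
    add_nonneg (le_max_left _ _) (le_max_left _ _)
  have hg0 : ∀ θ, 0 ≤ g θ := fun θ => Finset.sum_nonneg fun i _ => hgi θ i
  have hf0 : ∀ θ, 0 ≤ f θ := fun θ => add_nonneg (add_nonneg (abs_nonneg _) (hs0 θ)) (hg0 θ)
  have hpos : ∀ θ, θ ∉ central k → 0 < f θ := by
    intro θ hθ
    rcases (hf0 θ).lt_or_eq with h | h
    · exact h
    · exfalso
      apply hθ
      have a1 : 0 ≤ |pairing θ fun _ => 1| := abs_nonneg _
      have a3 : |pairing θ fun _ => 1| + ∑ S ∈ A, max 0 (2 - ldist S θ) + g θ = 0 := h.symm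
      have b1 : |pairing θ fun _ => 1| = 0 := by linarith [hs0 θ, hg0 θ]
      have b2 : ∑ S ∈ A, max 0 (2 - ldist S θ) = 0 := by linarith [hs0 θ, hg0 θ]
      have b3 : g θ = 0 := by linarith [hs0 θ, hg0 θ]
      rw [GEO2.mem_central_iff]
      refine ⟨fun i => ?_, ?_, fun S hS => ?_⟩
      · have h2 := (Finset.sum_eq_zero_iff_of_nonneg fun i _ => hgi θ i).mp b3 i (mem_univ i)
        have h3 := le_max_right 0 (-θ i)
        have h4 := le_max_right 0 (θ i - 1)
        have h5 := le_max_left 0 (-θ i)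
        have h6 := le_max_left 0 (θ i - 1)
        constructor <;> linarith
      · have h2 := abs_eq_zero.mp b1
        unfold pairing at h2
        simp only [mul_one] at h2
        linarith
      · have h2 := (Finset.sum_eq_zero_iff_of_nonneg fun S _ => le_max_left _ _).mp b2 S
          (by rw [hA, mem_filter]; exact ⟨mem_univ _, hS⟩)
        have h3 := le_max_right 0 (2 - ldist S θ)
        linarith
  have hcomp : IsCompact ((Set.pi Set.univ fun _ : Ix k => Set.Icc (-R) R) \ U) :=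
    (isCompact_univ_pi fun _ => isCompact_Icc).diff hUo
  have key : ∃ m : ℝ, 0 < m ∧ ∀ θ : Ix k → ℝ, (∀ i, |θ i| ≤ R) → ¬ P θ → m ≤ f θ := by
    rcases ((Set.pi Set.univ fun _ : Ix k => Set.Icc (-R) R) \ U).eq_empty_or_nonempty with he | hne
    · refine ⟨1, one_pos, fun θ hθ hPθ => ?_⟩
      exfalso
      have : θ ∈ ((Set.pi Set.univ fun _ : Ix k => Set.Icc (-R) R) \ U) :=
        ⟨fun i _ => abs_le.mp (hθ i), fun h => hPθ (hUP h)⟩
      rw [he] at this
      exact this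
    · obtain ⟨x, hx, hmin⟩ := hcomp.exists_isMinOn hne hf.continuousOn
      refine ⟨f x, hpos x fun h => hx.2 (hU h), fun θ hθ hPθ => ?_⟩
      exact hmin ⟨fun i _ => abs_le.mp (hθ i), fun h => hPθ (hUP h)⟩
  obtain ⟨m, hm, hmf⟩ := key
  set n : ℝ := 2 * A.card + 4 * (univ : Finset (Ix k)).card + 2 with hn
  have hn0 : 0 < n := by positivity
  set δ : ℝ := m / n with hδ
  have hδ0 : 0 < δ := by positivity
  refine ⟨δ, hδ0, fun θ hθ hPθ => ?_⟩
  by_contra hcon
  rw [not_or, not_or, not_or, not_le] at hcon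
  obtain ⟨⟨h1, h1a, h1b⟩, h2⟩ := hcon
  have h3 : ∀ S ∈ A, max 0 (2 - ldist S θ) ≤ 2 * δ := by
    intro S hS
    have hSk : S.card = k := by
      rw [hA, mem_filter] at hS
      exact hS.2
    apply max_le (by positivity)
    by_contra h
    exact h2 ⟨S, hSk, by linarith⟩
  have h3' : ∀ i ∈ (univ : Finset (Ix k)), max 0 (-θ i) + max 0 (θ i - 1) ≤ 4 * δ := by
    intro i _
    have a1 : max 0 (-θ i) ≤ 2 * δ := by
      apply max_le (by positivity)
      by_contra h
      exact h1a ⟨i, by linarith⟩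
    have a2 : max 0 (θ i - 1) ≤ 2 * δ := by
      apply max_le (by positivity)
      by_contra h
      exact h1b ⟨i, by linarith⟩
    linarith
  have h4 := Finset.sum_le_sum h3
  have h4' := Finset.sum_le_sum h3'
  rw [Finset.sum_const, nsmul_eq_mul] at h4 h4'
  have h5 : f θ < δ + A.card * (2 * δ) + (univ : Finset (Ix k)).card * (4 * δ) :=
    add_lt_add_of_lt_of_le (add_lt_add_of_lt_of_le h1 h4) h4'
  have h6 : δ + A.card * (2 * δ) + (univ : Finset (Ix k)).card * (4 * δ) = m * ((n - 1) / n) := by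
    rw [hδ, hn]
    field_simp
    ring
  have h7 : m * ((n - 1) / n) ≤ m := by
    apply mul_le_of_le_one_right hm.le
    rw [div_le_one hn0]
    linarith
  exact absurd (hmf θ hθ hPθ) (by linarith)

end Pool.Agent.H26
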