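import Pool.Agent.H26.SP.Defs
import Pool.Agent.H26.SP.BASE
import Pool.Agent.H26.SP.PW
import Pool.Agent.H26.SP.RDK

/-!
Translations of all the shifts: the frequencies away from zero do not matter.
-/

namespace Pool.Agent.H26

open Complex Finset MeasureTheory Filter Asymptotics Topology
open scoped ContDiff

variable {k : ℕ}

namespace SIG

/-- The integrand of the error. -/
noncomputable def Dd (γ : Ix k → ℝ) (t : ℝ) : ℂ :=
  Z (fun j => γ (Sum.inl j)) (fun j => γ (Sum.inr j)) t -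
    Q (fun j => γ (Sum.inl j)) (fun j => γ (Sum.inr j)) t

theorem continuous_Dd (γ : Ix k → ℝ) : Continuous (Dd γ) := BASE.continuous_D γ

theorem Er_deriv (γ : Ix k → ℝ) (t : ℝ) : HasDerivAt (fun t => Er γ t) (Dd γ t) t :=
  BASE.Er_hasDerivAt γ t

theorem Er_add_all (γ : Ix k → ℝ) (s t : ℝ) :
    Er (γ + s • fun _ => 1) t = Er γ (t + s) - Er γ s := by
  have h : (fun γ : Ix k → ℝ => Er (γ + s • fun _ => 1) t) =
      fun γ => Er γ (t + s) - Er γ s := by
    refine Continuous.ext_on (dense_injective (ι := Ix k)) ?_ ?_ ?_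
    · exact (continuous_Er t).comp (continuous_id.add continuous_const)
    · exact (continuous_Er _).sub (continuous_Er _)
    · intro γ hγ
      have h1 := Er_add hγ s t
      simp only
      rw [← h1]
      congr 1
      funext i
      simp
  exact congrFun h γ

/-- Polynomial bound for the error, for all real `t`. -/
theorem exists_Er_abs (k : ℕ) : ∃ C : ℝ, 0 ≤ C ∧ ∀ (γ : Ix k → ℝ) (B T : ℝ), 0 ≤ B →
    (∀ i, |γ i| ≤ B) → ‖Er γ T‖ ≤ C * (1 + B) ^ NK k * (1 + |T|) ^ (2 * k + 1) := by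
  obtain ⟨CQ, hCQ0, hCQ⟩ := exists_norm_Qsum_le k (ρ := 1 / 8) (by norm_num)
  set C : ℝ := 6 ^ (2 * k) + CQ with hC
  have hC0 : 0 ≤ C := by positivity
  have hinj : ∀ (γ : Ix k → ℝ), Function.Injective γ → ∀ B T : ℝ, 0 ≤ B →
      (∀ i, |γ i| ≤ B) → ‖Er γ T‖ ≤ C * (1 + B) ^ NK k * (1 + |T|) ^ (2 * k + 1) := by
    intro γ hinj B T hB hγ
    rw [Er_eq_integral hinj]
    have h := intervalIntegral.norm_integral_le_of_norm_le_const (a := (0:ℝ)) (b := T)
      (C := C * (1 + B) ^ NK k * (1 + |T|) ^ (2 * k))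
      (f := fun t : ℝ => Zc (fun i => (γ i : ℂ)) t - Qsum (fun i => (γ i : ℂ)) t) ?_
    · refine h.trans ?_
      rw [sub_zero, pow_succ, ← mul_assoc]
      gcongr
      linarith
    · intro t ht
      have htT : 1 + |t| ≤ 1 + |T| := by
        have h1 := Set.uIoc_subset_uIcc ht
        have h2 := Set.abs_sub_left_of_mem_uIcc h1
        simp only [sub_zero] at h2
        linarith
      have h1 := norm_Zc_le (γ := fun i => (γ i : ℂ)) (ofReal_mem_tube γ) (t := t) hB
        (fun i => by simpa using hγ i)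
      have h2 := hCQ (fun i => (γ i : ℂ)) (injective_ofReal_comp hinj) (fun i => by simp) B hB
        (fun i => by simpa using hγ i) t
      refine (norm_sub_le _ _).trans ((add_le_add h1 h2).trans ?_)
      have h3 : ((6 + 3 * B) * (1 + |t|)) ^ (2 * k) ≤
          6 ^ (2 * k) * (1 + B) ^ NK k * (1 + |T|) ^ (2 * k) := by
        calc ((6 + 3 * B) * (1 + |t|)) ^ (2 * k)
            ≤ ((6 * (1 + B)) * (1 + |T|)) ^ (2 * k) := by
              gcongr
              linarith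
          _ = 6 ^ (2 * k) * (1 + B) ^ (2 * k) * (1 + |T|) ^ (2 * k) := by
              rw [← mul_pow, ← mul_pow]
          _ ≤ _ := by
              have h4 : (1 + B) ^ (2 * k) ≤ (1 + B) ^ NK k :=
                pow_le_pow_right₀ (by linarith) (by unfold NK; omega)
              gcongr
      have h4 : CQ * (1 + B) ^ NK k * (1 + |t|) ^ (2 * k) ≤
          CQ * (1 + B) ^ NK k * (1 + |T|) ^ (2 * k) := by gcongr
      calc _ ≤ _ := add_le_add h3 h4
        _ = _ := by rw [hC]; ring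
  refine ⟨C * 2 ^ NK k, by positivity, fun γ B T hB hγ => ?_⟩
  obtain ⟨u, hu1, hu2⟩ := exists_seq_injective γ
  have h1 : Tendsto (fun n => ‖Er (u n) T‖) atTop (𝓝 ‖Er γ T‖) :=
    (((continuous_Er T).tendsto γ).comp hu2).norm
  refine le_of_tendsto h1 ?_
  filter_upwards [eventually_abs_le hu2 hγ] with n hn
  refine (hinj (u n) (hu1 n) (B + 1) T (by linarith) hn).trans ?_
  have h2 : (1 + (B + 1)) ^ NK k ≤ 2 ^ NK k * (1 + B) ^ NK k := by
    rw [← mul_pow]
    gcongr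
    linarith
  calc C * (1 + (B + 1)) ^ NK k * (1 + |T|) ^ (2 * k + 1)
      ≤ C * (2 ^ NK k * (1 + B) ^ NK k) * (1 + |T|) ^ (2 * k + 1) := by gcongr
    _ = _ := by ring

/-- The smoothed error with the weight `ψ`, at the translation `s`. -/
noncomputable def Hh (ψ : ℝ → ℂ) (γ : Ix k → ℝ) (T s : ℝ) : ℂ := ∫ v, ψ v * Er γ (s + T * v)

theorem exists_R {ψ : ℝ → ℂ} (hψ : Bp ψ) : ∃ R : ℝ, 0 ≤ R ∧ ∀ v, ψ v ≠ 0 → |v| ≤ R := by
  obtain ⟨R, hR⟩ := hψ.cpt.isBounded.exists_norm_le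
  refine ⟨max R 0, le_max_right _ _, fun v hv => ?_⟩
  have h2 := hR v (subset_tsupport _ hv)
  rw [Real.norm_eq_abs] at h2
  exact h2.trans (le_max_left _ _)

theorem Hh_deriv {ψ : ℝ → ℂ} (hψ : Bp ψ) (γ : Ix k → ℝ) {T : ℝ} (hT : T ≠ 0) (s : ℝ) :
    HasDerivAt (fun s => Hh ψ γ T s) (-(T⁻¹ : ℝ) * Hh (deriv ψ) γ T s) s := by
  obtain ⟨R, hR0, hR⟩ := exists_R hψ
  obtain ⟨K, hK⟩ := (isCompact_Icc (a := -(|s| + 1 + |T| * R)) (b := |s| + 1 + |T| * R)).exists_bound_of_continuousOn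
    (continuous_Dd γ).continuousOn
  have hK0 : 0 ≤ K := (norm_nonneg _).trans (hK 0 ⟨by
    have : 0 ≤ |s| + 1 + |T| * R := by positivity
    linarith, by positivity⟩)
  have hEc := BASE.continuous_Er_t γ
  have hDc := continuous_Dd γ
  have h1 := hasDerivAt_integral_of_dominated_loc_of_deriv_le (μ := volume)
    (F := fun s v : ℝ => ψ v * Er γ (s + T * v)) (F' := fun s v : ℝ => ψ v * Dd γ (s + T * v))
    (bound := fun v => ‖ψ v‖ * K) (x₀ := s) (s := Metric.ball s 1)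
    (Metric.ball_mem_nhds s one_pos)
    (Filter.Eventually.of_forall fun x => ((PW.Bp.cont hψ).mul (hEc.comp (by fun_prop))).aestronglyMeasurable)
    (PW.Bp.int_mul hψ (hEc.comp (by fun_prop)))
    (((PW.Bp.cont hψ).mul (hDc.comp (by fun_prop))).aestronglyMeasurable)
    (Filter.Eventually.of_forall fun v x hx => by
      by_cases hv : ψ v = 0
      · rw [hv]; simp
      · rw [norm_mul]
        have h2 := hR v hv
        rw [Metric.mem_ball, Real.dist_eq] at hx
        have h3 : |x + T * v| ≤ |s| + 1 + |T| * R := by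
          have e : x + T * v = s + (x - s) + T * v := by ring
          rw [e]
          refine (abs_add_le _ _).trans (add_le_add ((abs_add_le _ _).trans (by linarith)) ?_)
          rw [abs_mul]
          gcongr
        have h4 := hK _ (abs_le.1 h3)
        gcongr)
    (((PW.Bp.int hψ).norm).mul_const K)
    (Filter.Eventually.of_forall fun v x hx => by
      have h2 : HasDerivAt (fun x : ℝ => x + T * v) 1 x := (hasDerivAt_id x).add_const _
      have h3 := (Er_deriv γ (x + T * v)).scomp x h2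
      simp only [Function.comp_def, one_smul] at h3
      exact h3.const_mul (ψ v))
  refine h1.2.congr_deriv ?_
  have h5 := integral_mul_deriv_eq_deriv_mul_of_integrable
    (u := ψ) (v := fun v : ℝ => Er γ (s + T * v)) (u' := deriv ψ)
    (v' := fun v : ℝ => (T : ℂ) * Dd γ (s + T * v))
    (fun v _ => ((hψ.smooth.differentiable (by simp)) v).hasDerivAt)
    (fun v _ => by
      have h2 : HasDerivAt (fun v : ℝ => s + T * v) T v := by
        simpa using ((hasDerivAt_id v).const_mul T).const_add s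
      have h3 := (Er_deriv γ (s + T * v)).scomp v h2
      simp only [Function.comp_def, Complex.real_smul] at h3
      exact h3)
    (PW.Bp.int_mul hψ (continuous_const.mul (hDc.comp (by fun_prop))))
    (PW.Bp.int_mul (PW.Bp.dv hψ) (hEc.comp (by fun_prop)))
    (PW.Bp.int_mul hψ (hEc.comp (by fun_prop)))
  have h6 : ∫ v, ψ v * ((T : ℂ) * Dd γ (s + T * v)) = (T : ℂ) * ∫ v, ψ v * Dd γ (s + T * v) := by
    rw [← integral_const_mul]
    congr 1
    funext v
    ring
  rw [h6] at h5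
  have hT' : (T : ℂ) ≠ 0 := by exact_mod_cast hT
  have h7 : ∫ v, ψ v * Dd γ (s + T * v) = (T : ℂ)⁻¹ * -∫ v, deriv ψ v * Er γ (s + T * v) := by
    rw [← h5, ← mul_assoc, inv_mul_cancel₀ hT', one_mul]
  rw [h7]
  unfold Hh
  push_cast
  ring

theorem Hh_bound (k : ℕ) {ψ : ℝ → ℂ} (hψ : Bp ψ) : ∃ C : ℝ, 0 ≤ C ∧ ∀ (γ : Ix k → ℝ) (T s : ℝ),
    1 ≤ T → ‖Hh ψ γ T s‖ ≤ C * (1 + ‖γ‖) ^ NK k * ((1 + |s|) * T) ^ (2 * k + 1) := by
  obtain ⟨R, hR0, hR⟩ := exists_R hψ
  obtain ⟨C, hC0, hC⟩ := exists_Er_abs k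
  refine ⟨(∫ v, ‖ψ v‖) * (C * (1 + R) ^ (2 * k + 1)), by positivity, fun γ T s hT => ?_⟩
  have h1 : ‖Hh ψ γ T s‖ ≤ ∫ v, ‖ψ v‖ *
      (C * (1 + ‖γ‖) ^ NK k * ((1 + R) * ((1 + |s|) * T)) ^ (2 * k + 1)) := by
    refine norm_integral_le_of_norm_le (((PW.Bp.int hψ).norm).mul_const _)
      (Filter.Eventually.of_forall fun v => ?_)
    by_cases hv : ψ v = 0
    · rw [hv]; simp
    · rw [norm_mul]
      have h2 := hR v hv
      have h3 := hC γ ‖γ‖ (s + T * v) (norm_nonneg _) (fun i => by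
        rw [← Real.norm_eq_abs]; exact norm_le_pi_norm γ i)
      have h4 : 1 + |s + T * v| ≤ (1 + R) * ((1 + |s|) * T) := by
        have h5 : |s + T * v| ≤ |s| + T * R := by
          refine (abs_add_le _ _).trans ?_
          rw [abs_mul, abs_of_nonneg (by linarith : (0:ℝ) ≤ T)]
          gcongr
        have h6 := abs_nonneg s
        nlinarith [mul_nonneg hR0 h6, mul_nonneg h6 (by linarith : (0:ℝ) ≤ T - 1),
          mul_nonneg (mul_nonneg hR0 h6) (by linarith : (0:ℝ) ≤ T - 1)]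
      gcongr
      refine h3.trans ?_
      gcongr
  refine h1.trans (le_of_eq ?_)
  rw [integral_mul_const, mul_pow (1 + R)]
  ring

/-- Taylor's formula with a crude remainder. -/
theorem taylor_aux (h : ℕ → ℝ → ℂ) (hd : ∀ j s, HasDerivAt (h j) (h (j + 1) s) s) (J : ℕ) :
    ∀ (m : ℕ) (B s : ℝ), (∀ r, |r| ≤ |s| → ‖h (m + J) r‖ ≤ B) →
      ‖h m s - ∑ j ∈ range J, h (m + j) 0 * ((s : ℂ) ^ j / (j.factorial : ℂ))‖ ≤ |s| ^ J * B := by
  induction J with
  | zero =>
    intro m B s hB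
    simpa using hB s le_rfl
  | succ J ih =>
    intro m B s hB
    set P : ℝ → ℂ := fun s => h m s -
      ∑ j ∈ range (J + 1), h (m + j) 0 * ((s : ℂ) ^ j / (j.factorial : ℂ)) with hP
    set P' : ℝ → ℂ := fun s => h (m + 1) s -
      ∑ j ∈ range J, h (m + 1 + j) 0 * ((s : ℂ) ^ j / (j.factorial : ℂ)) with hP'
    have hder : ∀ s, HasDerivAt P (P' s) s := by
      intro s
      refine (hd m s).sub ?_
      have h1 : ∀ j ∈ range (J + 1), HasDerivAt
          (fun s : ℝ => h (m + j) 0 * ((s : ℂ) ^ j / (j.factorial : ℂ)))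
          (h (m + j) 0 * (((j : ℂ) * (s : ℂ) ^ (j - 1)) / (j.factorial : ℂ))) s := by
        intro j _
        have h2 : HasDerivAt (fun s : ℝ => (s : ℂ) ^ j) ((j : ℂ) * (s : ℂ) ^ (j - 1)) s := by
          have h3 := (hasDerivAt_pow j (s : ℂ)).comp_ofReal
          exact h3
        exact (h2.div_const _).const_mul _
      refine (HasDerivAt.fun_sum h1).congr_deriv ?_
      rw [Finset.sum_range_succ']
      simp only [Nat.cast_zero, zero_mul, zero_div, mul_zero, add_zero, Nat.add_sub_cancel]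
      refine Finset.sum_congr rfl fun j _ => ?_
      have h4 : ((j + 1 : ℕ) : ℂ) ≠ 0 := by exact_mod_cast Nat.succ_ne_zero j
      have h5 : ((j.factorial : ℕ) : ℂ) ≠ 0 := by exact_mod_cast Nat.factorial_ne_zero j
      rw [Nat.factorial_succ, Nat.cast_mul, show m + (j + 1) = m + 1 + j by ring]
      field_simp
    have hB0 : 0 ≤ B := (norm_nonneg _).trans (hB 0 (by simp))
    have hP0 : P 0 = 0 := by
      simp only [hP]
      rw [Finset.sum_range_succ']
      simp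
    have hbd : ∀ r ∈ Set.Icc (-|s|) |s|, ‖P' r‖ ≤ |s| ^ J * B := by
      intro r hr
      have hr' : |r| ≤ |s| := abs_le.2 hr
      refine (ih (m + 1) B r fun x hx => ?_).trans (by gcongr)
      rw [show m + 1 + J = m + (J + 1) by ring]
      exact hB x (hx.trans hr')
    have h6 := Convex.norm_image_sub_le_of_norm_hasDerivWithin_le (f := P) (f' := P')
      (s := Set.Icc (-|s|) |s|) (x := 0) (y := s) (C := |s| ^ J * B)
      (fun r _ => (hder r).hasDerivWithinAt) hbd (convex_Icc _ _)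
      ⟨by simp, abs_nonneg s⟩ ⟨neg_abs_le s, le_abs_self s⟩
    rw [hP0, sub_zero, sub_zero, Real.norm_eq_abs] at h6
    refine h6.trans (le_of_eq ?_)
    rw [pow_succ]
    ring

theorem bp_iter {b : ℝ → ℂ} (hb : Bp b) (j : ℕ) : Bp (deriv^[j] b) := by
  induction j with
  | zero => exact hb
  | succ j ih =>
    rw [Function.iterate_succ_apply']
    exact PW.Bp.dv ih

theorem pwf_iter {b : ℝ → ℂ} (hb : Bp b) (j : ℕ) (z : ℂ) :
    pwf (deriv^[j] b) z = (-(I * z)) ^ j * pwf b z := by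
  induction j with
  | zero => simp
  | succ j ih =>
    rw [Function.iterate_succ_apply', pwf_deriv (bp_iter hb j), ih, pow_succ]
    ring

theorem iter_zero {b : ℝ → ℂ} {η : ℝ} (hη : 0 < η) (hb1 : ∀ ξ, |ξ| ≤ η → b ξ = 1) (j : ℕ) :
    deriv^[j + 1] b =ᶠ[𝓝 0] fun _ => 0 := by
  induction j with
  | zero =>
    have h1 : b =ᶠ[𝓝 0] fun _ => (1 : ℂ) := by
      have h2 : ∀ᶠ ξ : ℝ in 𝓝 0, ξ ∈ Metric.ball (0 : ℝ) η := Metric.ball_mem_nhds 0 hη
      filter_upwards [h2] with ξ hξ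
      rw [Metric.mem_ball, Real.dist_eq, sub_zero] at hξ
      exact hb1 ξ hξ.le
    rw [zero_add, Function.iterate_one]
    exact h1.deriv.trans (Filter.Eventually.of_forall fun ξ => deriv_const ξ (1 : ℂ))
  | succ j ih =>
    rw [Function.iterate_succ_apply']
    exact ih.deriv.trans (Filter.Eventually.of_forall fun ξ => deriv_const ξ (0 : ℂ))

theorem moment {b : ℝ → ℂ} (hb : Bp b) {η : ℝ} (hη : 0 < η) (hb1 : ∀ ξ, |ξ| ≤ η → b ξ = 1)
    (j : ℕ) : ∫ y : ℝ, pwf b y * (y : ℂ) ^ j = if j = 0 then 1 else 0 := by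
  have h1 : ∀ b' : ℝ → ℂ, Bp b' → ∫ y : ℝ, pwf b' y = b' 0 := by
    intro b' hb'
    have h2 := pwf_fourier hb' 0
    rw [← h2]
    congr 1
    funext y
    simp
  rcases j with _ | j
  · simp only [pow_zero, mul_one, if_true]
    rw [h1 b hb, hb1 0 (by simpa using hη.le)]
  · rw [if_neg (Nat.succ_ne_zero j)]
    have h3 := h1 _ (bp_iter hb (j + 1))
    rw [(iter_zero hη hb1 j).self_of_nhds] at h3
    have h4 : ∀ y : ℝ, pwf (deriv^[j + 1] b) y = (-I) ^ (j + 1) * (pwf b y * (y : ℂ) ^ (j + 1)) := by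
      intro y
      rw [pwf_iter hb, ← neg_mul, mul_pow]
      ring
    simp only [h4] at h3
    rw [integral_const_mul] at h3
    exact (mul_eq_zero.1 h3).resolve_left (pow_ne_zero _ (neg_ne_zero.2 I_ne_zero))

theorem Fp_shift {φ : ℝ → ℂ} (hφ : TF φ) (γ : Ix k → ℝ) {T : ℝ} (hT : 0 < T) (s : ℝ) :
    Fp φ (γ + s • fun _ => 1) T = -Hh (deriv φ) γ T s := by
  obtain ⟨R, hR0, hR1, hR2, hR3, hR4⟩ := BASE.exists_supp hφ
  have hb : Bp φ := ⟨hφ.smooth, hφ.cpt⟩
  rw [Fp_eq hφ _ hT]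
  congr 1
  rw [setIntegral_eq_integral_of_forall_compl_eq_zero]
  · have h1 := Measure.integral_comp_mul_left
      (fun t : ℝ => (((T⁻¹ : ℝ) : ℂ) * deriv φ (t / T)) * Er (γ + s • fun _ => 1) t) T
    rw [abs_of_pos (inv_pos.2 hT)] at h1
    have h2 : ∫ t : ℝ, (((T⁻¹ : ℝ) : ℂ) * deriv φ (t / T)) * Er (γ + s • fun _ => 1) t =
        (T : ℂ) * ∫ v : ℝ, (((T⁻¹ : ℝ) : ℂ) * deriv φ ((T * v) / T)) *
          Er (γ + s • fun _ => 1) (T * v) := by
      rw [h1, Complex.real_smul, ← mul_assoc, ← Complex.ofReal_mul, mul_inv_cancel₀ hT.ne',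
        Complex.ofReal_one, one_mul]
    rw [h2, ← integral_const_mul]
    have h3 : ∀ v : ℝ, (T : ℂ) * ((((T⁻¹ : ℝ) : ℂ) * deriv φ ((T * v) / T)) *
        Er (γ + s • fun _ => 1) (T * v)) =
        deriv φ v * Er γ (s + T * v) - deriv φ v * Er γ s := by
      intro v
      have hT' : (T : ℂ) ≠ 0 := by exact_mod_cast hT.ne'
      rw [Er_add_all, mul_div_cancel_left₀ _ hT.ne', add_comm (T * v) s]
      push_cast
      field_simp
    simp only [h3]
    have h6 : Integrable fun v : ℝ => deriv φ v * Er γ (s + T * v) :=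
      PW.Bp.int_mul (PW.Bp.dv hb) ((BASE.continuous_Er_t γ).comp (by fun_prop))
    rw [integral_sub h6 ((PW.Bp.int (PW.Bp.dv hb)).mul_const _), integral_mul_const]
    have h4 : ∫ v, deriv φ v = 0 :=
      integral_eq_zero_of_hasDerivAt_of_integrable (fun v => BASE.diffAt hφ v) (PW.Bp.int (PW.Bp.dv hb)) (PW.Bp.int hb)
    rw [h4, zero_mul, sub_zero]
    rfl
  · intro t ht
    have h5 : t / T ≤ 0 := div_nonpos_of_nonpos_of_nonneg (not_lt.1 ht) hT.le
    rw [hR4 _ h5]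
    simp

end SIG

open SIG

theorem sigma_lemma (k : ℕ) {φ : ℝ → ℂ} (hφ : TF φ) {b : ℝ → ℂ} (hb : Bp b) {η : ℝ} (hη : 0 < η)
    (hb1 : ∀ ξ, |ξ| ≤ η → b ξ = 1) : ∃ C : ℝ, 0 ≤ C ∧ ∃ N : ℕ,
    ∀ (γ : Ix k → ℝ) (T : ℝ), 3 ≤ T →
      ‖Fp φ γ T - ∫ y : ℝ, pwf b y * Fp φ (γ + (y / Real.log T) • fun _ => 1) T‖ ≤
        C * (1 + ‖γ‖) ^ N := by
  have hφb : Bp φ := ⟨hφ.smooth, hφ.cpt⟩
  obtain ⟨C₁, hC₁0, hC₁⟩ := Hh_bound k (bp_iter hφb (2 * k + 1 + 1))
  obtain ⟨C₂, hC₂0, hC₂⟩ := (rd_pwf hb).exists_bound (2 * (2 * k + 1))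
  refine ⟨C₂ * C₁, by positivity, NK k, fun γ T hT => ?_⟩
  have hT0 : 0 < T := by linarith
  set Λ : ℝ := Real.log T with hΛ
  have hΛ1 : 1 ≤ Λ := by
    rw [hΛ, Real.le_log_iff_exp_le hT0]
    have := Real.exp_one_lt_d9
    linarith
  have hΛ0 : 0 < Λ := by linarith
  set h : ℕ → ℝ → ℂ := fun j s => -(-(T⁻¹ : ℝ) : ℂ) ^ j * Hh (deriv^[j + 1] φ) γ T s with hh
  have hd : ∀ j s, HasDerivAt (h j) (h (j + 1) s) s := by
    intro j s
    have h1 := (Hh_deriv (bp_iter hφb (j + 1)) γ hT0.ne' s).const_mul (-(-(T⁻¹ : ℝ) : ℂ) ^ j)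
    refine h1.congr_deriv ?_
    simp only [hh]
    rw [← Function.iterate_succ_apply' deriv (j + 1) φ, pow_succ]
    push_cast
    ring
  have hF : ∀ s : ℝ, Fp φ (γ + s • fun _ => 1) T = h 0 s := by
    intro s
    rw [Fp_shift hφ γ hT0 s]
    simp [hh]
  have hF0 : Fp φ γ T = h 0 0 := by
    rw [← hF 0]
    congr 1
    simp
  set J : ℕ := 2 * k + 1 with hJ
  set D : ℝ := C₁ * (1 + ‖γ‖) ^ NK k with hD
  have hD0 : 0 ≤ D := by positivity
  set Gf : ℝ → ℂ := fun y => h 0 (y / Λ) -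
    ∑ j ∈ range J, h (0 + j) 0 * (((y / Λ : ℝ) : ℂ) ^ j / (j.factorial : ℂ)) with hG
  have hcont : Continuous (h 0) := continuous_iff_continuousAt.2 fun s => (hd 0 s).continuousAt
  have hGc : Continuous Gf := by
    refine Continuous.sub (hcont.comp (by fun_prop)) (continuous_finset_sum _ fun j _ => ?_)
    fun_prop
  have hGb : ∀ y, ‖Gf y‖ ≤ D * (1 + ‖y‖) ^ (2 * J) := by
    intro y
    have hyΛ : |y / Λ| ≤ |y| := by
      rw [abs_div, abs_of_pos hΛ0]
      exact div_le_self (abs_nonneg _) hΛ1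
    have h1 := taylor_aux h hd J 0 (D * (1 + |y|) ^ J) (y / Λ) (fun r hr => by
      rw [zero_add]
      simp only [hh]
      rw [norm_mul, norm_neg, norm_pow, norm_neg, Complex.norm_real,
        Real.norm_of_nonneg (inv_nonneg.2 hT0.le)]
      have h2 := hC₁ γ T r (by linarith)
      calc (T⁻¹) ^ J * ‖Hh (deriv^[J + 1] φ) γ T r‖
          ≤ (T⁻¹) ^ J * (C₁ * (1 + ‖γ‖) ^ NK k * ((1 + |r|) * T) ^ J) := by gcongr
        _ = D * (1 + |r|) ^ J := by
            rw [mul_pow (1 + |r|), hD]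
            have : (T⁻¹) ^ J * T ^ J = 1 := by
              rw [← mul_pow, inv_mul_cancel₀ hT0.ne', one_pow]
            calc _ = C₁ * (1 + ‖γ‖) ^ NK k * (1 + |r|) ^ J * ((T⁻¹) ^ J * T ^ J) := by ring
              _ = _ := by rw [this, mul_one]
        _ ≤ D * (1 + |y|) ^ J := by
            have := hr.trans hyΛ
            gcongr)
    refine h1.trans ?_
    rw [Real.norm_eq_abs]
    calc |y / Λ| ^ J * (D * (1 + |y|) ^ J) ≤ (1 + |y|) ^ J * (D * (1 + |y|) ^ J) := by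
          gcongr
          linarith
      _ = _ := by rw [two_mul, pow_add]; ring
  obtain ⟨hGi, hGn⟩ := hC₂ Gf D hD0 hGc hGb
  have hmi : ∀ j : ℕ, Integrable fun y : ℝ => pwf b y * (y : ℂ) ^ j := by
    intro j
    obtain ⟨C₃, hC₃0, hC₃⟩ := (rd_pwf hb).exists_bound j
    refine (hC₃ (fun y : ℝ => (y : ℂ) ^ j) 1 zero_le_one (by fun_prop) fun y => ?_).1
    rw [norm_pow, Complex.norm_real, one_mul]
    gcongr
    linarith
  have hsum : ∫ y : ℝ, pwf b y * Fp φ (γ + (y / Λ) • fun _ => 1) T =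
      (∫ y : ℝ, pwf b y * Gf y) + h 0 0 := by
    have h1 : ∀ y : ℝ, pwf b y * Fp φ (γ + (y / Λ) • fun _ => 1) T = pwf b y * Gf y +
        ∑ j ∈ range J, (h (0 + j) 0 / ((Λ : ℂ) ^ j * (j.factorial : ℂ))) *
          (pwf b y * (y : ℂ) ^ j) := by
      intro y
      rw [hF]
      simp only [hG]
      rw [mul_sub, sub_add, Finset.mul_sum, ← Finset.sum_sub_distrib]
      rw [Finset.sum_eq_zero, sub_zero]
      intro j _
      have h5 : ((j.factorial : ℕ) : ℂ) ≠ 0 := by exact_mod_cast Nat.factorial_ne_zero j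
      have h6 : (Λ : ℂ) ≠ 0 := by exact_mod_cast hΛ0.ne'
      rw [Complex.ofReal_div, div_pow]
      field_simp
      ring
    simp only [h1]
    rw [integral_add hGi (integrable_finset_sum _ fun j _ => (hmi j).const_mul _),
      integral_finset_sum _ (fun j _ => (hmi j).const_mul _)]
    congr 1
    simp only [integral_const_mul, moment hb hη hb1]
    rw [Finset.sum_eq_single 0]
    · simp
    · intro j _ hj
      rw [if_neg hj, mul_zero]
    · intro h0
      exact absurd (Finset.mem_range.2 (by omega)) h0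
  rw [hsum, hF0]
  have e : h 0 0 - ((∫ y : ℝ, pwf b y * Gf y) + h 0 0) = -∫ y : ℝ, pwf b y * Gf y := by ring
  rw [e, norm_neg]
  refine hGn.trans (le_of_eq ?_)
  rw [hD]
  ring

end Pool.Agent.H26
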