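import Pool.Agent.H26.SP.ITER
import Pool.Agent.H26.SP.GEO2
import Pool.Agent.H26.SP.BLC
import Pool.Agent.H26.SP.SIG
import Pool.Agent.H26.SP.CS
import Pool.Agent.H26.SP.BOX
import Pool.Agent.H26.SP.FI
import Pool.Agent.H26.SP.INN

/-!
The final assembly: averages over windows of length `1 / log T` whose spectrum avoids the polytope.
-/

set_option autoImplicit false

namespace Pool.Agent.H26

open Complex Finset MeasureTheory Filter Asymptotics Topology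
open scoped ContDiff SchwartzMap

variable {k : ℕ}

namespace FIN

/-- The smoothed error at the displacement `z`. -/
noncomputable def Gz (φ : ℝ → ℂ) (γ : Ix k → ℝ) (T : ℝ) (z : Ix k → ℝ) : ℂ :=
  Fp φ (γ + (Real.log T)⁻¹ • z) T

/-- The average against the kernel `K`. -/
noncomputable def IP (φ : ℝ → ℂ) (K : (Ix k → ℝ) → ℂ) (γ : Ix k → ℝ) (T : ℝ) : ℂ :=
  ∫ z, K z * Gz φ γ T z

lemma one_le_log {T : ℝ} (hT : 3 ≤ T) : 1 ≤ Real.log T := by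
  rw [Real.le_log_iff_exp_le (by linarith)]
  have := Real.exp_one_lt_d9
  linarith

lemma norm_shift_le {T : ℝ} (hT : 3 ≤ T) (γ z : Ix k → ℝ) :
    1 + ‖γ + (Real.log T)⁻¹ • z‖ ≤ (1 + ‖γ‖) * (1 + ‖z‖) := by
  have h0 := one_le_log hT
  have h1 := norm_add_le γ ((Real.log T)⁻¹ • z)
  have h2 : ‖(Real.log T)⁻¹ • z‖ ≤ ‖z‖ := by
    rw [norm_smul, Real.norm_eq_abs, abs_of_pos (inv_pos.2 (by linarith))]
    exact mul_le_of_le_one_left (norm_nonneg _) (inv_le_one_of_one_le₀ h0)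
  have h3 := mul_nonneg (norm_nonneg γ) (norm_nonneg z)
  nlinarith

lemma shift_pow_le {T : ℝ} (hT : 3 ≤ T) (γ z : Ix k → ℝ) (N : ℕ) :
    (1 + ‖γ + (Real.log T)⁻¹ • z‖) ^ N ≤ (1 + ‖γ‖) ^ N * (1 + ‖z‖) ^ N := by
  rw [← mul_pow]
  exact pow_le_pow_left₀ (by positivity) (norm_shift_le hT γ z) N

lemma continuous_Gz {φ : ℝ → ℂ} (hφ : TF φ) {T : ℝ} (hT : 3 ≤ T) (γ : Ix k → ℝ) :
    Continuous (Gz φ γ T) :=
  (continuous_Fp hφ (by linarith)).comp (by fun_prop)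

lemma Gz_zero (φ : ℝ → ℂ) (γ : Ix k → ℝ) (T : ℝ) : Gz φ γ T 0 = Fp φ γ T := by
  simp [Gz]

lemma Gz_smul (φ : ℝ → ℂ) (γ : Ix k → ℝ) (T : ℝ) (z d : Ix k → ℝ) (y : ℝ) :
    Gz φ γ T (z + y • d) = Fp φ ((γ + (Real.log T)⁻¹ • z) + (y / Real.log T) • d) T := by
  unfold Gz
  congr 1
  rw [smul_add, smul_smul, add_assoc, div_eq_inv_mul]

lemma Gz_shift (φ : ℝ → ℂ) (γ : Ix k → ℝ) (T : ℝ) (z w : Ix k → ℝ) :
    Gz φ γ T (z + w) = Gz φ (γ + (Real.log T)⁻¹ • w) T z := by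
  unfold Gz
  congr 1
  rw [smul_add]
  abel

lemma exists_Gz_le (k : ℕ) {φ : ℝ → ℂ} (hφ : TF φ) : ∃ C : ℝ, 0 ≤ C ∧ ∃ N A : ℕ,
    ∀ (γ : Ix k → ℝ) (T : ℝ), 3 ≤ T → ∀ z,
      ‖Gz φ γ T z‖ ≤ C * (1 + ‖γ‖) ^ N * T ^ A * (1 + ‖z‖) ^ N := by
  obtain ⟨C, hC0, N, A, hC⟩ := Fp_poly k hφ
  refine ⟨C, hC0, N, A, fun γ T hT z => ?_⟩
  have hT0 : 0 ≤ T := by linarith
  refine (hC _ T (by linarith)).trans ?_
  calc C * (1 + ‖γ + (Real.log T)⁻¹ • z‖) ^ N * T ^ A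
      ≤ C * ((1 + ‖γ‖) ^ N * (1 + ‖z‖) ^ N) * T ^ A := by
        gcongr
        exact shift_pow_le hT γ z N
    _ = _ := by ring

/-- The error is close to its average against a band limited kernel. -/
lemma base_approx (k : ℕ) {φ : ℝ → ℂ} (hφ : TF φ) : ∃ R₀ : ℝ, ∀ R : ℝ, R₀ ≤ R → 0 ≤ R →
    ∀ b : ℝ → ℂ, Bp b → (∀ ξ, |ξ| ≤ R → b ξ = 1) → ∃ C : ℝ, 0 ≤ C ∧ ∃ N : ℕ,
    ∀ (γ : Ix k → ℝ) (T : ℝ), 3 ≤ T →
      ‖Fp φ γ T - IP φ (fun z => ∏ i, pwf b (z i)) γ T‖ ≤ C * (1 + ‖γ‖) ^ N := by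
  obtain ⟨R₀, hR₀⟩ := band_limit_coord k hφ
  refine ⟨R₀, fun R hR hR0 b hb hb1 => ?_⟩
  obtain ⟨C₁, hC₁0, N₁, hC₁⟩ := hR₀ R hR b hb hb1
  obtain ⟨C₂, hC₂0, N₂, A, hC₂⟩ := exists_Gz_le k hφ
  have hb0 : b 0 = 1 := hb1 0 (by rw [abs_zero]; exact hR0)
  obtain ⟨C₃, hC₃0, hC₃⟩ := iterate_coord (k := k) hb hb0 (N₁ + N₂)
  refine ⟨C₃ * C₁, by positivity, N₁, fun γ T hT => ?_⟩
  have hT0 : 0 ≤ T := by linarith
  have hpow : ∀ (z : Ix k → ℝ) (M : ℕ), M ≤ N₁ + N₂ → (1 + ‖z‖) ^ M ≤ (1 + ‖z‖) ^ (N₁ + N₂) :=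
    fun z M hM => pow_le_pow_right₀ (by linarith [norm_nonneg z]) hM
  have h := hC₃ (Gz φ γ T) (C₂ * (1 + ‖γ‖) ^ N₂ * T ^ A) (C₁ * (1 + ‖γ‖) ^ N₁) (by positivity)
    (by positivity) (continuous_Gz hφ hT γ) (fun z => ?_) (fun z i => ?_)
  · rw [Gz_zero] at h
    refine h.trans (le_of_eq (by ring))
  · refine (hC₂ γ T hT z).trans ?_
    gcongr ?_ * ?_
    exact hpow z N₂ (by omega)
  · simp only [Gz_smul]
    refine (hC₁ i (γ + (Real.log T)⁻¹ • z) T hT).trans ?_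
    calc C₁ * (1 + ‖γ + (Real.log T)⁻¹ • z‖) ^ N₁
        ≤ C₁ * ((1 + ‖γ‖) ^ N₁ * (1 + ‖z‖) ^ N₁) :=
          mul_le_mul_of_nonneg_left (shift_pow_le hT γ z N₁) hC₁0
      _ ≤ C₁ * ((1 + ‖γ‖) ^ N₁ * (1 + ‖z‖) ^ (N₁ + N₂)) := by
          gcongr ?_ * (?_ * ?_)
          exact hpow z N₁ (by omega)
      _ = _ := by ring

/-- Pairing with a kernel of rapid decay. -/
lemma exists_IP_le {K : (Ix k → ℝ) → ℂ} (hK : RD K) (N : ℕ) : ∃ C : ℝ, 0 ≤ C ∧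
    ∀ (H : (Ix k → ℝ) → ℂ) (D : ℝ), 0 ≤ D → (∀ z, ‖H z‖ ≤ D * (1 + ‖z‖) ^ N) →
      ‖∫ z, K z * H z‖ ≤ C * D := by
  have hi := integrable_rd_pow hK N
  refine ⟨∫ y, ‖K y‖ * (1 + ‖y‖) ^ N, integral_nonneg fun y => by positivity,
    fun H D hD hH => ?_⟩
  refine (norm_integral_le_of_norm_le (hi.mul_const D)
    (Filter.Eventually.of_forall fun z => ?_)).trans (le_of_eq ?_)
  · rw [norm_mul]
    calc ‖K z‖ * ‖H z‖ ≤ ‖K z‖ * (D * (1 + ‖z‖) ^ N) :=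
          mul_le_mul_of_nonneg_left (hH z) (norm_nonneg _)
      _ = _ := by ring
  · rw [integral_mul_const]

lemma integrable_IP {φ : ℝ → ℂ} (hφ : TF φ) {K : (Ix k → ℝ) → ℂ} (hK : RD K) (γ : Ix k → ℝ)
    {T : ℝ} (hT : 3 ≤ T) : Integrable fun z => K z * Gz φ γ T z := by
  obtain ⟨C₂, hC₂0, N₂, A, hC₂⟩ := exists_Gz_le k hφ
  obtain ⟨C, _, hC⟩ := hK.exists_bound N₂
  have hT0 : 0 ≤ T := by linarith
  exact (hC (Gz φ γ T) (C₂ * (1 + ‖γ‖) ^ N₂ * T ^ A) (by positivity) (continuous_Gz hφ hT γ)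
    (hC₂ γ T hT)).1

lemma IP_sub {φ : ℝ → ℂ} (hφ : TF φ) {K K' : (Ix k → ℝ) → ℂ} (hK : RD K) (hK' : RD K')
    (γ : Ix k → ℝ) {T : ℝ} (hT : 3 ≤ T) :
    IP φ (fun z => K z - K' z) γ T = IP φ K γ T - IP φ K' γ T := by
  unfold IP
  rw [← integral_sub (integrable_IP hφ hK γ hT) (integrable_IP hφ hK' γ hT)]
  congr 1
  funext z
  ring

lemma IP_comb {φ : ℝ → ℂ} (hφ : TF φ) {K K' : (Ix k → ℝ) → ℂ} (hK : RD K) (hK' : RD K')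
    (a : ℂ) (γ : Ix k → ℝ) {T : ℝ} (hT : 3 ≤ T) :
    IP φ (fun z => a * K z + K' z) γ T = a * IP φ K γ T + IP φ K' γ T := by
  unfold IP
  rw [← integral_const_mul, ← integral_add ((integrable_IP hφ hK γ hT).const_mul a)
    (integrable_IP hφ hK' γ hT)]
  congr 1
  funext z
  ring

lemma IP_cv {φ : ℝ → ℂ} (hφ : TF φ) {K : (Ix k → ℝ) → ℂ} (hK : RD K) {g : ℝ → ℂ} (hg : RD g)
    (d : Ix k → ℝ) (γ : Ix k → ℝ) {T : ℝ} (hT : 3 ≤ T) :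
    IP φ (cv g (lin d) K) γ T = ∫ z, K z * ∫ y : ℝ, g y *
      Fp φ ((γ + (Real.log T)⁻¹ • z) + (y / Real.log T) • d) T := by
  obtain ⟨C₂, hC₂0, N₂, A, hC₂⟩ := exists_Gz_le k hφ
  unfold IP
  rw [cv_dual' hg (lin d) hK (continuous_Gz hφ hT γ) (hC₂ γ T hT)]
  congr 1
  funext z
  congr 1
  congr 1
  funext y
  congr 1
  have : lin d y = y • d := by simp [lin]
  rw [this, Gz_smul]

lemma step0 {φ : ℝ → ℂ} (hφ : TF φ) {K : (Ix k → ℝ) → ℂ} (hK : RD K) {g : ℝ → ℂ} (hg : RD g)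
    (d : Ix k → ℝ) {C₁ e : ℝ} (hC₁ : 0 ≤ C₁) {N : ℕ}
    (h : ∀ (γ : Ix k → ℝ) (T : ℝ), 3 ≤ T →
      ‖∫ y : ℝ, g y * Fp φ (γ + (y / Real.log T) • d) T‖ ≤ C₁ * (1 + ‖γ‖) ^ N * T ^ e) :
    ∃ C : ℝ, 0 ≤ C ∧ ∀ (γ : Ix k → ℝ) (T : ℝ), 3 ≤ T →
      ‖IP φ (cv g (lin d) K) γ T‖ ≤ C * (1 + ‖γ‖) ^ N * T ^ e := by
  obtain ⟨C, hC0, hC⟩ := exists_IP_le hK N
  refine ⟨C * C₁, by positivity, fun γ T hT => ?_⟩
  have hT0 : 0 ≤ T := by linarith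
  rw [IP_cv hφ hK hg d γ hT]
  refine (hC _ (C₁ * (1 + ‖γ‖) ^ N * T ^ e) (by positivity) fun z => ?_).trans
    (le_of_eq (by ring))
  refine (h _ T hT).trans ?_
  have hTe : 0 ≤ T ^ e := by positivity
  calc C₁ * (1 + ‖γ + (Real.log T)⁻¹ • z‖) ^ N * T ^ e
      ≤ C₁ * ((1 + ‖γ‖) ^ N * (1 + ‖z‖) ^ N) * T ^ e := by
        gcongr
        exact shift_pow_le hT γ z N
    _ = _ := by ring

lemma step1 {φ : ℝ → ℂ} (hφ : TF φ) {K : (Ix k → ℝ) → ℂ} (hK : RD K) {g : ℝ → ℂ} (hg : RD g)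
    (d : Ix k → ℝ) {C₁ : ℝ} (hC₁ : 0 ≤ C₁) {N : ℕ}
    (h : ∀ (γ : Ix k → ℝ) (T : ℝ), 3 ≤ T →
      ‖Fp φ γ T - ∫ y : ℝ, g y * Fp φ (γ + (y / Real.log T) • d) T‖ ≤ C₁ * (1 + ‖γ‖) ^ N) :
    ∃ C : ℝ, 0 ≤ C ∧ ∀ (γ : Ix k → ℝ) (T : ℝ), 3 ≤ T →
      ‖IP φ K γ T - IP φ (cv g (lin d) K) γ T‖ ≤ C * (1 + ‖γ‖) ^ N := by
  obtain ⟨C, hC0, hC⟩ := exists_IP_le hK N
  obtain ⟨C₂, hC₂0, N₂, A, hC₂⟩ := exists_Gz_le k hφ
  obtain ⟨C₃, hC₃0, hC₃⟩ := exists_inner hg (lin d) N₂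
  obtain ⟨C₄, hC₄0, hC₄⟩ := hK.exists_bound N₂
  refine ⟨C * C₁, by positivity, fun γ T hT => ?_⟩
  have hT0 : 0 ≤ T := by linarith
  have hin := hC₃ (Gz φ γ T) (C₂ * (1 + ‖γ‖) ^ N₂ * T ^ A) (by positivity)
    (continuous_Gz hφ hT γ) (hC₂ γ T hT)
  have e1 : ∀ z, (∫ y : ℝ, g y * Gz φ γ T (z + lin d y)) = ∫ y : ℝ, g y *
      Fp φ ((γ + (Real.log T)⁻¹ • z) + (y / Real.log T) • d) T := by
    intro z
    congr 1
    funext y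
    have : lin d y = y • d := by simp [lin]
    rw [this, Gz_smul]
  have hint : Integrable fun z => K z * ∫ y : ℝ, g y *
      Fp φ ((γ + (Real.log T)⁻¹ • z) + (y / Real.log T) • d) T := by
    have h2 := (hC₄ _ (C₃ * (C₂ * (1 + ‖γ‖) ^ N₂ * T ^ A)) (by positivity) hin.1 hin.2).1
    refine h2.congr (Filter.Eventually.of_forall fun z => ?_)
    simp only
    rw [e1]
  rw [IP_cv hφ hK hg d γ hT]
  unfold IP
  rw [← integral_sub (integrable_IP hφ hK γ hT) hint]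
  have e2 : (fun z => K z * Gz φ γ T z - K z * ∫ y : ℝ, g y *
      Fp φ ((γ + (Real.log T)⁻¹ • z) + (y / Real.log T) • d) T) =
      fun z => K z * (Gz φ γ T z - ∫ y : ℝ, g y *
      Fp φ ((γ + (Real.log T)⁻¹ • z) + (y / Real.log T) • d) T) := by
    funext z
    ring
  rw [e2]
  refine (hC _ (C₁ * (1 + ‖γ‖) ^ N) (by positivity) fun z => ?_).trans
    (le_of_eq (by ring))
  refine (h _ T hT).trans ?_
  calc C₁ * (1 + ‖γ + (Real.log T)⁻¹ • z‖) ^ N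
      ≤ C₁ * ((1 + ‖γ‖) ^ N * (1 + ‖z‖) ^ N) :=
        mul_le_mul_of_nonneg_left (shift_pow_le hT γ z N) hC₁
    _ = _ := by ring

/-! ### Fourier transforms -/

lemma rd_sub {K K' : (Ix k → ℝ) → ℂ} (hK : RD K) (hK' : RD K') : RD fun z => K z - K' z := by
  refine ⟨hK.cont.sub hK'.cont, fun N => ?_⟩
  obtain ⟨C, hC⟩ := hK.decay N
  obtain ⟨C', hC'⟩ := hK'.decay N
  refine ⟨C + C', fun z => ?_⟩
  have h1 : 0 ≤ (1 + ‖z‖) ^ N := by positivity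
  calc (1 + ‖z‖) ^ N * ‖K z - K' z‖ ≤ (1 + ‖z‖) ^ N * (‖K z‖ + ‖K' z‖) :=
        mul_le_mul_of_nonneg_left (norm_sub_le _ _) h1
    _ = (1 + ‖z‖) ^ N * ‖K z‖ + (1 + ‖z‖) ^ N * ‖K' z‖ := by ring
    _ ≤ _ := add_le_add (hC z) (hC' z)

lemma rd_comb {K K' : (Ix k → ℝ) → ℂ} (hK : RD K) (hK' : RD K') (a : ℂ) :
    RD fun z => a * K z + K' z := by
  refine ⟨(continuous_const.mul hK.cont).add hK'.cont, fun N => ?_⟩
  obtain ⟨C, hC⟩ := hK.decay N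
  obtain ⟨C', hC'⟩ := hK'.decay N
  refine ⟨‖a‖ * C + C', fun z => ?_⟩
  have h1 : 0 ≤ (1 + ‖z‖) ^ N := by positivity
  calc (1 + ‖z‖) ^ N * ‖a * K z + K' z‖ ≤ (1 + ‖z‖) ^ N * (‖a * K z‖ + ‖K' z‖) :=
        mul_le_mul_of_nonneg_left (norm_add_le _ _) h1
    _ = ‖a‖ * ((1 + ‖z‖) ^ N * ‖K z‖) + (1 + ‖z‖) ^ N * ‖K' z‖ := by
        rw [norm_mul]
        ring
    _ ≤ _ := add_le_add (mul_le_mul_of_nonneg_left (hC z) (norm_nonneg a)) (hC' z)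

lemma continuous_pairing (θ : Ix k → ℝ) : Continuous fun z : Ix k → ℝ => pairing θ z := by
  unfold pairing
  fun_prop

lemma integrable_ftk {K : (Ix k → ℝ) → ℂ} (hK : RD K) (θ : Ix k → ℝ) :
    Integrable fun z => K z * cexp (-(I * pairing θ z)) := by
  obtain ⟨C, _, hC⟩ := hK.exists_bound 0
  refine (hC (fun z => cexp (-(I * pairing θ z))) 1 zero_le_one ?_ ?_).1
  · have := continuous_pairing θ
    fun_prop
  · intro z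
    rw [Complex.norm_exp]
    simp

lemma ftk_sub {K K' : (Ix k → ℝ) → ℂ} (hK : RD K) (hK' : RD K') (θ : Ix k → ℝ) :
    ftk (fun z => K z - K' z) θ = ftk K θ - ftk K' θ := by
  unfold ftk
  rw [← integral_sub (integrable_ftk hK θ) (integrable_ftk hK' θ)]
  congr 1
  funext z
  ring

lemma ftk_comb {K K' : (Ix k → ℝ) → ℂ} (hK : RD K) (hK' : RD K') (a : ℂ) (θ : Ix k → ℝ) :
    ftk (fun z => a * K z + K' z) θ = a * ftk K θ + ftk K' θ := by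
  unfold ftk
  rw [← integral_const_mul, ← integral_add ((integrable_ftk hK θ).const_mul a)
    (integrable_ftk hK' θ)]
  congr 1
  funext z
  ring

lemma pairing_smul (θ d : Ix k → ℝ) (y : ℝ) : pairing θ (y • d) = pairing θ d * y := by
  rw [pairing_eq_sum, pairing_eq_sum, Finset.sum_mul]
  refine Finset.sum_congr rfl fun i _ => ?_
  rw [Pi.smul_apply, smul_eq_mul]
  ring

lemma ftk_cv_pwf {b : ℝ → ℂ} (hb : Bp b) (d : Ix k → ℝ) {K : (Ix k → ℝ) → ℂ} (hK : RD K)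
    (θ : Ix k → ℝ) :
    ftk (cv (fun y : ℝ => pwf b y) (lin d) K) θ = b (pairing θ d) * ftk K θ := by
  rw [ftk_cv (rd_pwf hb) (lin d) hK θ, ← pwf_fourier hb (pairing θ d)]
  congr 1
  congr 1
  funext y
  have : lin d y = y • d := by simp [lin]
  rw [this, pairing_smul]
  push_cast
  ring_nf

/-! ### Removing the charts -/

lemma exists_bS (R : ℝ) {δ : ℝ} (hδ : 0 < δ) (S : Finset (Ix k)) : ∃ b : ℝ → ℂ, Bp b ∧
    (∀ ξ, b ξ ≠ 0 → ξ + ∑ i, corner S i ≤ 2 - δ) ∧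
    ∀ θ : Ix k → ℝ, (∀ i, |θ i| ≤ R) → ldist S θ ≤ 2 - 2 * δ → b (pairing θ (dir S)) = 1 := by
  set q : ℝ := 2 - 2 * δ - ∑ i, corner S i with hq
  set X : ℝ := ∑ i, |dir S i| * |R| with hX
  have hX0 : 0 ≤ X := Finset.sum_nonneg fun i _ => by positivity
  obtain ⟨b, hb, hb1, hb2⟩ := exists_bump (p₀ := -(X + |q|) - 1) (p := -(X + |q|)) (q := q)
    (q₀ := q + δ) (by linarith) (by linarith [neg_abs_le q]) (by linarith)
  refine ⟨b, hb, fun ξ hξ => ?_, fun θ hθ hl => ?_⟩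
  · have := (hb2 ξ hξ).2
    rw [hq] at this
    linarith
  · apply hb1
    · have h1 : |pairing θ (dir S)| ≤ X := by
        rw [pairing_eq_sum]
        refine (Finset.abs_sum_le_sum_abs _ _).trans (Finset.sum_le_sum fun i _ => ?_)
        have h2 : |(sg i : ℝ)| = 1 := by
          rcases i with i | i <;> simp [sg]
        rw [abs_mul, abs_mul, h2, one_mul, mul_comm]
        exact mul_le_mul_of_nonneg_left ((hθ i).trans (le_abs_self R)) (abs_nonneg _)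
      have h3 := (abs_le.1 h1).1
      linarith [abs_nonneg q]
    · have := pairing_dir S θ
      rw [hq]
      linarith

/-- `b` kills the averages of the error in the direction `d`. -/
def Kills (φ : ℝ → ℂ) (d : Ix k → ℝ) (b : ℝ → ℂ) : Prop :=
  ∃ c : ℝ, 0 < c ∧ ∃ C : ℝ, 0 ≤ C ∧ ∃ N : ℕ, ∀ (γ : Ix k → ℝ) (T : ℝ), 3 ≤ T →
    ‖∫ y : ℝ, pwf b y * Fp φ (γ + (y / Real.log T) • d) T‖ ≤ C * (1 + ‖γ‖) ^ N * T ^ (1 - c)

lemma remove_all {ι : Type*} {φ : ℝ → ℂ} (hφ : TF φ) {K : (Ix k → ℝ) → ℂ}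
    (hK : RD K) (d : ι → Ix k → ℝ) (b : ι → ℝ → ℂ) (hb : ∀ i, Bp (b i)) (s : Finset ι)
    (hs : ∀ i ∈ s, Kills φ (d i) (b i)) :
    ∃ K' : (Ix k → ℝ) → ℂ, RD K' ∧
      (∀ θ, ftk K' θ = ftk K θ * ∏ i ∈ s, (1 - b i (pairing θ (d i)))) ∧
      ∃ c : ℝ, 0 < c ∧ c ≤ 1 ∧ ∃ C : ℝ, 0 ≤ C ∧ ∃ N : ℕ, ∀ (γ : Ix k → ℝ) (T : ℝ), 3 ≤ T →
        ‖IP φ K γ T - IP φ K' γ T‖ ≤ C * (1 + ‖γ‖) ^ N * T ^ (1 - c) := by
  classical
  induction s using Finset.induction_on with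
  | empty =>
    refine ⟨K, hK, fun θ => by simp, 1, one_pos, le_rfl, 0, le_rfl, 0, fun γ T hT => ?_⟩
    simp
  | insert S 𝒮 hS ih =>
    obtain ⟨K', hK', hft, c, hc0, hc1, C, hC0, N, hC⟩ :=
      ih fun S' hS' => hs S' (Finset.mem_insert_of_mem hS')
    obtain ⟨c', hc'0, C', hC'0, N', hC'⟩ := hs S (Finset.mem_insert_self _ _)
    obtain ⟨C'', hC''0, hC''⟩ := step0 hφ hK' (rd_pwf (hb S)) (d S) hC'0 hC'
    have hrd : RD (cv (fun y : ℝ => pwf (b S) y) (lin (d S)) K') :=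
      (rd_pwf (hb S)).cv (lin (d S)) hK'
    refine ⟨fun z => K' z - cv (fun y : ℝ => pwf (b S) y) (lin (d S)) K' z, rd_sub hK' hrd, ?_,
      min c c', lt_min hc0 hc'0, (min_le_left _ _).trans hc1, C + C'', by positivity, N + N', ?_⟩
    · intro θ
      rw [ftk_sub hK' hrd, ftk_cv_pwf (hb S) (d S) hK', hft θ, Finset.prod_insert hS]
      ring
    · intro γ T hT
      have hT1 : 1 ≤ T := by linarith
      rw [IP_sub hφ hK' hrd γ hT]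
      have h1 := hC γ T hT
      have h2 := hC'' γ T hT
      have hg : 1 ≤ 1 + ‖γ‖ := by linarith [norm_nonneg γ]
      have h3 : T ^ (1 - c) ≤ T ^ (1 - min c c') :=
        Real.rpow_le_rpow_of_exponent_le hT1 (by linarith [min_le_left c c'])
      have h4 : T ^ (1 - c') ≤ T ^ (1 - min c c') :=
        Real.rpow_le_rpow_of_exponent_le hT1 (by linarith [min_le_right c c'])
      have h5 : (1 + ‖γ‖) ^ N ≤ (1 + ‖γ‖) ^ (N + N') := pow_le_pow_right₀ hg (by omega)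
      have h6 : (1 + ‖γ‖) ^ N' ≤ (1 + ‖γ‖) ^ (N + N') := pow_le_pow_right₀ hg (by omega)
      calc _ = ‖(IP φ K γ T - IP φ K' γ T) +
            IP φ (cv (fun y : ℝ => pwf (b S) y) (lin (d S)) K') γ T‖ := by congr 1; ring
        _ ≤ _ := norm_add_le _ _
        _ ≤ C * (1 + ‖γ‖) ^ N * T ^ (1 - c) + C'' * (1 + ‖γ‖) ^ N' * T ^ (1 - c') :=
            add_le_add h1 h2
        _ ≤ C * (1 + ‖γ‖) ^ (N + N') * T ^ (1 - min c c') +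
            C'' * (1 + ‖γ‖) ^ (N + N') * T ^ (1 - min c c') := by gcongr
        _ = _ := by ring

/-- Two steps together. -/
lemma trans_step {φ : ℝ → ℂ} {K K' K'' : (Ix k → ℝ) → ℂ} {c c' : ℝ} (hc0 : 0 < c) (hc1 : c ≤ 1)
    (hc'0 : 0 < c') {C C' : ℝ} (hC0 : 0 ≤ C) (hC'0 : 0 ≤ C') {N N' : ℕ}
    (h : ∀ (γ : Ix k → ℝ) (T : ℝ), 3 ≤ T →
      ‖IP φ K γ T - IP φ K' γ T‖ ≤ C * (1 + ‖γ‖) ^ N * T ^ (1 - c))
    (h' : ∀ (γ : Ix k → ℝ) (T : ℝ), 3 ≤ T →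
      ‖IP φ K' γ T - IP φ K'' γ T‖ ≤ C' * (1 + ‖γ‖) ^ N' * T ^ (1 - c')) :
    ∃ c : ℝ, 0 < c ∧ c ≤ 1 ∧ ∃ C : ℝ, 0 ≤ C ∧ ∃ N : ℕ, ∀ (γ : Ix k → ℝ) (T : ℝ), 3 ≤ T →
      ‖IP φ K γ T - IP φ K'' γ T‖ ≤ C * (1 + ‖γ‖) ^ N * T ^ (1 - c) := by
  refine ⟨min c c', lt_min hc0 hc'0, (min_le_left _ _).trans hc1, C + C', by positivity,
    N + N', fun γ T hT => ?_⟩
  have hT1 : 1 ≤ T := by linarith
  have h1 := h γ T hT
  have h2 := h' γ T hT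
  have hg : 1 ≤ 1 + ‖γ‖ := by linarith [norm_nonneg γ]
  have h3 : T ^ (1 - c) ≤ T ^ (1 - min c c') :=
    Real.rpow_le_rpow_of_exponent_le hT1 (by linarith [min_le_left c c'])
  have h4 : T ^ (1 - c') ≤ T ^ (1 - min c c') :=
    Real.rpow_le_rpow_of_exponent_le hT1 (by linarith [min_le_right c c'])
  have h5 : (1 + ‖γ‖) ^ N ≤ (1 + ‖γ‖) ^ (N + N') := pow_le_pow_right₀ hg (by omega)
  have h6 : (1 + ‖γ‖) ^ N' ≤ (1 + ‖γ‖) ^ (N + N') := pow_le_pow_right₀ hg (by omega)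
  calc _ = ‖(IP φ K γ T - IP φ K' γ T) + (IP φ K' γ T - IP φ K'' γ T)‖ := by congr 1; ring
    _ ≤ _ := norm_add_le _ _
    _ ≤ C * (1 + ‖γ‖) ^ N * T ^ (1 - c) + C' * (1 + ‖γ‖) ^ N' * T ^ (1 - c') :=
        add_le_add h1 h2
    _ ≤ C * (1 + ‖γ‖) ^ (N + N') * T ^ (1 - min c c') +
        C' * (1 + ‖γ‖) ^ (N + N') * T ^ (1 - min c c') := by gcongr
    _ = _ := by ring

lemma pairing_single (θ : Ix k → ℝ) (i : Ix k) : pairing θ (Pi.single i (sg i)) = θ i := by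
  classical
  rw [pairing_eq_sum, Finset.sum_eq_single i]
  · rw [Pi.single_eq_same]
    have := sg_mul_self i
    linear_combination θ i * this
  · intro j _ hj
    rw [Pi.single_eq_of_ne hj, mul_zero]
  · intro h
    exact absurd (Finset.mem_univ i) h

/-- Removing all the frequencies which are not close to the central polytope. -/
lemma remove_everything {φ : ℝ → ℂ} (hφ : TF φ) {δ : ℝ} (hδ : 0 < δ) {R : ℝ}
    {K : (Ix k → ℝ) → ℂ} (hK : RD K) :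
    ∃ K' : (Ix k → ℝ) → ℂ, RD K' ∧
      (∀ θ, ftk K θ = 0 → ftk K' θ = 0) ∧
      (∀ θ : Ix k → ℝ, (∀ i, |θ i| ≤ R) → ((∃ i, θ i ≤ -(2 * δ)) ∨ (∃ i, 1 + 2 * δ ≤ θ i) ∨
        ∃ S : Finset (Ix k), S.card = k ∧ ldist S θ ≤ 2 - 2 * δ) → ftk K' θ = 0) ∧
      ∃ c : ℝ, 0 < c ∧ c ≤ 1 ∧ ∃ C : ℝ, 0 ≤ C ∧ ∃ N : ℕ, ∀ (γ : Ix k → ℝ) (T : ℝ), 3 ≤ T →
        ‖IP φ K γ T - IP φ K' γ T‖ ≤ C * (1 + ‖γ‖) ^ N * T ^ (1 - c) := by
  classical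
  -- the charts
  choose b hb hbs hb1 using fun S : Finset (Ix k) => exists_bS (k := k) R hδ S
  obtain ⟨K₁, hK₁, hft₁, c₁, hc₁0, hc₁1, C₁, hC₁0, N₁, hC₁⟩ := remove_all hφ hK dir b hb
    (Finset.powersetCard k Finset.univ) fun S hS =>
      chart_S S (Finset.mem_powersetCard.1 hS).2 hφ hδ (hb S) (hbs S)
  -- negative frequencies
  obtain ⟨bl, hbl, hbl1, hbl2⟩ := exists_bump (p₀ := -(|R| + 2 * δ) - 1) (p := -(|R| + 2 * δ))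
    (q := -(2 * δ)) (q₀ := -δ) (by linarith) (by linarith [abs_nonneg R]) (by linarith)
  obtain ⟨K₂, hK₂, hft₂, c₂, hc₂0, hc₂1, C₂, hC₂0, N₂, hC₂⟩ := remove_all hφ hK₁
    (fun i : Ix k => Pi.single i (sg i)) (fun _ => bl) (fun _ => hbl) Finset.univ fun i _ =>
      box i hφ hδ hbl (Or.inl fun ξ hξ => (hbl2 ξ hξ).2.le)
  -- frequencies above one
  obtain ⟨bh, hbh, hbh1, hbh2⟩ := exists_bump (p₀ := 1 + δ) (p := 1 + 2 * δ)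
    (q := |R| + (1 + 2 * δ)) (q₀ := |R| + (1 + 2 * δ) + 1) (by linarith)
    (by linarith [abs_nonneg R]) (by linarith)
  obtain ⟨K₃, hK₃, hft₃, c₃, hc₃0, hc₃1, C₃, hC₃0, N₃, hC₃⟩ := remove_all hφ hK₂
    (fun i : Ix k => Pi.single i (sg i)) (fun _ => bh) (fun _ => hbh) Finset.univ fun i _ =>
      box i hφ hδ hbh (Or.inr fun ξ hξ => (hbh2 ξ hξ).1.le)
  obtain ⟨c₄, hc₄0, hc₄1, C₄, hC₄0, N₄, hC₄⟩ := trans_step hc₁0 hc₁1 hc₂0 hC₁0 hC₂0 hC₁ hC₂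
  refine ⟨K₃, hK₃, fun θ hθ => ?_, fun θ hθ h => ?_, trans_step hc₄0 hc₄1 hc₃0 hC₄0 hC₃0 hC₄ hC₃⟩
  · rw [hft₃, hft₂, hft₁, hθ]
    ring
  · rcases h with ⟨i, hi⟩ | ⟨i, hi⟩ | ⟨S, hS, hl⟩
    · have h1 : bl (pairing θ (Pi.single i (sg i))) = 1 := by
        rw [pairing_single]
        refine hbl1 _ ?_ hi
        have h2 := (abs_le.1 (hθ i)).1
        linarith [le_abs_self R]
      have h2 : ∏ i ∈ (Finset.univ : Finset (Ix k)),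
          (1 - bl (pairing θ (Pi.single i (sg i)))) = 0 :=
        Finset.prod_eq_zero (Finset.mem_univ i) (by rw [h1, sub_self])
      rw [hft₃, hft₂, h2]
      ring
    · have h1 : bh (pairing θ (Pi.single i (sg i))) = 1 := by
        rw [pairing_single]
        refine hbh1 _ hi ?_
        have h2 := (abs_le.1 (hθ i)).2
        linarith [le_abs_self R]
      have h2 : ∏ i ∈ (Finset.univ : Finset (Ix k)),
          (1 - bh (pairing θ (Pi.single i (sg i)))) = 0 :=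
        Finset.prod_eq_zero (Finset.mem_univ i) (by rw [h1, sub_self])
      rw [hft₃, h2]
      ring
    · have h2 : ∏ S ∈ Finset.powersetCard k Finset.univ,
          (1 - b S (pairing θ (dir S))) = 0 :=
        Finset.prod_eq_zero (i := S) (Finset.mem_powersetCard.2 ⟨Finset.subset_univ _, hS⟩)
          (by rw [hb1 S θ hθ hl, sub_self])
      rw [hft₃, hft₂, hft₁, h2]
      ring

/-! ### The kernel of the window -/

/-- The window is close to its band limited version. -/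
lemma window_approx (n : ℕ) (L : (Fin n → ℝ) →ₗ[ℝ] (Ix k → ℝ)) {f : (Fin n → ℝ) → ℂ}
    (hf : RD f) {φ : ℝ → ℂ} (hφ : TF φ) {K₀ : (Ix k → ℝ) → ℂ} (hK₀ : RD K₀) {C₁ : ℝ}
    (hC₁ : 0 ≤ C₁) {N : ℕ} (h : ∀ (γ : Ix k → ℝ) (T : ℝ), 3 ≤ T →
      ‖Fp φ γ T - IP φ K₀ γ T‖ ≤ C₁ * (1 + ‖γ‖) ^ N) :
    ∃ C : ℝ, 0 ≤ C ∧ ∀ (γ : Ix k → ℝ) (T : ℝ), 3 ≤ T →
      ‖(∫ y, f y * Fp φ (γ + (Real.log T)⁻¹ • L y) T) - IP φ (cv f L K₀) γ T‖ ≤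
        C * (1 + ‖γ‖) ^ N := by
  obtain ⟨a, ha0, ha⟩ := exists_norm_lin_le L
  have hi := integrable_rd_pow hf N
  obtain ⟨C₂, hC₂0, N₂, A, hC₂⟩ := exists_Gz_le k hφ
  obtain ⟨C₃, hC₃0, hC₃⟩ := exists_inner hK₀ (LinearMap.id : (Ix k → ℝ) →ₗ[ℝ] (Ix k → ℝ)) N₂
  obtain ⟨C₄, hC₄0, hC₄⟩ := hf.exists_bound N₂
  have hLc : Continuous L := LinearMap.continuous_of_finiteDimensional L
  refine ⟨(∫ y, ‖f y‖ * (1 + ‖y‖) ^ N) * (C₁ * (1 + a) ^ N),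
    mul_nonneg (integral_nonneg fun y => by positivity) (by positivity), fun γ T hT => ?_⟩
  have hT0 : 0 ≤ T := by linarith
  set D : ℝ := C₂ * (1 + ‖γ‖) ^ N₂ * T ^ A with hD
  have hD0 : 0 ≤ D := by positivity
  have hin := hC₃ (Gz φ γ T) D hD0 (continuous_Gz hφ hT γ) (hC₂ γ T hT)
  have hLpow : ∀ (y : Fin n → ℝ) (M : ℕ), (1 + ‖L y‖) ^ M ≤ (1 + a) ^ M * (1 + ‖y‖) ^ M := by
    intro y M
    rw [← mul_pow]
    refine pow_le_pow_left₀ (by positivity) ?_ M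
    have h1 := ha y
    have h2 := norm_nonneg y
    nlinarith
  have e1 : ∀ y, (∫ z, K₀ z * Gz φ γ T (z + L y)) =
      (fun w => ∫ z, K₀ z * Gz φ γ T
        (w + (LinearMap.id : (Ix k → ℝ) →ₗ[ℝ] (Ix k → ℝ)) z)) (L y) := by
    intro y
    simp only [LinearMap.id_apply]
    congr 1
    funext z
    rw [add_comm]
  have i1 : Integrable fun y => f y * Fp φ (γ + (Real.log T)⁻¹ • L y) T := by
    refine (hC₄ (fun y => Gz φ γ T (L y)) (D * (1 + a) ^ N₂) (by positivity)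
      ((continuous_Gz hφ hT γ).comp hLc) fun y => ?_).1
    refine (hC₂ γ T hT (L y)).trans ?_
    calc D * (1 + ‖L y‖) ^ N₂ ≤ D * ((1 + a) ^ N₂ * (1 + ‖y‖) ^ N₂) :=
          mul_le_mul_of_nonneg_left (hLpow y N₂) hD0
      _ = _ := by ring
  have i2 : Integrable fun y => f y * ∫ z, K₀ z * Gz φ γ T (z + L y) := by
    refine (hC₄ (fun y => ∫ z, K₀ z * Gz φ γ T (z + L y)) (C₃ * D * (1 + a) ^ N₂) (by positivity)
      ?_ fun y => ?_).1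
    · simp only [e1]
      exact hin.1.comp hLc
    · rw [e1]
      refine (hin.2 (L y)).trans ?_
      calc C₃ * D * (1 + ‖L y‖) ^ N₂ ≤ C₃ * D * ((1 + a) ^ N₂ * (1 + ‖y‖) ^ N₂) :=
            mul_le_mul_of_nonneg_left (hLpow y N₂) (by positivity)
        _ = _ := by ring
  have e2 : IP φ (cv f L K₀) γ T = ∫ y, f y * ∫ z, K₀ z * Gz φ γ T (z + L y) :=
    cv_dual hf L hK₀ (continuous_Gz hφ hT γ) (hC₂ γ T hT)
  rw [e2, ← integral_sub i1 i2]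
  have e3 : (fun y => f y * Fp φ (γ + (Real.log T)⁻¹ • L y) T -
      f y * ∫ z, K₀ z * Gz φ γ T (z + L y)) = fun y => f y *
      (Fp φ (γ + (Real.log T)⁻¹ • L y) T - IP φ K₀ (γ + (Real.log T)⁻¹ • L y) T) := by
    funext y
    simp only [Gz_shift, IP]
    ring
  rw [e3]
  refine (norm_integral_le_of_norm_le (hi.mul_const (C₁ * (1 + a) ^ N * (1 + ‖γ‖) ^ N))
    (Filter.Eventually.of_forall fun y => ?_)).trans (le_of_eq ?_)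
  · rw [norm_mul]
    calc ‖f y‖ * ‖Fp φ (γ + (Real.log T)⁻¹ • L y) T - IP φ K₀ (γ + (Real.log T)⁻¹ • L y) T‖
        ≤ ‖f y‖ * (C₁ * ((1 + ‖γ‖) ^ N * ((1 + a) ^ N * (1 + ‖y‖) ^ N))) := by
          refine mul_le_mul_of_nonneg_left ((h _ T hT).trans ?_) (norm_nonneg _)
          refine mul_le_mul_of_nonneg_left ?_ hC₁
          refine (shift_pow_le hT γ (L y) N).trans ?_
          exact mul_le_mul_of_nonneg_left (hLpow y N) (by positivity)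
      _ = _ := by ring
  · rw [integral_mul_const]
    ring

end FIN

open FIN in
lemma FIN.window_approx' (n : ℕ) (L : (Fin n → ℝ) →ₗ[ℝ] (Ix k → ℝ)) {f : (Fin n → ℝ) → ℂ}
    (hf : RD f) (a : ℂ) {φ : ℝ → ℂ} (hφ : TF φ) {K₀ : (Ix k → ℝ) → ℂ} (hK₀ : RD K₀) {C₁ : ℝ}
    (hC₁ : 0 ≤ C₁) {N : ℕ} (h : ∀ (γ : Ix k → ℝ) (T : ℝ), 3 ≤ T →
      ‖Fp φ γ T - IP φ K₀ γ T‖ ≤ C₁ * (1 + ‖γ‖) ^ N) :
    ∃ C : ℝ, 0 ≤ C ∧ ∀ (γ : Ix k → ℝ) (T : ℝ), 3 ≤ T →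
      ‖(a * Fp φ γ T + ∫ y, f y * Fp φ (γ + (Real.log T)⁻¹ • L y) T) -
        IP φ (fun z => a * K₀ z + cv f L K₀ z) γ T‖ ≤ C * (1 + ‖γ‖) ^ N := by
  obtain ⟨C, hC0, hC⟩ := window_approx n L hf hφ hK₀ hC₁ h
  refine ⟨‖a‖ * C₁ + C, by positivity, fun γ T hT => ?_⟩
  rw [IP_comb hφ hK₀ (hf.cv L hK₀) a γ hT]
  have h1 : ‖a * (Fp φ γ T - IP φ K₀ γ T)‖ ≤ ‖a‖ * (C₁ * (1 + ‖γ‖) ^ N) := by
    rw [norm_mul]
    exact mul_le_mul_of_nonneg_left (h γ T hT) (norm_nonneg a)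
  calc _ = ‖a * (Fp φ γ T - IP φ K₀ γ T) +
        ((∫ y, f y * Fp φ (γ + (Real.log T)⁻¹ • L y) T) - IP φ (cv f L K₀) γ T)‖ := by
        congr 1; ring
    _ ≤ _ := norm_add_le _ _
    _ ≤ ‖a‖ * (C₁ * (1 + ‖γ‖) ^ N) + C * (1 + ‖γ‖) ^ N := add_le_add h1 (hC γ T hT)
    _ = _ := by ring

open FIN in
theorem central_theorem (k n : ℕ) (L : (Fin n → ℝ) →ₗ[ℝ] (Ix k → ℝ)) (f : 𝓢(Fin n → ℝ, ℂ))
    (a : ℂ)
    (hf : ∀ᶠ θ in 𝓝ˢ (central k), a + ∫ y, f y * cexp (-(I * pairing θ (L y))) = 0)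
    {φ : ℝ → ℂ} (hφ : TF φ) : ∃ c : ℝ, 0 < c ∧ ∀ B : ℝ, ∃ C : ℝ, ∀ γ : Ix k → ℝ, ‖γ‖ ≤ B →
      ∀ T : ℝ, 3 ≤ T →
        ‖a * Fp φ γ T + ∫ y, f y * Fp φ (γ + (Real.log T)⁻¹ • L y) T‖ ≤ C * T ^ (1 - c) := by
  classical
  have hfr : RD (fun y => f y) := rd_schwartz f
  obtain ⟨R₀, hR₀⟩ := base_approx k hφ
  set R : ℝ := max R₀ 1 with hR
  have hR1 : 1 ≤ R := le_max_right _ _
  obtain ⟨b₀, hb₀, hb₀1, hb₀2⟩ := exists_bump (p₀ := -(2 * R)) (p := -R) (q := R) (q₀ := 2 * R)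
    (by linarith) (by linarith) (by linarith)
  obtain ⟨C₁, hC₁0, N₁, hC₁⟩ := hR₀ R (le_max_left _ _) (by linarith) b₀ hb₀
    fun ξ hξ => hb₀1 ξ (abs_le.1 hξ).1 (abs_le.1 hξ).2
  set K₀ : (Ix k → ℝ) → ℂ := fun z => ∏ i, pwf b₀ (z i) with hK₀
  have hrK₀ : RD K₀ := rd_prod hb₀
  obtain ⟨C₂, hC₂0, hC₂⟩ := window_approx' n L hfr a hφ hrK₀ hC₁0 hC₁
  set K₁ : (Ix k → ℝ) → ℂ := fun z => a * K₀ z + cv (fun y => f y) L K₀ z with hK₁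
  have hrK₁ : RD K₁ := rd_comb hrK₀ (hfr.cv L hrK₀) a
  obtain ⟨δ, hδ, hgap⟩ := exists_gap_central k hf (2 * R)
  obtain ⟨K₂, hrK₂, hft₂, hft₂', c, hc0, hc1, C₃, hC₃0, N₃, hC₃⟩ :=
    remove_everything (R := 2 * R) hφ hδ hrK₁
  obtain ⟨bσ, hbσ, hbσ1, hbσ2⟩ := exists_bump (p₀ := -δ) (p := -(δ / 2)) (q := δ / 2) (q₀ := δ)
    (by linarith) (by linarith) (by linarith)
  obtain ⟨C₄, hC₄0, N₄, hC₄⟩ := sigma_lemma k hφ hbσ (η := δ / 2) (by linarith)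
    fun ξ hξ => hbσ1 ξ (abs_le.1 hξ).1 (abs_le.1 hξ).2
  obtain ⟨C₅, hC₅0, hC₅⟩ := step1 hφ hrK₂ (rd_pwf hbσ) (fun _ => 1) hC₄0 hC₄
  set K₃ : (Ix k → ℝ) → ℂ := cv (fun y : ℝ => pwf bσ y) (lin fun _ => 1) K₂ with hK₃
  have hrK₃ : RD K₃ := (rd_pwf hbσ).cv _ hrK₂
  have hzero : K₃ = 0 := by
    refine eq_zero_of_ftk hrK₃ fun θ => ?_
    rw [hK₃, ftk_cv_pwf hbσ _ hrK₂]
    have hft₁ : ftk K₁ θ = (a + ∫ y, f y * cexp (-(I * pairing θ (L y)))) *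
        ∏ i, b₀ (sg i * θ i) := by
      rw [hK₁, ftk_comb hrK₀ (hfr.cv L hrK₀), ftk_cv hfr L hrK₀, hK₀, ftk_prod hb₀]
      ring
    by_cases hbig : ∀ i, |θ i| ≤ 2 * R
    · by_cases hP : a + ∫ y, f y * cexp (-(I * pairing θ (L y))) = 0
      · rw [hft₂ θ (by rw [hft₁, hP, zero_mul]), mul_zero]
      · rcases hgap θ hbig hP with (h | h | h) | h
        · have : bσ (pairing θ fun _ => 1) = 0 := by
            by_contra hne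
            have h1 := hbσ2 _ hne
            have h2 : |pairing θ fun _ => (1:ℝ)| < δ := abs_lt.2 h1
            linarith
          rw [this, zero_mul]
        · rw [hft₂' θ hbig (Or.inl h), mul_zero]
        · rw [hft₂' θ hbig (Or.inr (Or.inl h)), mul_zero]
        · rw [hft₂' θ hbig (Or.inr (Or.inr h)), mul_zero]
    · push Not at hbig
      obtain ⟨i, hi⟩ := hbig
      have h1 : b₀ (sg i * θ i) = 0 := by
        by_contra hne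
        have h2 := hb₀2 _ hne
        have h3 : |sg i * θ i| < 2 * R := abs_lt.2 h2
        have h4 : |(sg i : ℝ)| = 1 := by
          rcases i with i | i <;> simp [sg]
        rw [abs_mul, h4, one_mul] at h3
        linarith
      have h2 : ∏ i, b₀ (sg i * θ i) = 0 := Finset.prod_eq_zero (Finset.mem_univ i) h1
      rw [hft₂ θ (by rw [hft₁, h2, mul_zero]), mul_zero]
  refine ⟨c, hc0, fun B => ⟨(C₂ + C₃ + C₅) * (1 + |B|) ^ (N₁ + N₃ + N₄), fun γ hγ T hT => ?_⟩⟩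
  have hT0 : 0 < T := by linarith
  have h0 : IP φ K₃ γ T = 0 := by
    rw [hzero]
    simp [IP]
  have h2 := hC₂ γ T hT
  have h3 := hC₃ γ T hT
  have h5 := hC₅ γ T hT
  rw [h0, sub_zero] at h5
  have hg0 := norm_nonneg γ
  have hγB : ‖γ‖ ≤ |B| := hγ.trans (le_abs_self B)
  have hpow : ∀ M : ℕ, M ≤ N₁ + N₃ + N₄ → (1 + ‖γ‖) ^ M ≤ (1 + |B|) ^ (N₁ + N₃ + N₄) := by
    intro M hM
    calc (1 + ‖γ‖) ^ M ≤ (1 + |B|) ^ M := by gcongr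
      _ ≤ _ := pow_le_pow_right₀ (by linarith [abs_nonneg B]) hM
  have hTc : 1 ≤ T ^ (1 - c) := Real.one_le_rpow (by linarith) (by linarith)
  have hP0 : 0 ≤ (1 + |B|) ^ (N₁ + N₃ + N₄) := by positivity
  have hsplit : ∀ x y z : ℂ, ‖x‖ ≤ ‖x - y‖ + ‖y - z‖ + ‖z‖ := by
    intro x y z
    calc ‖x‖ = ‖(x - y) + (y - z) + z‖ := by ring_nf
      _ ≤ ‖(x - y) + (y - z)‖ + ‖z‖ := norm_add_le _ _
      _ ≤ _ := by gcongr; exact norm_add_le _ _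
  refine (hsplit _ (IP φ K₁ γ T) (IP φ K₂ γ T)).trans ?_
  calc _ ≤ C₂ * (1 + ‖γ‖) ^ N₁ + C₃ * (1 + ‖γ‖) ^ N₃ * T ^ (1 - c) + C₅ * (1 + ‖γ‖) ^ N₄ :=
        add_le_add (add_le_add h2 h3) h5
    _ ≤ C₂ * (1 + |B|) ^ (N₁ + N₃ + N₄) * T ^ (1 - c) +
        C₃ * (1 + |B|) ^ (N₁ + N₃ + N₄) * T ^ (1 - c) +
        C₅ * (1 + |B|) ^ (N₁ + N₃ + N₄) * T ^ (1 - c) := by
        have a1 : C₂ * (1 + ‖γ‖) ^ N₁ ≤ C₂ * (1 + |B|) ^ (N₁ + N₃ + N₄) * T ^ (1 - c) :=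
          (mul_le_mul_of_nonneg_left (hpow N₁ (by omega)) hC₂0).trans
            (le_mul_of_one_le_right (by positivity) hTc)
        have a2 : C₅ * (1 + ‖γ‖) ^ N₄ ≤ C₅ * (1 + |B|) ^ (N₁ + N₃ + N₄) * T ^ (1 - c) :=
          (mul_le_mul_of_nonneg_left (hpow N₄ (by omega)) hC₅0).trans
            (le_mul_of_one_le_right (by positivity) hTc)
        have a3 := hpow N₃ (by omega)
        gcongr
    _ = _ := by ring

end Pool.Agent.H26
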