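import Pool.Agent.H26.SP.Defs

/-!
The geometry of the central polytope: the frequencies in the directions `dir S`, the gap away
from a neighbourhood of the polytope, and the slab which contains the polytope.
-/

namespace Pool.Agent.H26

open Complex Finset MeasureTheory Filter Asymptotics Topology
open scoped ContDiff SchwartzMap

variable {k : ℕ}

theorem pairing_dir (S : Finset (Ix k)) (θ : Ix k → ℝ) :
    pairing θ (dir S) + ∑ i, corner S i = ldist S θ := by
  rw [pairing_eq_sum]
  unfold ldist dir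
  rw [← Finset.sum_add_distrib]
  refine Finset.sum_congr rfl fun i _ => ?_
  have := sg_mul_self i
  linear_combination (θ i * (1 - 2 * corner S i)) * this

namespace GEO

lemma continuous_pairing (γ : Ix k → ℝ) : Continuous fun θ : Ix k → ℝ => pairing θ γ := by
  unfold pairing
  fun_prop

lemma continuous_ldist (S : Finset (Ix k)) : Continuous fun θ : Ix k → ℝ => ldist S θ := by
  unfold ldist
  fun_prop

end GEO

theorem exists_gap (k : ℕ) {P : (Ix k → ℝ) → Prop} (hP : ∀ᶠ θ in 𝓝ˢ (polytope k), P θ) (R : ℝ) :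
    ∃ δ : ℝ, 0 < δ ∧ ∀ θ : Ix k → ℝ, (∀ i, |θ i| ≤ R) → ¬ P θ →
      δ ≤ |pairing θ fun _ => 1| ∨ ∃ S : Finset (Ix k), S.card = k ∧ ldist S θ ≤ 2 - 2 * δ := by
  classical
  obtain ⟨U, hUo, hU, hUP⟩ := mem_nhdsSet_iff_exists.mp hP
  set A : Finset (Finset (Ix k)) := univ.filter (fun S => S.card = k) with hA
  let f : (Ix k → ℝ) → ℝ := fun θ => |pairing θ fun _ => 1| + ∑ S ∈ A, max 0 (2 - ldist S θ)
  have hf : Continuous f := by
    refine (GEO.continuous_pairing _).abs.add (continuous_finsetSum _ fun S _ => ?_)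
    exact continuous_const.max (continuous_const.sub (GEO.continuous_ldist S))
  have hf0 : ∀ θ, 0 ≤ f θ := fun θ =>
    add_nonneg (abs_nonneg _) (Finset.sum_nonneg fun S _ => le_max_left _ _)
  have hpos : ∀ θ, θ ∉ polytope k → 0 < f θ := by
    intro θ hθ
    rcases (hf0 θ).lt_or_eq with h | h
    · exact h
    · exfalso
      apply hθ
      have h1 : |pairing θ fun _ => 1| = 0 ∧ ∑ S ∈ A, max 0 (2 - ldist S θ) = 0 := by
        have a1 : 0 ≤ |pairing θ fun _ => 1| := abs_nonneg _
        have a2 : 0 ≤ ∑ S ∈ A, max 0 (2 - ldist S θ) := Finset.sum_nonneg fun S _ => le_max_left _ _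
        have a3 : |pairing θ fun _ => 1| + ∑ S ∈ A, max 0 (2 - ldist S θ) = 0 := h.symm
        constructor <;> linarith
      constructor
      · have h2 := abs_eq_zero.mp h1.1
        unfold pairing at h2
        simp only [mul_one] at h2
        linarith
      · intro S hS
        have h2 := (Finset.sum_eq_zero_iff_of_nonneg fun S _ => le_max_left _ _).mp h1.2 S
          (by rw [hA, mem_filter]; exact ⟨mem_univ _, hS⟩)
        have h3 := le_max_right 0 (2 - ldist S θ)
        linarith
  have hcomp : IsCompact ((Set.pi Set.univ fun _ : Ix k => Set.Icc (-R) R) \ U) :=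
    (isCompact_univ_pi fun _ => isCompact_Icc).diff hUo
  have key : ∃ m : ℝ, 0 < m ∧ ∀ θ : Ix k → ℝ, (∀ i, |θ i| ≤ R) → ¬ P θ → m ≤ f θ := by
    rcases ((Set.pi Set.univ fun _ : Ix k => Set.Icc (-R) R) \ U).eq_empty_or_nonempty with he | hne
    · refine ⟨1, one_pos, fun θ hθ hPθ => ?_⟩
      exfalso
      have : θ ∈ ((Set.pi Set.univ fun _ : Ix k => Set.Icc (-R) R) \ U) :=
        ⟨fun i _ => abs_le.mp (hθ i), fun h => hPθ (hUP h)⟩
      rw [he] at this
      exact this
    · obtain ⟨x, hx, hmin⟩ := hcomp.exists_isMinOn hne hf.continuousOn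
      refine ⟨f x, hpos x fun h => hx.2 (hU h), fun θ hθ hPθ => ?_⟩
      exact hmin ⟨fun i _ => abs_le.mp (hθ i), fun h => hPθ (hUP h)⟩
  obtain ⟨m, hm, hmf⟩ := key
  refine ⟨m / (2 * A.card + 2), by positivity, fun θ hθ hPθ => ?_⟩
  by_contra hcon
  rw [not_or, not_le] at hcon
  obtain ⟨h1, h2⟩ := hcon
  have h3 : ∀ S ∈ A, max 0 (2 - ldist S θ) ≤ 2 * (m / (2 * A.card + 2)) := by
    intro S hS
    have hSk : S.card = k := by
      rw [hA, mem_filter] at hS
      exact hS.2
    apply max_le (by positivity)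
    by_contra h
    exact h2 ⟨S, hSk, by linarith⟩
  have h4 := Finset.sum_le_sum h3
  rw [Finset.sum_const, nsmul_eq_mul] at h4
  have h5 : f θ < m / (2 * A.card + 2) + A.card * (2 * (m / (2 * A.card + 2))) :=
    add_lt_add_of_lt_of_le h1 h4
  have h6 : m / (2 * A.card + 2) + A.card * (2 * (m / (2 * A.card + 2))) ≤ m := by
    have h7 : m / (2 * (A.card : ℝ) + 2) + A.card * (2 * (m / (2 * A.card + 2))) =
        m * ((2 * A.card + 1) / (2 * A.card + 2)) := by
      field_simp
      ring
    rw [h7]
    apply mul_le_of_le_one_right hm.le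
    rw [div_le_one (by positivity)]
    linarith
  exact absurd (hmf θ hθ hPθ) (by linarith)

/-- all `k + 1` shifts `α`, `β 0` can be kept fixed -/
theorem polytope_slab {n : ℕ} {θ : Ix (n + 1) → ℝ} (hθ : θ ∈ polytope (n + 1)) :
    1 / ((n + 1 : ℕ) : ℝ) ≤ ∑ l : Fin n, θ (Sum.inr l.succ) := by
  classical
  obtain ⟨h1, h2⟩ := hθ
  set s : ℝ := ∑ l, θ (Sum.inr l) with hs
  have hs1 : 1 ≤ s := by
    let S : Finset (Ix (n + 1)) := univ.map Function.Embedding.inl
    have hS : S.card = n + 1 := by simp [S]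
    have h := h2 S hS
    have h3 : ldist S θ = 2 * s := by
      unfold ldist corner
      rw [Fintype.sum_sum_type]
      have e1 : ∀ l : Fin (n + 1), (Sum.inl l : Ix (n + 1)) ∈ S := by
        intro l
        simp [S]
      have e2 : ∀ l : Fin (n + 1), (Sum.inr l : Ix (n + 1)) ∉ S := by
        intro l
        simp [S]
      simp only [Sum.elim_inl, Sum.elim_inr, e1, e2, if_true, if_false]
      simp only [mul_zero, sub_zero, one_mul, zero_add]
      rw [h1, ← hs]
      ring
    rw [h3] at h
    linarith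
  have hj : ∀ j : Fin (n + 1), θ (Sum.inl j) + θ (Sum.inr 0) ≤ s := by
    intro j
    let S : Finset (Ix (n + 1)) :=
      insert (Sum.inr 0) (((univ : Finset (Fin (n + 1))).erase j).map Function.Embedding.inl)
    have hS : S.card = n + 1 := by
      rw [Finset.card_insert_of_notMem]
      · simp
      · simp
    have h := h2 S hS
    have h3 : ldist S θ = 2 * s - 2 * θ (Sum.inl j) - 2 * θ (Sum.inr 0) + 2 := by
      unfold ldist corner
      rw [Fintype.sum_sum_type]
      have e1 : ∀ l : Fin (n + 1), (Sum.inl l : Ix (n + 1)) ∈ S ↔ l ≠ j := by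
        intro l
        simp [S]
      have e2 : ∀ l : Fin (n + 1), (Sum.inr l : Ix (n + 1)) ∈ S ↔ l = 0 := by
        intro l
        simp [S]
      simp only [Sum.elim_inl, Sum.elim_inr, e1, e2]
      have e3 : ∑ l : Fin (n + 1), ((if l ≠ j then (0:ℝ) else 1) +
          (1 - 2 * (if l ≠ j then (0:ℝ) else 1)) * θ (Sum.inl l)) =
          ∑ l : Fin (n + 1), θ (Sum.inl l) + (1 - 2 * θ (Sum.inl j)) := by
        have : ∀ l : Fin (n + 1), ((if l ≠ j then (0:ℝ) else 1) +
          (1 - 2 * (if l ≠ j then (0:ℝ) else 1)) * θ (Sum.inl l)) =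
            θ (Sum.inl l) + if l = j then 1 - 2 * θ (Sum.inl j) else 0 := by
          intro l
          by_cases h : l = j
          · subst h
            simp
            ring
          · simp [h]
        rw [Finset.sum_congr rfl fun l _ => this l, Finset.sum_add_distrib,
          Finset.sum_ite_eq' Finset.univ j]
        simp
      have e4 : ∑ l : Fin (n + 1), ((if l = 0 then (1:ℝ) else 0) +
          (1 - 2 * (if l = 0 then (1:ℝ) else 0)) * θ (Sum.inr l)) =
          ∑ l : Fin (n + 1), θ (Sum.inr l) + (1 - 2 * θ (Sum.inr 0)) := by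
        have : ∀ l : Fin (n + 1), ((if l = 0 then (1:ℝ) else 0) +
          (1 - 2 * (if l = 0 then (1:ℝ) else 0)) * θ (Sum.inr l)) =
            θ (Sum.inr l) + if l = 0 then 1 - 2 * θ (Sum.inr 0) else 0 := by
          intro l
          by_cases h : l = 0
          · subst h
            simp
            ring
          · simp [h]
        rw [Finset.sum_congr rfl fun l _ => this l, Finset.sum_add_distrib,
          Finset.sum_ite_eq' Finset.univ (0 : Fin (n + 1))]
        simp
      rw [e3, e4, h1, ← hs]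
      ring
    rw [h3] at h
    linarith
  have hsum := Finset.sum_le_sum fun j (_ : j ∈ (univ : Finset (Fin (n + 1)))) => hj j
  rw [Finset.sum_add_distrib, Finset.sum_const, Finset.sum_const, h1] at hsum
  simp only [Finset.card_univ, Fintype.card_fin, nsmul_eq_mul] at hsum
  have h5 : s = θ (Sum.inr 0) + ∑ l : Fin n, θ (Sum.inr l.succ) := by
    rw [hs, Fin.sum_univ_succ]
  rw [div_le_iff₀ (by positivity)]
  push_cast at hsum ⊢
  nlinarith

end Pool.Agent.H26
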