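import Pool.Agent.H26.SP.RDK
import Pool.Agent.H26.SP.PW

/-!
Band limiting all the coordinates together.
-/

set_option autoImplicit false

namespace Pool.Agent.H26

open Complex Finset MeasureTheory Filter Asymptotics Topology
open scoped ContDiff SchwartzMap

variable {k : ℕ}

namespace ITER

lemma one_le_prod_real {ι : Type*} (s : Finset ι) (f : ι → ℝ) (h : ∀ i, 1 ≤ f i) :
    1 ≤ ∏ i ∈ s, f i :=
  Finset.prod_induction f (fun x => 1 ≤ x) (fun a b ha hb => one_le_mul_of_one_le_of_one_le ha hb)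
    le_rfl fun i _ => h i

lemma one_add_norm_le_prod {ι : Type*} [Fintype ι] (z : ι → ℝ) :
    1 + ‖z‖ ≤ ∏ i, (1 + ‖z i‖) := by
  classical
  have h1 : ∀ i, 1 ≤ 1 + ‖z i‖ := fun i => by linarith [norm_nonneg (z i)]
  have h0 : (1:ℝ) ≤ ∏ i, (1 + ‖z i‖) := one_le_prod_real _ _ h1
  have h2 : ‖z‖ ≤ ∏ i, (1 + ‖z i‖) - 1 := by
    rw [pi_norm_le_iff_of_nonneg (by linarith)]
    intro i
    have h3 : ∏ j, (1 + ‖z j‖) = (1 + ‖z i‖) * ∏ j ∈ Finset.univ.erase i, (1 + ‖z j‖) :=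
      (Finset.mul_prod_erase _ _ (Finset.mem_univ i)).symm
    have h4 : (1:ℝ) ≤ ∏ j ∈ Finset.univ.erase i, (1 + ‖z j‖) := one_le_prod_real _ _ h1
    have h5 := h1 i
    nlinarith
  linarith

lemma rd_prod' {ι : Type*} [Fintype ι] {b : ℝ → ℂ} (hb : Bp b) :
    RD fun z : ι → ℝ => ∏ i, pwf b (z i) := by
  have h := rd_pwf hb
  refine ⟨continuous_finsetProd _ fun i _ => h.cont.comp (continuous_apply i), fun N => ?_⟩
  obtain ⟨C, hC⟩ := h.decay N
  refine ⟨C ^ Fintype.card ι, fun z => ?_⟩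
  calc (1 + ‖z‖) ^ N * ‖∏ i, pwf b (z i)‖
      ≤ (∏ i, (1 + ‖z i‖)) ^ N * ‖∏ i, pwf b (z i)‖ := by
        gcongr
        exact one_add_norm_le_prod z
    _ = ∏ i, ((1 + ‖z i‖) ^ N * ‖pwf b (z i)‖) := by
        rw [norm_prod, Finset.prod_mul_distrib, Finset.prod_pow]
    _ ≤ ∏ _i : ι, C := Finset.prod_le_prod (fun i _ => by positivity) fun i _ => hC (z i)
    _ = _ := by rw [Finset.prod_const, Finset.card_univ]

lemma integrable_rd_pow {V : Type*} [NormedAddCommGroup V] [NormedSpace ℝ V]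
    [FiniteDimensional ℝ V] [MeasureSpace V] [BorelSpace V]
    [(volume : Measure V).IsAddHaarMeasure] {g : V → ℂ} (hg : RD g) (N : ℕ) :
    Integrable fun y => ‖g y‖ * (1 + ‖y‖) ^ N := by
  obtain ⟨C, _, hC⟩ := hg.exists_bound N
  have h := (hC (fun y => (((1 + ‖y‖) ^ N : ℝ) : ℂ)) 1 zero_le_one (by fun_prop) (fun z => by
    rw [Complex.norm_real, Real.norm_eq_abs, abs_of_nonneg (by positivity), one_mul])).1
  refine h.norm.congr (Filter.Eventually.of_forall fun y => ?_)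
  simp only [norm_mul, Complex.norm_real, Real.norm_eq_abs]
  rw [abs_of_nonneg (by positivity)]

lemma integrable_rd_mul {V : Type*} [NormedAddCommGroup V] [NormedSpace ℝ V]
    [FiniteDimensional ℝ V] [MeasureSpace V] [BorelSpace V]
    [(volume : Measure V).IsAddHaarMeasure] {g : V → ℂ} (hg : RD g) {N : ℕ} {G : V → ℂ} {D : ℝ}
    (hD : 0 ≤ D) (hG : Continuous G) (h : ∀ z, ‖G z‖ ≤ D * (1 + ‖z‖) ^ N) :
    Integrable fun y => g y * G y := by
  obtain ⟨C, _, hC⟩ := hg.exists_bound N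
  exact (hC G D hD hG h).1

lemma continuous_cons {m : ℕ} : Continuous fun p : ℝ × (Fin m → ℝ) =>
    (Fin.cons p.1 p.2 : Fin (m + 1) → ℝ) := by
  refine continuous_pi fun i => ?_
  refine Fin.cases ?_ (fun j => ?_) i
  · simp only [Fin.cons_zero]
    exact continuous_fst
  · simp only [Fin.cons_succ]
    exact (continuous_apply j).comp continuous_snd

lemma norm_cons_le {m : ℕ} (w : Fin m → ℝ) : ‖(Fin.cons 0 w : Fin (m + 1) → ℝ)‖ ≤ ‖w‖ := by
  rw [pi_norm_le_iff_of_nonneg (norm_nonneg _)]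
  intro i
  refine Fin.cases ?_ (fun j => ?_) i
  · simp
  · simpa using norm_le_pi_norm w j

/-- The statement for `Fin m`. -/
lemma iterate_fin {b : ℝ → ℂ} (hb : Bp b) (N m : ℕ) : ∃ C : ℝ, 0 ≤ C ∧
    ∀ (G : (Fin m → ℝ) → ℂ) (D ε : ℝ), 0 ≤ D → 0 ≤ ε → Continuous G →
      (∀ z, ‖G z‖ ≤ D * (1 + ‖z‖) ^ N) →
      (∀ z, ∀ i, ‖G z - ∫ y : ℝ, pwf b y * G (z + y • Pi.single i 1)‖ ≤ ε * (1 + ‖z‖) ^ N) →
      ‖G 0 - ∫ z, (∏ i, pwf b (z i)) * G z‖ ≤ C * ε := by
  induction m with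
  | zero =>
    refine ⟨0, le_rfl, fun G D ε hD hε hG hGN h => ?_⟩
    have : (∫ z : Fin 0 → ℝ, (∏ i, pwf b (z i)) * G z) = G 0 := by
      have hv : (volume : Measure (Fin 0 → ℝ)) = Measure.dirac 0 := by
        rw [volume_pi, Measure.pi_of_empty _ 0]
      rw [hv, integral_dirac]
      simp
    rw [this, sub_self, norm_zero, zero_mul]
  | succ m ih =>
    obtain ⟨C, hC0, hC⟩ := ih
    have hrd : RD fun w : Fin m → ℝ => ∏ i, pwf b (w i) := rd_prod' hb
    have hi := integrable_rd_pow hrd N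
    refine ⟨C + ∫ w : Fin m → ℝ, ‖∏ i, pwf b (w i)‖ * (1 + ‖w‖) ^ N,
      add_nonneg hC0 (integral_nonneg fun w => by positivity), fun G D ε hD hε hG hGN h => ?_⟩
    set G' : (Fin m → ℝ) → ℂ := fun w => G (Fin.cons 0 w) with hG'
    have hcG' : Continuous G' := hG.comp (continuous_cons.comp (Continuous.prodMk_right 0))
    have hcons : ∀ w : Fin m → ℝ, (1 + ‖(Fin.cons 0 w : Fin (m + 1) → ℝ)‖) ^ N ≤
        (1 + ‖w‖) ^ N := fun w =>
      pow_le_pow_left₀ (by positivity) (by linarith [norm_cons_le w]) N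
    have hG'N : ∀ w, ‖G' w‖ ≤ D * (1 + ‖w‖) ^ N := fun w =>
      (hGN _).trans (mul_le_mul_of_nonneg_left (hcons w) hD)
    have hstep : ∀ (w : Fin m → ℝ) (i : Fin m) (y : ℝ),
        (Fin.cons 0 (w + y • Pi.single i 1) : Fin (m + 1) → ℝ) =
          Fin.cons 0 w + y • Pi.single i.succ 1 := by
      intro w i y
      funext j
      refine Fin.cases ?_ (fun j => ?_) j
      · simp
      · by_cases hj : j = i
        · subst hj
          simp
        · simp [Pi.single_eq_of_ne, hj]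
    have h1 := hC G' D ε hD hε hcG' hG'N fun w i => by
      have h2 := h (Fin.cons 0 w) i.succ
      simp only [hG', hstep]
      exact h2.trans (mul_le_mul_of_nonneg_left (hcons w) hε)
    -- the first coordinate
    have hstep0 : ∀ (w : Fin m → ℝ) (y : ℝ), (Fin.cons y w : Fin (m + 1) → ℝ) =
        Fin.cons 0 w + y • Pi.single 0 1 := by
      intro w y
      funext j
      refine Fin.cases ?_ (fun j => ?_) j
      · simp
      · simp
    set H : (Fin m → ℝ) → ℂ := fun w => ∫ y : ℝ, pwf b y * G (Fin.cons y w) with hH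
    have h3 : ∀ w, ‖G' w - H w‖ ≤ ε * (1 + ‖w‖) ^ N := by
      intro w
      have h2 := h (Fin.cons 0 w) 0
      simp only [← hstep0] at h2
      exact h2.trans (mul_le_mul_of_nonneg_left (hcons w) hε)
    -- Fubini
    have hrd1 : RD fun z : Fin (m + 1) → ℝ => ∏ i, pwf b (z i) := rd_prod' hb
    have hint1 : Integrable fun z : Fin (m + 1) → ℝ => (∏ i, pwf b (z i)) * G z :=
      integrable_rd_mul hrd1 hD hG hGN
    set g : ℝ × (Fin m → ℝ) → ℂ := fun p =>
      (∏ i, pwf b (p.2 i)) * (pwf b p.1 * G (Fin.cons p.1 p.2)) with hg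
    have hmp := volume_preserving_piFinSuccAbove (fun _ : Fin (m + 1) => ℝ) 0
    have hge : ∀ z : Fin (m + 1) → ℝ,
        g (MeasurableEquiv.piFinSuccAbove (fun _ : Fin (m + 1) => ℝ) 0 z) =
          (∏ i, pwf b (z i)) * G z := by
      intro z
      have e1 : (MeasurableEquiv.piFinSuccAbove (fun _ : Fin (m + 1) => ℝ) 0 z) =
          (z 0, fun j => z j.succ) := rfl
      have e2 : (Fin.cons (z 0) (fun j : Fin m => z j.succ) : Fin (m + 1) → ℝ) = z :=
        Fin.cons_self_tail z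
      rw [e1]
      simp only [hg]
      rw [e2, Fin.prod_univ_succ]
      ring
    have hgi : Integrable g (volume.prod volume) := by
      refine (hmp.integrable_comp_emb (MeasurableEquiv.measurableEmbedding _)).1 ?_
      refine hint1.congr (Filter.Eventually.of_forall fun z => ?_)
      exact (hge z).symm
    have hfub : ∫ z : Fin (m + 1) → ℝ, (∏ i, pwf b (z i)) * G z =
        ∫ w : Fin m → ℝ, (∏ i, pwf b (w i)) * H w := by
      have e1 : ∫ z : Fin (m + 1) → ℝ, (∏ i, pwf b (z i)) * G z = ∫ p, g p := by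
        rw [← hmp.integral_comp']
        refine integral_congr_ae (Filter.Eventually.of_forall fun z => ?_)
        exact (hge z).symm
      rw [e1]
      have e2 := integral_prod_symm g hgi
      have e3 : (∫ p, g p) = ∫ p, g p ∂((volume : Measure ℝ).prod
          (volume : Measure (Fin m → ℝ))) := rfl
      rw [e3, e2]
      congr 1
      funext w
      simp only [hg, hH]
      rw [integral_const_mul]
    have hiH : Integrable fun w : Fin m → ℝ => (∏ i, pwf b (w i)) * H w := by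
      have := hgi.integral_prod_right
      refine this.congr (Filter.Eventually.of_forall fun w => ?_)
      simp only [hg, hH]
      rw [integral_const_mul]
    have hiG' : Integrable fun w : Fin m → ℝ => (∏ i, pwf b (w i)) * G' w :=
      integrable_rd_mul hrd hD hcG' hG'N
    have h4 : ‖(∫ w : Fin m → ℝ, (∏ i, pwf b (w i)) * G' w) -
        ∫ w : Fin m → ℝ, (∏ i, pwf b (w i)) * H w‖ ≤
        (∫ w : Fin m → ℝ, ‖∏ i, pwf b (w i)‖ * (1 + ‖w‖) ^ N) * ε := by
      rw [← integral_sub hiG' hiH, ← integral_mul_const]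
      refine norm_integral_le_of_norm_le (hi.mul_const ε) (Filter.Eventually.of_forall fun w => ?_)
      rw [← mul_sub, norm_mul]
      calc _ ≤ ‖∏ i, pwf b (w i)‖ * (ε * (1 + ‖w‖) ^ N) :=
            mul_le_mul_of_nonneg_left (h3 w) (norm_nonneg _)
        _ = _ := by ring
    have h5 : G' 0 = G 0 := by
      simp only [hG']
      congr 1
      funext j
      refine Fin.cases ?_ (fun j => ?_) j
      · simp
      · simp
    rw [h5] at h1
    rw [hfub]
    calc _ = ‖(G 0 - ∫ w : Fin m → ℝ, (∏ i, pwf b (w i)) * G' w) +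
          ((∫ w : Fin m → ℝ, (∏ i, pwf b (w i)) * G' w) -
            ∫ w : Fin m → ℝ, (∏ i, pwf b (w i)) * H w)‖ := by congr 1; ring
      _ ≤ _ := norm_add_le _ _
      _ ≤ C * ε + (∫ w : Fin m → ℝ, ‖∏ i, pwf b (w i)‖ * (1 + ‖w‖) ^ N) * ε := add_le_add h1 h4
      _ = _ := by ring

end ITER

theorem iterate_coord {b : ℝ → ℂ} (hb : Bp b) (_hb0 : b 0 = 1) (N : ℕ) : ∃ C : ℝ, 0 ≤ C ∧
    ∀ (G : (Ix k → ℝ) → ℂ) (D ε : ℝ), 0 ≤ D → 0 ≤ ε → Continuous G →
      (∀ z, ‖G z‖ ≤ D * (1 + ‖z‖) ^ N) →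
      (∀ z, ∀ i, ‖G z - ∫ y : ℝ, pwf b y * G (z + y • Pi.single i 1)‖ ≤ ε * (1 + ‖z‖) ^ N) →
      ‖G 0 - ∫ z, (∏ i, pwf b (z i)) * G z‖ ≤ C * ε := by
  obtain ⟨C, hC0, hC⟩ := ITER.iterate_fin hb N (k + k)
  refine ⟨C, hC0, fun G D ε hD hε hG hGN h => ?_⟩
  set e : Fin (k + k) ≃ Ix k := finSumFinEquiv.symm with he
  have hmp := volume_measurePreserving_piCongrLeft (fun _ : Ix k => ℝ) e
  set Φ := MeasurableEquiv.piCongrLeft (fun _ : Ix k => ℝ) e with hΦ
  have hΦa : ∀ (w : Fin (k + k) → ℝ) (i : Ix k), Φ w i = w (e.symm i) := by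
    intro w i
    obtain ⟨j, rfl⟩ := e.surjective i
    rw [Equiv.symm_apply_apply]
    exact MeasurableEquiv.piCongrLeft_apply_apply (β := fun _ => ℝ) e w j
  have hΦe : ∀ w : Fin (k + k) → ℝ, Φ w = fun i => w (e.symm i) := fun w => funext (hΦa w)
  have hΦc : Continuous fun w : Fin (k + k) → ℝ => Φ w := by
    simp only [hΦe]
    fun_prop
  have hΦn : ∀ w : Fin (k + k) → ℝ, ‖Φ w‖ ≤ ‖w‖ := by
    intro w
    rw [pi_norm_le_iff_of_nonneg (norm_nonneg _)]
    intro i
    rw [hΦa]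
    exact norm_le_pi_norm w _
  have hΦp : ∀ w : Fin (k + k) → ℝ, (1 + ‖Φ w‖) ^ N ≤ (1 + ‖w‖) ^ N := fun w =>
    pow_le_pow_left₀ (by positivity) (by linarith [hΦn w]) N
  have hΦs : ∀ (w : Fin (k + k) → ℝ) (j : Fin (k + k)) (y : ℝ),
      Φ (w + y • Pi.single j 1) = Φ w + y • Pi.single (e j) 1 := by
    intro w j y
    funext i
    rw [Pi.add_apply, hΦa, hΦa, Pi.add_apply]
    congr 1
    obtain ⟨j', rfl⟩ := e.surjective i
    rw [Equiv.symm_apply_apply]
    by_cases hj : j' = j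
    · subst hj
      simp
    · have : e j' ≠ e j := fun h => hj (e.injective h)
      simp [Pi.single_eq_of_ne, hj, this]
  have h1 := hC (fun w => G (Φ w)) D ε hD hε (hG.comp hΦc)
    (fun w => (hGN _).trans (mul_le_mul_of_nonneg_left (hΦp w) hD)) (fun w j => by
      simp only [hΦs]
      exact (h _ _).trans (mul_le_mul_of_nonneg_left (hΦp w) hε))
  have h2 : ∫ z : Ix k → ℝ, (∏ i, pwf b (z i)) * G z =
      ∫ w : Fin (k + k) → ℝ, (∏ j, pwf b (w j)) * G (Φ w) := by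
    rw [← hmp.integral_comp']
    congr 1
    funext w
    congr 1
    rw [← e.prod_comp]
    refine Finset.prod_congr rfl fun j _ => ?_
    have := hΦa w (e j)
    rw [Equiv.symm_apply_apply] at this
    rw [this]
  have h3 : Φ 0 = 0 := by
    rw [hΦe]
    rfl
  rw [h2]
  simp only [h3] at h1
  exact h1

theorem rd_prod {b : ℝ → ℂ} (hb : Bp b) : RD fun z : Ix k → ℝ => ∏ i, pwf b (z i) :=
  ITER.rd_prod' hb

theorem ftk_prod {b : ℝ → ℂ} (hb : Bp b) (θ : Ix k → ℝ) :
    ftk (fun z : Ix k → ℝ => ∏ i, pwf b (z i)) θ = ∏ i, b (sg i * θ i) := by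
  unfold ftk
  have h1 : ∀ z : Ix k → ℝ, (∏ i, pwf b (z i)) * cexp (-(I * pairing θ z)) =
      ∏ i, (fun y : ℝ => pwf b y * cexp (-(I * ((sg i * θ i : ℝ) : ℂ) * y))) (z i) := by
    intro z
    rw [Finset.prod_mul_distrib, ← Complex.exp_sum, pairing_eq_sum]
    congr 2
    push_cast
    rw [Finset.mul_sum, ← Finset.sum_neg_distrib]
    refine Finset.sum_congr rfl fun i _ => ?_
    ring
  simp only [h1]
  have h2 := integral_fintype_prod_volume_eq_prod (𝕜 := ℂ) (ι := Ix k) (E := fun _ => ℝ)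
    (fun i (y : ℝ) => pwf b y * cexp (-(I * ((sg i * θ i : ℝ) : ℂ) * y)))
  rw [h2]
  refine Finset.prod_congr rfl fun i _ => ?_
  exact pwf_fourier hb (sg i * θ i)

end Pool.Agent.H26
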