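import Pool.Agent.H26.SP.PW

/-!
The main term has no frequencies outside the unit interval.
-/

set_option autoImplicit false

namespace Pool.Agent.H26

open Complex Finset MeasureTheory Filter Asymptotics Topology
open scoped ContDiff SchwartzMap

variable {k : ℕ}

namespace QBX

lemma exists_chi_growth : ∃ C : ℝ, 1 ≤ C ∧ ∀ s : ℂ, 1 / 4 ≤ s.re → s.re ≤ 3 / 4 →
    ∀ B t u : ℝ, 0 ≤ B → 0 ≤ u → u ≤ 1 → 1 / 2 - s.re ≤ u → |s.im| ≤ |t| + B →
    ‖chi s‖ ≤ C * (1 + B) * (1 + |t|) ^ u := by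
  obtain ⟨C, hC0, hC⟩ := exists_norm_chi_le
  refine ⟨max (5 * C) 40, le_trans (by norm_num) (le_max_right _ _),
    fun s h0 h1 B t u hB hu hu1 hus ht => ?_⟩
  have ht0 : 0 ≤ |t| := abs_nonneg _
  have hp1 : 1 ≤ (1 + |t|) ^ u := Real.one_le_rpow (by linarith) hu
  rcases le_total |s.im| 4 with h | h
  · have h2 : ‖chi s‖ ≤ C * 5 := by
      refine (hC s h0 h1).trans ?_
      gcongr
      linarith
    have h3 : 5 * C ≤ max (5 * C) 40 := le_max_left _ _
    calc ‖chi s‖ ≤ 5 * C * 1 * 1 := by linarith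
      _ ≤ max (5 * C) 40 * (1 + B) * (1 + |t|) ^ u := by
          gcongr
          linarith
  · have h2 := norm_chi_le_of_im (s := s) (by linarith) (by linarith) h
    have h3 : |s.im| ^ (1 / 2 - s.re) ≤ |s.im| ^ u :=
      Real.rpow_le_rpow_of_exponent_le (by linarith) hus
    have h4 : |s.im| ^ u ≤ (1 + B) * (1 + |t|) ^ u := by
      calc |s.im| ^ u ≤ ((1 + B) * (1 + |t|)) ^ u := by
            apply Real.rpow_le_rpow (abs_nonneg _) _ hu
            have := mul_nonneg hB ht0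
            nlinarith
        _ = (1 + B) ^ u * (1 + |t|) ^ u := Real.mul_rpow (by linarith) (by linarith)
        _ ≤ (1 + B) ^ (1:ℝ) * (1 + |t|) ^ u := by
            gcongr
            linarith
        _ = _ := by rw [Real.rpow_one]
    calc ‖chi s‖ ≤ 40 * ((1 + B) * (1 + |t|) ^ u) := by
          refine h2.trans ?_
          gcongr
          exact h3.trans h4
      _ ≤ max (5 * C) 40 * ((1 + B) * (1 + |t|) ^ u) := by
          gcongr
          exact le_max_right _ _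
      _ = _ := by ring

lemma sg_cases (j : Fin k) : sg (Sum.inl j : Ix k) = 1 ∧ sg (Sum.inr j : Ix k) = -1 := ⟨rfl, rfl⟩

lemma exists_norm_G_le_rpow (k : ℕ) : ∃ C : ℝ, 1 ≤ C ∧ ∀ (S : Finset (Ix k)),
    ∀ γ ∈ tube (Ix k), ∀ u : Ix k → ℝ, (∀ j, 0 ≤ u j) → (∀ j, u j ≤ 1) →
    (∀ j, sg j * (γ j).im ≤ u j) → ∀ B : ℝ, 0 ≤ B → (∀ i, |(γ i).re| ≤ B) → ∀ t : ℝ,
    ‖G S γ t‖ ≤ (C * (1 + B)) ^ (2 * k) * (1 + |t|) ^ (∑ j, u j) := by
  obtain ⟨C, hC1, hC⟩ := exists_chi_growth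
  refine ⟨C, hC1, fun S γ hγ u hu0 hu1 hu B hB hγB t => ?_⟩
  have ht0 : 0 ≤ |t| := abs_nonneg _
  set D : ℝ := C * (1 + B) with hD
  have hD1 : 1 ≤ D := by rw [hD]; nlinarith
  have hone : ∀ j, (1:ℝ) ≤ D * (1 + |t|) ^ u j := by
    intro j
    have h1 : 1 ≤ (1 + |t|) ^ u j := Real.one_le_rpow (by linarith) (hu0 j)
    exact one_le_mul_of_one_le_of_one_le hD1 h1
  have hA : ∀ j : Fin k, ‖chi (1 / 2 - I * (t + γ (Sum.inr j)))‖ ≤
      D * (1 + |t|) ^ u (Sum.inr j) := by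
    intro j
    have h1 := abs_lt.1 (hγ (Sum.inr j))
    have hre : (1 / 2 - I * (t + γ (Sum.inr j))).re = 1 / 2 + (γ (Sum.inr j)).im := by simp
    have him : (1 / 2 - I * (t + γ (Sum.inr j))).im = -(t + (γ (Sum.inr j)).re) := by simp
    have h2 := hu (Sum.inr j)
    rw [(sg_cases j).2] at h2
    refine hC _ (by rw [hre]; linarith) (by rw [hre]; linarith) B t _ hB (hu0 _) (hu1 _)
      (by rw [hre]; linarith) ?_
    rw [him, abs_neg]
    exact (abs_add_le _ _).trans (by linarith [hγB (Sum.inr j)])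
  have hB' : ∀ j : Fin k, ‖chi (1 / 2 + I * (t + γ (Sum.inl j)))‖ ≤
      D * (1 + |t|) ^ u (Sum.inl j) := by
    intro j
    have h1 := abs_lt.1 (hγ (Sum.inl j))
    have hre : (1 / 2 + I * (t + γ (Sum.inl j))).re = 1 / 2 - (γ (Sum.inl j)).im := by
      simp; ring
    have him : (1 / 2 + I * (t + γ (Sum.inl j))).im = t + (γ (Sum.inl j)).re := by simp
    have h2 := hu (Sum.inl j)
    rw [(sg_cases j).1] at h2
    refine hC _ (by rw [hre]; linarith) (by rw [hre]; linarith) B t _ hB (hu0 _) (hu1 _)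
      (by rw [hre]; linarith) ?_
    rw [him]
    exact (abs_add_le _ _).trans (by linarith [hγB (Sum.inl j)])
  have h1 : ‖G S γ t‖ ≤ (∏ j : Fin k, D * (1 + |t|) ^ u (Sum.inr j)) *
      ∏ j : Fin k, D * (1 + |t|) ^ u (Sum.inl j) := by
    unfold G
    rw [norm_mul, norm_prod, norm_prod]
    refine mul_le_mul (Finset.prod_le_prod (fun _ _ => norm_nonneg _) fun j _ => ?_)
      (Finset.prod_le_prod (fun _ _ => norm_nonneg _) fun j _ => ?_)
      (Finset.prod_nonneg fun _ _ => norm_nonneg _)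
      (Finset.prod_nonneg fun j _ => zero_le_one.trans (hone _))
    · split_ifs
      · exact hA j
      · rw [norm_one]; exact hone _
    · split_ifs
      · rw [norm_one]; exact hone _
      · exact hB' j
  refine h1.trans (le_of_eq ?_)
  have e : ∀ v : Fin k → Ix k, ∏ j : Fin k, D * (1 + |t|) ^ u (v j) =
      D ^ k * (1 + |t|) ^ (∑ j : Fin k, u (v j)) := by
    intro v
    clear_value D
    rw [Finset.prod_mul_distrib, Finset.prod_const, Finset.card_univ, Fintype.card_fin,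
      Real.rpow_sum_of_pos (by linarith)]
  rw [e, e, Fintype.sum_sum_type, Real.rpow_add (by linarith), two_mul, pow_add]
  ring

/-- Bound for the main term with a moderate exponent of `t`. -/
theorem exists_norm_Qsum_rpow (k : ℕ) {ρ : ℝ} (hρ : 0 < ρ) (hρ2 : ρ ≤ 1 / 2) :
    ∃ C : ℝ, 0 ≤ C ∧
    ∀ γ : Ix k → ℂ, Function.Injective γ → (∀ i, |(γ i).im| + ρ ≤ 1 / 8) →
    ∀ u : Ix k → ℝ, (∀ j, 0 ≤ u j) → (∀ j, u j ≤ 1 / 2) → (∀ j, sg j * (γ j).im ≤ u j) →
    ∀ B : ℝ, 0 ≤ B → (∀ i, |(γ i).re| ≤ B) → ∀ t : ℝ,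
    ‖Qsum γ t‖ ≤ C * (1 + B) ^ NK k * (1 + |t|) ^ (∑ j, (u j + ρ)) := by
  obtain ⟨η, hη, hadm⟩ := exists_uniform_adm k hρ
  obtain ⟨CG, hCG1, hCG⟩ := exists_norm_G_le_rpow k
  have hη' : 0 < η⁻¹ := inv_pos.2 hη
  have hBF : 0 ≤ BF (2 * k) := (Real.exp_pos _).le
  refine ⟨∑ S ∈ (univ : Finset (Ix k)).powersetCard k, (CG * 2) ^ (2 * k) *
    ((BF (2 * k) + 1) * ((η⁻¹ + 3) * 2) ^ ((2 * k) * (2 * k))), ?_, ?_⟩
  · refine Finset.sum_nonneg fun S _ => ?_
    positivity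
  intro γ hinj hγ u hu0 hu1 hu B hB hγB t
  obtain ⟨r, hr, hr1, hsep⟩ := hadm γ hγ
  have hρ8 : ρ ≤ 1 / 8 ∨ k = 0 := by
    by_cases h : k = 0
    · exact Or.inr h
    · left
      have := hγ (Sum.inl ⟨0, Nat.pos_of_ne_zero h⟩)
      have h2 := abs_nonneg (γ (Sum.inl ⟨0, Nat.pos_of_ne_zero h⟩)).im
      linarith
  have hr1' : ∀ i, r i ≤ 1 := by
    intro i
    rcases hρ8 with h | h
    · linarith [hr1 i]
    · subst h
      rcases i with i | i <;> exact i.elim0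
  have key := norm_le_of_torus hr (f := fun γ => Qsum γ t)
    (M := (∑ S ∈ (univ : Finset (Ix k)).powersetCard k, (CG * 2) ^ (2 * k) *
      ((BF (2 * k) + 1) * ((η⁻¹ + 3) * 2) ^ ((2 * k) * (2 * k)))) * (1 + B) ^ NK k *
      (1 + |t|) ^ (∑ j, (u j + ρ))) ?_ ?_ (univ : Finset (Ix k)).toList (Finset.nodup_toList _)
      γ ?_ hinj
  · exact key
  · intro i γ' hγ' hdist
    have hq : ((t : ℂ), γ') ∈ good k := ⟨im_ofReal_lt t, fun j => hr.strip j _ (hγ' j)⟩
    obtain ⟨g, hg, hgeq⟩ := exists_Qsum_extension i hq hdist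
    refine ⟨g, {z : ℂ | |z.im| < 1 / 8}, ?_, fun z hz => hr.strip i z hz, hg,
      fun z hz hzj => hgeq z hz hzj⟩
    exact isOpen_lt (by fun_prop) continuous_const
  · intro γ' hγ'
    have hB' : 0 ≤ 1 + B := by linarith
    have hre := torus_re hr1' hγB hγ'
    have hsg : ∀ j, sg j * (γ' j).im ≤ u j + ρ := by
      intro j
      have h1 : dist (γ' j) (γ j) = r j := (hγ' j).2 (by simp)
      have h2 := Complex.abs_im_le_norm (γ' j - γ j)
      rw [← dist_eq_norm, h1, Complex.sub_im] at h2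
      have h3 : sg j * (γ' j).im = sg j * (γ j).im + sg j * ((γ' j).im - (γ j).im) := by ring
      have h4 : sg j * ((γ' j).im - (γ j).im) ≤ |(γ' j).im - (γ j).im| := by
        refine (le_abs_self _).trans ?_
        rw [abs_mul, abs_sg, one_mul]
      rw [h3]
      linarith [hu j, hr1 j]
    unfold Qsum
    rw [Finset.sum_mul, Finset.sum_mul]
    refine norm_sum_le_of_le _ fun S _ => ?_
    rw [norm_mul]
    have h1 := hCG S γ' (VL_tube hr hγ') (fun j => u j + ρ)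
      (fun j => by linarith [hu0 j]) (fun j => by linarith [hu1 j])
      hsg (1 + B) hB' hre t
    have h2 := norm_zetaAB_le S hη hB' (VL_tube hr hγ') (torus_sep hsep hγ') hre
    have ht : 0 ≤ |t| := abs_nonneg _
    have hp : 0 ≤ (1 + |t|) ^ (∑ j, (u j + ρ)) := by positivity
    calc _ ≤ ((CG * (1 + (1 + B))) ^ (2 * k) * (1 + |t|) ^ (∑ j, (u j + ρ))) *
          ((BF (2 * k) + 1) * ((η⁻¹ + 3) * (1 + (1 + B))) ^ ((2 * k) * (2 * k))) := by gcongr
      _ ≤ ((CG * (2 * (1 + B))) ^ (2 * k) * (1 + |t|) ^ (∑ j, (u j + ρ))) *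
          ((BF (2 * k) + 1) * ((η⁻¹ + 3) * (2 * (1 + B))) ^ ((2 * k) * (2 * k))) := by
          gcongr <;> linarith
      _ = _ := by
          rw [NK, pow_add, show CG * (2 * (1 + B)) = (CG * 2) * (1 + B) by ring,
            mul_pow (CG * 2) (1 + B),
            show (η⁻¹ + 3) * (2 * (1 + B)) = ((η⁻¹ + 3) * 2) * (1 + B) by ring,
            mul_pow _ (1 + B) ((2 * k) * (2 * k))]
          ring
  · rw [VL_univ]
    intro i
    exact Metric.mem_ball_self (hr.pos i)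

/-! ### Shifting the line of integration from the real line -/

lemma shift_down {F : ℂ → ℂ} {Y K : ℝ} (hY : 0 < Y) {N : Set ℝ} (hN : N.Finite)
    (hd : ∀ z : ℂ, -Y ≤ z.im → z.im < 0 → DifferentiableAt ℂ F z)
    (hc : ∀ x : ℝ, x ∉ N → ContinuousAt F (x : ℂ))
    (hb : ∀ x y : ℝ, -Y ≤ y → y < 0 → ‖F ((x : ℂ) + (y : ℂ) * I)‖ ≤ K * (1 + x ^ 2)⁻¹) :
    ∫ x : ℝ, F (x : ℂ) = ∫ x : ℝ, F ((x : ℂ) + ((-Y : ℝ) : ℂ) * I) := by
  have hline : ∀ n : ℕ, ∫ x : ℝ, F ((x : ℂ) + ((-(Y / (n + 1)) : ℝ) : ℂ) * I) =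
      ∫ x : ℝ, F ((x : ℂ) + ((-Y : ℝ) : ℂ) * I) := by
    intro n
    have hn0 : (0:ℝ) < n + 1 := by positivity
    have hvn : 0 < Y / (n + 1) := by positivity
    have hvn1 : Y / (n + 1) ≤ Y := div_le_self hY.le (by linarith [Nat.cast_nonneg (α := ℝ) n])
    refine line_shift (by linarith) (K := K) ?_ ?_
    · intro z hz1 hz2
      exact hd z hz1 (by linarith)
    · intro x y hy1 hy2
      exact hb x y hy1 (by linarith)
  have hlim : Tendsto (fun n : ℕ => ∫ x : ℝ, F ((x : ℂ) + ((-(Y / (n + 1)) : ℝ) : ℂ) * I)) atTop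
      (𝓝 (∫ x : ℝ, F (x : ℂ))) := by
    refine tendsto_integral_of_dominated_convergence
      (fun x => K * (1 + x ^ 2)⁻¹) ?_
      (integrable_inv_one_add_sq.const_mul _) ?_ ?_
    · intro n
      have hvn : 0 < Y / (n + 1) := by positivity
      have hvn1 : Y / (n + 1) ≤ Y := div_le_self hY.le (by linarith [Nat.cast_nonneg (α := ℝ) n])
      refine Continuous.aestronglyMeasurable ?_
      rw [continuous_iff_continuousAt]
      intro x
      have h1 : DifferentiableAt ℂ F ((x : ℂ) + ((-(Y / (n + 1)) : ℝ) : ℂ) * I) :=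
        hd _ (by rw [im_line]; linarith) (by rw [im_line]; linarith)
      exact ContinuousAt.comp (f := fun x : ℝ => (x : ℂ) + ((-(Y / (n + 1)) : ℝ) : ℂ) * I)
        h1.continuousAt (by fun_prop)
    · intro n
      have hvn : 0 < Y / (n + 1) := by positivity
      have hvn1 : Y / (n + 1) ≤ Y := div_le_self hY.le (by linarith [Nat.cast_nonneg (α := ℝ) n])
      exact Filter.Eventually.of_forall fun x => hb x _ (by linarith) (by linarith)
    · have hae : ∀ᵐ x : ℝ, x ∉ N :=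
        measure_mono_null (fun x hx => not_not.1 hx) (hN.measure_zero _)
      filter_upwards [hae] with x hx
      have h2 : Tendsto (fun n : ℕ => (x : ℂ) + ((-(Y / (n + 1)) : ℝ) : ℂ) * I) atTop
          (𝓝 (x : ℂ)) := by
        have h3 : Tendsto (fun n : ℕ => -(Y / ((n:ℝ) + 1))) atTop (𝓝 0) := by
          have := (tendsto_one_div_add_atTop_nhds_zero_nat (𝕜 := ℝ)).const_mul (-Y)
          rw [mul_zero] at this
          refine this.congr fun n => ?_
          ring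
        have h4 := (Complex.continuous_ofReal.tendsto 0).comp h3
        have h5 := (h4.mul_const I).const_add (x : ℂ)
        simpa using h5
      exact (hc x hx).tendsto.comp h2
  refine tendsto_nhds_unique hlim ?_
  rw [tendsto_congr hline]
  exact tendsto_const_nhds

lemma shift_up {F : ℂ → ℂ} {Y K : ℝ} (hY : 0 < Y) {N : Set ℝ} (hN : N.Finite)
    (hd : ∀ z : ℂ, 0 < z.im → z.im ≤ Y → DifferentiableAt ℂ F z)
    (hc : ∀ x : ℝ, x ∉ N → ContinuousAt F (x : ℂ))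
    (hb : ∀ x y : ℝ, 0 < y → y ≤ Y → ‖F ((x : ℂ) + (y : ℂ) * I)‖ ≤ K * (1 + x ^ 2)⁻¹) :
    ∫ x : ℝ, F (x : ℂ) = ∫ x : ℝ, F ((x : ℂ) + ((Y : ℝ) : ℂ) * I) := by
  have h := shift_down (F := fun z => F (-z)) (K := K) hY (N := (fun x => -x) '' N)
    (hN.image _) ?_ ?_ ?_
  · have e1 : ∫ x : ℝ, F (-(x : ℂ)) = ∫ x : ℝ, F (x : ℂ) := by
      have := integral_neg_eq_self (fun x : ℝ => F (x : ℂ)) volume
      rw [← this]
      congr 1
      funext x
      push_cast
      rfl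
    have e2 : ∫ x : ℝ, F (-((x : ℂ) + ((-Y : ℝ) : ℂ) * I)) =
        ∫ x : ℝ, F ((x : ℂ) + ((Y : ℝ) : ℂ) * I) := by
      have := integral_neg_eq_self (fun x : ℝ => F ((x : ℂ) + ((Y : ℝ) : ℂ) * I)) volume
      rw [← this]
      congr 1
      funext x
      congr 1
      push_cast
      ring
    rw [← e1, ← e2]
    exact h
  · intro z hz1 hz2
    have h1 : DifferentiableAt ℂ F (-z) := hd (-z) (by simpa using hz2) (by
      simp only [Complex.neg_im]
      linarith)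
    exact DifferentiableAt.comp (f := fun z : ℂ => -z) z h1 (by fun_prop)
  · intro x hx
    have h1 : ContinuousAt F (-(x : ℂ)) := by
      have h2 := hc (-x) (fun h => hx ⟨-x, h, by ring⟩)
      rw [Complex.ofReal_neg] at h2
      exact h2
    exact ContinuousAt.comp (f := fun z : ℂ => -z) h1 (by fun_prop)
  · intro x y hy1 hy2
    have e : -((x : ℂ) + (y : ℂ) * I) = (((-x : ℝ) : ℂ)) + ((-y : ℝ) : ℂ) * I := by
      push_cast; ring
    rw [e]
    have h1 := hb (-x) (-y) (by linarith) (by linarith)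
    rw [neg_sq] at h1
    exact h1

/-! ### The shift of one coordinate -/

/-- The complex shift of one coordinate. -/
noncomputable def gz (γ : Ix k → ℝ) (i : Ix k) (z : ℂ) : Ix k → ℂ :=
  fun j => (γ j : ℂ) + z * (((Pi.single i (sg i) : Ix k → ℝ) j : ℝ) : ℂ)

lemma gz_self (γ : Ix k → ℝ) (i : Ix k) (z : ℂ) : gz γ i z i = γ i + z * (sg i : ℂ) := by
  simp [gz]

lemma gz_of_ne (γ : Ix k → ℝ) {i j : Ix k} (h : j ≠ i) (z : ℂ) : gz γ i z j = γ j := by
  simp [gz, Pi.single_eq_of_ne h]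

lemma gz_ofReal (γ : Ix k → ℝ) (i : Ix k) (x : ℝ) : gz γ i (x : ℂ) =
    fun j => ((((γ + x • (Pi.single i (sg i) : Ix k → ℝ)) j : ℝ)) : ℂ) := by
  funext j
  simp only [gz, Pi.add_apply, Pi.smul_apply, smul_eq_mul]
  push_cast
  rfl

lemma abs_gz_im (γ : Ix k → ℝ) (i j : Ix k) (z : ℂ) : |(gz γ i z j).im| ≤ |z.im| := by
  by_cases h : j = i
  · subst h
    rw [gz_self]
    have : ((γ j : ℂ) + z * (sg j : ℂ)).im = z.im * sg j := by simp
    rw [this, abs_mul, abs_sg, mul_one]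
  · rw [gz_of_ne γ h, Complex.ofReal_im, abs_zero]
    exact abs_nonneg _

lemma abs_gz_re (γ : Ix k → ℝ) (i j : Ix k) (z : ℂ) : |(gz γ i z j).re| ≤ ‖γ‖ + |z.re| := by
  have hj : |γ j| ≤ ‖γ‖ := norm_le_pi_norm γ j
  by_cases h : j = i
  · subst h
    rw [gz_self]
    have : ((γ j : ℂ) + z * (sg j : ℂ)).re = γ j + z.re * sg j := by simp
    rw [this]
    refine (abs_add_le _ _).trans ?_
    rw [abs_mul, abs_sg, mul_one]
    linarith
  · rw [gz_of_ne γ h, Complex.ofReal_re]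
    linarith [abs_nonneg z.re]

lemma sg_gz_im (γ : Ix k → ℝ) (i j : Ix k) (z : ℂ) :
    sg j * (gz γ i z j).im = if j = i then z.im else 0 := by
  by_cases h : j = i
  · subst h
    rw [gz_self, if_pos rfl]
    have : ((γ j : ℂ) + z * (sg j : ℂ)).im = z.im * sg j := by simp
    rw [this]
    have := sg_mul_self j
    linear_combination z.im * this
  · rw [gz_of_ne γ h, Complex.ofReal_im, if_neg h, mul_zero]

lemma injective_gz {γ : Ix k → ℝ} (hγ : Function.Injective γ) {i : Ix k} {z : ℂ}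
    (hz : ∀ j, (γ j : ℂ) ≠ γ i + z * (sg i : ℂ)) : Function.Injective (gz γ i z) := by
  intro a b hab
  by_cases ha : a = i
  · by_cases hb : b = i
    · rw [ha, hb]
    · exfalso
      subst ha
      rw [gz_self, gz_of_ne γ hb] at hab
      exact hz b hab.symm
  · by_cases hb : b = i
    · exfalso
      subst hb
      rw [gz_self, gz_of_ne γ ha] at hab
      exact hz a hab
    · rw [gz_of_ne γ ha, gz_of_ne γ hb] at hab
      exact hγ (by exact_mod_cast hab)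

lemma injective_gz_of_im {γ : Ix k → ℝ} (hγ : Function.Injective γ) {i : Ix k} {z : ℂ}
    (hz : z.im ≠ 0) : Function.Injective (gz γ i z) := by
  refine injective_gz hγ fun j h => hz ?_
  have h1 := congrArg Complex.im h
  have h2 : ((γ i : ℂ) + z * (sg i : ℂ)).im = z.im * sg i := by simp
  rw [h2, Complex.ofReal_im] at h1
  have h3 : (sg i : ℝ) ≠ 0 := by
    intro h4
    have := abs_sg i
    rw [h4, abs_zero] at this
    exact zero_ne_one this
  rcases mul_eq_zero.1 h1.symm with h4 | h4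
  · exact h4
  · exact absurd h4 h3

/-- The points where two shifts collide. -/
def collq (γ : Ix k → ℝ) (i : Ix k) : Set ℝ := Set.range fun j => sg i * (γ j - γ i)

lemma finite_collq (γ : Ix k → ℝ) (i : Ix k) : (collq γ i).Finite := Set.finite_range _

lemma injective_gz_of_notMem {γ : Ix k → ℝ} (hγ : Function.Injective γ) {i : Ix k} {x : ℝ}
    (hx : x ∉ collq γ i) : Function.Injective (gz γ i (x : ℂ)) := by
  refine injective_gz hγ fun j h => hx ⟨j, ?_⟩
  have h1 : γ j = γ i + x * sg i := by exact_mod_cast h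
  simp only
  rw [h1]
  have := sg_mul_self i
  linear_combination x * this

lemma gz_tube (γ : Ix k → ℝ) (i : Ix k) {z : ℂ} (hz : |z.im| < 1 / 8) :
    gz γ i z ∈ tube (Ix k) := fun j => (abs_gz_im γ i j z).trans_lt hz

lemma continuousAt_Qsum_gz {γ : Ix k → ℝ} {i : Ix k} {t : ℝ} {z : ℂ} (hz : |z.im| < 1 / 8)
    (hinj : Function.Injective (gz γ i z)) :
    ContinuousAt (fun p : ℂ × ℝ => Qsum (gz γ i p.1) p.2) (z, t) := by
  have h1 := continuousAt_Qsum (q := ((t : ℂ), gz γ i z)) ⟨im_ofReal_lt t, gz_tube γ i hz⟩ hinj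
  have h2 : Continuous fun p : ℂ × ℝ => (((p.2 : ℂ), gz γ i p.1) : ℂ × (Ix k → ℂ)) := by
    refine (Complex.continuous_ofReal.comp continuous_snd).prodMk (continuous_pi fun j => ?_)
    simp only [gz]
    fun_prop
  exact ContinuousAt.comp (f := fun p : ℂ × ℝ => (((p.2 : ℂ), gz γ i p.1) : ℂ × (Ix k → ℂ)))
    (x := (z, t)) h1 h2.continuousAt

lemma differentiableAt_Qsum_gz {γ : Ix k → ℝ} (hγ : Function.Injective γ) {i : Ix k} {t : ℝ}
    {z : ℂ} (hz0 : z.im ≠ 0) (hz1 : |z.im| < 1 / 8) :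
    DifferentiableAt ℂ (fun z => Qsum (gz γ i z) t) z := by
  have hU : IsOpen {z : ℂ | z.im ≠ 0 ∧ |z.im| < 1 / 8} :=
    (isOpen_ne_fun Complex.continuous_im continuous_const).inter (isOpen_strip _)
  have h := differentiableOn_Qsum_comp hU (im_ofReal_lt t) (g := fun z => gz γ i z) (fun j => by
    simp only [gz]
    fun_prop) (fun z hz => gz_tube γ i hz.2) (fun z hz => injective_gz_of_im hγ hz.1)
  exact (h z ⟨hz0, hz1⟩).differentiableAt (hU.mem_nhds ⟨hz0, hz1⟩)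

lemma sum_u (i : Ix k) (Yp ρ : ℝ) :
    ∑ j : Ix k, ((if j = i then Yp else 0) + ρ) = Yp + 2 * k * ρ := by
  rw [Finset.sum_add_distrib, Finset.sum_ite_eq', if_pos (Finset.mem_univ i), Finset.sum_const,
    Finset.card_univ, Fintype.card_sum, Fintype.card_fin, nsmul_eq_mul]
  push_cast
  ring

/-- Bound for the main term at the complex shift of one coordinate. -/
lemma exists_Qsum_gz_le (k : ℕ) {ρ : ℝ} (hρ : 0 < ρ) (hρ2 : ρ ≤ 1 / 16) :
    ∃ C : ℝ, 0 ≤ C ∧ ∀ (γ : Ix k → ℝ) (i : Ix k) (z : ℂ), Function.Injective (gz γ i z) →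
    |z.im| ≤ 1 / 16 → ∀ Yp : ℝ, 0 ≤ Yp → Yp ≤ 1 / 16 → z.im ≤ Yp → ∀ t : ℝ,
    ‖Qsum (gz γ i z) t‖ ≤
      C * (1 + ‖γ‖) ^ NK k * (1 + |z.re|) ^ NK k * (1 + |t|) ^ (Yp + 2 * k * ρ) := by
  obtain ⟨C, hC0, hC⟩ := exists_norm_Qsum_rpow k hρ (by linarith)
  refine ⟨C, hC0, fun γ i z hinj hz Yp hYp0 hYp1 hzY t => ?_⟩
  have hz0 := abs_nonneg z.re
  have hg0 := norm_nonneg γ
  have h := hC (gz γ i z) hinj (fun j => by linarith [abs_gz_im γ i j z])
    (fun j => if j = i then Yp else 0) (fun j => by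
      split_ifs
      · exact hYp0
      · exact le_rfl) (fun j => by split_ifs <;> linarith)
    (fun j => by
      rw [sg_gz_im]
      split_ifs
      · exact hzY
      · exact le_rfl)
    (‖γ‖ + |z.re|) (by positivity) (fun j => abs_gz_re γ i j z) t
  rw [sum_u] at h
  refine h.trans ?_
  have h1 : (1 + (‖γ‖ + |z.re|)) ^ NK k ≤ (1 + ‖γ‖) ^ NK k * (1 + |z.re|) ^ NK k := by
    rw [← mul_pow]
    gcongr
    have := mul_nonneg hg0 hz0
    nlinarith
  calc C * (1 + (‖γ‖ + |z.re|)) ^ NK k * (1 + |t|) ^ (Yp + 2 * k * ρ)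
      ≤ C * ((1 + ‖γ‖) ^ NK k * (1 + |z.re|) ^ NK k) * (1 + |t|) ^ (Yp + 2 * k * ρ) := by gcongr
    _ = _ := by ring

lemma one_le_log {T : ℝ} (hT : 3 ≤ T) : 1 ≤ Real.log T := by
  rw [Real.le_log_iff_exp_le (by linarith)]
  have := Real.exp_one_lt_d9
  linarith

lemma rpow_t_le {κ T t a : ℝ} (hκ : 0 ≤ κ) (hT : 3 ≤ T) (ht0 : 0 ≤ t) (ht : t ≤ κ * T)
    (ha0 : 0 ≤ a) (ha1 : a ≤ 1) : (1 + |t|) ^ a ≤ (1 + κ) * T ^ a := by
  rw [abs_of_nonneg ht0]
  have h1 : 1 + t ≤ (1 + κ) * T := by nlinarith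
  calc (1 + t) ^ a ≤ ((1 + κ) * T) ^ a := Real.rpow_le_rpow (by linarith) h1 ha0
    _ = (1 + κ) ^ a * T ^ a := Real.mul_rpow (by linarith) (by linarith)
    _ ≤ (1 + κ) ^ (1:ℝ) * T ^ a := by
        gcongr
        linarith
    _ = _ := by rw [Real.rpow_one]

lemma exp_log_mul {T : ℝ} (hT : 0 < T) (a : ℝ) : Real.exp (a * Real.log T) = T ^ a := by
  rw [Real.rpow_def_of_pos hT, mul_comm]

/-- A product of a band limited weight with the main term. -/
lemma weight_bound {b : ℝ → ℂ} {N : ℕ} {C₁ C₂ E g x Λ : ℝ} {u : ℂ} {q : ℂ} (hΛ : 1 ≤ Λ)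
    (hx : u.re = x) (h1 : (1 + ‖u‖) ^ (N + 2) * ‖pwf b u‖ ≤ C₁) (hC₂ : 0 ≤ C₂ * g * E)
    (h2 : ‖q‖ ≤ C₂ * g * (1 + |x / Λ|) ^ N * E) :
    ‖pwf b u * q‖ ≤ C₁ * (C₂ * g * E) * (1 + x ^ 2)⁻¹ := by
  have hx0 := abs_nonneg x
  have hu : |x| ≤ ‖u‖ := by rw [← hx]; exact Complex.abs_re_le_norm u
  have hxΛ : |x / Λ| ≤ |x| := by
    rw [abs_div, abs_of_pos (by linarith : (0:ℝ) < Λ)]
    exact div_le_self hx0 hΛ
  have hC₁ : 0 ≤ C₁ := le_trans (by positivity) h1
  have h3 : ‖q‖ ≤ (C₂ * g * E) * (1 + |x|) ^ N := by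
    refine h2.trans ?_
    calc C₂ * g * (1 + |x / Λ|) ^ N * E = (C₂ * g * E) * (1 + |x / Λ|) ^ N := by ring
      _ ≤ (C₂ * g * E) * (1 + |x|) ^ N := by gcongr
  have h4 : (1 + |x|) ^ (N + 2) * ‖pwf b u‖ ≤ C₁ := by
    refine le_trans ?_ h1
    gcongr
  rw [norm_mul]
  have h5 : (1 + |x|) ^ N * ‖pwf b u‖ ≤ C₁ * (1 + x ^ 2)⁻¹ := by
    have h6 : (1 + |x|) ^ N * ‖pwf b u‖ = ((1 + |x|) ^ (N + 2) * ‖pwf b u‖) *
        ((1 + |x|) ^ 2)⁻¹ := by
      rw [pow_add]
      field_simp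
    rw [h6]
    exact mul_le_mul h4 (inv_sq_le x) (by positivity) hC₁
  calc ‖pwf b u‖ * ‖q‖ ≤ ‖pwf b u‖ * ((C₂ * g * E) * (1 + |x|) ^ N) :=
        mul_le_mul_of_nonneg_left h3 (norm_nonneg _)
    _ = (C₂ * g * E) * ((1 + |x|) ^ N * ‖pwf b u‖) := by ring
    _ ≤ (C₂ * g * E) * (C₁ * (1 + x ^ 2)⁻¹) := mul_le_mul_of_nonneg_left h5 hC₂
    _ = _ := by ring

end QBX

open QBX in
theorem Qsum_box (i : Ix k) {b : ℝ → ℂ} (hb : Bp b) {δ : ℝ} (hδ : 0 < δ)
    (hbs : (∀ ξ, b ξ ≠ 0 → ξ ≤ -δ) ∨ ∀ ξ, b ξ ≠ 0 → 1 + δ ≤ ξ) (κ : ℝ) : ∃ c : ℝ, 0 < c ∧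
    ∃ C : ℝ, 0 ≤ C ∧ ∃ N : ℕ, ∀ γ : Ix k → ℝ, Function.Injective γ →
      ∀ T t : ℝ, 3 ≤ T → 0 ≤ t → t ≤ κ * T →
      ‖∫ y : ℝ, pwf b y * Qsum (gz γ i ((y / Real.log T : ℝ) : ℂ)) t‖ ≤
        C * (1 + ‖γ‖) ^ N * T ^ (-c) := by
  set κ' : ℝ := |κ| with hκ'
  have hκ0 : 0 ≤ κ' := abs_nonneg κ
  set ρ : ℝ := min (1 / 16) (min δ 1 / (64 * (k + 1))) with hρ
  have hρ0 : 0 < ρ := by positivity
  have hρ1 : ρ ≤ 1 / 16 := min_le_left _ _
  have hkρ : 2 * k * ρ ≤ min δ 1 / 32 := by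
    have h1 : ρ ≤ min δ 1 / (64 * (k + 1)) := min_le_right _ _
    rw [le_div_iff₀ (by positivity)] at h1
    have h2 : 0 ≤ ρ := hρ0.le
    nlinarith
  have hkρ0 : 0 ≤ 2 * k * ρ := by positivity
  have hkρ1 : 2 * k * ρ ≤ δ / 32 := hkρ.trans (by gcongr; exact min_le_left _ _)
  have hkρ2 : 2 * k * ρ ≤ 1 / 32 := hkρ.trans (by gcongr; exact min_le_right _ _)
  obtain ⟨C₂, hC₂0, hC₂⟩ := exists_Qsum_gz_le k hρ0 hρ1
  rcases hbs with hbs | hbs
  · -- frequencies below zero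
    obtain ⟨C₁, hC₁0, hC₁⟩ := pwf_bound_neg hb hbs (NK k + 2)
    refine ⟨δ / 32, by positivity, C₁ * (C₂ * (1 + κ')) * 4, by positivity, NK k,
      fun γ hγ T t hT ht0 ht => ?_⟩
    have hT0 : 0 < T := by linarith
    have hΛ := QBX.one_le_log hT
    set Λ : ℝ := Real.log T with hΛd
    have hΛ0 : 0 < Λ := by linarith
    have htκ : t ≤ κ' * T := ht.trans (by gcongr; exact le_abs_self κ)
    set E : ℝ := (1 + |t|) ^ (0 + 2 * k * ρ) with hE
    have hE0 : 0 ≤ E := by positivity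
    have hE1 : E ≤ (1 + κ') * T ^ (2 * k * ρ) := by
      rw [hE, zero_add]
      exact rpow_t_le hκ0 hT ht0 htκ hkρ0 (by linarith)
    set F : ℂ → ℂ := fun u => pwf b u * Qsum (gz γ i (u / Λ)) t with hF
    set Y : ℝ := Λ / 16 with hYd
    have hY : 0 < Y := by positivity
    have hdiv : ∀ z : ℂ, (z / (Λ : ℂ)).im = z.im / Λ := fun z => Complex.div_ofReal_im _ _
    have hre : ∀ x y : ℝ, (((x : ℂ) + (y : ℂ) * I) / (Λ : ℂ)).re = x / Λ := by
      intro x y
      rw [Complex.div_ofReal_re, re_line]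
    have hyΛ : ∀ y : ℝ, -Y ≤ y → -(1 / 16) ≤ y / Λ := by
      intro y hy1
      rw [le_div_iff₀ hΛ0]
      rw [hYd] at hy1
      linarith
    -- bounds on the lines
    have hbd : ∀ x y : ℝ, -Y ≤ y → y < 0 → ‖F ((x : ℂ) + (y : ℂ) * I)‖ ≤
        (C₁ * Real.exp (-δ * (-y))) * (C₂ * (1 + ‖γ‖) ^ NK k * E) * (1 + x ^ 2)⁻¹ := by
      intro x y hy1 hy2
      have hyΛ1 := hyΛ y hy1
      have hyΛ' : y / Λ < 0 := div_neg_of_neg_of_pos hy2 hΛ0
      have h1 := hC₁ ((x : ℂ) + (y : ℂ) * I) (by rw [im_line]; exact hy2.le)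
      rw [im_line] at h1
      have h2 := hC₂ γ i (((x : ℂ) + (y : ℂ) * I) / (Λ : ℂ))
        (injective_gz_of_im hγ (by rw [hdiv, im_line]; exact hyΛ'.ne))
        (by rw [hdiv, im_line, abs_le]; constructor <;> linarith) 0 le_rfl (by norm_num)
        (by rw [hdiv, im_line]; exact hyΛ'.le) t
      rw [hre] at h2
      exact weight_bound hΛ (re_line x y) h1 (by positivity) h2
    have hexp1 : ∀ y : ℝ, y < 0 → Real.exp (-δ * (-y)) ≤ 1 := by
      intro y hy
      rw [Real.exp_le_one_iff]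
      nlinarith
    have hshift := shift_down (F := F) (K := C₁ * (C₂ * (1 + ‖γ‖) ^ NK k * E)) hY
      (N := (fun x => x * Λ) '' collq γ i) ((finite_collq γ i).image _) ?_ ?_ ?_
    · have e1 : ∫ y : ℝ, pwf b y * Qsum (gz γ i ((y / Λ : ℝ) : ℂ)) t = ∫ x : ℝ, F (x : ℂ) := by
        congr 1
        funext y
        simp only [hF]
        push_cast
        rfl
      rw [e1, hshift]
      have h1 := norm_integral_le_of_norm_le (integrable_inv_one_add_sq.const_mul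
        ((C₁ * Real.exp (-δ * (-(-Y)))) * (C₂ * (1 + ‖γ‖) ^ NK k * E)))
        (Filter.Eventually.of_forall fun x => hbd x (-Y) le_rfl (by linarith))
      rw [integral_const_mul, integral_univ_inv_one_add_sq] at h1
      refine h1.trans ?_
      have h2 : Real.exp (-δ * (-(-Y))) = T ^ (-(δ / 16)) := by
        rw [← exp_log_mul hT0, hYd, ← hΛd]
        congr 1
        ring
      have h3 : T ^ (-(δ / 16)) * T ^ (2 * k * ρ) ≤ T ^ (-(δ / 32)) := by
        rw [← Real.rpow_add hT0]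
        apply Real.rpow_le_rpow_of_exponent_le (by linarith)
        linarith
      rw [h2]
      calc (C₁ * T ^ (-(δ / 16))) * (C₂ * (1 + ‖γ‖) ^ NK k * E) * Real.pi
          ≤ (C₁ * T ^ (-(δ / 16))) * (C₂ * (1 + ‖γ‖) ^ NK k * ((1 + κ') * T ^ (2 * k * ρ))) * 4 := by
            gcongr
            exact Real.pi_le_four
        _ = C₁ * (C₂ * (1 + κ')) * 4 * (1 + ‖γ‖) ^ NK k * (T ^ (-(δ / 16)) * T ^ (2 * k * ρ)) := by
            ring
        _ ≤ _ := by gcongr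
    · intro z hz1 hz2
      have h1 := hyΛ z.im hz1
      have h2 : z.im / Λ < 0 := div_neg_of_neg_of_pos hz2 hΛ0
      refine (pwf_differentiable hb z).mul ?_
      have h3 := differentiableAt_Qsum_gz hγ (i := i) (t := t) (z := z / Λ)
        (by rw [hdiv]; exact h2.ne) (by rw [hdiv, abs_lt]; constructor <;> linarith)
      exact DifferentiableAt.comp (f := fun z : ℂ => z / (Λ : ℂ)) z h3 (by fun_prop)
    · intro x hx
      refine (pwf_differentiable hb x).continuousAt.mul ?_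
      have hx' : x / Λ ∉ collq γ i := fun h => hx ⟨x / Λ, h, by field_simp⟩
      have hinj := injective_gz_of_notMem hγ hx'
      rw [Complex.ofReal_div] at hinj
      have h3 := continuousAt_Qsum_gz (t := t) (z := (x : ℂ) / Λ)
        (by rw [hdiv, Complex.ofReal_im]; norm_num) hinj
      exact ContinuousAt.comp (f := fun z : ℂ => (z / (Λ : ℂ), t)) h3 (by fun_prop)
    · intro x y hy1 hy2
      refine (hbd x y hy1 hy2).trans ?_
      have h1 := hexp1 y hy2
      have h2 : C₁ * Real.exp (-δ * (-y)) ≤ C₁ := mul_le_of_le_one_right hC₁0 h1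
      gcongr
  · -- frequencies above one
    obtain ⟨C₁, hC₁0, hC₁⟩ := pwf_bound_pos hb hbs (NK k + 2)
    refine ⟨δ / 32, by positivity, C₁ * (C₂ * (1 + κ')) * 4, by positivity, NK k,
      fun γ hγ T t hT ht0 ht => ?_⟩
    have hT0 : 0 < T := by linarith
    have hΛ := QBX.one_le_log hT
    set Λ : ℝ := Real.log T with hΛd
    have hΛ0 : 0 < Λ := by linarith
    have htκ : t ≤ κ' * T := ht.trans (by gcongr; exact le_abs_self κ)
    set E : ℝ := (1 + |t|) ^ (1 / 16 + 2 * k * ρ) with hE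
    have hE0 : 0 ≤ E := by positivity
    have hE1 : E ≤ (1 + κ') * T ^ (1 / 16 + 2 * k * ρ) := by
      rw [hE]
      exact rpow_t_le hκ0 hT ht0 htκ (by linarith) (by linarith)
    set F : ℂ → ℂ := fun u => pwf b u * Qsum (gz γ i (u / Λ)) t with hF
    set Y : ℝ := Λ / 16 with hYd
    have hY : 0 < Y := by positivity
    have hdiv : ∀ z : ℂ, (z / (Λ : ℂ)).im = z.im / Λ := fun z => Complex.div_ofReal_im _ _
    have hre : ∀ x y : ℝ, (((x : ℂ) + (y : ℂ) * I) / (Λ : ℂ)).re = x / Λ := by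
      intro x y
      rw [Complex.div_ofReal_re, re_line]
    have hyΛ : ∀ y : ℝ, y ≤ Y → y / Λ ≤ 1 / 16 := by
      intro y hy1
      rw [div_le_iff₀ hΛ0]
      rw [hYd] at hy1
      linarith
    -- bounds on the lines
    have hbd : ∀ x y : ℝ, 0 < y → y ≤ Y → ‖F ((x : ℂ) + (y : ℂ) * I)‖ ≤
        (C₁ * Real.exp (-((1 + δ) * y))) * (C₂ * (1 + ‖γ‖) ^ NK k * E) * (1 + x ^ 2)⁻¹ := by
      intro x y hy1 hy2
      have hyΛ1 := hyΛ y hy2
      have hyΛ' : 0 < y / Λ := div_pos hy1 hΛ0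
      have h1 := hC₁ ((x : ℂ) + (y : ℂ) * I) (by rw [im_line]; exact hy1.le)
      rw [im_line] at h1
      have h2 := hC₂ γ i (((x : ℂ) + (y : ℂ) * I) / (Λ : ℂ))
        (injective_gz_of_im hγ (by rw [hdiv, im_line]; exact hyΛ'.ne'))
        (by rw [hdiv, im_line, abs_le]; constructor <;> linarith) (1 / 16) (by norm_num) le_rfl
        (by rw [hdiv, im_line]; exact hyΛ1) t
      rw [hre] at h2
      exact weight_bound hΛ (re_line x y) h1 (by positivity) h2
    have hexp1 : ∀ y : ℝ, 0 < y → Real.exp (-((1 + δ) * y)) ≤ 1 := by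
      intro y hy
      rw [Real.exp_le_one_iff]
      nlinarith
    have hshift := shift_up (F := F) (K := C₁ * (C₂ * (1 + ‖γ‖) ^ NK k * E)) hY
      (N := (fun x => x * Λ) '' collq γ i) ((finite_collq γ i).image _) ?_ ?_ ?_
    · have e1 : ∫ y : ℝ, pwf b y * Qsum (gz γ i ((y / Λ : ℝ) : ℂ)) t = ∫ x : ℝ, F (x : ℂ) := by
        congr 1
        funext y
        simp only [hF]
        push_cast
        rfl
      rw [e1, hshift]
      have h1 := norm_integral_le_of_norm_le (integrable_inv_one_add_sq.const_mul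
        ((C₁ * Real.exp (-((1 + δ) * Y))) * (C₂ * (1 + ‖γ‖) ^ NK k * E)))
        (Filter.Eventually.of_forall fun x => hbd x Y hY le_rfl)
      rw [integral_const_mul, integral_univ_inv_one_add_sq] at h1
      refine h1.trans ?_
      have h2 : Real.exp (-((1 + δ) * Y)) = T ^ (-((1 + δ) / 16)) := by
        rw [← exp_log_mul hT0, hYd, ← hΛd]
        congr 1
        ring
      have h3 : T ^ (-((1 + δ) / 16)) * T ^ (1 / 16 + 2 * k * ρ) ≤ T ^ (-(δ / 32)) := by
        rw [← Real.rpow_add hT0]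
        apply Real.rpow_le_rpow_of_exponent_le (by linarith)
        linarith
      rw [h2]
      calc (C₁ * T ^ (-((1 + δ) / 16))) * (C₂ * (1 + ‖γ‖) ^ NK k * E) * Real.pi
          ≤ (C₁ * T ^ (-((1 + δ) / 16))) *
            (C₂ * (1 + ‖γ‖) ^ NK k * ((1 + κ') * T ^ (1 / 16 + 2 * k * ρ))) * 4 := by
            gcongr
            exact Real.pi_le_four
        _ = C₁ * (C₂ * (1 + κ')) * 4 * (1 + ‖γ‖) ^ NK k *
            (T ^ (-((1 + δ) / 16)) * T ^ (1 / 16 + 2 * k * ρ)) := by ring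
        _ ≤ _ := by gcongr
    · intro z hz1 hz2
      have h1 := hyΛ z.im hz2
      have h2 : 0 < z.im / Λ := div_pos hz1 hΛ0
      refine (pwf_differentiable hb z).mul ?_
      have h3 := differentiableAt_Qsum_gz hγ (i := i) (t := t) (z := z / Λ)
        (by rw [hdiv]; exact h2.ne') (by rw [hdiv, abs_lt]; constructor <;> linarith)
      exact DifferentiableAt.comp (f := fun z : ℂ => z / (Λ : ℂ)) z h3 (by fun_prop)
    · intro x hx
      refine (pwf_differentiable hb x).continuousAt.mul ?_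
      have hx' : x / Λ ∉ collq γ i := fun h => hx ⟨x / Λ, h, by field_simp⟩
      have hinj := injective_gz_of_notMem hγ hx'
      rw [Complex.ofReal_div] at hinj
      have h3 := continuousAt_Qsum_gz (t := t) (z := (x : ℂ) / Λ)
        (by rw [hdiv, Complex.ofReal_im]; norm_num) hinj
      exact ContinuousAt.comp (f := fun z : ℂ => (z / (Λ : ℂ), t)) h3 (by fun_prop)
    · intro x y hy1 hy2
      refine (hbd x y hy1 hy2).trans ?_
      have h1 := hexp1 y hy1
      have h2 : C₁ * Real.exp (-((1 + δ) * y)) ≤ C₁ := mul_le_of_le_one_right hC₁0 h1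
      gcongr

end Pool.Agent.H26
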