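import Pool.Agent.H26.SP.FIN

/-!
Windows in which only the shifts `β 1, ..., β (k-1)` move.
-/

set_option autoImplicit false

namespace Pool.Agent.H26

open Complex Finset MeasureTheory Filter Asymptotics Topology
open scoped ContDiff SchwartzMap

/-- The direction in which all the shifts `β l` with `l ≠ 0` move, and no other shift does. -/
def slabDir (n : ℕ) : Ix (n + 1) → ℝ := Sum.elim (fun _ => 0) (fun l => if l = 0 then 0 else 1)

lemma pairing_slabDir {n : ℕ} (θ : Ix (n + 1) → ℝ) (x : ℝ) :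
    pairing θ (x • slabDir n) = -(x * ∑ l : Fin n, θ (Sum.inr l.succ)) := by
  unfold pairing slabDir
  have h1 : ∀ j : Fin (n + 1), θ (Sum.inl j) * (x • (Sum.elim (fun _ => 0)
      (fun l => if l = 0 then 0 else 1) : Ix (n + 1) → ℝ)) (Sum.inl j) = 0 := fun j => by simp
  have h2 : (∑ l : Fin (n + 1), θ (Sum.inr l) * (x • (Sum.elim (fun _ => 0)
      (fun l => if l = 0 then 0 else 1) : Ix (n + 1) → ℝ)) (Sum.inr l)) =
      x * ∑ l : Fin n, θ (Sum.inr l.succ) := by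
    rw [Fin.sum_univ_succ, Finset.mul_sum]
    simp [mul_comm]
  rw [Finset.sum_congr rfl fun j _ => h1 j, h2]
  simp

theorem slab_theorem (n : ℕ) (f : 𝓢(ℝ, ℂ)) {η : ℝ} (hη : 0 < η)
    (hf : ∀ ξ : ℝ, 1 / ((n + 1 : ℕ) : ℝ) - η ≤ |ξ| → ∫ y : ℝ, f y * cexp (-(I * ξ * y)) = 0)
    {φ : ℝ → ℂ} (hφ : TF φ) : ∃ c : ℝ, 0 < c ∧ ∀ B : ℝ, ∃ C : ℝ, ∀ γ : Ix (n + 1) → ℝ, ‖γ‖ ≤ B →
      ∀ T : ℝ, 3 ≤ T →
        ‖∫ y : ℝ, f y * Fp φ (γ + (y / Real.log T) • slabDir n) T‖ ≤ C * T ^ (1 - c) := by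
  set e : (Fin 1 → ℝ) ≃L[ℝ] ℝ := ContinuousLinearEquiv.funUnique (Fin 1) ℝ ℝ with he
  set f' : 𝓢(Fin 1 → ℝ, ℂ) := SchwartzMap.compCLMOfContinuousLinearEquiv ℂ e f with hf'
  have hf'a : ∀ y, f' y = f (y 0) := fun y => rfl
  set L : (Fin 1 → ℝ) →ₗ[ℝ] (Ix (n + 1) → ℝ) := (lin (slabDir n)).comp (LinearMap.proj 0) with hL
  have hLa : ∀ y, L y = (y 0) • slabDir n := fun y => by simp [hL, lin]
  have hint : ∀ g : ℝ → ℂ, ∫ y : Fin 1 → ℝ, g (y 0) = ∫ x : ℝ, g x := by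
    intro g
    exact (volume_preserving_funUnique (Fin 1) ℝ).integral_comp' g
  have hfour : ∀ᶠ θ in 𝓝ˢ (central (n + 1)),
      0 + ∫ y, f' y * cexp (-(I * pairing θ (L y))) = 0 := by
    have hopen : IsOpen {θ : Ix (n + 1) → ℝ |
        1 / ((n + 1 : ℕ) : ℝ) - η < ∑ l : Fin n, θ (Sum.inr l.succ)} :=
      isOpen_lt continuous_const (by fun_prop)
    have hsub : central (n + 1) ⊆ {θ : Ix (n + 1) → ℝ |
        1 / ((n + 1 : ℕ) : ℝ) - η < ∑ l : Fin n, θ (Sum.inr l.succ)} := by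
      intro θ hθ
      have := polytope_slab (GEO2.mem_central_iff.1 hθ).2
      show 1 / ((n + 1 : ℕ) : ℝ) - η < ∑ l : Fin n, θ (Sum.inr l.succ)
      linarith
    filter_upwards [hopen.mem_nhdsSet.2 hsub] with θ hθ
    have hθ' : 1 / ((n + 1 : ℕ) : ℝ) - η < ∑ l : Fin n, θ (Sum.inr l.succ) := hθ
    set s : ℝ := ∑ l : Fin n, θ (Sum.inr l.succ) with hs
    have h1 := hf (-s) (by rw [abs_neg]; exact hθ'.le.trans (le_abs_self s))
    have h2 : (fun y : Fin 1 → ℝ => f' y * cexp (-(I * pairing θ (L y)))) =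
        fun y => (fun x : ℝ => f x * cexp (-(I * ((-s : ℝ) : ℂ) * x))) (y 0) := by
      funext y
      simp only
      rw [hf'a, hLa, pairing_slabDir, ← hs]
      congr 2
      push_cast
      ring
    rw [h2, zero_add]
    exact (hint _).trans h1
  obtain ⟨c, hc0, hc⟩ := central_theorem (n + 1) 1 L f' 0 hfour hφ
  refine ⟨c, hc0, fun B => ?_⟩
  obtain ⟨C, hC⟩ := hc B
  refine ⟨C, fun γ hγ T hT => ?_⟩
  have h := hC γ hγ T hT
  have h2 : (fun y : Fin 1 → ℝ => f' y * Fp φ (γ + (Real.log T)⁻¹ • L y) T) =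
      fun y => (fun x : ℝ => f x * Fp φ (γ + (x / Real.log T) • slabDir n) T) (y 0) := by
    funext y
    simp only
    rw [hf'a, hLa, smul_smul, div_eq_inv_mul]
  rw [h2, zero_mul, zero_add] at h
  rw [← hint (fun x : ℝ => f x * Fp φ (γ + (x / Real.log T) • slabDir n) T)]
  exact h

end Pool.Agent.H26
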